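import Pool.Agent.H79.EQD.Sb2

set_option autoImplicit false

namespace Pool.EQD

open MvPolynomial Pool.Agent.H80 Filter

universe u v w

/-- The numerical inequality for the threshold. -/
theorem num5 (k q n ν m : ℕ) (hk : 2 ≤ k) (hq : 2 ≤ q) (hn1 : 1 ≤ n) (hn : n ≤ k ^ 12)
    (hν1 : 1 ≤ ν) (hν : ν ≤ (2 ^ (q + 1)) ^ 12) (hm : k ^ (q / 2) ≤ m ^ 2) :
    (n : ℝ) ^ ((1 / 1300 : ℝ) * Real.log ν) ≤ m := by
  have hq0 : (2 : ℝ) ≤ q := by exact_mod_cast hq
  have hk0 : (0 : ℝ) < k := by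
    have : 0 < k := by omega
    exact_mod_cast this
  have hn0 : (0 : ℝ) < n := by
    have : 0 < n := by omega
    exact_mod_cast this
  have hν0 : (0 : ℝ) < ν := by
    have : 0 < ν := by omega
    exact_mod_cast this
  have hlk : 0 ≤ Real.log k := Real.log_nonneg (by
    have : 1 ≤ k := by omega
    exact_mod_cast this)
  have hlν : 0 ≤ Real.log ν := Real.log_nonneg (by exact_mod_cast hν1)
  have hl20 : 0 < Real.log 2 := Real.log_pos (by norm_num)
  have hl2 : Real.log 2 ≤ 7 / 10 := by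
    have := Real.log_two_lt_d9
    linarith
  have h1 : Real.log n ≤ 12 * Real.log k := by
    have h2 : (n : ℝ) ≤ (k : ℝ) ^ 12 := by exact_mod_cast hn
    have h3 := Real.log_le_log hn0 h2
    rw [Real.log_pow] at h3
    push_cast at h3
    exact h3
  have h2 : Real.log ν ≤ 18 * q * Real.log 2 := by
    have h3 : (ν : ℝ) ≤ ((2 : ℝ) ^ (q + 1)) ^ 12 := by exact_mod_cast hν
    have h4 := Real.log_le_log hν0 h3
    rw [Real.log_pow, Real.log_pow] at h4
    push_cast at h4
    have h5 : 12 * (((q : ℝ) + 1) * Real.log 2) ≤ 18 * q * Real.log 2 := by nlinarith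
    linarith
  have hm0 : 0 < m := by
    by_contra h0
    have h3 : m = 0 := by omega
    have h4 : 0 < k ^ (q / 2) := Nat.pow_pos (by omega)
    rw [h3] at hm
    simp at hm
    omega
  have hm0' : (0 : ℝ) < m := by exact_mod_cast hm0
  have h3 : (q : ℝ) / 4 * Real.log k ≤ 2 * Real.log m := by
    have h4 : ((k : ℝ)) ^ (q / 2) ≤ (m : ℝ) ^ 2 := by exact_mod_cast hm
    have h5 := Real.log_le_log (by positivity) h4
    rw [Real.log_pow, Real.log_pow] at h5
    push_cast at h5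
    have h6 : (q : ℝ) / 4 ≤ ((q / 2 : ℕ) : ℝ) := by
      have h7 : q ≤ 4 * (q / 2) := by omega
      have h8 : (q : ℝ) ≤ 4 * ((q / 2 : ℕ) : ℝ) := by exact_mod_cast h7
      linarith
    have h7 : (q : ℝ) / 4 * Real.log k ≤ ((q / 2 : ℕ) : ℝ) * Real.log k :=
      mul_le_mul_of_nonneg_right h6 hlk
    linarith
  rw [Real.rpow_def_of_pos hn0, ← Real.le_log_iff_exp_le hm0']
  have h4 : Real.log n * (1 / 1300 * Real.log ν) ≤
      (12 * Real.log k) * (1 / 1300 * (18 * q * Real.log 2)) := by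
    apply mul_le_mul h1 _ (by positivity) (by positivity)
    linarith
  have h5 : (12 * Real.log k) * (1 / 1300 * (18 * q * Real.log 2)) ≤
      (12 * Real.log k) * (1 / 1300 * (18 * q * (7 / 10))) := by
    apply mul_le_mul_of_nonneg_left _ (by positivity)
    apply mul_le_mul_of_nonneg_left _ (by norm_num)
    apply mul_le_mul_of_nonneg_left hl2 (by positivity)
  have h6 : 0 ≤ (q : ℝ) * Real.log k := by positivity
  nlinarith

/-- Permutations of slightly superpolynomial order. -/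
theorem thr (hD : DLBStmt.{u}) (hV : INVStmt.{u}) (hC : SYCStmt.{u}) (hA2 : AD2Stmt.{u})
    (hPR : PR2Stmt.{u}) (hSP : SPRStmt.{u}) (hPRI : PRIStmt) (hCYC : CYCStmt) :
    ∃ c : ℝ, 0 < c ∧ ∀ (K : Type u) [Field K] (g : ℕ → ℕ), Tendsto g atTop atTop →
      ∀ᶠ n : ℕ in atTop, ∃ π : Equiv.Perm (Fin (n + 1)), π 0 = 0 ∧ (orderOf π : K) ≠ 0 ∧
        orderOf π ≤ n ^ g n ∧
        ∀ (m : ℕ) (M : Matrix (Fin m) (Fin m) (MvPolynomial (TVar (Fin (n + 1))) K)),
          DetRep M (tsum K (Fin (n + 1)) (n + 1) 0) → FixedBySym (π.permMatrix K) M →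
          (n : ℝ) ^ (c * Real.log (min (g n) n : ℕ)) ≤ m := by
  classical
  refine ⟨1 / 1300, by norm_num, ?_⟩
  intro K _ g hg
  obtain ⟨n₀, hn₀⟩ := hPRI
  filter_upwards [hg.eventually_ge_atTop 4, eventually_ge_atTop n₀,
    eventually_ge_atTop ((16 + ringChar K) ^ 6)] with n hgn hn hnc
  -- `k`
  obtain ⟨k, hkn, hnk⟩ : ∃ k, k ^ 6 ≤ n ∧ n < (k + 1) ^ 6 := by
    have h1 : ∃ k, n < (k + 1) ^ 6 := ⟨n, by
      calc n < n + 1 := Nat.lt_succ_self n
        _ = (n + 1) ^ 1 := (pow_one _).symm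
        _ ≤ (n + 1) ^ 6 := Nat.pow_le_pow_right (by omega) (by norm_num)⟩
    refine ⟨Nat.find h1, ?_, Nat.find_spec h1⟩
    by_contra hcon
    rcases Nat.eq_zero_or_pos (Nat.find h1) with h2 | h2
    · rw [h2] at hcon
      simp at hcon
    · obtain ⟨j, hj⟩ : ∃ j, Nat.find h1 = j + 1 := ⟨Nat.find h1 - 1, by omega⟩
      rw [hj] at hcon
      exact Nat.find_min h1 (m := j) (by omega) (by omega)
  have hk16 : 16 + ringChar K ≤ k := by
    by_contra hcon
    have h1 : k + 1 ≤ 16 + ringChar K := by omega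
    have h2 : (k + 1) ^ 6 ≤ (16 + ringChar K) ^ 6 := Nat.pow_le_pow_left h1 6
    omega
  set s := Nat.sqrt k with hs
  have hs4 : 4 ≤ s := by
    rw [hs, Nat.le_sqrt]
    omega
  have hsk : s * s ≤ k := Nat.sqrt_le k
  have hks : k < (s + 1) * (s + 1) := Nat.lt_succ_sqrt k
  set μ := min (g n) s with hμ
  have hμ4 : 4 ≤ μ := le_min hgn hs4
  set q := Nat.log 2 μ with hq
  have hq2 : 2 ≤ q := by
    rw [hq]
    exact (Nat.le_log_iff_pow_le (by norm_num) (by omega)).2 (by simpa using hμ4)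
  have hqμ : 2 ^ q ≤ μ := Nat.pow_log_le_self 2 (by omega)
  have hμq : μ < 2 ^ (q + 1) := Nat.lt_pow_succ_log_self (by norm_num) μ
  obtain ⟨h, hh⟩ : ∃ h, q = h + 1 := ⟨q - 1, by omega⟩
  have hnodes := card_nodes h
  have hedges := card_edges_lt h
  rw [← hh] at hnodes
  have hμs : μ ≤ s := min_le_right _ _
  have hμg : μ ≤ g n := min_le_left _ _
  have hss : s ≤ s * s := Nat.le_mul_self s
  obtain ⟨M, hM⟩ : ∃ M, M = (edges h).card := ⟨_, rfl⟩
  have hMk : M ≤ k := by omega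
  have hMg : M ≤ g n := by omega
  -- the primes
  obtain ⟨p, hpi, hp⟩ := hn₀ n k hn hkn
  obtain ⟨p', hp'⟩ : ∃ p' : Fin M → ℕ, p' = fun c => p (Fin.castLE hMk c) := ⟨_, rfl⟩
  have hp'1 : ∀ c, (p' c).Prime ∧ 4 * k < p' c := fun c => by
    rw [hp']
    exact ⟨(hp _).1, (hp _).2.1⟩
  have hp'2 : ∀ c, p' c * k ≤ n := fun c => by
    rw [hp']
    exact (hp _).2.2
  have hp'i : Function.Injective p' := by
    intro c c' hcc
    rw [hp'] at hcc
    exact Fin.castLE_injective hMk (hpi hcc)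
  have hsum : ∑ c, p' c ≤ n := by
    have hk0 : 0 < k := by omega
    have h1 : (∑ c, p' c) * k ≤ n * k := by
      rw [Finset.sum_mul]
      calc ∑ c, p' c * k ≤ ∑ _c : Fin M, n := Finset.sum_le_sum fun c _ => hp'2 c
        _ = M * n := by rw [Finset.sum_const, Finset.card_univ, Fintype.card_fin, smul_eq_mul]
        _ ≤ n * k := by rw [mul_comm]; exact Nat.mul_le_mul_left n hMk
    exact Nat.le_of_mul_le_mul_right h1 hk0
  obtain ⟨π, hπ0, hπord, hπx⟩ := hCYC n M p' (fun c => (hp'1 c).1.pos) hsum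
  choose x hx using hπx
  have hordK : (orderOf π : K) ≠ 0 := by
    intro h0
    obtain ⟨d, hd⟩ := hπord
    have h1 : ((∏ c, p' c : ℕ) : K) = 0 := by
      rw [hd, Nat.cast_mul, h0, zero_mul]
    rw [Nat.cast_prod, Finset.prod_eq_zero_iff] at h1
    obtain ⟨c, _, hc⟩ := h1
    have h2 := (ringChar.spec K (p' c)).1 hc
    rcases (Nat.dvd_prime (hp'1 c).1).1 h2 with h3 | h3
    · have h4 := ringChar.spec K 1
      rw [h3] at h4
      have h5 := h4.2 (dvd_refl 1)
      rw [Nat.cast_one] at h5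
      exact one_ne_zero h5
    · have := (hp'1 c).2
      omega
  refine ⟨π, hπ0, hordK, ?_, ?_⟩
  · have hpos : 0 < ∏ c, p' c := Finset.prod_pos fun c _ => (hp'1 c).1.pos
    refine (Nat.le_of_dvd hpos hπord).trans ?_
    calc ∏ c, p' c ≤ ∏ _c : Fin M, n := Finset.prod_le_prod' fun c _ => by
          have h1 := hp'2 c
          have h2 : p' c ≤ p' c * k := Nat.le_mul_of_pos_right _ (by omega)
          omega
      _ = n ^ M := by rw [Finset.prod_const, Finset.card_univ, Fintype.card_fin]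
      _ ≤ n ^ g n := Nat.pow_le_pow_right (by
          have : 0 < k ^ 6 := Nat.pow_pos (by omega)
          omega) hMg
  · intro m A hA hF
    let e : EdgeT h ≃ Fin M := (edges h).equivFinOfCardEq hM.symm
    have key := perm_bound hD hV hC hA2 hPR hSP (0 : Fin (n + 1)) (N := n + 1) π A h k
      (fun c => p' (e c)) (fun c => x (e c)) (fun c => hp'1 _)
      (hp'i.comp e.injective) (fun c => hx _) hA hF hπ0 hordK (by omega) ?_ ?_
    · rw [← hh] at key
      refine num5 k q n (min (g n) n) m (by omega) hq2 ?_ ?_ ?_ ?_ key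
      · have : 0 < k ^ 6 := Nat.pow_pos (by omega)
        omega
      · have h1 : (k + 1) ^ 6 ≤ (k ^ 2) ^ 6 := Nat.pow_le_pow_left (by nlinarith) 6
        have h2 : (k ^ 2) ^ 6 = k ^ 12 := by rw [← pow_mul]
        omega
      · refine le_min (by omega) ?_
        have : 0 < k ^ 6 := Nat.pow_pos (by omega)
        omega
      · rcases le_total (g n) s with h2 | h2
        · have h3 : μ = g n := min_eq_left h2
          have h4 : min (g n) n ≤ μ := by rw [h3]; exact min_le_left _ _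
          have h5 : 2 ^ (q + 1) ≤ (2 ^ (q + 1)) ^ 12 := Nat.le_self_pow (by norm_num) _
          omega
        · have h3 : μ = s := min_eq_right h2
          have h5 : s + 1 ≤ 2 ^ (q + 1) := by omega
          have h6 : (s + 1) * (s + 1) ≤ (2 ^ (q + 1)) ^ 2 := by
            rw [sq]
            exact Nat.mul_le_mul h5 h5
          have h7 : k + 1 ≤ (2 ^ (q + 1)) ^ 2 := by omega
          have h8 : (k + 1) ^ 6 ≤ ((2 ^ (q + 1)) ^ 2) ^ 6 := Nat.pow_le_pow_left h7 6
          have h9 : ((2 ^ (q + 1)) ^ 2) ^ 6 = (2 ^ (q + 1)) ^ 12 := by rw [← pow_mul]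
          have h10 : min (g n) n ≤ n := min_le_right _ _
          omega
    · have h1 : (nodes h).card < s := by omega
      have h2 : (nodes h).card ^ 2 < s ^ 2 := Nat.pow_lt_pow_left h1 (by norm_num)
      have h3 : s ^ 2 = s * s := sq s
      omega
    · have h2 : 2 ^ h ≤ 2 ^ q := Nat.pow_le_pow_right (by norm_num) (by omega)
      have h3 : k ≤ k ^ 6 := Nat.le_self_pow (by norm_num) k
      omega

end Pool.EQD
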