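import Pool.Agent.H79.EQD.Dlb
import Pool.Agent.H79.EQD.Thr
import Mathlib.FieldTheory.RatFunc.Basic

/-!
# The lower bound for border representations
-/

set_option autoImplicit false

namespace Pool.EQD

open MvPolynomial Pool.Agent.H80 Filter

universe u v w

/-- The lower bound for determinants with nonvanishing coefficients. -/
def DLB2Stmt : Prop := ∀ (K : Type u) [Field K] (L : Type) [Fintype L] (r : L) (h k m : ℕ)
  (lab : List Bool → Fin k → L) (t : L → Kˣ) (A : Option (TVar L) → Matrix (Fin m) (Fin m) K)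
  (g g' : Matrix (Fin m) (Fin m) K), LabInj h r lab → 0 < h →
  ((nodes h).card) ^ 2 < k → t r = 1 →
  Sep (fun (c : EdgeT h) (x : Fin k) => Additive.ofMul (t (lab c.1 x))) →
  (∀ a : EdgeT h → Fin k, coeff (tmon h (ell r lab a)) (aff A).det ≠ 0) →
  IsUnit g.det → IsUnit g'.det →
  (A none = g * A none * g') →
  (∀ e : TVar L, (((tw (fun i => Additive.ofMul (t i)) e).toMul : Kˣ) : K) • A (some e) =
    g * A (some e) * g') →
  k ^ ((h + 1) / 2) ≤ m ^ 2

theorem dlb2 (hC : CUTStmt) (hP : PREStmt.{u}) (hN : CNTStmt.{u})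
    (hI : INJStmt) (hE : DEXStmt.{u}) (hG : GRBStmt.{u}) (hM : DCMStmt.{u}) : DLB2Stmt.{u} := by
  classical
  intro K _ L _ r h k m lab t A g g' hl hh hk ht hsep hcoef hg hg' h0 h1
  set ι : K →+* AlgebraicClosure K := algebraMap K (AlgebraicClosure K) with hι
  have hunit : ∀ M : Matrix (Fin m) (Fin m) K, IsUnit M.det → IsUnit (M.map ι).det := by
    intro M hM'
    have h2 : (M.map ι).det = ι M.det := (RingHom.map_det ι M).symm
    rw [h2]
    exact hM'.map ι
  refine dlb0 hC hP hN hI hE hG hM (AlgebraicClosure K) L r h k m lab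
    (fun i => Units.map (ι : K →* AlgebraicClosure K) (t i)) (fun o => (A o).map ι) (g.map ι)
    (g'.map ι) hl hh hk (by simp [ht]) ?_ ?_ (hunit g hg) (hunit g' hg') ?_ ?_
  · exact hsep.map (MonoidHom.toAdditive (Units.map (ι : K →* AlgebraicClosure K)))
      (by
        intro x y hxy
        exact Units.map_injective (ι.injective) hxy)
  · intro a
    have h2 : aff (fun o => (A o).map ι) = (aff A).map (MvPolynomial.map ι) := by
      ext1 i j
      simp [aff]
    have h3 : ((aff A).map (MvPolynomial.map ι)).det = MvPolynomial.map ι (aff A).det :=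
      (RingHom.map_det (MvPolynomial.map ι) (aff A)).symm
    rw [h2, h3, coeff_map]
    intro h4
    exact hcoef a (ι.injective (by rw [h4, map_zero]))
  · rw [← Matrix.map_mul, ← Matrix.map_mul, ← h0]
  · intro e
    rw [← Matrix.map_mul, ← Matrix.map_mul, ← h1 e]
    ext i j
    simp only [Matrix.smul_apply, Matrix.map_apply, smul_eq_mul, map_mul]
    congr 1
    rcases e with i | ⟨i, j, k⟩
    · simp [tw]
    · simp [tw]

/-- The bound for a matrix fixed by `g`, in terms of the coefficients of its determinant in an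
eigenbasis. -/
theorem sym_bound3 (hD : DLB2Stmt.{u}) (hC : SYCStmt.{u})
    {K : Type u} [Field K] {L : Type} [Fintype L] [DecidableEq L] (r : L) {m : ℕ}
    (g b : Matrix L L K) (t : L → Kˣ)
    (M : Matrix (Fin m) (Fin m) (MvPolynomial (TVar L) K)) (h k : ℕ)
    (lab : List Bool → Fin k → L) (hinj : LabInj h r lab)
    (hM1 : ∀ i j, (M i j).totalDegree ≤ 1)
    (hM2 : ∀ a : EdgeT h → Fin k, coeff (tmon h (ell r lab a)) (symHom b M.det) ≠ 0)
    (hF : FixedBySym g M) (hb : DiagBy g b t) (htr : t r = 1)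
    (hsep : Sep (fun (c : EdgeT h) (x : Fin k) => (2 : ℤ) • Additive.ofMul (t (lab c.1 x))))
    (hh : 0 < h) (hk : ((nodes h).card) ^ 2 < k) :
    k ^ ((h + 1) / 2) ≤ m ^ 2 := by
  classical
  -- invertibility of `g`
  have hdiag : IsUnit (Matrix.diagonal (fun i => (t i : K))).det := by
    rw [Matrix.det_diagonal]
    exact isUnit_iff_ne_zero.2 (Finset.prod_ne_zero_iff.2 fun i _ => (t i).ne_zero)
  have hg : IsUnit g.det := by
    have h1 : g.det * b.det = b.det * (Matrix.diagonal (fun i => (t i : K))).det := by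
      rw [← Matrix.det_mul, ← Matrix.det_mul, hb.2]
    have h2 : IsUnit (g.det * b.det) := by
      rw [h1]
      exact hb.1.mul hdiag
    exact isUnit_of_mul_isUnit_left h2
  -- a symmetry without transposition
  obtain ⟨g', t', P, Q, hg', hb', ht', hdis, hP, hQ, hfix⟩ :
      ∃ (g' : Matrix L L K) (t' : L → Kˣ) (P Q : Matrix (Fin m) (Fin m) K), IsUnit g'.det ∧
        DiagBy g' b t' ∧ t' r = 1 ∧
        Sep (fun (c : EdgeT h) (x : Fin k) => Additive.ofMul (t' (lab c.1 x))) ∧
        IsUnit P.det ∧ IsUnit Q.det ∧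
        M.map (symHom g') = P.map C * M * Q.map C := by
    obtain ⟨P, Q, hP, hQ, h1 | h1⟩ := hF
    · exact ⟨g, t, P, Q, hg, hb, htr, hsep.of_two, hP, hQ, h1⟩
    · refine ⟨g * g, fun i => t i * t i, P * Q.transpose, P.transpose * Q, ?_, ⟨hb.1, ?_⟩,
        by simp [htr], ?_, ?_, ?_, ?_⟩
      · rw [Matrix.det_mul]
        exact hg.mul hg
      · rw [Matrix.mul_assoc, hb.2, ← Matrix.mul_assoc, hb.2, Matrix.mul_assoc,
          Matrix.diagonal_mul_diagonal]
        rfl
      · have h5 : (fun (c : EdgeT h) (x : Fin k) =>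
            Additive.ofMul (t (lab c.1 x) * t (lab c.1 x))) =
            fun (c : EdgeT h) (x : Fin k) => (2 : ℤ) • Additive.ofMul (t (lab c.1 x)) := by
          funext c x
          rw [ofMul_mul, two_zsmul]
        rw [h5]
        exact hsep
      · rw [Matrix.det_mul, Matrix.det_transpose]
        exact hP.mul hQ
      · rw [Matrix.det_mul, Matrix.det_transpose]
        exact hP.mul hQ
      · have h2 : M.map (symHom (g * g)) = (M.map (symHom g)).map (symHom g) := by
          ext1 i j
          simp only [Matrix.map_apply]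
          exact ((hC K L).1 g g hg hg _).symm
        have h3 : (M.transpose).map (symHom g) = (M.map (symHom g)).transpose := rfl
        rw [h2, h1, symHom_mul, symHom_mul, symHom_map_C, symHom_map_C, h3, h1,
          Matrix.transpose_mul, Matrix.transpose_mul, Matrix.transpose_transpose]
        have h4 : ∀ N : Matrix (Fin m) (Fin m) K,
            (N.map (C : K → MvPolynomial (TVar L) K)).transpose = N.transpose.map C :=
          fun N => rfl
        rw [h4, h4, C_map_mul, C_map_mul]
        simp only [Matrix.mul_assoc]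
  -- the new matrix
  have hdiag' : IsUnit (Matrix.diagonal (fun i => (t' i : K))).det := by
    rw [Matrix.det_diagonal]
    exact isUnit_iff_ne_zero.2 (Finset.prod_ne_zero_iff.2 fun i _ => (t' i).ne_zero)
  have hfix2 : (M.map (symHom b)).map (scaleHom (wts t')) =
      P.map C * M.map (symHom b) * Q.map C := by
    have h1 : (M.map (symHom b)).map (scaleHom (wts t')) =
        (M.map (symHom b)).map (symHom (Matrix.diagonal fun i => (t' i : K))) := by
      rw [(hC K L).2 t']
      rfl
    have h2 : (M.map (symHom b)).map (symHom (Matrix.diagonal fun i => (t' i : K))) =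
        (M.map (symHom g')).map (symHom b) := by
      ext1 i j
      simp only [Matrix.map_apply]
      rw [(hC K L).1 b _ hb.1 hdiag', (hC K L).1 g' b hg' hb.1, hb'.2]
    rw [h1, h2, hfix, symHom_mul, symHom_mul, symHom_map_C, symHom_map_C]
  obtain ⟨A, hA⟩ : ∃ A : Option (TVar L) → Matrix (Fin m) (Fin m) K, M.map (symHom b) = aff A :=
    ⟨_, eq_aff (M.map (symHom b)) fun i j =>
      totalDegree_le_one_of _ (totalDegree_symHom b) _ (hM1 i j)⟩
  have hdet : (aff A).det = symHom b M.det := by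
    rw [← hA]
    exact (AlgHom.map_det (symHom b) M).symm
  rw [hA] at hfix2
  have hgA : P.map C * aff A * Q.map C = aff (fun o => P * A o * Q) := (aff_mul A P Q).symm
  rw [aff_scale, hgA] at hfix2
  have hfix' := aff_injective hfix2
  refine hD K L r h k m lab t' A P Q hinj hh hk ht' hdis ?_ hP hQ ?_ ?_
  · intro a
    rw [hdet]
    exact hM2 a
  · exact congrFun hfix' none
  · intro e
    exact congrFun hfix' (some e)

/-- The action of a matrix over a ring, with a given inverse. -/
noncomputable def symR {R : Type u} [CommRing R] {L : Type} [Fintype L]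
    (g g' : Matrix L L R) : MvPolynomial (TVar L) R →ₐ[R] MvPolynomial (TVar L) R :=
  aeval fun x => match x with
    | Sum.inl i => ∑ a : L, C (g i a) * X (Sum.inl a)
    | Sum.inr (i, j, k) => ∑ a : L, ∑ b : L, ∑ c : L,
        C (g i a * g' b j * g' c k) * X (Sum.inr (a, b, c))

theorem symHom_eq_symR {K : Type u} [Field K] {L : Type} [Fintype L] [DecidableEq L]
    (g : Matrix L L K) : symHom g = symR g g⁻¹ := by
  apply MvPolynomial.algHom_ext
  intro x
  unfold symHom symR
  rw [aeval_X, aeval_X]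
  rcases x with i | ⟨i, j, k⟩
  · rfl
  · rfl

theorem map_symR {R S : Type u} [CommRing R] [CommRing S] (φ : R →+* S) {L : Type} [Fintype L]
    (g g' : Matrix L L R) (p : MvPolynomial (TVar L) R) :
    MvPolynomial.map φ (symR g g' p) = symR (g.map φ) (g'.map φ) (MvPolynomial.map φ p) := by
  have h : ((MvPolynomial.map φ).comp (symR g g' : MvPolynomial (TVar L) R →ₐ[R] _).toRingHom) =
      ((symR (g.map φ) (g'.map φ) : MvPolynomial (TVar L) S →ₐ[S] _).toRingHom).comp
        (MvPolynomial.map φ) := by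
    apply MvPolynomial.ringHom_ext
    · intro c
      simp [symR]
    · intro e
      simp only [RingHom.comp_apply, AlgHom.toRingHom_eq_coe, RingHom.coe_coe, map_X]
      unfold symR
      rw [aeval_X, aeval_X]
      rcases e with i | ⟨i, j, k⟩
      · simp only [map_sum, map_mul, map_C, map_X, Matrix.map_apply]
      · simp only [map_sum, map_mul, map_C, map_X, Matrix.map_apply]
  exact congrFun (congrArg DFunLike.coe h) p

theorem inv_map {K K' : Type u} [Field K] [Field K'] (φ : K →+* K') {L : Type} [Fintype L]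
    [DecidableEq L] (g : Matrix L L K) (hg : IsUnit g.det) : (g.map φ)⁻¹ = (g⁻¹).map φ := by
  apply Matrix.inv_eq_right_inv
  rw [← Matrix.map_mul, Matrix.mul_nonsing_inv _ hg]
  exact Matrix.map_one φ (map_zero φ) (map_one φ)

/-- The coefficients of a deformation of the tree polynomial, in a basis which does not depend on
the parameter. -/
theorem border_coeff (hV : INVStmt.{u}) (hT : TRCStmt.{u}) {K : Type u} [Field K] {L : Type}
    [Fintype L] [DecidableEq L] (r : L) (b : Matrix L L K) (hb : IsUnit b.det)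
    (hrb : FixRow r b) (N h k : ℕ) (F : MvPolynomial (TVar L) (Polynomial K))
    (hF : MvPolynomial.map (Polynomial.evalRingHom 0) F = tsum K L N r)
    (lab : List Bool → Fin k → L) (hinj : LabInj h r lab) (hN : 2 ^ h ≤ N)
    (a : EdgeT h → Fin k) :
    coeff (tmon h (ell r lab a)) (symHom (b.map (algebraMap K (RatFunc K)))
      (MvPolynomial.map (algebraMap (Polynomial K) (RatFunc K)) F)) ≠ 0 := by
  have hc : ∀ m : Matrix L L K, (m.map Polynomial.C).map (algebraMap (Polynomial K) (RatFunc K)) =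
      m.map (algebraMap K (RatFunc K)) := by
    intro m
    ext1 i j
    simp [RatFunc.algebraMap_C]
  have h1 : symHom (b.map (algebraMap K (RatFunc K)))
      (MvPolynomial.map (algebraMap (Polynomial K) (RatFunc K)) F) =
      MvPolynomial.map (algebraMap (Polynomial K) (RatFunc K))
        (symR (b.map Polynomial.C) (b⁻¹.map Polynomial.C) F) := by
    rw [map_symR, hc, hc, symHom_eq_symR, inv_map _ b hb]
  have h2 : MvPolynomial.map (Polynomial.evalRingHom 0)
      (symR (b.map Polynomial.C) (b⁻¹.map Polynomial.C) F) = tsum K L N r := by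
    have he : ∀ m : Matrix L L K, (m.map Polynomial.C).map (Polynomial.evalRingHom 0) = m := by
      intro m
      ext1 i j
      simp
    rw [map_symR, he, he, ← symHom_eq_symR, hF]
    exact hV K L r b N hb hrb
  rw [h1, coeff_map]
  intro h3
  have h4 : coeff (tmon h (ell r lab a)) (symR (b.map Polynomial.C) (b⁻¹.map Polynomial.C) F) =
      0 := (IsFractionRing.injective (Polynomial K) (RatFunc K)) (by rw [h3, map_zero])
  have h5 := hT K L r h k N lab a hinj hN
  rw [← h2, coeff_map, h4, map_zero] at h5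
  exact zero_ne_one h5

/-- `M` is a border representation of the tree polynomial. -/
def BDetRep {K : Type u} [Field K] {L : Type} [Fintype L] {m : ℕ}
    (M : Matrix (Fin m) (Fin m) (MvPolynomial (TVar L) (RatFunc K)))
    (f : MvPolynomial (TVar L) K) : Prop :=
  (∀ i j, (M i j).totalDegree ≤ 1) ∧ ∃ F : MvPolynomial (TVar L) (Polynomial K),
    M.det = MvPolynomial.map (algebraMap (Polynomial K) (RatFunc K)) F ∧
      MvPolynomial.map (Polynomial.evalRingHom 0) F = f

/-- Extension of scalars. -/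
theorem fixedBySym_map {K K' : Type u} [Field K] [Field K'] (φ : K →+* K') {L : Type} [Fintype L]
    [DecidableEq L] (g : Matrix L L K) (hg : IsUnit g.det) {m : ℕ}
    (M : Matrix (Fin m) (Fin m) (MvPolynomial (TVar L) K)) (hF : FixedBySym g M) :
      FixedBySym (g.map φ) (M.map (MvPolynomial.map φ)) := by
  have hdetmap : ∀ {n : Type} [Fintype n] [DecidableEq n] (P : Matrix n n K),
      (P.map φ).det = φ P.det := fun P => (RingHom.map_det φ P).symm
  obtain ⟨P, Q, hP, hQ, h1⟩ := hF
  have hCm : ∀ P : Matrix (Fin m) (Fin m) K,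
      (P.map (C : K → MvPolynomial (TVar L) K)).map (MvPolynomial.map φ) =
        (P.map φ).map C := by
    intro P
    ext1 i j
    simp
  have hmm : ∀ M N : Matrix (Fin m) (Fin m) (MvPolynomial (TVar L) K),
      (M * N).map (MvPolynomial.map φ) =
        M.map (MvPolynomial.map φ) * N.map (MvPolynomial.map φ) := fun M N => Matrix.map_mul
  have h2 : (M.map (MvPolynomial.map φ)).map (symHom (g.map φ)) =
      (M.map (symHom g)).map (MvPolynomial.map φ) := by
    ext1 i j
    simp only [Matrix.map_apply]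
    exact (map_symHom φ g hg _).symm
  refine ⟨P.map φ, Q.map φ, ?_, ?_, ?_⟩
  · rw [hdetmap]
    exact hP.map φ
  · rw [hdetmap]
    exact hQ.map φ
  · rw [h2]
    rcases h1 with h1 | h1
    · left
      rw [h1, hmm, hmm, hCm, hCm]
    · right
      rw [h1, hmm, hmm, hCm, hCm]
      rfl

/-- The map of the fields of rational functions. -/
noncomputable def rfMap {K K' : Type u} [Field K] [Field K'] (φ : K →+* K') :
    RatFunc K →+* RatFunc K' :=
  IsFractionRing.map (j := Polynomial.mapRingHom φ) (by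
    rw [Polynomial.coe_mapRingHom]
    exact Polynomial.map_injective φ φ.injective)

theorem rfMap_algebraMap {K K' : Type u} [Field K] [Field K'] (φ : K →+* K') (p : Polynomial K) :
    rfMap φ (algebraMap (Polynomial K) (RatFunc K) p) =
      algebraMap (Polynomial K') (RatFunc K') (Polynomial.map φ p) := by
  unfold rfMap IsFractionRing.map
  rw [IsLocalization.map_eq]
  rfl

theorem bdetRep_map {K K' : Type u} [Field K] [Field K'] (φ : K →+* K') {L : Type} [Fintype L]
    {m N : ℕ} (r : L) (M : Matrix (Fin m) (Fin m) (MvPolynomial (TVar L) (RatFunc K)))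
    (hM : BDetRep M (tsum K L N r)) :
    BDetRep (M.map (MvPolynomial.map (rfMap φ))) (tsum K' L N r) := by
  obtain ⟨h1, F, h2, h3⟩ := hM
  refine ⟨?_, MvPolynomial.map (Polynomial.mapRingHom φ) F, ?_, ?_⟩
  · intro i j
    refine le_trans ?_ (h1 i j)
    rw [Matrix.map_apply]
    exact Finset.sup_mono (support_map_subset _ _)
  · have h4 : (M.map (MvPolynomial.map (rfMap φ))).det = MvPolynomial.map (rfMap φ) M.det :=
      (RingHom.map_det (MvPolynomial.map (rfMap φ)) M).symm
    rw [h4, h2, MvPolynomial.map_map, MvPolynomial.map_map]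
    congr 1
    apply congrArg
    apply RingHom.ext
    intro p
    exact rfMap_algebraMap φ p
  · rw [← map_tsum' φ, ← h3, MvPolynomial.map_map, MvPolynomial.map_map]
    congr 1
    apply congrArg
    apply RingHom.ext
    intro p
    simp

/-- The bound for one permutation of the labels, border version. -/
theorem perm_bound3 (hD : DLB2Stmt.{u}) (hV : INVStmt.{u}) (hT : TRCStmt.{u}) (hC : SYCStmt.{u})
    (hA : AD2Stmt.{u}) (hPR : PR2Stmt.{u}) (hSP : SPRStmt.{u})
    {K : Type u} [Field K] {L : Type} [Fintype L] [DecidableEq L] (r : L) {N m : ℕ}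
    (π : Equiv.Perm L) (M : Matrix (Fin m) (Fin m) (MvPolynomial (TVar L) (RatFunc K))) (h k : ℕ)
    (p : EdgeT h → ℕ) (x : EdgeT h → L) (hp : ∀ c, (p c).Prime ∧ 4 * k < p c)
    (hpi : Function.Injective p) (hx : ∀ c, Function.minimalPeriod π (x c) = p c)
    (hM : BDetRep M (tsum K L N r)) (hF : FixedBySym (π.permMatrix (RatFunc K)) M) (hr : π r = r)
    (hord : (orderOf π : K) ≠ 0)
    (hh : 0 < h) (hk : ((nodes h).card) ^ 2 < k) (hN : 2 ^ h ≤ N) :
    k ^ ((h + 1) / 2) ≤ m ^ 2 := by
  classical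
  set φ := algebraMap K (AlgebraicClosure K) with hφ
  have hinj : Function.Injective φ := φ.injective
  have hord' : (orderOf π : AlgebraicClosure K) ≠ 0 := by
    intro h0
    apply hord
    apply hinj
    rw [map_natCast, h0, map_zero]
  have hperd : ∀ c, p c ∣ orderOf π := by
    intro c
    rw [← hx c]
    apply Function.IsPeriodicPt.minimalPeriod_dvd
    have h1 : ((π ^ orderOf π : Equiv.Perm L) : L → L) (x c) = x c := by
      rw [pow_orderOf_eq_one]; rfl
    rw [← Equiv.Perm.iterate_eq_pow] at h1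
    exact h1
  have hpne : ∀ c, (p c : AlgebraicClosure K) ≠ 0 := by
    intro j h0
    obtain ⟨c, hc⟩ := hperd j
    apply hord'
    rw [hc, Nat.cast_mul, h0, zero_mul]
  have hex : ∀ c, ∃ ζ : (AlgebraicClosure K)ˣ, orderOf ζ = p c := by
    intro c
    have : NeZero (p c : AlgebraicClosure K) := ⟨hpne c⟩
    obtain ⟨ζ, hζ⟩ := HasEnoughRootsOfUnity.exists_primitiveRoot (AlgebraicClosure K) (p c)
    refine ⟨Units.mk0 ζ (hζ.ne_zero (hp c).1.ne_zero), ?_⟩
    rw [← orderOf_units, Units.val_mk0, ← hζ.eq_orderOf]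
  choose ζ hζ using hex
  obtain ⟨b, t, hb, ht⟩ := hPR (AlgebraicClosure K) L π hord'
  have hlab : ∀ (c : EdgeT h) (a : Fin k), ∃ i, t i = ζ c ^ ((a : ℕ) + 1) := by
    intro c a
    apply ht (x c)
    rw [hx c, ← pow_mul, mul_comm, pow_mul, ← hζ c, pow_orderOf_eq_one, one_pow]
  choose lab0 hlab0 using hlab
  obtain ⟨lab, hlabE⟩ : ∃ lab : List Bool → Fin k → L, ∀ (c : EdgeT h) (a : Fin k),
      lab c.1 a = lab0 c a := by
    refine ⟨fun c a => if hc : c ∈ edges h then lab0 ⟨c, hc⟩ a else r, fun c a => ?_⟩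
    exact dif_pos c.2
  have hrow : FixRow r (π.permMatrix (AlgebraicClosure K)) := by
    intro a
    simp only [Equiv.Perm.permMatrix, PEquiv.toMatrix_apply, Equiv.toPEquiv_apply, hr,
      Option.mem_def, Option.some.injEq]
    exact if_congr eq_comm rfl rfl
  obtain ⟨b, σ, hrb, hb, htr⟩ := hA (AlgebraicClosure K) L r _ b t hrow hb
  have hsep : Sep (fun (c : EdgeT h) (a : Fin k) =>
      (2 : ℤ) • Additive.ofMul (ζ c ^ ((a : ℕ) + 1))) := hSP _ (EdgeT h) p ζ k hp hpi hζ
  -- the new labels
  obtain ⟨lab', hlab'⟩ : ∃ lab' : List Bool → Fin k → L, lab' = fun c x => σ.symm (lab c x) :=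
    ⟨_, rfl⟩
  have hlt : ∀ (c : EdgeT h) (a : Fin k), t (σ (lab' c.1 a)) = ζ c ^ ((a : ℕ) + 1) := by
    intro c a
    rw [hlab', ← hlab0 c a, ← hlabE c a]
    simp
  have hlinj : LabInj h r lab' := by
    constructor
    · intro c hc c' hc' a a' h1
      have h2 : (2 : ℤ) • Additive.ofMul (ζ ⟨c, hc⟩ ^ ((a : ℕ) + 1)) =
          (2 : ℤ) • Additive.ofMul (ζ ⟨c', hc'⟩ ^ ((a' : ℕ) + 1)) := by
        rw [← hlt, ← hlt, h1]
      obtain ⟨h3, h4⟩ := hsep.inj ⟨c, hc⟩ ⟨c', hc'⟩ a a' h2
      exact ⟨congrArg Subtype.val h3, h4⟩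
    · intro c hc a h1
      refine hsep.ne_zero ⟨c, hc⟩ a ?_
      rw [← hlt ⟨c, hc⟩ a, h1, htr, ofMul_one, smul_zero]
  -- the constants in the field of rational functions
  obtain ⟨κ, hκ⟩ : ∃ κ : AlgebraicClosure K →+* RatFunc (AlgebraicClosure K),
    κ = algebraMap (AlgebraicClosure K) (RatFunc (AlgebraicClosure K)) := ⟨_, rfl⟩
  have hdet : IsUnit (π.permMatrix (RatFunc K)).det := by
    rw [Matrix.det_permutation]
    rcases Int.units_eq_one_or (Equiv.Perm.sign π) with h1 | h1 <;> rw [h1] <;> simp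
  have hM' := bdetRep_map φ r M hM
  have hF' := fixedBySym_map (rfMap φ) (π.permMatrix (RatFunc K)) hdet M hF
  have hmp : (π.permMatrix (RatFunc K)).map (rfMap φ) =
      π.permMatrix (RatFunc (AlgebraicClosure K)) := by
    ext i j
    simp [Equiv.Perm.permMatrix, PEquiv.toMatrix_apply]
  have hmp2 : (π.permMatrix (AlgebraicClosure K)).map κ =
      π.permMatrix (RatFunc (AlgebraicClosure K)) := by
    ext i j
    simp [Equiv.Perm.permMatrix, PEquiv.toMatrix_apply]
  rw [hmp] at hF'
  have hbκ : DiagBy (π.permMatrix (RatFunc (AlgebraicClosure K))) (b.map κ)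
      (fun i => Units.map (κ : AlgebraicClosure K →* RatFunc (AlgebraicClosure K)) (t (σ i))) := by
    constructor
    · have h1 : (b.map κ).det = κ b.det := (RingHom.map_det κ b).symm
      rw [h1]
      exact hb.1.map κ
    · rw [← hmp2, ← Matrix.map_mul, hb.2, Matrix.map_mul]
      congr 1
      rw [Matrix.diagonal_map (map_zero κ)]
      rfl
  obtain ⟨F, hF1, hF2⟩ := hM'.2
  refine sym_bound3 hD hC r (π.permMatrix (RatFunc (AlgebraicClosure K))) (b.map κ) _ _ h k lab'
    hlinj hM'.1 ?_ hF' hbκ ?_ ?_ hh hk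
  · intro a
    rw [hF1, hκ]
    exact border_coeff hV hT r b hb.1 hrb N h k F hF2 lab' hlinj hN a
  · rw [htr, map_one]
  · have h1 : (fun (c : EdgeT h) (a : Fin k) => (2 : ℤ) • Additive.ofMul
        (Units.map (κ : AlgebraicClosure K →* RatFunc (AlgebraicClosure K))
          (t (σ (lab' c.1 a))))) =
        fun (c : EdgeT h) (a : Fin k) => (2 : ℤ) • Additive.ofMul
          ((Units.map (κ : AlgebraicClosure K →* RatFunc (AlgebraicClosure K)) (ζ c)) ^
            ((a : ℕ) + 1)) := by
      funext c a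
      rw [hlt, map_pow]
    rw [h1]
    refine hSP _ (EdgeT h) p _ k hp hpi ?_
    intro c
    rw [← hζ c]
    exact orderOf_injective _ (Units.map_injective κ.injective) (ζ c)

/-- Permutations of slightly superpolynomial order, border version. -/
theorem thr3 (hD : DLB2Stmt.{u}) (hV : INVStmt.{u}) (hT : TRCStmt.{u}) (hC : SYCStmt.{u})
    (hA2 : AD2Stmt.{u}) (hPR : PR2Stmt.{u}) (hSP : SPRStmt.{u}) (hPRI : PRIStmt)
    (hCYC : CYCStmt) :
    ∃ c : ℝ, 0 < c ∧ ∀ (K : Type u) [Field K] (g : ℕ → ℕ), Tendsto g atTop atTop →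
      ∀ᶠ n : ℕ in atTop, ∃ π : Equiv.Perm (Fin (n + 1)), π 0 = 0 ∧ (orderOf π : K) ≠ 0 ∧
        orderOf π ≤ n ^ g n ∧
        ∀ (m : ℕ) (M : Matrix (Fin m) (Fin m) (MvPolynomial (TVar (Fin (n + 1))) (RatFunc K))),
          BDetRep M (tsum K (Fin (n + 1)) (n + 1) 0) → FixedBySym (π.permMatrix (RatFunc K)) M →
          (n : ℝ) ^ (c * Real.log (min (g n) n : ℕ)) ≤ m := by
  classical
  refine ⟨1 / 1300, by norm_num, ?_⟩
  intro K _ g hg
  obtain ⟨n₀, hn₀⟩ := hPRI
  filter_upwards [hg.eventually_ge_atTop 4, eventually_ge_atTop n₀,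
    eventually_ge_atTop ((16 + ringChar K) ^ 6)] with n hgn hn hnc
  -- `k`
  obtain ⟨k, hkn, hnk⟩ : ∃ k, k ^ 6 ≤ n ∧ n < (k + 1) ^ 6 := by
    have h1 : ∃ k, n < (k + 1) ^ 6 := ⟨n, by
      calc n < n + 1 := Nat.lt_succ_self n
        _ = (n + 1) ^ 1 := (pow_one _).symm
        _ ≤ (n + 1) ^ 6 := Nat.pow_le_pow_right (by omega) (by norm_num)⟩
    refine ⟨Nat.find h1, ?_, Nat.find_spec h1⟩
    by_contra hcon
    rcases Nat.eq_zero_or_pos (Nat.find h1) with h2 | h2
    · rw [h2] at hcon
      simp at hcon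
    · obtain ⟨j, hj⟩ : ∃ j, Nat.find h1 = j + 1 := ⟨Nat.find h1 - 1, by omega⟩
      rw [hj] at hcon
      exact Nat.find_min h1 (m := j) (by omega) (by omega)
  have hk16 : 16 + ringChar K ≤ k := by
    by_contra hcon
    have h1 : k + 1 ≤ 16 + ringChar K := by omega
    have h2 : (k + 1) ^ 6 ≤ (16 + ringChar K) ^ 6 := Nat.pow_le_pow_left h1 6
    omega
  set s := Nat.sqrt k with hs
  have hs4 : 4 ≤ s := by
    rw [hs, Nat.le_sqrt]
    omega
  have hsk : s * s ≤ k := Nat.sqrt_le k
  have hks : k < (s + 1) * (s + 1) := Nat.lt_succ_sqrt k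
  set μ := min (g n) s with hμ
  have hμ4 : 4 ≤ μ := le_min hgn hs4
  set q := Nat.log 2 μ with hq
  have hq2 : 2 ≤ q := by
    rw [hq]
    exact (Nat.le_log_iff_pow_le (by norm_num) (by omega)).2 (by simpa using hμ4)
  have hqμ : 2 ^ q ≤ μ := Nat.pow_log_le_self 2 (by omega)
  have hμq : μ < 2 ^ (q + 1) := Nat.lt_pow_succ_log_self (by norm_num) μ
  obtain ⟨h, hh⟩ : ∃ h, q = h + 1 := ⟨q - 1, by omega⟩
  have hnodes := card_nodes h
  have hedges := card_edges_lt h
  rw [← hh] at hnodes
  have hμs : μ ≤ s := min_le_right _ _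
  have hμg : μ ≤ g n := min_le_left _ _
  have hss : s ≤ s * s := Nat.le_mul_self s
  obtain ⟨M, hM⟩ : ∃ M, M = (edges h).card := ⟨_, rfl⟩
  have hMk : M ≤ k := by omega
  have hMg : M ≤ g n := by omega
  -- the primes
  obtain ⟨p, hpi, hp⟩ := hn₀ n k hn hkn
  obtain ⟨p', hp'⟩ : ∃ p' : Fin M → ℕ, p' = fun c => p (Fin.castLE hMk c) := ⟨_, rfl⟩
  have hp'1 : ∀ c, (p' c).Prime ∧ 4 * k < p' c := fun c => by
    rw [hp']
    exact ⟨(hp _).1, (hp _).2.1⟩
  have hp'2 : ∀ c, p' c * k ≤ n := fun c => by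
    rw [hp']
    exact (hp _).2.2
  have hp'i : Function.Injective p' := by
    intro c c' hcc
    rw [hp'] at hcc
    exact Fin.castLE_injective hMk (hpi hcc)
  have hsum : ∑ c, p' c ≤ n := by
    have hk0 : 0 < k := by omega
    have h1 : (∑ c, p' c) * k ≤ n * k := by
      rw [Finset.sum_mul]
      calc ∑ c, p' c * k ≤ ∑ _c : Fin M, n := Finset.sum_le_sum fun c _ => hp'2 c
        _ = M * n := by rw [Finset.sum_const, Finset.card_univ, Fintype.card_fin, smul_eq_mul]
        _ ≤ n * k := by rw [mul_comm]; exact Nat.mul_le_mul_left n hMk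
    exact Nat.le_of_mul_le_mul_right h1 hk0
  obtain ⟨π, hπ0, hπord, hπx⟩ := hCYC n M p' (fun c => (hp'1 c).1.pos) hsum
  choose x hx using hπx
  have hordK : (orderOf π : K) ≠ 0 := by
    intro h0
    obtain ⟨d, hd⟩ := hπord
    have h1 : ((∏ c, p' c : ℕ) : K) = 0 := by
      rw [hd, Nat.cast_mul, h0, zero_mul]
    rw [Nat.cast_prod, Finset.prod_eq_zero_iff] at h1
    obtain ⟨c, _, hc⟩ := h1
    have h2 := (ringChar.spec K (p' c)).1 hc
    rcases (Nat.dvd_prime (hp'1 c).1).1 h2 with h3 | h3
    · have h4 := ringChar.spec K 1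
      rw [h3] at h4
      have h5 := h4.2 (dvd_refl 1)
      rw [Nat.cast_one] at h5
      exact one_ne_zero h5
    · have := (hp'1 c).2
      omega
  refine ⟨π, hπ0, hordK, ?_, ?_⟩
  · have hpos : 0 < ∏ c, p' c := Finset.prod_pos fun c _ => (hp'1 c).1.pos
    refine (Nat.le_of_dvd hpos hπord).trans ?_
    calc ∏ c, p' c ≤ ∏ _c : Fin M, n := Finset.prod_le_prod' fun c _ => by
          have h1 := hp'2 c
          have h2 : p' c ≤ p' c * k := Nat.le_mul_of_pos_right _ (by omega)
          omega
      _ = n ^ M := by rw [Finset.prod_const, Finset.card_univ, Fintype.card_fin]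
      _ ≤ n ^ g n := Nat.pow_le_pow_right (by
          have : 0 < k ^ 6 := Nat.pow_pos (by omega)
          omega) hMg
  · intro m A hA hF
    let e : EdgeT h ≃ Fin M := (edges h).equivFinOfCardEq hM.symm
    have key := perm_bound3 hD hV hT hC hA2 hPR hSP (0 : Fin (n + 1)) (N := n + 1) π A h k
      (fun c => p' (e c)) (fun c => x (e c)) (fun c => hp'1 _)
      (hp'i.comp e.injective) (fun c => hx _) hA hF hπ0 hordK (by omega) ?_ ?_
    · rw [← hh] at key
      refine num5 k q n (min (g n) n) m (by omega) hq2 ?_ ?_ ?_ ?_ key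
      · have : 0 < k ^ 6 := Nat.pow_pos (by omega)
        omega
      · have h1 : (k + 1) ^ 6 ≤ (k ^ 2) ^ 6 := Nat.pow_le_pow_left (by nlinarith) 6
        have h2 : (k ^ 2) ^ 6 = k ^ 12 := by rw [← pow_mul]
        omega
      · refine le_min (by omega) ?_
        have : 0 < k ^ 6 := Nat.pow_pos (by omega)
        omega
      · rcases le_total (g n) s with h2 | h2
        · have h3 : μ = g n := min_eq_left h2
          have h4 : min (g n) n ≤ μ := by rw [h3]; exact min_le_left _ _
          have h5 : 2 ^ (q + 1) ≤ (2 ^ (q + 1)) ^ 12 := Nat.le_self_pow (by norm_num) _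
          omega
        · have h3 : μ = s := min_eq_right h2
          have h5 : s + 1 ≤ 2 ^ (q + 1) := by omega
          have h6 : (s + 1) * (s + 1) ≤ (2 ^ (q + 1)) ^ 2 := by
            rw [sq]
            exact Nat.mul_le_mul h5 h5
          have h7 : k + 1 ≤ (2 ^ (q + 1)) ^ 2 := by omega
          have h8 : (k + 1) ^ 6 ≤ ((2 ^ (q + 1)) ^ 2) ^ 6 := Nat.pow_le_pow_left h7 6
          have h9 : ((2 ^ (q + 1)) ^ 2) ^ 6 = (2 ^ (q + 1)) ^ 12 := by rw [← pow_mul]
          have h10 : min (g n) n ≤ n := min_le_right _ _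
          omega
    · have h1 : (nodes h).card < s := by omega
      have h2 : (nodes h).card ^ 2 < s ^ 2 := Nat.pow_lt_pow_left h1 (by norm_num)
      have h3 : s ^ 2 = s * s := sq s
      omega
    · have h2 : 2 ^ h ≤ 2 ^ q := Nat.pow_le_pow_right (by norm_num) (by omega)
      have h3 : k ≤ k ^ 6 := Nat.le_self_pow (by norm_num) k
      omega

end Pool.EQD
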