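import Pool.Agent.H79.EQD.Defs4

set_option autoImplicit false

namespace Pool.EQD

open MvPolynomial Pool.Agent.H80

universe u

section bls

variable {K : Type u} [CommRing K] {σ : Type}

theorem LDer.all {ι : Type*} (s : Finset ι) (p : ι → MvPolynomial σ K) (k : ℕ)
    (l : List (MvPolynomial σ K))
    (h : ∀ i ∈ s, ∀ l₁ : List (MvPolynomial σ K), l ⊆ l₁ → ∃ l', LDer l₁ k l' ∧ p i ∈ l') :
    ∃ l', LDer l (s.card * k) l' ∧ ∀ i ∈ s, p i ∈ l' := by
  classical
  induction s using Finset.induction_on with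
  | empty => exact ⟨l, by simpa using LDer.refl l, by simp⟩
  | insert i s hi ih =>
    obtain ⟨l', h1, h2⟩ := ih (fun j hj => h j (Finset.mem_insert_of_mem hj))
    obtain ⟨l'', h3, h4⟩ := h i (Finset.mem_insert_self i s) l' h1.2.1
    refine ⟨l'', ?_, ?_⟩
    · rw [Finset.card_insert_of_notMem hi, add_mul, one_mul]
      exact h1.trans h3
    · intro j hj
      rcases Finset.mem_insert.1 hj with rfl | hj
      · exact h4
      · exact h3.2.1 (h2 j hj)

/-- affine forms -/
def Aff [Fintype σ] (p : MvPolynomial σ K) : Prop :=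
  ∃ a : Option σ → K, p = C (a none) + ∑ e : σ, C (a (some e)) * X e

theorem Aff.neg [Fintype σ] {p : MvPolynomial σ K} (h : Aff p) : Aff (-p) := by
  obtain ⟨a, rfl⟩ := h
  refine ⟨fun o => - a o, ?_⟩
  simp only [neg_add, C_neg, neg_mul, Finset.sum_neg_distrib]

theorem mul_aff1 [Fintype σ] (l : List (MvPolynomial σ K)) (q acc : MvPolynomial σ K)
    (hq : q ∈ l) (hacc : acc ∈ l) (a : MvPolynomial σ K) (ha : Aff a) :
    ∃ l', LDer l (3 * (Fintype.card σ + 1)) l' ∧ acc + q * a ∈ l' := by
  classical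
  obtain ⟨a, rfl⟩ := ha
  have key : ∀ s : Finset σ, ∃ l', LDer l (2 + 3 * s.card) l' ∧
      acc + q * (C (a none) + ∑ e ∈ s, C (a (some e)) * X e) ∈ l' := by
    intro s
    induction s using Finset.induction_on with
    | empty =>
      have h1 := (LDer.refl l).step (LStep.mulConst hq (a none))
      have h2 := h1.step (LStep.add (h1.2.1 hacc) (List.mem_cons_self ..))
      refine ⟨_, h2, ?_⟩
      rw [Finset.sum_empty, add_zero]
      exact List.mem_cons_self ..
    | insert e s he ih =>
      obtain ⟨l', h1, h2⟩ := ih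
      have h3 := h1.step (LStep.mulVar (h1.2.1 hq) e)
      have h4 := h3.step (LStep.mulConst (List.mem_cons_self ..) (a (some e)))
      have h5 := h4.step (LStep.add
        (List.mem_cons_of_mem _ (List.mem_cons_of_mem _ h2)) (List.mem_cons_self ..))
      refine ⟨_, h5.mono ?_, ?_⟩
      · rw [Finset.card_insert_of_notMem he]
        omega
      · rw [Finset.sum_insert he]
        have h6 : acc + q * (C (a none) + (C (a (some e)) * X e +
            ∑ x ∈ s, C (a (some x)) * X x)) = acc + q * (C (a none) +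
            ∑ e ∈ s, C (a (some e)) * X e) + q * X e * C (a (some e)) := by ring
        rw [h6]
        exact List.mem_cons_self ..
  obtain ⟨l', h1, h2⟩ := key Finset.univ
  refine ⟨l', h1.mono ?_, h2⟩
  rw [Finset.card_univ]
  omega

theorem mul_affN [Fintype σ] (l : List (MvPolynomial σ K)) (acc : MvPolynomial σ K)
    (hacc : acc ∈ l) (N : ℕ) (q a : ℕ → MvPolynomial σ K) (hq : ∀ v < N, q v ∈ l)
    (ha : ∀ v, Aff (a v)) :
    ∃ l', LDer l (N * (3 * (Fintype.card σ + 1))) l' ∧
      acc + ∑ v ∈ Finset.range N, q v * a v ∈ l' := by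
  induction N with
  | zero => exact ⟨l, by simpa using LDer.refl l, by simpa using hacc⟩
  | succ N ih =>
    obtain ⟨l', h1, h2⟩ := ih fun v hv => hq v (by omega)
    obtain ⟨l'', h3, h4⟩ := mul_aff1 l' (q N) _ (h1.2.1 (hq N (by omega))) h2 (a N) (ha N)
    refine ⟨l'', (h1.trans h3).mono (by ring_nf; omega), ?_⟩
    rw [Finset.sum_range_succ, ← add_assoc]
    exact h4

end bls

theorem t_bls : BLSStmt.{u} := by
  refine ⟨9, ?_⟩
  intro K _ σ _ m A hA
  have hA' : ∀ i j, Aff (A i j) := hA
  obtain ⟨T, hT⟩ : ∃ T, T = (m + 1) * (3 * (Fintype.card σ + 1)) := ⟨_, rfl⟩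
  -- the rows `bkG`
  have hG : ∀ i ≤ m, ∀ D ≤ m, ∀ l : List (MvPolynomial σ K), 0 ∈ l → (∀ d ≤ m, bkF A i d ∈ l) →
      ∃ l', LDer l (D * (m * T)) l' ∧ ∀ d ≤ D, ∀ v < i, bkG A i (bkF A i) d v ∈ l' := by
    intro i hi D
    induction D with
    | zero =>
      intro _ l h0 _
      refine ⟨l, by simpa using LDer.refl l, ?_⟩
      intro d hd v _
      obtain rfl : d = 0 := by omega
      rw [bkG]
      exact h0
    | succ D ih =>
      intro hD l h0 hF
      obtain ⟨l', h1, h2⟩ := ih (by omega) l h0 hF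
      obtain ⟨l'', h3, h4⟩ := LDer.all (Finset.range i) (fun v => bkG A i (bkF A i) (D + 1) v) T
        l' (fun v _ l₁ hl₁ => by
          obtain ⟨l2, h5, h6⟩ := mul_aff1 l₁ (bkF A i D) 0 (hl₁ (h1.2.1 (hF D (by omega))))
            (hl₁ (h1.2.1 h0)) (A i v) (hA' i v)
          obtain ⟨l3, h7, h8⟩ := mul_affN l2 _ h6 i (fun v' => bkG A i (bkF A i) D v')
            (fun v' => A v' v) (fun v' hv' => h5.2.1 (hl₁ (h2 D le_rfl v' hv')))
            (fun v' => hA' v' v)
          refine ⟨l3, (h5.trans h7).mono ?_, ?_⟩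
          · rw [hT]
            have : i * (3 * (Fintype.card σ + 1)) ≤ m * (3 * (Fintype.card σ + 1)) :=
              Nat.mul_le_mul_right _ hi
            linarith
          · show bkG A i (bkF A i) (D + 1) v ∈ l3
            rw [bkG, ← zero_add (bkF A i D * A i v)]
            exact h8)
      refine ⟨l'', (h1.trans h3).mono ?_, ?_⟩
      · rw [Finset.card_range]
        have : i * T ≤ m * T := Nat.mul_le_mul_right _ hi
        linarith
      · intro d hd v hv
        rcases Nat.lt_or_ge D d with h5 | h5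
        · obtain rfl : d = D + 1 := by omega
          exact h4 v (Finset.mem_range.2 hv)
        · exact h3.2.1 (h2 d h5 v hv)
  -- the rows `bkF`
  have hF : ∀ i ≤ m, ∃ l : List (MvPolynomial σ K), LSLP l ∧ 0 ∈ l ∧ (∀ d ≤ m, bkF A i d ∈ l) ∧
      l.length ≤ 2 + i * (2 * (m + 1) ^ 2 * T) := by
    intro i
    induction i with
    | zero =>
      intro _
      refine ⟨[1 * C 0, 1], LSLP.cons LSLP.one (LStep.mulConst (by simp) 0), by simp, ?_, by simp⟩
      intro d _
      rw [bkF]
      split_ifs <;> simp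
    | succ i ih =>
      intro hi
      obtain ⟨l, h1, h2, h3, h4⟩ := ih (by omega)
      obtain ⟨l', h5, h6⟩ := hG i (by omega) m le_rfl l h2 h3
      obtain ⟨l'', h7, h8⟩ := LDer.all (Finset.range (m + 1)) (fun d => bkF A (i + 1) d) T l'
        (fun d hd l₁ hl₁ => by
          rcases d with _ | d
          · refine ⟨l₁, (LDer.refl l₁).mono (Nat.zero_le _), ?_⟩
            show bkF A (i + 1) 0 ∈ l₁
            rw [bkF]
            exact hl₁ (h5.2.1 (h3 0 (Nat.zero_le _)))
          · have hd' : d + 1 ≤ m := by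
              have := Finset.mem_range.1 hd
              omega
            obtain ⟨l2, h9, h10⟩ := mul_aff1 l₁ (bkF A i d) (bkF A i (d + 1))
              (hl₁ (h5.2.1 (h3 d (by omega)))) (hl₁ (h5.2.1 (h3 (d + 1) hd'))) (-A i i)
              (hA' i i).neg
            obtain ⟨l3, h11, h12⟩ := mul_affN l2 _ h10 i (fun v => bkG A i (bkF A i) d v)
              (fun v => - A v i) (fun v hv => h9.2.1 (hl₁ (h6 d (by omega) v hv)))
              (fun v => (hA' v i).neg)
            refine ⟨l3, (h9.trans h11).mono ?_, ?_⟩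
            · rw [hT]
              have : i * (3 * (Fintype.card σ + 1)) ≤ m * (3 * (Fintype.card σ + 1)) :=
                Nat.mul_le_mul_right _ (by omega)
              linarith
            · show bkF A (i + 1) (d + 1) ∈ l3
              have h13 : bkF A (i + 1) (d + 1) = bkF A i (d + 1) + bkF A i d * -A i i +
                  ∑ v ∈ Finset.range i, bkG A i (bkF A i) d v * -A v i := by
                rw [bkF]
                simp only [mul_neg, Finset.sum_neg_distrib]
                ring
              rw [h13]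
              exact h12)
      refine ⟨l'', h7.1 (h5.1 h1), h7.2.1 (h5.2.1 h2), fun d hd => h8 d (by
        rw [Finset.mem_range]; omega), ?_⟩
      have h9 := h7.2.2
      have h10 := h5.2.2
      rw [Finset.card_range] at h9
      have h11 : m * (m * T) + (m + 1) * T ≤ 2 * (m + 1) ^ 2 * T := by nlinarith
      have h12 : (i + 1) * (2 * (m + 1) ^ 2 * T) =
          i * (2 * (m + 1) ^ 2 * T) + 2 * (m + 1) ^ 2 * T := by ring
      omega
  obtain ⟨l, h1, h2, h3, h4⟩ := hF m le_rfl
  refine ⟨_, LSLP.cons h1 (LStep.mulConst (h3 m le_rfl) ((-1) ^ m)), ?_, ?_⟩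
  · have h5 : (-1 : MvPolynomial σ K) ^ m * bkF A m m = bkF A m m * C ((-1) ^ m) := by
      rw [C_pow, C_neg, C_1, mul_comm]
    rw [h5]
    exact List.mem_cons_self ..
  · rw [List.length_cons]
    obtain ⟨N, hN⟩ : ∃ N, N = m + Fintype.card σ + 2 := ⟨_, rfl⟩
    rw [← hN]
    have h5 : m * (2 * (m + 1) ^ 2 * T) ≤ 6 * N ^ 5 := by
      have h6 : m ≤ N := by omega
      have h7 : m + 1 ≤ N := by omega
      have h8 : Fintype.card σ + 1 ≤ N := by omega
      calc m * (2 * (m + 1) ^ 2 * T) ≤ N * (2 * N ^ 2 * (N * (3 * N))) := by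
            rw [hT]
            gcongr
        _ = 6 * N ^ 5 := by ring
    have h6 : 2 ≤ N := by omega
    have h7 : 16 ≤ N ^ 4 := by
      calc 16 = 2 ^ 4 := by norm_num
        _ ≤ N ^ 4 := Nat.pow_le_pow_left h6 4
    have h8 : N ^ 9 = N ^ 4 * N ^ 5 := by ring
    have h9 : 32 ≤ N ^ 5 := by
      calc 32 = 2 ^ 5 := by norm_num
        _ ≤ N ^ 5 := Nat.pow_le_pow_left h6 5
    nlinarith

end Pool.EQD
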