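import Pool.Agent.H79.EQD.Defs

set_option autoImplicit false

namespace Pool.EQD

open MvPolynomial Pool.Agent.H80

universe v

theorem card_agree {ι : Type} [Fintype ι] [DecidableEq ι] (k : ℕ) (S : Finset ι)
    (a₀ : ι → Fin k) (T : Finset (ι → Fin k)) (hT : ∀ a ∈ T, ∀ c ∈ S, a c = a₀ c) :
    T.card ≤ k ^ (Fintype.card ι - S.card) := by
  classical
  have h1 : T.card ≤ Fintype.card ({c // c ∉ S} → Fin k) := by
    rw [← Finset.card_univ]
    refine Finset.card_le_card_of_injOn (fun a c => a c.1) (fun _ _ => Finset.mem_coe.2 (Finset.mem_univ _)) ?_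
    intro a ha a' ha' haa
    funext c
    by_cases hc : c ∈ S
    · rw [hT a ha c hc, hT a' ha' c hc]
    · exact congrFun haa ⟨c, hc⟩
  refine h1.trans (le_of_eq ?_)
  rw [Fintype.card_fun, Fintype.card_fin]
  congr 1
  rw [Fintype.card_subtype_compl, Fintype.card_coe]

theorem t_cnt : CNTStmt.{v} := by
  classical
  intro ι _ G _ k b u X₀ X hk hsep H
  choose β hβ x hx s hs hxs hb using H
  have hne : Nonempty (Fin k) := ⟨⟨0, hk⟩⟩
  have hbι : b ≤ Fintype.card ι := by
    refine (hb (fun _ => hne.some)).trans ?_
    exact Finset.card_le_univ _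
  have h1 : (Finset.univ : Finset (ι → Fin k)).card ≤
      k ^ (Fintype.card ι - b) * (X₀ ×ˢ X).card := by
    refine Finset.card_le_mul_card_image_of_maps_to (f := fun a => (β a, x a)) ?_ _ ?_
    · intro a _
      exact Finset.mem_product.2 ⟨hβ a, hx a⟩
    · intro y _
      rcases ((Finset.univ : Finset (ι → Fin k)).filter
        (fun a => (β a, x a) = y)).eq_empty_or_nonempty with h0 | ⟨a₀, ha₀⟩
      · rw [h0]
        simp
      · have hy := (Finset.mem_filter.1 ha₀).2
        refine (card_agree k (Finset.univ.filter (fun c => s a₀ c ≠ 0)) a₀ _ ?_).trans ?_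
        · intro a ha c hc
          have hay := (Finset.mem_filter.1 ha).2
          have he : (β a, x a) = (β a₀, x a₀) := hay.trans hy.symm
          have hβ' : β a = β a₀ := congrArg Prod.fst he
          have hx' : x a = x a₀ := congrArg Prod.snd he
          have hsum : ∑ c, s a c • u c (a c) = ∑ c, s a₀ c • u c (a₀ c) := by
            have h2 := hxs a
            have h3 := hxs a₀
            rw [hx', hβ', h3] at h2
            exact (add_left_cancel h2).symm
          obtain ⟨h4, h5⟩ := hsep (s a) (s a₀) a a₀ (hs a) (hs a₀) hsum c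
          exact h5 (by rw [h4]; exact (Finset.mem_filter.1 hc).2)
        · refine Nat.pow_le_pow_right hk ?_
          have := hb a₀
          omega
  rw [Finset.card_univ, Fintype.card_fun, Fintype.card_fin, Finset.card_product] at h1
  have h2 : k ^ Fintype.card ι = k ^ (Fintype.card ι - b) * k ^ b := by
    rw [← pow_add]
    congr 1
    omega
  rw [h2] at h1
  exact Nat.le_of_mul_le_mul_left h1 (Nat.pow_pos hk)

end Pool.EQD
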