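import Pool.Agent.H79.EQD.Pre

set_option autoImplicit false

namespace Pool.EQD

open MvPolynomial Pool.Agent.H80

/-- the cut edges at time `j` -/
noncomputable def cutE (h : ℕ) (τ : List Bool → ℕ) (j : ℕ) : Finset (List Bool) := by
  classical
  exact (edges h).filter (fun c => ¬ ((τ c < j) ↔ (τ c.tail < j)))

theorem mem_cutE {h : ℕ} {τ : List Bool → ℕ} {j : ℕ} {c : List Bool} :
    c ∈ cutE h τ j ↔ c ∈ edges h ∧ ¬ ((τ c < j) ↔ (τ c.tail < j)) := by
  classical
  unfold cutE
  rw [Finset.mem_filter]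

/-- membership is constant off a subtree if no edge is cut there -/
theorem const_off (h : ℕ) (e : List Bool) (P : List Bool → Prop)
    (hP : ∀ c ∈ edges h, ¬ e <:+ c → (P c ↔ P c.tail)) :
    ∀ v ∈ nodes h, ¬ e <:+ v → (P v ↔ P []) := by
  intro v
  induction v with
  | nil => exact fun _ _ => Iff.rfl
  | cons b v ih =>
    intro hv hsuf
    rw [mem_nodes] at hv
    simp only [List.length_cons] at hv
    have h1 : ¬ e <:+ v := fun h' => hsuf (h'.trans (List.suffix_cons b v))
    have h2 := hP (b :: v) (mem_edges.2 ⟨by simp, by simpa using hv⟩) hsuf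
    rw [List.tail_cons] at h2
    exact h2.trans (ih (mem_nodes.2 (by omega)) h1)

theorem const_all (h : ℕ) (P : List Bool → Prop)
    (hP : ∀ c ∈ edges h, (P c ↔ P c.tail)) : ∀ v ∈ nodes h, (P v ↔ P []) := by
  intro v
  induction v with
  | nil => exact fun _ => Iff.rfl
  | cons b v ih =>
    intro hv
    rw [mem_nodes] at hv
    simp only [List.length_cons] at hv
    have h2 := hP (b :: v) (mem_edges.2 ⟨by simp, by simpa using hv⟩)
    rw [List.tail_cons] at h2
    exact h2.trans (ih (mem_nodes.2 (by omega)))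

theorem cut_base (h : ℕ) (hh : 1 ≤ h) (τ : List Bool → ℕ)
    (hτ : Set.InjOn τ (nodes h : Set (List Bool))) : ∃ j, 1 ≤ (cutE h τ j).card := by
  classical
  obtain ⟨v₀, hv₀, hmin⟩ := Finset.exists_min_image (nodes h) τ ⟨[], mem_nodes.2 (Nat.zero_le _)⟩
  refine ⟨τ v₀ + 1, ?_⟩
  rw [Nat.succ_le_iff, Finset.card_pos]
  by_contra hne
  rw [Finset.not_nonempty_iff_eq_empty] at hne
  have hall := const_all h (fun v => τ v < τ v₀ + 1) (by
    intro c hc
    by_contra h'
    have : c ∈ cutE h τ (τ v₀ + 1) := mem_cutE.2 ⟨hc, h'⟩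
    rw [hne] at this
    exact absurd this (Finset.notMem_empty c))
  have h1 : τ [] < τ v₀ + 1 := (hall v₀ hv₀).1 (by simp)
  have h2 : τ [true] < τ v₀ + 1 := (hall [true] (mem_nodes.2 (by simpa using hh))).2 h1
  have h3 := hmin [] (mem_nodes.2 (Nat.zero_le _))
  have h4 := hmin [true] (mem_nodes.2 (by simpa using hh))
  have h5 : τ [] = τ [true] := by omega
  have h6 := hτ (Finset.mem_coe.2 (mem_nodes.2 (Nat.zero_le _)))
    (Finset.mem_coe.2 (mem_nodes.2 (by simpa using hh))) h5
  simp at h6

theorem exists_mid (J : List Bool → ℕ) : ∃ a b c : List Bool, a.length = 2 ∧ b.length = 2 ∧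
    c.length = 2 ∧ a ≠ b ∧ c ≠ b ∧ J a ≤ J b ∧ J b ≤ J c := by
  rcases le_total (J [false, false]) (J [true, false]) with h1 | h1 <;>
  rcases le_total (J [true, false]) (J [false, true]) with h2 | h2 <;>
  rcases le_total (J [false, false]) (J [false, true]) with h3 | h3
  · exact ⟨[false, false], [true, false], [false, true], rfl, rfl, rfl, by simp, by simp, h1, h2⟩
  · exact ⟨[false, false], [true, false], [false, true], rfl, rfl, rfl, by simp, by simp, h1, h2⟩
  · exact ⟨[false, false], [false, true], [true, false], rfl, rfl, rfl, by simp, by simp, h3, h2⟩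
  · exact ⟨[false, true], [false, false], [true, false], rfl, rfl, rfl, by simp, by simp, h3, h1⟩
  · exact ⟨[true, false], [false, false], [false, true], rfl, rfl, rfl, by simp, by simp, h1, h3⟩
  · exact ⟨[true, false], [false, true], [false, false], rfl, rfl, rfl, by simp, by simp, h2, h3⟩
  · exact ⟨[false, true], [true, false], [false, false], rfl, rfl, rfl, by simp, by simp, h2, h1⟩
  · exact ⟨[false, true], [true, false], [false, false], rfl, rfl, rfl, by simp, by simp, h2, h1⟩

theorem not_suffix_append {a b l : List Bool} (ha : a.length = 2) (hb : b.length = 2)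
    (hab : a ≠ b) : ¬ b <:+ (l ++ a) := by
  intro h
  have h1 : a <:+ (l ++ a) := List.suffix_append l a
  have h2 := List.suffix_of_suffix_length_le h h1 (by omega)
  exact hab (h2.eq_of_length (by omega)).symm

theorem cut_step (h : ℕ) (hh : 1 ≤ h)
    (ih : ∀ τ : List Bool → ℕ, Set.InjOn τ (nodes h : Set (List Bool)) →
      ∃ j, (h + 1) / 2 ≤ (cutE h τ j).card)
    (τ : List Bool → ℕ) (hτ : Set.InjOn τ (nodes (h + 2) : Set (List Bool))) :
    ∃ j, (h + 2 + 1) / 2 ≤ (cutE (h + 2) τ j).card := by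
  classical
  have H : ∀ e : List Bool, ∃ j : ℕ, e.length = 2 →
      (h + 1) / 2 ≤ (cutE h (fun l => τ (l ++ e)) j).card := by
    intro e
    by_cases he : e.length = 2
    · obtain ⟨j, hj⟩ := ih (fun l => τ (l ++ e)) (by
        intro x hx y hy hxy
        have hx' := mem_nodes.1 (Finset.mem_coe.1 hx)
        have hy' := mem_nodes.1 (Finset.mem_coe.1 hy)
        have h1 := hτ (Finset.mem_coe.2 (mem_nodes.2 (by rw [List.length_append]; omega)))
          (Finset.mem_coe.2 (mem_nodes.2 (by rw [List.length_append]; omega))) hxy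
        exact List.append_cancel_right h1)
      exact ⟨j, fun _ => hj⟩
    · exact ⟨0, fun h' => absurd h' he⟩
  choose J hJ using H
  obtain ⟨a, b, c, ha, hb, hc, hab, hcb, h1, h2⟩ := exists_mid J
  -- in the subtree a some node is early, in the subtree c some node is late
  have hone : ∀ e : List Bool, e.length = 2 → ∃ l ∈ nodes h, ∃ l' ∈ nodes h,
      τ (l ++ e) < J e ∧ ¬ τ (l' ++ e) < J e := by
    intro e he
    have h3 : 0 < (cutE h (fun l => τ (l ++ e)) (J e)).card := by
      have := hJ e he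
      omega
    obtain ⟨l, hl⟩ := Finset.card_pos.1 h3
    obtain ⟨hl1, hl2⟩ := mem_cutE.1 hl
    have hl3 := mem_edges.1 hl1
    have hln : l ∈ nodes h := mem_nodes.2 hl3.2
    have hlt : l.tail ∈ nodes h := mem_nodes.2 (by
      rw [List.length_tail]
      omega)
    by_cases h4 : τ (l ++ e) < J e
    · exact ⟨l, hln, l.tail, hlt, h4, fun h5 => hl2 ⟨fun _ => h5, fun _ => h4⟩⟩
    · refine ⟨l.tail, hlt, l, hln, ?_, h4⟩
      by_contra h5
      exact hl2 ⟨fun h6 => absurd h6 h4, fun h6 => absurd h6 h5⟩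
  obtain ⟨la, hla, -, -, hPa, -⟩ := hone a ha
  obtain ⟨-, -, lc, hlc, -, hPc⟩ := hone c hc
  refine ⟨J b, ?_⟩
  -- a cut edge outside of the subtree b
  obtain ⟨c₀, hc₀, hc₀s⟩ : ∃ c₀ ∈ cutE (h + 2) τ (J b), ¬ b <:+ c₀ := by
    by_contra hno
    push Not at hno
    have hall := const_off (h + 2) b (fun v => τ v < J b) (by
      intro c' hc' hs'
      by_contra h'
      exact hs' (hno c' (mem_cutE.2 ⟨hc', h'⟩)))
    have h3 := hall (la ++ a) (mem_nodes.2 (by
      rw [List.length_append]
      have := mem_nodes.1 hla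
      omega)) (not_suffix_append ha hb hab)
    have h4 := hall (lc ++ c) (mem_nodes.2 (by
      rw [List.length_append]
      have := mem_nodes.1 hlc
      omega)) (not_suffix_append hc hb hcb)
    have h5 : τ (la ++ a) < J b := lt_of_lt_of_le hPa h1
    have h6 : τ (lc ++ c) < J b := h4.2 (h3.1 h5)
    exact hPc (lt_of_lt_of_le h6 h2)
  -- the cut edges inside of the subtree b
  set F := (cutE h (fun l => τ (l ++ b)) (J b)).image (fun l => l ++ b) with hF
  have hFc : (h + 1) / 2 ≤ F.card := by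
    rw [hF, Finset.card_image_of_injective _ (fun x y hxy => List.append_cancel_right hxy)]
    exact hJ b hb
  have hFs : F ⊆ cutE (h + 2) τ (J b) := by
    intro x hx
    obtain ⟨l, hl, rfl⟩ := Finset.mem_image.1 hx
    obtain ⟨hl1, hl2⟩ := mem_cutE.1 hl
    have hl3 := mem_edges.1 hl1
    refine mem_cutE.2 ⟨mem_edges.2 ⟨?_, ?_⟩, ?_⟩
    · intro h'
      exact hl3.1 (List.append_eq_nil_iff.1 h').1
    · rw [List.length_append]
      omega
    · rw [List.tail_append_of_ne_nil hl3.1]
      exact hl2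
  have hnot : c₀ ∉ F := by
    intro hx
    obtain ⟨l, _, rfl⟩ := Finset.mem_image.1 hx
    exact hc₀s (List.suffix_append l b)
  have h3 : (insert c₀ F).card ≤ (cutE (h + 2) τ (J b)).card :=
    Finset.card_le_card (Finset.insert_subset hc₀ hFs)
  rw [Finset.card_insert_of_notMem hnot] at h3
  omega

theorem cut_all (h : ℕ) : ∀ τ : List Bool → ℕ, Set.InjOn τ (nodes h : Set (List Bool)) →
    ∃ j, (h + 1) / 2 ≤ (cutE h τ j).card := by
  induction h using Nat.strong_induction_on with
  | _ h ih =>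
    intro τ hτ
    match h, ih, hτ with
    | 0, _, _ => exact ⟨0, by simp⟩
    | 1, _, hτ => exact cut_base 1 le_rfl τ hτ
    | 2, _, hτ => exact cut_base 2 (by omega) τ hτ
    | (h + 3), ih, hτ =>
      exact cut_step (h + 1) (by omega) (ih (h + 1) (by omega)) τ hτ

theorem t_cut : CUTStmt := by
  classical
  intro h τ hτ
  obtain ⟨j, hj⟩ := cut_all h τ hτ
  refine ⟨j, hj.trans (le_of_eq ?_)⟩
  congr 1
  ext c
  rw [mem_cutE, Finset.mem_filter]
  refine and_congr_right fun _ => ?_
  unfold cut
  by_cases h1 : τ c < j <;> by_cases h2 : τ c.tail < j <;> simp [h1, h2]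

end Pool.EQD
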