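import Pool.Agent.H79.EQD.Defs4

/-!
# Permutations with given cycles
-/

set_option autoImplicit false

namespace Pool.EQD

theorem t_cyc : CYCStmt := by
  classical
  intro n M p hp hsum
  have hne : ∀ c, NeZero (p c) := fun c => ⟨(hp c).ne'⟩
  obtain ⟨ρ, hρ⟩ : ∃ ρ : Equiv.Perm (Σ c : Fin M, ZMod (p c)),
      ∀ a, ρ a = ⟨a.1, a.2 + 1⟩ :=
    ⟨Equiv.sigmaCongrRight fun c => Equiv.addRight (1 : ZMod (p c)), fun _ => rfl⟩
  have hpow : ∀ (k : ℕ) (a : Σ c : Fin M, ZMod (p c)), (ρ ^ k) a = ⟨a.1, a.2 + (k : ZMod (p a.1))⟩ := by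
    intro k
    induction k with
    | zero => intro a; simp
    | succ k ih =>
      intro a
      rw [pow_succ', Equiv.Perm.mul_apply, ih, hρ]
      simp only [Nat.cast_add, Nat.cast_one, add_assoc]
  have hcard : Fintype.card (Σ c : Fin M, ZMod (p c)) ≤ Fintype.card {x : Fin (n + 1) // x ≠ 0} := by
    rw [Fintype.card_sigma, Fintype.card_subtype_compl, Fintype.card_subtype_eq, Fintype.card_fin]
    simp only [ZMod.card]
    omega
  obtain ⟨emb⟩ := Function.Embedding.nonempty_of_card_le hcard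
  obtain ⟨f, hf⟩ : ∃ f : (Σ c : Fin M, ZMod (p c)) → Fin (n + 1), f = fun a => (emb a).1 :=
    ⟨_, rfl⟩
  have hfi : Function.Injective f := by
    rw [hf]
    exact fun a b h => emb.injective (Subtype.ext h)
  have hf0 : ∀ a, f a ≠ 0 := by
    rw [hf]
    exact fun a => (emb a).2
  obtain ⟨π, hπ⟩ : ∃ π : Equiv.Perm (Fin (n + 1)),
      π = ρ.extendDomain (Equiv.ofInjective f hfi) := ⟨_, rfl⟩
  have hπf : ∀ (k : ℕ) a, (π ^ k) (f a) = f ((ρ ^ k) a) := by
    intro k
    induction k with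
    | zero => intro a; rfl
    | succ k ih =>
      intro a
      rw [pow_succ', Equiv.Perm.mul_apply, ih, pow_succ', Equiv.Perm.mul_apply, hπ]
      exact Equiv.Perm.extendDomain_apply_image ρ (Equiv.ofInjective f hfi) _
  have hπ0 : ∀ x, x ∉ Set.range f → π x = x := by
    intro x hx
    rw [hπ]
    exact Equiv.Perm.extendDomain_apply_not_subtype ρ (Equiv.ofInjective f hfi) hx
  refine ⟨π, hπ0 0 fun ⟨a, ha⟩ => hf0 a ha, orderOf_dvd_of_pow_eq_one ?_, fun c => ⟨f ⟨c, 0⟩, ?_⟩⟩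
  · ext1 x
    by_cases hx : x ∈ Set.range f
    · obtain ⟨a, rfl⟩ := hx
      rw [hπf, hpow]
      have h1 : ((∏ c, p c : ℕ) : ZMod (p a.1)) = 0 :=
        (ZMod.natCast_eq_zero_iff _ _).2 (Finset.dvd_prod_of_mem p (Finset.mem_univ a.1))
      rw [h1, add_zero]
      rfl
    · have h1 : ∀ k : ℕ, (π ^ k) x = x := by
        intro k
        induction k with
        | zero => rfl
        | succ k ih => rw [pow_succ', Equiv.Perm.mul_apply, ih, hπ0 x hx]
      rw [h1]
      rfl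
  · have h1 : ∀ k : ℕ, Function.IsPeriodicPt π k (f ⟨c, 0⟩) ↔ p c ∣ k := by
      intro k
      unfold Function.IsPeriodicPt Function.IsFixedPt
      rw [Equiv.Perm.iterate_eq_pow, hπf, hpow, hfi.eq_iff, ← ZMod.natCast_eq_zero_iff]
      simp
    refine Nat.dvd_antisymm ?_ ?_
    · exact Function.isPeriodicPt_iff_minimalPeriod_dvd.1 ((h1 _).2 dvd_rfl)
    · exact (h1 _).1 (Function.isPeriodicPt_minimalPeriod _ _)

end Pool.EQD
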