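import Pool.Agent.H79.EQD.Defs

/-!
# Closed walks in a term of the Leibniz formula (MP_f18ce0_lc)
-/

set_option autoImplicit false

namespace Pool.EQD

open Finset

universe v

section

variable {G : Type v} [AddCommGroup G] {m : ℕ} {γ η : Fin m → G}

open Classical in
/-- The defects of a permutation. -/
noncomputable def defects (γ η : Fin m → G) (ψ : Equiv.Perm (Fin m)) : Finset (Fin m) :=
  univ.filter (fun i => γ (ψ i) ≠ η i)

omit [AddCommGroup G] in
theorem mem_defects {ψ : Equiv.Perm (Fin m)} {i : Fin m} :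
    i ∈ defects γ η ψ ↔ γ (ψ i) ≠ η i := by
  classical
  simp [defects]

open Classical in
/-- The increment of a column. -/
noncomputable def inc {ι : Type} (T : Term γ η ι) (i : Fin m) : G :=
  ∑ v ∈ T.N.filter (fun v => T.col v = i), T.ω v

theorem step {ι : Type} (T : Term γ η ι) (i : Fin m) : γ (T.π i) = η i + inc T i := by
  classical
  by_cases hi : ∃ v ∈ T.N, T.col v = i
  · obtain ⟨v, hv, rfl⟩ := hi
    have h1 : T.N.filter (fun w => T.col w = T.col v) = {v} := by
      ext w
      simp only [mem_filter, mem_singleton]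
      constructor
      · rintro ⟨hw, hwv⟩
        exact T.inj hw hv hwv
      · rintro rfl
        exact ⟨hv, rfl⟩
    rw [inc, h1, sum_singleton]
    exact T.hN v hv
  · push Not at hi
    have h1 : T.N.filter (fun w => T.col w = i) = ∅ := by
      ext w
      simp only [mem_filter, notMem_empty, iff_false, not_and]
      exact hi w
    rw [inc, h1, sum_empty, add_zero]
    exact T.h0 i hi

theorem defects_le {ι : Type} (T : Term γ η ι) : (defects γ η T.π).card ≤ T.N.card := by
  classical
  refine le_trans (card_le_card (t := T.N.image T.col) ?_) card_image_le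
  intro i hi
  rw [mem_defects] at hi
  by_contra hc
  apply hi
  refine T.h0 i ?_
  intro v hv hvi
  exact hc (mem_image.2 ⟨v, hv, hvi⟩)

theorem walk {ι : Type} (T : Term γ η ι) (ψ : Equiv.Perm (Fin m)) (i₀ : Fin m) (J : ℕ)
    (hJ : ∀ j, 1 ≤ j → j ≤ J → ((ψ⁻¹ * T.π) ^ j) i₀ ∉ defects γ η ψ) :
    ∀ n, n ≤ J → γ (T.π (((ψ⁻¹ * T.π) ^ n) i₀)) =
      η i₀ + ∑ j ∈ range (n + 1), inc T (((ψ⁻¹ * T.π) ^ j) i₀) := by
  intro n
  induction n with
  | zero =>
    intro _
    simp only [pow_zero, Equiv.Perm.coe_one, id_eq, zero_add, range_one, sum_singleton]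
    exact step T i₀
  | succ n ih =>
    intro hn
    have h1 := ih (by omega)
    have h2 := hJ (n + 1) (by omega) hn
    rw [mem_defects, not_not] at h2
    rw [step T, ← h2, sum_range_succ _ (n + 1)]
    have h3 : ψ (((ψ⁻¹ * T.π) ^ (n + 1)) i₀) = T.π (((ψ⁻¹ * T.π) ^ n) i₀) := by
      rw [pow_succ']
      simp [Equiv.Perm.mul_apply]
    rw [h3, h1, add_assoc]

open Classical in
theorem sum_inc {ι : Type} (T : Term γ η ι) (f : ℕ → Fin m) (n : ℕ)
    (hf : Set.InjOn f (range n : Set ℕ)) :
    ∑ j ∈ range n, inc T (f j) =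
      ∑ v ∈ T.N.filter (fun v => ∃ j < n, f j = T.col v), T.ω v := by
  have h1 : T.N.filter (fun v => ∃ j < n, f j = T.col v) =
      (range n).biUnion (fun j => T.N.filter (fun v => T.col v = f j)) := by
    ext v
    simp only [mem_filter, mem_biUnion, mem_range]
    constructor
    · rintro ⟨hv, j, hj, hjv⟩
      exact ⟨j, hj, hv, hjv.symm⟩
    · rintro ⟨j, hj, hv, hjv⟩
      exact ⟨hv, j, hj, hjv.symm⟩
  rw [h1, sum_biUnion]
  · rfl
  · intro a ha b hb hab
    rw [Function.onFun, disjoint_left]
    intro v hva hvb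
    rw [mem_filter] at hva hvb
    exact hab (hf ha hb (hva.2.symm.trans hvb.2))

theorem pow_injOn (θ : Equiv.Perm (Fin m)) (i₀ : Fin m) (n : ℕ)
    (hn : n ≤ Function.minimalPeriod θ i₀) :
    Set.InjOn (fun j => (θ ^ j) i₀) (range n : Set ℕ) := by
  intro a ha b hb hab
  rw [coe_range, Set.mem_Iio] at ha hb
  simp only at hab
  rw [Equiv.Perm.coe_pow, Equiv.Perm.coe_pow] at hab
  exact Function.iterate_injOn_Iio_minimalPeriod (Set.mem_Iio.2 (lt_of_lt_of_le ha hn))
    (Set.mem_Iio.2 (lt_of_lt_of_le hb hn)) hab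

theorem period_pos (θ : Equiv.Perm (Fin m)) (i₀ : Fin m) :
    0 < Function.minimalPeriod θ i₀ := by
  apply Function.minimalPeriod_pos_of_mem_periodicPts
  exact Function.Injective.mem_periodicPts θ.injective i₀

theorem pow_period (θ : Equiv.Perm (Fin m)) (i₀ : Fin m) :
    (θ ^ Function.minimalPeriod θ i₀) i₀ = i₀ := by
  rw [Equiv.Perm.coe_pow]
  exact Function.iterate_minimalPeriod

end

theorem t_dcm : DCMStmt.{v} := by
  classical
  intro G _ m γ η d
  obtain ⟨ψ, -, hψ⟩ := exists_min_image (univ : Finset (Equiv.Perm (Fin m)))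
    (fun ψ => (defects γ η ψ).card) univ_nonempty
  have hψ' : ∀ ψ' : Equiv.Perm (Fin m), (defects γ η ψ).card ≤ (defects γ η ψ').card :=
    fun ψ' => hψ ψ' (mem_univ _)
  by_cases hD : (defects γ η ψ) = ∅
  · right
    intro ι T hT v₀ hv₀
    have hD' : ∀ i, i ∉ defects γ η ψ := by
      intro i
      rw [hD]
      exact notMem_empty i
    set θ : Equiv.Perm (Fin m) := ψ⁻¹ * T.π with hθ
    set i₀ := T.col v₀ with hi₀
    set p := Function.minimalPeriod θ i₀ with hp
    have hp0 : 0 < p := period_pos θ i₀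
    have hpp : (θ ^ p) i₀ = i₀ := pow_period θ i₀
    have hη : ∀ i, η (θ i) = γ (T.π i) := by
      intro i
      have h1 := hD' (θ i)
      rw [mem_defects, not_not] at h1
      rw [← h1, hθ]
      simp [Equiv.Perm.mul_apply]
    -- the partial sums
    have hpart : ∀ n, n ≤ p → η ((θ ^ n) i₀) = η i₀ +
        ∑ v ∈ T.N.filter (fun v => ∃ j < n, (θ ^ j) i₀ = T.col v), T.ω v := by
      intro n hn
      rcases n with _ | n
      · simp
      · rw [pow_succ', Equiv.Perm.mul_apply, hη,
          walk T ψ i₀ n (fun j _ _ => hD' _) n le_rfl,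
          sum_inc T (fun j => (θ ^ j) i₀) (n + 1) (pow_injOn θ i₀ (n + 1) hn)]
    set B := T.N.filter (fun v => ∃ j < p, (θ ^ j) i₀ = T.col v) with hB
    set τ : ι → ℕ := fun v => sInf {j | (θ ^ j) i₀ = T.col v} with hτ
    have hτ1 : ∀ v ∈ B, (θ ^ (τ v)) i₀ = T.col v := by
      intro v hv
      rw [hB, mem_filter] at hv
      obtain ⟨_, j, hj, hjv⟩ := hv
      exact Nat.sInf_mem (s := {j | (θ ^ j) i₀ = T.col v}) ⟨j, hjv⟩
    have hτ2 : ∀ v, ∀ j, (θ ^ j) i₀ = T.col v → τ v ≤ j := by
      intro v j hj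
      exact Nat.sInf_le hj
    have hfil : ∀ n, n ≤ p → B.filter (fun v => τ v < n) =
        T.N.filter (fun v => ∃ j < n, (θ ^ j) i₀ = T.col v) := by
      intro n hn
      ext v
      constructor
      · intro hv
        obtain ⟨hvB, hvn⟩ := mem_filter.1 hv
        exact mem_filter.2 ⟨(mem_filter.1 hvB).1, τ v, hvn, hτ1 v hvB⟩
      · intro hv
        obtain ⟨hvN, j, hj, hjv⟩ := mem_filter.1 hv
        refine mem_filter.2 ⟨?_, lt_of_le_of_lt (hτ2 v j hjv) hj⟩
        exact mem_filter.2 ⟨hvN, j, lt_of_lt_of_le hj hn, hjv⟩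
    have hsum : ∑ v ∈ B, T.ω v = 0 := by
      have h1 := hpart p le_rfl
      rw [hpp, ← hB] at h1
      exact left_eq_add.1 h1
    refine ⟨B, filter_subset _ _, ?_, hsum, τ, ?_, ?_⟩
    · rw [hB, mem_filter]
      exact ⟨hv₀, 0, hp0, by simp [hi₀]⟩
    · intro a ha b hb hab
      have h1 := hτ1 a ha
      have h2 := hτ1 b hb
      rw [hab] at h1
      exact T.inj (mem_filter.1 ha).1 (mem_filter.1 hb).1 (h1.symm.trans h2)
    · intro j
      by_cases hj : j ≤ p
      · refine ⟨(θ ^ j) i₀, ?_⟩
        rw [hpart j hj, hfil j hj]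
      · refine ⟨i₀, ?_⟩
        have h1 : B.filter (fun v => τ v < j) = B := by
          rw [filter_eq_self]
          intro v hv
          obtain ⟨_, j', hj', hjv⟩ := mem_filter.1 hv
          have := hτ2 v j' hjv
          omega
        rw [h1, hsum, add_zero]
  · left
    by_cases hd : (defects γ η ψ).card ≤ d
    · refine ⟨(defects γ η ψ).image η, (defects γ η ψ).image (fun i => γ (ψ i)),
        le_trans card_image_le hd, le_trans card_image_le hd, ?_⟩
      intro ι T hT
      obtain ⟨i₁, hi₁⟩ := nonempty_iff_ne_empty.2 hD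
      set θ : Equiv.Perm (Fin m) := ψ⁻¹ * T.π with hθ
      have hp0 : 0 < Function.minimalPeriod θ i₁ := period_pos θ i₁
      have hpp : (θ ^ Function.minimalPeriod θ i₁) i₁ = i₁ := pow_period θ i₁
      have hex : ∃ J, (θ ^ (J + 1)) i₁ ∈ defects γ η ψ := by
        refine ⟨Function.minimalPeriod θ i₁ - 1, ?_⟩
        rw [Nat.sub_add_cancel hp0, hpp]
        exact hi₁
      have hmin : ∀ j, j < Nat.find hex → (θ ^ (j + 1)) i₁ ∉ defects γ η ψ :=
        fun j hj => Nat.find_min hex hj
      have hJ := Nat.find_spec hex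
      set J := Nat.find hex with hJdef
      have hJp : J + 1 ≤ Function.minimalPeriod θ i₁ := by
        by_contra hc
        push Not at hc
        apply hmin (Function.minimalPeriod θ i₁ - 1) (by omega)
        rw [Nat.sub_add_cancel hp0, hpp]
        exact hi₁
      have hw := walk T ψ i₁ J (fun j h1 h2 => by
        have := hmin (j - 1) (by omega)
        rw [Nat.sub_add_cancel h1] at this
        exact this) J le_rfl
      rw [sum_inc T (fun j => (θ ^ j) i₁) (J + 1) (pow_injOn θ i₁ (J + 1) hJp)] at hw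
      have h3 : ψ ((θ ^ (J + 1)) i₁) = T.π ((θ ^ J) i₁) := by
        rw [pow_succ', hθ]
        simp [Equiv.Perm.mul_apply]
      rw [← hθ, ← h3] at hw
      refine ⟨T.N.filter (fun v => ∃ j < J + 1, (θ ^ j) i₁ = T.col v), filter_subset _ _,
        η i₁, mem_image_of_mem _ hi₁, γ (ψ ((θ ^ (J + 1)) i₁)),
        mem_image_of_mem (fun i => γ (ψ i)) hJ, ?_, hw⟩
      set i₂ := (θ ^ (J + 1)) i₁ with hi₂
      intro heq
      by_cases h12 : i₂ = i₁
      · rw [h12] at heq
        exact mem_defects.1 hi₁ heq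
      · have hlt : (defects γ η (ψ * Equiv.swap i₁ i₂)).card < (defects γ η ψ).card := by
          apply card_lt_card
          rw [ssubset_iff_of_subset]
          · refine ⟨i₁, hi₁, ?_⟩
            rw [mem_defects, not_not]
            simpa [Equiv.Perm.mul_apply] using heq
          · intro i hi
            rw [mem_defects] at hi
            by_cases hi1 : i = i₁
            · rw [hi1]
              exact hi₁
            · by_cases hi2 : i = i₂
              · rw [hi2]
                exact hJ
              · rw [mem_defects]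
                rw [Equiv.Perm.mul_apply, Equiv.swap_apply_of_ne_of_ne hi1 hi2] at hi
                exact hi
        have := hψ' (ψ * Equiv.swap i₁ i₂)
        omega
    · refine ⟨∅, ∅, by simp, by simp, ?_⟩
      intro ι T hT
      exfalso
      have h1 := hψ' T.π
      have h2 := defects_le T
      omega

end Pool.EQD
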