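import Pool.Agent.H79.EQD.Defs

/-!
# The Leibniz formula for affine linear matrices (board `vgr`, row DEX)
-/

set_option autoImplicit false

namespace Pool.EQD

open MvPolynomial

universe u

section

variable {K : Type u} [CommSemiring K] {σ : Type} [Fintype σ] {m : ℕ}

/-- The entries of `aff A` as sums of monomials. -/
theorem aff_apply (A : Option σ → Matrix (Fin m) (Fin m) K) (i j : Fin m) :
    aff A i j = ∑ o : Option σ,
      monomial (o.elim 0 (fun e => Finsupp.single e 1)) (A o i j) := by
  rw [Fintype.sum_option]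
  simp only [aff, Matrix.of_apply, Option.elim_none, Option.elim_some]
  congr 1
  refine Finset.sum_congr rfl fun e _ => ?_
  rw [X, C_mul_monomial, mul_one]

end

/-- DEX: Leibniz. -/
theorem t_dex : DEXStmt.{u} := by
  classical
  intro K _ σ _ m A μ h
  rw [Matrix.det_apply, coeff_sum] at h
  obtain ⟨π, _, hπ⟩ := Finset.exists_ne_zero_of_sum_ne_zero h
  have h1 : coeff μ (∏ i, aff A (π i) i) ≠ 0 := by
    intro h0
    apply hπ
    rw [Units.smul_def, coeff_smul, h0, smul_zero]
  rw [Finset.prod_congr rfl (fun i _ => aff_apply A (π i) i), Finset.prod_univ_sum,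
    coeff_sum] at h1
  obtain ⟨φ, _, hφ⟩ := Finset.exists_ne_zero_of_sum_ne_zero h1
  have e1 : ∏ i, monomial ((φ i).elim 0 (fun e => Finsupp.single e 1)) (A (φ i) (π i) i) =
      monomial (∑ i, (φ i).elim 0 (fun e => Finsupp.single e 1)) (∏ i, A (φ i) (π i) i) := by
    have : ∀ s : Finset (Fin m),
        ∏ i ∈ s, monomial ((φ i).elim 0 (fun e => Finsupp.single e 1)) (A (φ i) (π i) i) =
        (monomial (∑ i ∈ s, (φ i).elim 0 (fun e => Finsupp.single e 1))
          (∏ i ∈ s, A (φ i) (π i) i) : MvPolynomial σ K) := by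
      intro s
      induction s using Finset.induction_on with
      | empty => simp
      | insert x s hx ih =>
        rw [Finset.prod_insert hx, Finset.sum_insert hx, Finset.prod_insert hx, ih,
          monomial_mul]
    exact this _
  rw [e1, coeff_monomial] at hφ
  refine ⟨π, φ, ?_, ?_⟩
  · by_contra h2
    exact hφ (if_neg h2)
  · intro i h2
    apply hφ
    have h3 : ∏ i, A (φ i) (π i) i = 0 := Finset.prod_eq_zero (Finset.mem_univ i) h2
    rw [h3, ite_self]

end Pool.EQD
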