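import Pool.Agent.H79.EQD.Defs2
import Pool.Agent.H58.EQD.Stk

/-!
# Determinantal representations from transition systems (helper8)
-/

set_option autoImplicit false

namespace Pool.EQD.Det

open MvPolynomial Matrix

universe u

section abs

variable {K : Type u} [Field K] {σ : Type} {S : Type} [Fintype S] [DecidableEq S]

/-- The matrix of a transition system with the final row `F` and the empty state `s₀`. -/
noncomputable def emat (B : S → S → MvPolynomial σ K) (F : S → K) (s₀ : S) :
    Matrix (Option S) (Option S) (MvPolynomial σ K) := fun i j =>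
  match i, j with
  | some s, some t => (if s = t then 1 else 0) - B s t
  | some s, none => if s = s₀ then 1 else 0
  | none, some t => - C (F t)
  | none, none => 0

/-- The same with the unit column. -/
noncomputable def umat (B : S → S → MvPolynomial σ K) (F : S → K) :
    Matrix (Option S) (Option S) (MvPolynomial σ K) := fun i j =>
  match i, j with
  | some s, some t => (if s = t then 1 else 0) - B s t
  | some _, none => 0
  | none, some t => - C (F t)
  | none, none => 1

theorem det_umat (B : S → S → MvPolynomial σ K) (F : S → K) (mu : S → ℕ)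
    (hmu : ∀ s t, B s t ≠ 0 → mu t < mu s) : (umat B F).det = 1 := by
  classical
  set b : Option S → ℕᵒᵈ := fun i => OrderDual.toDual
    (i.elim (Finset.univ.sup mu + 1) mu) with hb
  have hbs : ∀ s, b (some s) = OrderDual.toDual (mu s) := fun s => rfl
  have hbn : b none = OrderDual.toDual (Finset.univ.sup mu + 1) := rfl
  have hle : ∀ s, mu s ≤ Finset.univ.sup mu := fun s => Finset.le_sup (Finset.mem_univ s)
  have key : ∀ i j, b j ≤ b i → i ≠ j → umat B F i j = 0 := by
    intro i j hij hne
    rcases i with _ | s <;> rcases j with _ | t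
    · exact absurd rfl hne
    · exfalso
      rw [hbs, hbn, OrderDual.toDual_le_toDual] at hij
      have := hle t
      omega
    · rfl
    · rw [hbs, hbs, OrderDual.toDual_le_toDual] at hij
      have hst : s ≠ t := fun h => hne (congrArg some h)
      show (if s = t then 1 else 0) - B s t = 0
      rw [if_neg hst, zero_sub, neg_eq_zero]
      by_contra h
      have := hmu s t h
      omega
  have hT : (umat B F).BlockTriangular b := by
    intro i j hij
    exact key i j hij.le (fun h => by rw [h] at hij; exact lt_irrefl _ hij)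
  rw [hT.det]
  refine Finset.prod_eq_one fun a _ => ?_
  have h1 : (umat B F).toSquareBlock b a = 1 := by
    ext1 ⟨i, hi⟩ ⟨j, hj⟩
    rw [Matrix.toSquareBlock_def]
    simp only [Matrix.of_apply]
    by_cases hij : i = j
    · subst hij
      rw [Matrix.one_apply_eq]
      rcases i with _ | s
      · rfl
      · show (if s = s then 1 else 0) - B s s = 1
        rw [if_pos rfl]
        have h2 : B s s = 0 := by
          by_contra h
          exact lt_irrefl _ (hmu s s h)
        rw [h2, sub_zero]
    · rw [Matrix.one_apply_ne (fun h => hij (Subtype.mk.inj h))]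
      exact key i j (le_of_eq (hj.trans hi.symm)) hij
  rw [h1, Matrix.det_one]

theorem det_emat (B : S → S → MvPolynomial σ K) (F : S → K) (s₀ : S) (mu : S → ℕ)
    (hmu : ∀ s t, B s t ≠ 0 → mu t < mu s) (y : S → MvPolynomial σ K) (hy0 : y s₀ = 1)
    (hB0 : ∀ t, B s₀ t = 0) (hy : ∀ s, s ≠ s₀ → ∑ t, B s t * y t = y s) :
    (emat B F s₀).det = ∑ t, C (F t) * y t := by
  classical
  set b : Option S → MvPolynomial σ K := Pi.single (some s₀) 1 with hb
  set z : Option S → MvPolynomial σ K := fun i => i.elim (∑ t, C (F t) * y t) y with hz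
  have h1 : emat B F s₀ = (umat B F).updateCol none b := by
    ext1 i j
    rcases j with _ | t
    · rw [Matrix.updateCol_self, hb]
      rcases i with _ | s
      · show (0 : MvPolynomial σ K) = _
        rw [Pi.single_eq_of_ne (by simp)]
      · show (if s = s₀ then (1 : MvPolynomial σ K) else 0) = _
        rw [Pi.single_apply]
        by_cases h : s = s₀
        · rw [if_pos h, if_pos (congrArg some h)]
        · rw [if_neg h, if_neg (fun h' => h (Option.some.inj h'))]
    · rw [Matrix.updateCol_ne (by simp)]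
      rcases i with _ | s
      · rfl
      · rfl
  have h2 : (umat B F) *ᵥ z = b := by
    funext i
    rw [Matrix.mulVec, dotProduct, Fintype.sum_option]
    rcases i with _ | s
    · show (1 : MvPolynomial σ K) * (∑ t, C (F t) * y t) + ∑ t, (- C (F t)) * y t = b none
      rw [hb, Pi.single_eq_of_ne (by simp), one_mul]
      simp only [neg_mul, Finset.sum_neg_distrib, add_neg_cancel]
    · show (0 : MvPolynomial σ K) * (∑ t, C (F t) * y t) +
        ∑ t, ((if s = t then 1 else 0) - B s t) * y t = b (some s)
      rw [zero_mul, zero_add]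
      simp only [sub_mul, Finset.sum_sub_distrib, ite_mul, one_mul, zero_mul,
        Finset.sum_ite_eq, Finset.mem_univ, if_true]
      by_cases h : s = s₀
      · rw [h, hb, Pi.single_eq_same, hy0]
        simp [hB0]
      · rw [hy s h, sub_self, hb, Pi.single_eq_of_ne (fun h' => h (Option.some.inj h'))]
  have h3 : cramer (umat B F) b none = (emat B F s₀).det := by
    rw [cramer_apply, h1]
  rw [← h3, ← h2, cramer_eq_adjugate_mulVec, Matrix.mulVec_mulVec, adjugate_mul,
    det_umat B F mu hmu, one_smul, Matrix.one_mulVec]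
  rfl

theorem totalDegree_emat (B : S → S → MvPolynomial σ K) (F : S → K) (s₀ : S)
    (hB : ∀ s t, (B s t).totalDegree ≤ 1) (i j : Option S) :
    (emat B F s₀ i j).totalDegree ≤ 1 := by
  rcases i with _ | s <;> rcases j with _ | t
  · show (0 : MvPolynomial σ K).totalDegree ≤ 1
    simp
  · show (- C (F t) : MvPolynomial σ K).totalDegree ≤ 1
    rw [totalDegree_neg, totalDegree_C]
    exact Nat.zero_le _
  · show (if s = s₀ then (1 : MvPolynomial σ K) else 0).totalDegree ≤ 1
    split_ifs <;> simp
  · show ((if s = t then 1 else 0) - B s t : MvPolynomial σ K).totalDegree ≤ 1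
    refine (totalDegree_sub _ _).trans (max_le ?_ (hB s t))
    split_ifs <;> simp

/-- The grades of the states. -/
def ogr (W : S → Kˣ) (i : Option S) : Kˣ := i.elim 1 W

theorem scale_emat (B : S → S → MvPolynomial σ K) (F : S → K) (s₀ : S) (s' : σ → K)
    (W : S → Kˣ) (hB : ∀ s t, scaleHom s' (B s t) = C ((W s * (W t)⁻¹ : Kˣ) : K) * B s t)
    (hF : ∀ t, F t ≠ 0 → W t = 1) (h0 : W s₀ = 1) (i j : Option S) :
    scaleHom s' (emat B F s₀ i j) =
      C ((ogr W i * (ogr W j)⁻¹ : Kˣ) : K) * emat B F s₀ i j := by
  rcases i with _ | s <;> rcases j with _ | t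
  · show scaleHom s' 0 = _ * (0 : MvPolynomial σ K)
    rw [map_zero, mul_zero]
  · show scaleHom s' (- C (F t)) = C ((1 * (W t)⁻¹ : Kˣ) : K) * (- C (F t))
    by_cases h : F t = 0
    · rw [h, C_0, neg_zero, map_zero, mul_zero]
    · rw [hF t h, inv_one, one_mul, Units.val_one, C_1, one_mul, map_neg]
      congr 1
      exact algHom_C _ _
  · show scaleHom s' (if s = s₀ then 1 else 0) =
      C ((W s * (1 : Kˣ)⁻¹ : Kˣ) : K) * (if s = s₀ then 1 else 0)
    by_cases h : s = s₀
    · rw [if_pos h, map_one, h, h0, inv_one, one_mul, Units.val_one, C_1, one_mul]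
    · rw [if_neg h, map_zero, mul_zero]
  · show scaleHom s' ((if s = t then 1 else 0) - B s t) =
      C ((W s * (W t)⁻¹ : Kˣ) : K) * ((if s = t then 1 else 0) - B s t)
    rw [map_sub, hB, mul_sub]
    congr 1
    by_cases h : s = t
    · rw [if_pos h, map_one, h, mul_inv_cancel, Units.val_one, C_1, one_mul]
    · rw [if_neg h, map_zero, mul_zero]

end abs

/-- Entries of given grades. -/
theorem fixedBy_of_entries {K : Type u} [Field K] {σ : Type} {m : ℕ} (s : σ → K)
    (M : Matrix (Fin m) (Fin m) (MvPolynomial σ K)) (W : Fin m → Kˣ)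
    (h : ∀ i j, scaleHom s (M i j) = C ((W i * (W j)⁻¹ : Kˣ) : K) * M i j) : FixedBy s M := by
  classical
  refine ⟨Matrix.diagonal fun i => ((W i : Kˣ) : K), Matrix.diagonal fun j => (((W j)⁻¹ : Kˣ) : K),
    ?_, ?_, Or.inl ?_⟩
  · rw [Matrix.det_diagonal]
    exact IsUnit.prod_univ_iff.2 fun i => (W i).isUnit
  · rw [Matrix.det_diagonal]
    exact IsUnit.prod_univ_iff.2 fun i => ((W i)⁻¹).isUnit
  · ext1 i j
    rw [Matrix.map_apply, h i j, Matrix.diagonal_map (map_zero C), Matrix.diagonal_map (map_zero C),
      Matrix.mul_diagonal, Matrix.diagonal_mul, Units.val_mul, C_mul]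
    ring

theorem scaleHom_rename {K : Type u} [Field K] {σ τ : Type} (e : σ → τ) (s : τ → K)
    (p : MvPolynomial σ K) : scaleHom s (rename e p) = rename e (scaleHom (fun x => s (e x)) p) := by
  unfold scaleHom
  rw [aeval_rename]
  have h1 : (rename e : MvPolynomial σ K →ₐ[K] MvPolynomial τ K) (aeval (fun x => C (s (e x)) * X x) p)
      = ((rename e : MvPolynomial σ K →ₐ[K] MvPolynomial τ K).comp
        (aeval (fun x => C (s (e x)) * X x))) p := rfl
  rw [h1, comp_aeval]
  congr 2
  funext x
  simp

open Pool.Agent.H80 Stk in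
theorem scale_B {K : Type u} [Field K] {L : Type} [Fintype L] {N : ℕ} (t : L → Kˣ) {s s₂ : State L}
    (hs : Good N s) : scaleHom (fun e => ((tw (fun i => Additive.ofMul (t i)) e).toMul : K))
      (B K s s₂) = C ((((W (fun i => Additive.ofMul (t i)) s).toMul *
        ((W (fun i => Additive.ofMul (t i)) s₂).toMul)⁻¹ : Kˣ)) : K) * B K s s₂ := by
  classical
  unfold B
  rw [map_list_sum, ← List.sum_map_mul_left, List.map_map]
  congr 1
  refine List.map_congr_left fun p hp => ?_
  rw [Function.comp_apply]
  by_cases h : p.2 = s₂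
  · rw [if_pos h]
    have h1 := step_W (fun i => Additive.ofMul (t i)) hs hp
    rw [h] at h1
    have h2 : (tw (fun i => Additive.ofMul (t i)) p.1).toMul =
        (W (fun i => Additive.ofMul (t i)) s).toMul *
          ((W (fun i => Additive.ofMul (t i)) s₂).toMul)⁻¹ := by
      rw [← h1, toMul_add, mul_inv_cancel_right]
    unfold scaleHom
    rw [aeval_X]
    beta_reduce
    rw [h2]
  · rw [if_neg h, map_zero, mul_zero]

end Pool.EQD.Det

namespace Pool.EQD

open MvPolynomial Matrix Pool.Agent.H80 Stk Det

universe u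

/-- The coefficients of the final row. -/
noncomputable def frow (K : Type u) [Field K] {L : Type} (r : L) (N : ℕ) (t : State L) : K :=
  haveI := Classical.decEq (State L)
  ∑ m ∈ Finset.Icc 1 N, if t = [(r, m)] then 1 else 0

theorem tscale_eq {K : Type u} [Field K] {n : ℕ} (t : Fin (n + 1) → Kˣ) (e : TVar (Fin (n + 1))) :
    tscale t (tvarEquiv (n + 1) e) = ((tw (fun i => Additive.ofMul (t i)) e).toMul : K) := by
  unfold tscale
  rw [Equiv.symm_apply_apply]
  rcases e with i | ⟨i, j, k⟩
  · rfl
  · show (t i : K) / (t j * t k) = ((t i / t j / t k : Kˣ) : K)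
    rw [div_div, Units.val_div_eq_div_val, Units.val_mul]

theorem t_eub : EUBStmt.{u} := by
  classical
  refine ⟨9, ?_⟩
  intro K _ n
  set L := Fin (n + 1) with hL
  set N := n + 1 with hN
  -- the states
  set S : Type := {s : State L // s ∈ goodSet L N} with hS
  set s₀ : S := ⟨[], mem_goodSet.2 (good_nil N)⟩ with hs₀
  set BB : S → S → MvPolynomial (TVar L) K := fun s t => B K s.1 t.1 with hBB
  set F : S → K := fun t => frow K (0 : L) N t.1 with hF
  set y : S → MvPolynomial (TVar L) K := fun s => Y K s.1 with hy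
  have hdet : (emat BB F s₀).det = Pool.Agent.H80.tsum K L N 0 := by
    rw [det_emat BB F s₀ (fun s => mu s.1) ?_ y ?_ ?_ ?_]
    · rw [tsum_eq]
      have h1 : ∀ t : S, C (F t) * y t =
          ∑ m ∈ Finset.Icc 1 N, if t.1 = [((0 : L), m)] then Y K [((0 : L), m)] else 0 := by
        intro t
        rw [hF, hy]
        beta_reduce
        unfold frow
        rw [map_sum, Finset.sum_mul]
        refine Finset.sum_congr rfl fun m _ => ?_
        by_cases h : t.1 = [((0 : L), m)]
        · rw [if_pos h, if_pos h, C_1, one_mul, h]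
        · rw [if_neg h, if_neg h, C_0, zero_mul]
      rw [Finset.sum_congr rfl fun t _ => h1 t, Finset.sum_comm]
      refine Finset.sum_congr rfl fun m hm => ?_
      rw [Finset.mem_Icc] at hm
      rw [Finset.sum_eq_single (⟨[((0 : L), m)], mem_goodSet.2 (good_single _ hm.1 hm.2)⟩ : S)]
      · rw [if_pos rfl]
      · intro t _ ht
        rw [if_neg]
        intro h
        exact ht (Subtype.ext h)
      · intro h
        exact absurd (Finset.mem_univ _) h
    · intro s t hst
      have := B_mu (mem_goodSet.1 s.2) hst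
      omega
    · show Y K ([] : State L) = 1
      rfl
    · intro t
      show B K ([] : State L) t.1 = 0
      rfl
    · intro s hs
      have h1 : s.1 ≠ [] := fun h => hs (Subtype.ext h)
      have h2 := sum_B K (mem_goodSet.1 s.2) h1
      exact (Finset.sum_coe_sort (goodSet L N) (fun t => B K s.1 t * Y K t)).trans h2
  -- the matrix
  set e := Fintype.equivFin (Option S) with he
  set M' : Matrix (Option S) (Option S) (MvPolynomial (Fin (nvar n)) K) :=
    (emat BB F s₀).map (rename (tvarEquiv (n + 1))) with hM'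
  refine ⟨Fintype.card (Option S), Matrix.reindex e e M', ⟨?_, ?_⟩, ?_, ?_⟩
  · intro i j
    rw [Matrix.reindex_apply, Matrix.submatrix_apply, hM', Matrix.map_apply]
    exact (totalDegree_rename_le _ _).trans
      (totalDegree_emat BB F s₀ (fun s t => totalDegree_B K s.1 t.1) _ _)
  · rw [Matrix.det_reindex_self, hM']
    have h1 := AlgHom.map_det (rename (tvarEquiv (n + 1)) : MvPolynomial (TVar L) K →ₐ[K] _)
      (emat BB F s₀)
    rw [hdet] at h1
    exact h1.symm
  · have hc : Fintype.card S = (goodSet L N).card := Fintype.card_coe _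
    rw [Fintype.card_option, hc]
    have h1 := card_goodSet (L := L) (N := N)
    rw [Fintype.card_fin] at h1
    have hl : 1 ≤ Nat.log 2 (n + 2) := Nat.log_pos (by norm_num) (by omega)
    have hl2 : Nat.log 2 N ≤ Nat.log 2 (n + 2) := Nat.log_mono_right (by omega)
    have h2 : ((n + 1) * N + 1) ^ (2 * Nat.log 2 N + 2) ≤ (n + 2) ^ (8 * Nat.log 2 (n + 2)) := by
      calc ((n + 1) * N + 1) ^ (2 * Nat.log 2 N + 2)
          ≤ ((n + 2) ^ 2) ^ (2 * Nat.log 2 N + 2) := by
            refine Nat.pow_le_pow_left ?_ _
            rw [hN]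
            nlinarith
        _ = (n + 2) ^ (2 * (2 * Nat.log 2 N + 2)) := by rw [← pow_mul]
        _ ≤ (n + 2) ^ (8 * Nat.log 2 (n + 2)) := Nat.pow_le_pow_right (by omega) (by omega)
    have h3 : (n + 2) ^ (8 * Nat.log 2 (n + 2)) + 1 ≤ (n + 2) ^ (9 * Nat.log 2 (n + 2)) := by
      have h4 : (n + 2) ^ (9 * Nat.log 2 (n + 2)) =
          (n + 2) ^ (8 * Nat.log 2 (n + 2)) * (n + 2) ^ (Nat.log 2 (n + 2)) := by
        rw [← pow_add]
        congr 1
        ring
      have h5 : 2 ≤ (n + 2) ^ (Nat.log 2 (n + 2)) := by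
        calc 2 ≤ (n + 2) ^ 1 := by rw [pow_one]; omega
          _ ≤ _ := Nat.pow_le_pow_right (by omega) hl
      have h6 : 1 ≤ (n + 2) ^ (8 * Nat.log 2 (n + 2)) := Nat.one_le_pow _ _ (by omega)
      rw [h4]
      nlinarith
    calc (goodSet L N).card + 1 ≤ ((n + 1) * N + 1) ^ (2 * Nat.log 2 N + 2) + 1 :=
          Nat.add_le_add_right h1 1
      _ ≤ (n + 2) ^ (8 * Nat.log 2 (n + 2)) + 1 := Nat.add_le_add_right h2 1
      _ ≤ _ := h3
  · intro t ht
    set WW : S → Kˣ := fun s => (W (fun i => Additive.ofMul (t i)) s.1).toMul with hWW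
    refine fixedBy_of_entries _ _ (fun i => ogr WW (e.symm i)) fun i j => ?_
    rw [Matrix.reindex_apply, Matrix.submatrix_apply, hM', Matrix.map_apply]
    have h1 : (fun x => tscale t (tvarEquiv (n + 1) x)) =
        fun e => ((tw (fun i => Additive.ofMul (t i)) e).toMul : K) := by
      funext x
      exact tscale_eq t x
    refine (scaleHom_rename (tvarEquiv (n + 1)) (tscale t) _).trans ?_
    have h3 : ∀ s s₂ : S, scaleHom (fun e => ((tw (fun i => Additive.ofMul (t i)) e).toMul : K))
        (BB s s₂) = C ((WW s * (WW s₂)⁻¹ : Kˣ) : K) * BB s s₂ := fun s s₂ =>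
      scale_B t (mem_goodSet.1 s.2)
    have h4 : ∀ s, F s ≠ 0 → WW s = 1 := by
      intro s hs
      obtain ⟨m, _, hm⟩ := Finset.exists_ne_zero_of_sum_ne_zero hs
      have h2 : s.1 = [((0 : L), m)] := by
        by_contra h
        exact hm (if_neg h)
      show (W (fun i => Additive.ofMul (t i)) s.1).toMul = 1
      rw [h2]
      show (([((0 : L), m)] : State L).map fun p => Additive.ofMul (t p.1)).sum.toMul = 1
      simp [ht]
    have h5 : WW s₀ = 1 := rfl
    rw [h1, scale_emat BB F s₀ _ WW h3 h4 h5, map_mul, rename_C]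
    rfl

end Pool.EQD
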