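import Pool.Agent.H79.EQD.Defs4
import Pool.Agent.H79.EQD.Eub

/-!
# The determinant of the bordered matrix of a transition system
-/

set_option autoImplicit false

namespace Pool.EQD

open MvPolynomial Matrix Det

universe u

theorem t_emg : EMGStmt.{u} := by
  intro K _ σ S _ _ B F E mu y hmu hy
  obtain ⟨b, hb⟩ : ∃ b : Option S → MvPolynomial σ K, b = fun i => i.elim 0 fun s => C (E s) :=
    ⟨_, rfl⟩
  obtain ⟨z, hz⟩ : ∃ z : Option S → MvPolynomial σ K,
      z = fun i => i.elim (∑ t, C (F t) * y t) y := ⟨_, rfl⟩
  have hbn : b none = 0 := by rw [hb]; rfl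
  have hbs : ∀ s, b (some s) = C (E s) := fun s => by rw [hb]; rfl
  have hzn : z none = ∑ t, C (F t) * y t := by rw [hz]; rfl
  have hzs : ∀ s, z (some s) = y s := fun s => by rw [hz]; rfl
  have h1 : ematG B F E = (umat B F).updateCol none b := by
    ext1 i j
    rcases j with _ | t
    · rw [Matrix.updateCol_self]
      rcases i with _ | s
      · rw [hbn]
        rfl
      · rw [hbs]
        rfl
    · rw [Matrix.updateCol_ne (by simp)]
      rcases i with _ | s
      · rfl
      · rfl
  have h2 : (umat B F) *ᵥ z = b := by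
    funext i
    rw [Matrix.mulVec, dotProduct, Fintype.sum_option, hzn]
    rcases i with _ | s
    · rw [hbn]
      show (1 : MvPolynomial σ K) * (∑ t, C (F t) * y t) + ∑ t, (- C (F t)) * z (some t) = 0
      simp only [hzs, one_mul, neg_mul, Finset.sum_neg_distrib, add_neg_cancel]
    · rw [hbs]
      show (0 : MvPolynomial σ K) * (∑ t, C (F t) * y t) +
        ∑ t, ((if s = t then 1 else 0) - B s t) * z (some t) = C (E s)
      rw [zero_mul, zero_add]
      simp only [hzs, sub_mul, Finset.sum_sub_distrib, ite_mul, one_mul, zero_mul,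
        Finset.sum_ite_eq, Finset.mem_univ, if_true]
      rw [hy s]
      conv_lhs => rw [← hy s]
      rw [sub_eq_iff_eq_add]
      exact hy s
  have h3 : cramer (umat B F) b none = (ematG B F E).det := by
    rw [cramer_apply, h1]
  rw [← h3, ← h2, cramer_eq_adjugate_mulVec, Matrix.mulVec_mulVec, adjugate_mul,
    det_umat B F mu hmu, one_smul, Matrix.one_mulVec, hzn]

end Pool.EQD
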