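import Pool.Agent.H79.EQD.Defs3
import Pool.Agent.H79.EQD.Eub

/-!
# Determinantal representations with all linear symmetries (EU2)
-/

set_option autoImplicit false

namespace Pool.EQD.EU2

open MvPolynomial Matrix Pool.Agent.H80 Pool.EQD Pool.EQD.Stk Pool.EQD.Det

universe u

section T

variable {K : Type u} [Field K] {L : Type} [Fintype L]

/-- The tensor power of `g` applied to a function of the labels of a state. -/
noncomputable def T {A : Type*} [AddCommMonoid A] [Module K A] (g : Matrix L L K) :
    State L → (State L → A) → A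
  | [], φ => φ []
  | (i, m) :: s, φ => ∑ a, g i a • T g s (fun s' => φ ((a, m) :: s'))

variable {A B : Type*} [AddCommMonoid A] [Module K A] [AddCommMonoid B] [Module K B]

theorem T_nil (g : Matrix L L K) (φ : State L → A) : T g [] φ = φ [] := rfl

theorem T_cons (g : Matrix L L K) (i : L) (m : ℕ) (s : State L) (φ : State L → A) :
    T g ((i, m) :: s) φ = ∑ a, g i a • T g s (fun s' => φ ((a, m) :: s')) := rfl

theorem T_map (f : A →ₗ[K] B) (g : Matrix L L K) (s : State L) (φ : State L → A) :
    f (T g s φ) = T g s (fun x => f (φ x)) := by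
  induction s generalizing φ with
  | nil => rfl
  | cons p s ih =>
    obtain ⟨i, m⟩ := p
    rw [T_cons, T_cons, map_sum]
    refine Finset.sum_congr rfl fun a _ => ?_
    rw [map_smul, ih]

theorem T_sum {ι : Type*} (F : Finset ι) (g : Matrix L L K) (s : State L)
    (φ : ι → State L → A) : T g s (fun x => ∑ j ∈ F, φ j x) = ∑ j ∈ F, T g s (φ j) := by
  induction s generalizing φ with
  | nil => rfl
  | cons p s ih =>
    obtain ⟨i, m⟩ := p
    simp only [T_cons]
    rw [Finset.sum_comm]
    refine Finset.sum_congr rfl fun a _ => ?_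
    rw [ih, Finset.smul_sum]

theorem T_congr (g : Matrix L L K) (s : State L) (φ ψ : State L → A)
    (h : ∀ x : State L, x.map Prod.snd = s.map Prod.snd → φ x = ψ x) : T g s φ = T g s ψ := by
  induction s generalizing φ ψ with
  | nil => exact h [] rfl
  | cons p s ih =>
    obtain ⟨i, m⟩ := p
    simp only [T_cons]
    refine Finset.sum_congr rfl fun a _ => ?_
    rw [ih]
    intro x hx
    apply h
    simp [hx]

theorem T_zero (g : Matrix L L K) (s : State L) : T g s (fun _ => (0 : A)) = 0 := by
  induction s with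
  | nil => rfl
  | cons p s ih =>
    obtain ⟨i, m⟩ := p
    simp only [T_cons, ih, smul_zero, Finset.sum_const_zero]

theorem T_smul (c : K) (g : Matrix L L K) (s : State L) (φ : State L → A) :
    T g s (fun x => c • φ x) = c • T g s φ :=
  (T_map (LinearMap.lsmul K A c) g s φ).symm

theorem T_smul_right (v : A) (g : Matrix L L K) (s : State L) (c : State L → K) :
    T g s (fun x => c x • v) = T g s c • v :=
  (T_map (LinearMap.toSpanSingleton K A v) g s c).symm

theorem T_T (g h : Matrix L L K) (s : State L) (ψ : State L → A) :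
    T g s (fun x => T h x ψ) = T (g * h) s ψ := by
  induction s generalizing ψ with
  | nil => rfl
  | cons p s ih =>
    obtain ⟨i, m⟩ := p
    simp only [T_cons, T_sum, T_smul, ih, Finset.smul_sum, smul_smul]
    rw [Finset.sum_comm]
    refine Finset.sum_congr rfl fun b _ => ?_
    rw [← Finset.sum_smul, Matrix.mul_apply]

theorem T_one [DecidableEq L] (s : State L) (ψ : State L → A) :
    T (1 : Matrix L L K) s ψ = ψ s := by
  induction s generalizing ψ with
  | nil => rfl
  | cons p s ih =>
    obtain ⟨i, m⟩ := p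
    simp only [T_cons, ih]
    rw [Finset.sum_eq_single i]
    · rw [Matrix.one_apply_eq, one_smul]
    · intro b _ hb
      rw [Matrix.one_apply_ne (Ne.symm hb), zero_smul]
    · intro h
      exact absurd (Finset.mem_univ _) h

open Kronecker in
theorem T_tgt (g : Matrix L L K) (j k : L) (a b : ℕ) (s : State L) (ψ : State L → A) :
    T g (tgt j k a b s) ψ = ∑ z : L × L, (g ⊗ₖ g) (j, k) z •
      T g s (fun x => ψ (tgt z.1 z.2 a b x)) := by
  rw [Fintype.sum_prod_type]
  simp only [tgt, Matrix.kroneckerMap_apply]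
  split_ifs with h
  · simp only [T_cons, Finset.smul_sum, smul_smul]
  · simp only [T_cons, Finset.smul_sum, smul_smul]
    rw [Finset.sum_comm]
    refine Finset.sum_congr rfl fun x _ => Finset.sum_congr rfl fun y _ => ?_
    rw [mul_comm]

/-- The matrix of the tensor power. -/
noncomputable def R (g : Matrix L L K) (s t : State L) : K :=
  haveI := Classical.decEq (State L)
  T g s (fun x => if x = t then (1 : K) else 0)

theorem sum_R (g : Matrix L L K) (s : State L) (φ : State L → A) (G : Finset (State L))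
    (hG : ∀ x : State L, x.map Prod.snd = s.map Prod.snd → x ∈ G) :
    ∑ t ∈ G, R g s t • φ t = T g s φ := by
  classical
  have h1 : ∀ t ∈ G, R g s t • φ t = T g s (fun x => if x = t then φ t else 0) := by
    intro t _
    rw [R, ← T_smul_right]
    congr 1
    funext x
    by_cases hx : x = t
    · simp [hx]
    · simp [hx]
  rw [Finset.sum_congr rfl h1, ← T_sum]
  apply T_congr
  intro x hx
  rw [Finset.sum_ite_eq, if_pos (hG x hx)]

theorem R_nil [DecidableEq (State L)] (g : Matrix L L K) (s : State L) :
    R g s [] = if s = [] then 1 else 0 := by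
  rw [R]
  cases s with
  | nil => simp [T_nil]
  | cons p s =>
    obtain ⟨i, m⟩ := p
    rw [T_cons]
    simp [T_zero]

end T

theorem good_of_sizes {L : Type} {N : ℕ} {s x : State L} (h : x.map Prod.snd = s.map Prod.snd)
    (hs : Good N s) : Good N x := by
  refine ⟨by rw [h]; exact hs.1, ?_⟩
  intro p hp
  have h1 : p.2 ∈ s.map Prod.snd := by
    rw [← h]
    exact List.mem_map_of_mem hp
  obtain ⟨q, hq, hq2⟩ := List.mem_map.1 h1
  rw [← hq2]
  exact hs.2 q hq

section key

variable {K : Type u} [Field K] {L : Type} [Fintype L] [DecidableEq L]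

/-- Contraction. -/
theorem contr {ι σ : Type*} [Fintype ι] [DecidableEq ι] (G G' : Matrix ι ι K) (h : G' * G = 1)
    (V U : ι → MvPolynomial σ K) :
    ∑ y, (∑ z, C (G' z y) * V z) * (∑ z, C (G y z) * U z) = ∑ z, V z * U z := by
  have h1 : ∀ y, (∑ z, C (G' z y) * V z) * (∑ z, C (G y z) * U z) =
      ∑ z, ∑ z', C (G' z y * G y z') * (V z * U z') := by
    intro y
    rw [Finset.sum_mul_sum]
    refine Finset.sum_congr rfl fun z _ => Finset.sum_congr rfl fun z' _ => ?_
    rw [C_mul]
    ring
  rw [Finset.sum_congr rfl fun y _ => h1 y, Finset.sum_comm]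
  refine Finset.sum_congr rfl fun z _ => ?_
  rw [Finset.sum_comm]
  have h2 : ∀ z', ∑ y, C (G' z y * G y z') * (V z * U z') =
      C ((1 : Matrix ι ι K) z z') * (V z * U z') := by
    intro z'
    rw [← Finset.sum_mul, ← map_sum, ← h, Matrix.mul_apply]
  rw [Finset.sum_congr rfl fun z' _ => h2 z', Finset.sum_eq_single z]
  · rw [Matrix.one_apply_eq, C_1, one_mul]
  · intro b _ hb
    rw [Matrix.one_apply_ne (Ne.symm hb), C_0, zero_mul]
  · intro h
    exact absurd (Finset.mem_univ _) h

open Kronecker in
theorem sym_inr (g : Matrix L L K) (i j k : L) :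
    symHom g (X (Sum.inr (i, j, k))) = ∑ a, C (g i a) *
      ∑ z : L × L, C ((g⁻¹ ⊗ₖ g⁻¹) z (j, k)) * X (Sum.inr (a, z.1, z.2)) := by
  rw [symHom, aeval_X]
  simp only [Matrix.kroneckerMap_apply]
  refine Finset.sum_congr rfl fun a _ => ?_
  rw [Fintype.sum_prod_type, Finset.mul_sum]
  refine Finset.sum_congr rfl fun b _ => ?_
  rw [Finset.mul_sum]
  refine Finset.sum_congr rfl fun c _ => ?_
  simp only [C_mul]
  ring

theorem sym_inl (g : Matrix L L K) (i : L) :
    symHom g (X (Sum.inl i)) = ∑ a, C (g i a) * X (Sum.inl a) := by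
  rw [symHom, aeval_X]

open Kronecker in
theorem kron_inv (g : Matrix L L K) (hg : IsUnit g.det) : (g⁻¹ ⊗ₖ g⁻¹) * (g ⊗ₖ g) = 1 := by
  rw [← Matrix.mul_kronecker_mul, Matrix.nonsing_inv_mul g hg, Matrix.one_kronecker_one]

omit [DecidableEq L] in
theorem T_mul_left (g : Matrix L L K) (s : State L) (c : MvPolynomial (TVar L) K)
    (φ : State L → MvPolynomial (TVar L) K) :
    T g s (fun x => c * φ x) = c * T g s φ :=
  (T_map (LinearMap.mulLeft K c) g s φ).symm

open Kronecker in
theorem key (g : Matrix L L K) (hg : IsUnit g.det) (s : State L)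
    (ψ : State L → MvPolynomial (TVar L) K) :
    ((step s).map fun p => symHom g (X p.1) * T g p.2 ψ).sum =
      T g s (fun x => ((step x).map fun p => X p.1 * ψ p.2).sum) := by
  match s with
  | [] => simp [step, T_nil]
  | (i, 0) :: s => simp [step, T_cons, T_zero]
  | (i, 1) :: s =>
    simp only [T_cons, step_cons_one, List.map_cons, List.map_nil, List.sum_cons, List.sum_nil,
      add_zero, T_mul_left, sym_inl, Finset.sum_mul]
    refine Finset.sum_congr rfl fun a _ => ?_
    rw [MvPolynomial.smul_eq_C_mul]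
    ring
  | (i, m + 2) :: s =>
    simp only [T_cons, step_cons_two, List.map_map, Finset.sum_map_toList, Function.comp_def,
      T_sum, T_mul_left]
    -- sums over pairs and the split
    have e1 : ∀ f : L × L × Fin (m + 1) → MvPolynomial (TVar L) K,
        ∑ x, f x = ∑ c : Fin (m + 1), ∑ z : L × L, f (z.1, z.2, c) := by
      intro f
      rw [Finset.sum_comm, Fintype.sum_prod_type, Fintype.sum_prod_type]
      refine Finset.sum_congr rfl fun a _ => ?_
      rw [Fintype.sum_prod_type]
    rw [e1]
    simp only [e1]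
    have e2 : ∀ c : Fin (m + 1),
        ∑ z : L × L, symHom g (X (Sum.inr (i, z.1, z.2))) *
          T g (tgt z.1 z.2 (c.1 + 1) (m + 1 - c.1) s) ψ =
        ∑ a, C (g i a) * ∑ z : L × L, X (Sum.inr (a, z.1, z.2)) *
          T g s (fun x => ψ (tgt z.1 z.2 (c.1 + 1) (m + 1 - c.1) x)) := by
      intro c
      have e3 : ∀ z : L × L, symHom g (X (Sum.inr (i, z.1, z.2))) *
          T g (tgt z.1 z.2 (c.1 + 1) (m + 1 - c.1) s) ψ =
          ∑ a, C (g i a) * ((∑ y : L × L, C ((g⁻¹ ⊗ₖ g⁻¹) y z) * X (Sum.inr (a, y.1, y.2))) *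
            (∑ y : L × L, C ((g ⊗ₖ g) z y) *
              T g s (fun x => ψ (tgt y.1 y.2 (c.1 + 1) (m + 1 - c.1) x)))) := by
        intro z
        rw [sym_inr, T_tgt, Finset.sum_mul]
        refine Finset.sum_congr rfl fun a _ => ?_
        rw [mul_assoc]
        simp only [MvPolynomial.smul_eq_C_mul]
      rw [Finset.sum_congr rfl fun z _ => e3 z, Finset.sum_comm]
      refine Finset.sum_congr rfl fun a _ => ?_
      rw [← Finset.mul_sum, contr (g ⊗ₖ g) (g⁻¹ ⊗ₖ g⁻¹) (kron_inv g hg)]
    rw [Finset.sum_congr rfl fun c _ => e2 c, Finset.sum_comm]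
    refine Finset.sum_congr rfl fun a _ => ?_
    rw [MvPolynomial.smul_eq_C_mul, Finset.mul_sum]

end key

section mat

variable {K : Type u} [Field K] {L : Type} [Fintype L]

theorem R_C (g : Matrix L L K) (s t : State L) [DecidableEq (State L)] :
    (C (R g s t) : MvPolynomial (TVar L) K) = T g s (fun x => if x = t then 1 else 0) := by
  rw [R]
  have h1 := T_map (Algebra.linearMap K (MvPolynomial (TVar L) K)) g s
    (fun x => if x = t then (1 : K) else 0)
  rw [Algebra.linearMap_apply, MvPolynomial.algebraMap_eq] at h1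
  convert h1 using 1
  · congr!
  · congr 1
    funext x
    rw [Algebra.linearMap_apply, MvPolynomial.algebraMap_eq]
    split_ifs
    · exact C_1.symm
    · exact C_0.symm

theorem B_eq (s t : State L) [DecidableEq (State L)] :
    B K s t = ((step s).map fun p => X p.1 * (if p.2 = t then 1 else 0)).sum := by
  rw [B]
  congr 2
  funext p
  split_ifs <;> simp

theorem sum_B_map (f : MvPolynomial (TVar L) K →ₐ[K] MvPolynomial (TVar L) K) (s : State L)
    (G : Finset (State L)) (φ : State L → MvPolynomial (TVar L) K)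
    (hg : ∀ p ∈ step s, p.2 ∈ G) :
    ∑ x ∈ G, f (B K s x) * φ x = ((step s).map fun p => f (X p.1) * φ p.2).sum := by
  classical
  simp only [B_eq, map_list_sum, List.map_map, Function.comp_def, map_mul]
  generalize step s = l at hg ⊢
  induction l with
  | nil => simp
  | cons p l ih =>
    simp only [List.map_cons, List.sum_cons, add_mul, Finset.sum_add_distrib]
    rw [ih fun q hq => hg q (List.mem_cons_of_mem _ hq)]
    congr 1
    rw [Finset.sum_eq_single p.2]
    · simp
    · intro b _ hb
      rw [if_neg (Ne.symm hb)]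
      simp
    · intro h
      exact absurd (hg p (List.mem_cons_self ..)) h

/-- The block matrix of the tensor powers. -/
noncomputable def pmat (g : Matrix L L K) (N : ℕ) :
    Matrix (Option {s : State L // s ∈ goodSet L N}) (Option {s : State L // s ∈ goodSet L N}) K :=
  fun i j =>
  match i, j with
  | some s, some t => R g s.1 t.1
  | none, none => 1
  | some _, none => 0
  | none, some _ => 0

theorem mem_of_sizes {N : ℕ} {s x : State L} (hs : s ∈ goodSet L N)
    (h : x.map Prod.snd = s.map Prod.snd) : x ∈ goodSet L N :=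
  mem_goodSet.2 (good_of_sizes h (mem_goodSet.1 hs))

theorem R_mul (g h : Matrix L L K) (N : ℕ) {s : State L} (hs : s ∈ goodSet L N) (x : State L) :
    ∑ t ∈ goodSet L N, R g s t * R h t x = R (g * h) s x := by
  classical
  have h1 := sum_R g s (fun t => R h t x) (goodSet L N) (fun y hy => mem_of_sizes hs hy)
  simp only [smul_eq_mul] at h1
  rw [h1, R, ← T_T]
  rfl

theorem pmat_mul (g h : Matrix L L K) (N : ℕ) : pmat g N * pmat h N = pmat (g * h) N := by
  ext i j
  rw [Matrix.mul_apply, Fintype.sum_option]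
  rcases i with _ | s <;> rcases j with _ | t
  · show (1 : K) * 1 + ∑ t, (0 : K) * 0 = 1
    simp
  · show (1 : K) * 0 + ∑ x : {s : State L // s ∈ goodSet L N}, (0 : K) * R h x.1 t.1 = 0
    simp
  · show (0 : K) * 1 + ∑ x : {s : State L // s ∈ goodSet L N}, R g s.1 x.1 * 0 = 0
    simp
  · show (0 : K) * 0 + ∑ x : {s : State L // s ∈ goodSet L N}, R g s.1 x.1 * R h x.1 t.1 = _
    rw [mul_zero, zero_add]
    exact (Finset.sum_coe_sort (goodSet L N) (fun x => R g s.1 x * R h x t.1)).trans
      (R_mul g h N s.2 t.1)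

theorem pmat_one [DecidableEq L] (N : ℕ) [DecidableEq {s : State L // s ∈ goodSet L N}] :
    pmat (1 : Matrix L L K) N = 1 := by
  classical
  ext i j
  rcases i with _ | s <;> rcases j with _ | t
  · rw [Matrix.one_apply_eq]
    rfl
  · rw [Matrix.one_apply_ne (by simp)]
    rfl
  · rw [Matrix.one_apply_ne (by simp)]
    rfl
  · show R 1 s.1 t.1 = _
    rw [R, T_one]
    by_cases h : s = t
    · rw [h, Matrix.one_apply_eq, if_pos rfl]
    · rw [Matrix.one_apply_ne (fun h' => h (Option.some.inj h')),
        if_neg (fun h' => h (Subtype.ext h'))]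

theorem frow_R [DecidableEq L] (g : Matrix L L K) (r : L) (hr : FixRow r g) (N : ℕ)
    (t : State L) : ∑ s ∈ goodSet L N, frow K r N s * R g s t = frow K r N t := by
  classical
  simp only [frow, Finset.sum_mul]
  rw [Finset.sum_comm]
  refine Finset.sum_congr rfl fun m hm => ?_
  rw [Finset.mem_Icc] at hm
  rw [Finset.sum_eq_single [(r, m)]]
  · rw [if_pos rfl, one_mul, R, T_cons]
    rw [Finset.sum_eq_single r]
    · rw [hr, if_pos rfl, one_smul, T_nil]
      by_cases h : t = [(r, m)]
      · rw [if_pos h, if_pos h.symm]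
      · rw [if_neg h, if_neg (Ne.symm h)]
    · intro b _ hb
      rw [hr, if_neg hb, zero_smul]
    · intro h
      exact absurd (Finset.mem_univ _) h
  · intro b _ hb
    rw [if_neg hb, zero_mul]
  · intro h
    exact absurd (mem_goodSet.2 (good_single _ hm.1 hm.2)) h

theorem intertwine [DecidableEq L] (g : Matrix L L K) (hg : IsUnit g.det) (r : L)
    (hr : FixRow r g) (N : ℕ) [DecidableEq {s : State L // s ∈ goodSet L N}] :
    (emat (fun s t : {s : State L // s ∈ goodSet L N} => B K s.1 t.1) (fun t => frow K r N t.1)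
      ⟨[], mem_goodSet.2 (good_nil N)⟩).map (symHom g) * (pmat g N).map C =
    (pmat g N).map C * (emat (fun s t : {s : State L // s ∈ goodSet L N} => B K s.1 t.1)
      (fun t => frow K r N t.1) ⟨[], mem_goodSet.2 (good_nil N)⟩) := by
  classical
  ext1 i j
  rw [Matrix.mul_apply, Matrix.mul_apply, Fintype.sum_option, Fintype.sum_option]
  simp only [Matrix.map_apply]
  rcases i with _ | s <;> rcases j with _ | t
  · show symHom g 0 * C 1 + ∑ x : {s : State L // s ∈ goodSet L N},
      symHom g (- C (frow K r N x.1)) * C 0 =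
      C 1 * 0 + ∑ x : {s : State L // s ∈ goodSet L N}, C 0 * (if x = _ then 1 else 0)
    simp
  · show symHom g 0 * C 0 + ∑ x : {s : State L // s ∈ goodSet L N},
      symHom g (- C (frow K r N x.1)) * C (R g x.1 t.1) =
      C 1 * (- C (frow K r N t.1)) + ∑ x : {s : State L // s ∈ goodSet L N},
        C 0 * ((if x = t then 1 else 0) - B K x.1 t.1)
    have h1 : ∀ c : K, symHom g (C c : MvPolynomial (TVar L) K) = C c := fun c => algHom_C _ _
    have h2 : ∑ x : {s : State L // s ∈ goodSet L N}, frow K r N x.1 * R g x.1 t.1 =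
        frow K r N t.1 :=
      (Finset.sum_coe_sort (goodSet L N) (fun x => frow K r N x * R g x t.1)).trans
        (frow_R g r hr N t.1)
    simp only [map_neg, h1, C_0, zero_mul, mul_zero, Finset.sum_const_zero, add_zero, zero_add,
      neg_mul, Finset.sum_neg_distrib, ← C_mul]
    rw [← map_sum, h2, C_1, one_mul]
  · show symHom g (if s = _ then 1 else 0) * C 1 + ∑ x : {s : State L // s ∈ goodSet L N},
      symHom g ((if s = x then 1 else 0) - B K s.1 x.1) * C 0 =
      C 0 * 0 + ∑ x : {s : State L // s ∈ goodSet L N}, C (R g s.1 x.1) * (if x = _ then 1 else 0)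
    simp only [C_0, C_1, mul_zero, mul_one, Finset.sum_const_zero, add_zero, zero_add,
      mul_ite, Finset.sum_ite_eq', Finset.mem_univ, if_true, R_nil]
    by_cases h : s.1 = []
    · rw [if_pos h, if_pos (Subtype.ext h), map_one, C_1]
    · rw [if_neg h, if_neg (fun h' => h (congrArg Subtype.val h')), map_zero, C_0]
  · show symHom g (if s = _ then 1 else 0) * C 0 + ∑ x : {s : State L // s ∈ goodSet L N},
      symHom g ((if s = x then 1 else 0) - B K s.1 x.1) * C (R g x.1 t.1) =
      C 0 * (- C (frow K r N t.1)) + ∑ x : {s : State L // s ∈ goodSet L N},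
        C (R g s.1 x.1) * ((if x = t then 1 else 0) - B K x.1 t.1)
    have h1 : ∑ x : {s : State L // s ∈ goodSet L N}, symHom g (B K s.1 x.1) * C (R g x.1 t.1) =
        ∑ x : {s : State L // s ∈ goodSet L N}, C (R g s.1 x.1) * B K x.1 t.1 := by
      refine (Finset.sum_coe_sort (goodSet L N)
        (fun x => symHom g (B K s.1 x) * C (R g x t.1))).trans (Eq.trans ?_
        (Finset.sum_coe_sort (goodSet L N) (fun x => C (R g s.1 x) * B K x t.1)).symm)
      rw [sum_B_map (symHom g) s.1 (goodSet L N) (fun x => C (R g x t.1))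
        (fun p hp => mem_goodSet.2 (step_good (mem_goodSet.1 s.2) hp))]
      simp only [R_C]
      rw [key g hg]
      simp only [← B_eq]
      rw [← sum_R g s.1 (fun x => B K x t.1) (goodSet L N) (fun y hy => mem_of_sizes s.2 hy)]
      simp only [← R_C, MvPolynomial.smul_eq_C_mul]
    simp only [map_sub, sub_mul, mul_sub, Finset.sum_sub_distrib, h1, C_0, mul_zero, zero_mul,
      zero_add]
    congr 1
    have h2 : ∑ x : {s : State L // s ∈ goodSet L N},
        symHom g (if s = x then 1 else 0) * C (R g x.1 t.1) = C (R g s.1 t.1) := by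
      rw [Finset.sum_eq_single s]
      · rw [if_pos rfl, map_one, one_mul]
      · intro b _ hb
        rw [if_neg (Ne.symm hb), map_zero, zero_mul]
      · intro h
        exact absurd (Finset.mem_univ _) h
    rw [h2, Finset.sum_eq_single t]
    · rw [if_pos rfl, mul_one]
    · intro b _ hb
      rw [if_neg hb, mul_zero]
    · intro h
      exact absurd (Finset.mem_univ _) h

end mat

end Pool.EQD.EU2

namespace Pool.EQD

open MvPolynomial Matrix Pool.Agent.H80 Stk Det EU2

universe u

theorem t_eu2 : EU2Stmt.{u} := by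
  classical
  refine ⟨9, ?_⟩
  intro K _ n
  set L := Fin (n + 1) with hL
  set N := n + 1 with hN
  -- the states
  set S : Type := {s : State L // s ∈ goodSet L N} with hS
  set s₀ : S := ⟨[], mem_goodSet.2 (good_nil N)⟩ with hs₀
  set BB : S → S → MvPolynomial (TVar L) K := fun s t => B K s.1 t.1 with hBB
  set F : S → K := fun t => frow K (0 : L) N t.1 with hF
  set y : S → MvPolynomial (TVar L) K := fun s => Y K s.1 with hy
  have hdet : (emat BB F s₀).det = Pool.Agent.H80.tsum K L N 0 := by
    rw [det_emat BB F s₀ (fun s => mu s.1) ?_ y ?_ ?_ ?_]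
    · rw [tsum_eq]
      have h1 : ∀ t : S, C (F t) * y t =
          ∑ m ∈ Finset.Icc 1 N, if t.1 = [((0 : L), m)] then Y K [((0 : L), m)] else 0 := by
        intro t
        rw [hF, hy]
        beta_reduce
        unfold frow
        rw [map_sum, Finset.sum_mul]
        refine Finset.sum_congr rfl fun m _ => ?_
        by_cases h : t.1 = [((0 : L), m)]
        · rw [if_pos h, if_pos h, C_1, one_mul, h]
        · rw [if_neg h, if_neg h, C_0, zero_mul]
      rw [Finset.sum_congr rfl fun t _ => h1 t, Finset.sum_comm]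
      refine Finset.sum_congr rfl fun m hm => ?_
      rw [Finset.mem_Icc] at hm
      rw [Finset.sum_eq_single (⟨[((0 : L), m)], mem_goodSet.2 (good_single _ hm.1 hm.2)⟩ : S)]
      · rw [if_pos rfl]
      · intro t _ ht
        rw [if_neg]
        intro h
        exact ht (Subtype.ext h)
      · intro h
        exact absurd (Finset.mem_univ _) h
    · intro s t hst
      have := B_mu (mem_goodSet.1 s.2) hst
      omega
    · show Y K ([] : State L) = 1
      rfl
    · intro t
      show B K ([] : State L) t.1 = 0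
      rfl
    · intro s hs
      have h1 : s.1 ≠ [] := fun h => hs (Subtype.ext h)
      have h2 := sum_B K (mem_goodSet.1 s.2) h1
      exact (Finset.sum_coe_sort (goodSet L N) (fun t => B K s.1 t * Y K t)).trans h2
  -- the matrix
  set e := Fintype.equivFin (Option S) with he
  refine ⟨Fintype.card (Option S), Matrix.reindex e e (emat BB F s₀), ⟨?_, ?_⟩, ?_, ?_⟩
  · intro i j
    rw [Matrix.reindex_apply, Matrix.submatrix_apply]
    exact totalDegree_emat BB F s₀ (fun s t => totalDegree_B K s.1 t.1) _ _
  · rw [Matrix.det_reindex_self]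
    exact hdet
  · have hc : Fintype.card S = (goodSet L N).card := Fintype.card_coe _
    rw [Fintype.card_option, hc]
    have h1 := card_goodSet (L := L) (N := N)
    rw [Fintype.card_fin] at h1
    have hl : 1 ≤ Nat.log 2 (n + 2) := Nat.log_pos (by norm_num) (by omega)
    have hl2 : Nat.log 2 N ≤ Nat.log 2 (n + 2) := Nat.log_mono_right (by omega)
    have h2 : ((n + 1) * N + 1) ^ (2 * Nat.log 2 N + 2) ≤ (n + 2) ^ (8 * Nat.log 2 (n + 2)) := by
      calc ((n + 1) * N + 1) ^ (2 * Nat.log 2 N + 2)
          ≤ ((n + 2) ^ 2) ^ (2 * Nat.log 2 N + 2) := by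
            refine Nat.pow_le_pow_left ?_ _
            rw [hN]
            nlinarith
        _ = (n + 2) ^ (2 * (2 * Nat.log 2 N + 2)) := by rw [← pow_mul]
        _ ≤ (n + 2) ^ (8 * Nat.log 2 (n + 2)) := Nat.pow_le_pow_right (by omega) (by omega)
    have h3 : (n + 2) ^ (8 * Nat.log 2 (n + 2)) + 1 ≤ (n + 2) ^ (9 * Nat.log 2 (n + 2)) := by
      have h4 : (n + 2) ^ (9 * Nat.log 2 (n + 2)) =
          (n + 2) ^ (8 * Nat.log 2 (n + 2)) * (n + 2) ^ (Nat.log 2 (n + 2)) := by
        rw [← pow_add]
        congr 1
        ring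
      have h5 : 2 ≤ (n + 2) ^ (Nat.log 2 (n + 2)) := by
        calc 2 ≤ (n + 2) ^ 1 := by rw [pow_one]; omega
          _ ≤ _ := Nat.pow_le_pow_right (by omega) hl
      have h6 : 1 ≤ (n + 2) ^ (8 * Nat.log 2 (n + 2)) := Nat.one_le_pow _ _ (by omega)
      rw [h4]
      nlinarith
    calc (goodSet L N).card + 1 ≤ ((n + 1) * N + 1) ^ (2 * Nat.log 2 N + 2) + 1 :=
          Nat.add_le_add_right h1 1
      _ ≤ (n + 2) ^ (8 * Nat.log 2 (n + 2)) + 1 := Nat.add_le_add_right h2 1
      _ ≤ _ := h3
  · intro g hg hr
    have hPQ : pmat g N * pmat g⁻¹ N = 1 := by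
      rw [pmat_mul, Matrix.mul_nonsing_inv g hg, pmat_one]
    have hQP : pmat g⁻¹ N * pmat g N = 1 := by
      rw [pmat_mul, Matrix.nonsing_inv_mul g hg, pmat_one]
    have hint := intertwine g hg (0 : L) hr N
    have hm : (emat BB F s₀).map (symHom g) =
        (pmat g N).map C * emat BB F s₀ * (pmat g⁻¹ N).map C := by
      have h1 : (pmat g N).map C * (pmat g⁻¹ N).map C =
          (1 : Matrix (Option S) (Option S) (MvPolynomial (TVar L) K)) := by
        rw [← Matrix.map_mul, hPQ, Matrix.map_one _ (map_zero C) (map_one C)]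
      calc (emat BB F s₀).map (symHom g) = (emat BB F s₀).map (symHom g) *
            ((pmat g N).map C * (pmat g⁻¹ N).map C) := by rw [h1, mul_one]
        _ = _ := by
          rw [← mul_assoc]
          congr 1
    refine ⟨Matrix.reindex e e (pmat g N), Matrix.reindex e e (pmat g⁻¹ N), ?_, ?_, Or.inl ?_⟩
    · rw [Matrix.det_reindex_self]
      exact IsUnit.of_mul_eq_one (pmat g⁻¹ N).det (by rw [← Matrix.det_mul, hPQ, Matrix.det_one])
    · rw [Matrix.det_reindex_self]
      exact IsUnit.of_mul_eq_one (pmat g N).det (by rw [← Matrix.det_mul, hQP, Matrix.det_one])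
    · have h2 : (Matrix.reindex e e (emat BB F s₀)).map (symHom g) =
          Matrix.reindex e e ((emat BB F s₀).map (symHom g)) := rfl
      have h3 : (Matrix.reindex e e (pmat g N)).map C =
          Matrix.reindex e e ((pmat g N).map (C : K →+* MvPolynomial (TVar L) K)) := rfl
      have h4 : (Matrix.reindex e e (pmat g⁻¹ N)).map C =
          Matrix.reindex e e ((pmat g⁻¹ N).map (C : K →+* MvPolynomial (TVar L) K)) := rfl
      rw [h2, h3, h4, hm]
      simp only [Matrix.reindex_apply, Matrix.submatrix_mul_equiv]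

end Pool.EQD
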