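import Pool.Agent.H79.EQD.Defs

set_option autoImplicit false

namespace Pool.EQD

open MvPolynomial Pool.Agent.H80

universe u v w

theorem cut_vals (B : Set (List Bool)) (c : List Bool) :
    cut B c = -1 ∨ cut B c = 0 ∨ cut B c = 1 := by
  classical
  unfold cut
  by_cases h1 : c ∈ B <;> by_cases h2 : c.tail ∈ B <;> simp [h1, h2]

theorem card_cut (h : ℕ) (B : Set (List Bool)) :
    (Finset.univ.filter (fun c : EdgeT h => cut B c.1 ≠ 0)).card =
      ((edges h).filter (fun c => cut B c ≠ 0)).card := by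
  classical
  rw [← Finset.card_map (Function.Embedding.subtype _)]
  congr 1
  ext c
  simp only [Finset.mem_map, Finset.mem_filter, Finset.mem_univ, true_and,
    Function.Embedding.subtype_apply, Subtype.exists, exists_and_left, exists_prop,
    exists_eq_right_right]
  constructor
  · rintro ⟨h1, h2⟩
    exact ⟨h2, h1⟩
  · rintro ⟨h1, h2⟩
    exact ⟨h2, h1⟩

/-- The numbering of the variables of the tree polynomial. -/
def tnum (n : ℕ) : TVar (Fin (n + 1)) ≃ Fin (nvar n) := tvarEquiv (n + 1)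

theorem coeff_treePoly (hT : TRCStmt.{u}) (K : Type u) [CommSemiring K] (n h k : ℕ)
    (lab : List Bool → Fin k → Fin (n + 1)) (a : EdgeT h → Fin k) (hl : LabInj h 0 lab)
    (hh : 2 ^ h ≤ n + 1) :
    coeff (∑ v ∈ nodes h, Finsupp.single (tnum n (tvar h (ell 0 lab a) v)) 1)
      (treePoly K n) = 1 := by
  have h1 : (∑ v ∈ nodes h, Finsupp.single (tnum n (tvar h (ell 0 lab a) v)) 1 :
      Fin (nvar n) →₀ ℕ) = Finsupp.mapDomain (tnum n) (tmon h (ell 0 lab a)) := by
    unfold tmon
    rw [Finsupp.mapDomain_finsetSum]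
    refine Finset.sum_congr rfl fun v _ => ?_
    rw [Finsupp.mapDomain_single]
  rw [h1]
  have h2 : treePoly K n = rename (tnum n) (tsum K (Fin (n + 1)) (n + 1) 0) := rfl
  rw [h2, coeff_rename_mapDomain _ (tnum n).injective]
  exact hT K (Fin (n + 1)) 0 h k (n + 1) lab a hl hh

/-- Lower bound for homogeneous weakly skew circuits. -/
theorem slb (hC : CUTStmt) (hP : PREStmt.{v}) (hN : CNTStmt.{v}) (hT : TRCStmt.{u})
    (hI : INJStmt) (hW : WSHStmt.{u, v}) (hS : SKWStmt.{u, v})
    (K : Type u) [CommSemiring K] [Nontrivial K] (n h k : ℕ) (G : Type v) [AddCommGroup G]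
    (lab : List Bool → Fin k → Fin (n + 1)) (u : Fin (n + 1) → G) (hl : LabInj h 0 lab)
    (hh : 2 ^ h ≤ n + 1) (hk : 0 < k) (hu : u 0 = 0)
    (hsep : Sep (fun (c : EdgeT h) (x : Fin k) => u (lab c.1 x)))
    (D : Circuit K (Fin (nvar n))) (hD : D.WeaklySkew)
    (hf : HomComputes (treeWeight u) D (treePoly K n)) : k ^ ((h + 1) / 2) ≤ 1 + D.size := by
  classical
  obtain ⟨l, h1, h2, h3, h4⟩ := hW K (Fin (nvar n)) G (treeWeight u) D (treePoly K n) hD hf
  obtain ⟨X, hX, hX'⟩ := hS K (Fin (nvar n)) G (treeWeight u) l h1 h4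
  have key := hN (EdgeT h) G k ((h + 1) / 2) (fun c x => u (lab c.1 x)) {0} X hk hsep ?_
  · rw [Finset.card_singleton, one_mul] at key
    omega
  · intro a
    have hinj : Set.InjOn (fun v => tnum n (tvar h (ell 0 lab a) v))
        (nodes h : Set (List Bool)) := by
      intro x hx y hy hxy
      exact hI (Fin (n + 1)) 0 h k lab a hl hx hy ((tnum n).injective hxy)
    obtain ⟨τ, hτ, hτ'⟩ := hX' (treePoly K n) h3 (List Bool) (nodes h)
      (fun v => tnum n (tvar h (ell 0 lab a) v)) hinj (by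
        rw [coeff_treePoly hT K n h k lab a hl hh]
        exact one_ne_zero)
    obtain ⟨j, hj⟩ := hC h τ hτ
    refine ⟨0, Finset.mem_singleton_self 0, _, hτ' j, fun c => cut {v | τ v < j} c.1,
      fun c => cut_vals _ _, ?_, ?_⟩
    · rw [zero_add, ← hP G (Fin (n + 1)) u 0 h k lab a {v | τ v < j} hu]
      refine Finset.sum_congr ?_ fun v _ => ?_
      · ext v
        simp
      · unfold treeWeight
        exact congrArg (tw u) ((tnum n).symm_apply_apply _)
    · rw [card_cut]
      exact hj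

end Pool.EQD
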