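import Pool.Agent.H79.EQD.Cut
import Pool.Agent.H79.EQD.Slb

set_option autoImplicit false

namespace Pool.EQD

open MvPolynomial Pool.Agent.H80

universe u v w

theorem Sep.map {ι : Type} {G : Type v} {H : Type w} [Fintype ι] [AddCommGroup G]
    [AddCommGroup H] {k : ℕ} {u : ι → Fin k → G} (hu : Sep u) (f : G →+ H)
    (hf : Function.Injective f) : Sep (fun c x => f (u c x)) := by
  intro s s' a a' hs hs' h
  refine hu s s' a a' hs hs' (hf ?_)
  rw [map_sum, map_sum]
  simpa only [map_zsmul] using h

section mat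

variable {K : Type u} [CommSemiring K] {σ : Type} [Fintype σ] {m : ℕ}

theorem aff_eq (A : Option σ → Matrix (Fin m) (Fin m) K) :
    aff A = (A none).map C + ∑ e : σ, (X e : MvPolynomial σ K) • (A (some e)).map C := by
  ext1 i j
  simp only [aff, Matrix.of_apply, Matrix.add_apply, Matrix.map_apply, Matrix.sum_apply,
    Matrix.smul_apply, smul_eq_mul]
  congr 1
  refine Finset.sum_congr rfl fun e _ => ?_
  rw [mul_comm]

theorem aff_mul (A : Option σ → Matrix (Fin m) (Fin m) K) (P Q : Matrix (Fin m) (Fin m) K) :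
    aff (fun o => P * A o * Q) = P.map C * aff A * Q.map C := by
  rw [aff_eq, aff_eq, Matrix.mul_add, Matrix.add_mul, Matrix.mul_sum, Matrix.sum_mul]
  congr 1
  · rw [← Matrix.map_mul, ← Matrix.map_mul]
  · refine Finset.sum_congr rfl fun e _ => ?_
    rw [Matrix.mul_smul, Matrix.smul_mul, ← Matrix.map_mul, ← Matrix.map_mul]

end mat

theorem det_aff_mul {K : Type u} [CommRing K] {σ : Type} [Fintype σ] {m : ℕ}
    (A : Option σ → Matrix (Fin m) (Fin m) K) (P Q : Matrix (Fin m) (Fin m) K) :
    (aff (fun o => P * A o * Q)).det = C (P.det * Q.det) * (aff A).det := by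
  rw [aff_mul, Matrix.det_mul, Matrix.det_mul]
  have h1 : ∀ M : Matrix (Fin m) (Fin m) K,
      (M.map (C : K → MvPolynomial σ K)).det = C M.det := by
    intro M
    exact (RingHom.map_det (C : K →+* MvPolynomial σ K) M).symm
  rw [h1, h1, C_mul]
  ring

/-- The columns of a Leibniz term whose monomial is a product of different variables. -/
theorem columns {σ : Type} {m : ℕ} (ι : Type) [Nonempty (Fin m)] (N : Finset ι) (e : ι → σ)
    (he : Set.InjOn e (N : Set ι))
    (φ : Fin m → Option σ)
    (hφ : (∑ i, (φ i).elim 0 (fun e => Finsupp.single e 1)) = ∑ v ∈ N, Finsupp.single (e v) 1) :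
    ∃ col : ι → Fin m, Set.InjOn col (N : Set ι) ∧ (∀ v ∈ N, φ (col v) = some (e v)) ∧
      ∀ i, (∀ v ∈ N, col v ≠ i) → φ i = none := by
  classical
  have hL : ∀ x : σ, (∑ i, (φ i).elim (0 : σ →₀ ℕ) (fun e => Finsupp.single e 1)) x =
      (Finset.univ.filter (fun i => φ i = some x)).card := by
    intro x
    rw [Finsupp.finsetSum_apply, Finset.card_filter]
    refine Finset.sum_congr rfl fun i _ => ?_
    cases hi : φ i with
    | none => simp
    | some y =>
      simp only [Option.elim_some, Option.some.injEq]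
      rw [Finsupp.single_apply]
  have hR : ∀ x : σ, (∑ v ∈ N, Finsupp.single (e v) (1 : ℕ)) x =
      (N.filter (fun v => e v = x)).card := by
    intro x
    rw [Finsupp.finsetSum_apply, Finset.card_filter]
    refine Finset.sum_congr rfl fun i _ => ?_
    rw [Finsupp.single_apply]
  have hcard : ∀ x : σ, (Finset.univ.filter (fun i => φ i = some x)).card =
      (N.filter (fun v => e v = x)).card := by
    intro x
    rw [← hL, ← hR, hφ]
  have hone : ∀ v ∈ N, (N.filter (fun v' => e v' = e v)).card = 1 := by
    intro v hv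
    rw [Finset.card_eq_one]
    refine ⟨v, ?_⟩
    ext v'
    simp only [Finset.mem_filter, Finset.mem_singleton]
    constructor
    · rintro ⟨h1, h2⟩
      exact he (Finset.mem_coe.2 h1) (Finset.mem_coe.2 hv) h2
    · rintro rfl
      exact ⟨hv, rfl⟩
  have hex : ∀ v : ι, ∃ i : Fin m, v ∈ N →
      (Finset.univ.filter (fun i => φ i = some (e v))) = {i} := by
    intro v
    by_cases hv : v ∈ N
    · obtain ⟨i, hi⟩ := Finset.card_eq_one.1 ((hcard (e v)).trans (hone v hv))
      exact ⟨i, fun _ => hi⟩
    · exact ⟨Classical.arbitrary _, fun h => absurd h hv⟩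
  choose col hcol using hex
  have hcol' : ∀ v ∈ N, φ (col v) = some (e v) := by
    intro v hv
    have h1 : col v ∈ (Finset.univ.filter (fun i => φ i = some (e v))) := by
      rw [hcol v hv]
      exact Finset.mem_singleton_self _
    exact (Finset.mem_filter.1 h1).2
  refine ⟨col, ?_, hcol', ?_⟩
  · intro v hv v' hv' h
    have h1 := hcol' v hv
    have h2 := hcol' v' hv'
    rw [h, h2] at h1
    exact (he hv' hv (Option.some_injective _ h1)).symm
  · intro i hi
    cases hφi : φ i with
    | none => rfl
    | some x =>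
      exfalso
      have h1 : 0 < (Finset.univ.filter (fun i => φ i = some x)).card :=
        Finset.card_pos.2 ⟨i, by simp [hφi]⟩
      rw [hcard x] at h1
      obtain ⟨v, hv⟩ := Finset.card_pos.1 h1
      obtain ⟨hv1, hv2⟩ := Finset.mem_filter.1 hv
      have h2 : i ∈ (Finset.univ.filter (fun i => φ i = some (e v))) := by
        simp [hφi, hv2]
      rw [hcol v hv1] at h2
      exact hi v hv1 (Finset.mem_singleton.1 h2).symm

/-- The lower bound over algebraically closed fields. -/
theorem dlb0 (hC : CUTStmt) (hP : PREStmt.{u}) (hN : CNTStmt.{u})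
    (hI : INJStmt) (hE : DEXStmt.{u}) (hG : GRBStmt.{u}) (hM : DCMStmt.{u})
    (K : Type u) [Field K] [IsAlgClosed K] (L : Type) [Fintype L] (r : L) (h k m : ℕ)
    (lab : List Bool → Fin k → L) (t : L → Kˣ) (A : Option (TVar L) → Matrix (Fin m) (Fin m) K)
    (g g' : Matrix (Fin m) (Fin m) K) (hl : LabInj h r lab) (hh : 0 < h)
    (hk : ((nodes h).card) ^ 2 < k) (ht : t r = 1)
    (hsep : Sep (fun (c : EdgeT h) (x : Fin k) => Additive.ofMul (t (lab c.1 x))))
    (hcoef : ∀ a : EdgeT h → Fin k, coeff (tmon h (ell r lab a)) (aff A).det ≠ 0)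
    (hg : IsUnit g.det) (hg' : IsUnit g'.det) (h0 : A none = g * A none * g')
    (h1 : ∀ e : TVar L, (((tw (fun i => Additive.ofMul (t i)) e).toMul : Kˣ) : K) • A (some e) =
      g * A (some e) * g') :
    k ^ ((h + 1) / 2) ≤ m ^ 2 := by
  classical
  have hkpos : 0 < k := lt_of_le_of_lt (Nat.zero_le _) hk
  obtain ⟨P, Q, γ, η, hPd, hQd, hgr⟩ := hG K m g g' hg hg'
  set u : L → Additive Kˣ := fun i => Additive.ofMul (t i) with hu
  have hur : u r = 0 := by
    rw [hu]
    simp [ht]
  set A' : Option (TVar L) → Matrix (Fin m) (Fin m) K := fun o => P * A o * Q with hA'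
  have hnone : ∀ i j, A' none i j ≠ 0 → Additive.ofMul (γ i) = Additive.ofMul (η j) := by
    intro i j hij
    have h2 := hgr (A none) 1 (by rw [Units.val_one, one_smul]; exact h0.symm) i j hij
    rw [h2, mul_one]
  have hsome : ∀ e i j, A' (some e) i j ≠ 0 →
      Additive.ofMul (γ i) = Additive.ofMul (η j) + (- tw u e) := by
    intro e i j hij
    have h2 := hgr (A (some e)) ((tw u e).toMul)⁻¹ (by
      rw [← h1 e, smul_smul, Units.inv_mul, one_smul]) i j hij
    rw [h2, ofMul_mul]
    rfl
  have hdet : ∀ a : EdgeT h → Fin k, coeff (tmon h (ell r lab a)) (aff A').det ≠ 0 := by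
    intro a
    rw [hA', det_aff_mul, coeff_C_mul]
    exact mul_ne_zero (mul_ne_zero hPd.ne_zero hQd.ne_zero) (hcoef a)
  -- the terms
  have hterm : ∀ a : EdgeT h → Fin k, ∃ T : Term (fun i => Additive.ofMul (γ i))
      (fun i => Additive.ofMul (η i)) (List Bool), T.N = nodes h ∧
      ∀ v, T.ω v = - tw u (tvar h (ell r lab a) v) := by
    intro a
    obtain ⟨π, φ, hφ, hφ'⟩ := hE K (TVar L) m A' _ (hdet a)
    have hne : Nonempty (Fin m) := by
      by_contra hne
      rw [not_nonempty_iff] at hne
      rw [Fintype.sum_empty] at hφ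
      have h2 : (tmon h (ell r lab a)) (tvar h (ell r lab a) []) = 0 := by rw [← hφ]; rfl
      unfold tmon at h2
      rw [Finsupp.finsetSum_apply, Finset.sum_eq_zero_iff] at h2
      have h3 := h2 [] (mem_nodes.2 (Nat.zero_le _))
      simp at h3
    obtain ⟨col, hc1, hc2, hc3⟩ := columns (List Bool) (nodes h)
      (tvar h (ell r lab a)) (hI L r h k lab a hl) φ hφ
    refine ⟨⟨π, nodes h, col, fun v => - tw u (tvar h (ell r lab a) v), hc1, ?_, ?_⟩, rfl,
      fun v => rfl⟩
    · intro v hv
      have h2 := hφ' (col v)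
      rw [hc2 v hv] at h2
      exact hsome _ _ _ h2
    · intro i hi
      have h2 := hφ' i
      rw [hc3 i hi] at h2
      exact hnone _ _ h2
  have hneg : ∀ (a : EdgeT h → Fin k) (B : Finset (List Bool)), B ⊆ nodes h →
      ∑ v ∈ B, (- tw u (tvar h (ell r lab a) v)) =
        ∑ c : EdgeT h, (- cut (B : Set (List Bool)) c.1) • u (lab c.1 (a c)) := by
    intro a B hB
    have h2 := hP (Additive Kˣ) L u r h k lab a (B : Set (List Bool)) hur
    have h3 : ∑ v ∈ B, tw u (tvar h (ell r lab a) v) =
        ∑ c : EdgeT h, cut (B : Set (List Bool)) c.1 • u (lab c.1 (a c)) := by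
      rw [← h2]
      refine Finset.sum_congr ?_ fun _ _ => rfl
      ext v
      simp only [Finset.mem_filter, Finset.mem_coe]
      exact ⟨fun h' => ⟨hB h', h'⟩, fun h' => h'.2⟩
    rw [Finset.sum_neg_distrib, h3, ← Finset.sum_neg_distrib]
    refine Finset.sum_congr rfl fun c _ => ?_
    rw [neg_smul]
  have hnegv : ∀ (B : Set (List Bool)) (c : List Bool),
      - cut B c = -1 ∨ - cut B c = 0 ∨ - cut B c = 1 := by
    intro B c
    rcases cut_vals B c with h' | h' | h' <;> simp [h']
  rcases hM (Additive Kˣ) m (fun i => Additive.ofMul (γ i)) (fun i => Additive.ofMul (η i))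
    (nodes h).card with ⟨X₀, X, hX₀, hX, hall⟩ | hall
  · -- unbalanced grades
    exfalso
    have key := hN (EdgeT h) (Additive Kˣ) k 1 (fun c x => u (lab c.1 x)) X₀ X hkpos hsep ?_
    · rw [pow_one] at key
      have h2 : X₀.card * X.card ≤ (nodes h).card * (nodes h).card := Nat.mul_le_mul hX₀ hX
      rw [sq] at hk
      omega
    · intro a
      obtain ⟨T, hT1, hT2⟩ := hterm a
      obtain ⟨B, hB, β, hβ, x, hx, hxβ, hxe⟩ := hall (List Bool) T (by rw [hT1])
      rw [hT1] at hB
      rw [Finset.sum_congr rfl fun v _ => hT2 v, hneg a B hB] at hxe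
      refine ⟨β, hβ, x, hx, fun c => - cut (B : Set (List Bool)) c.1, fun c => hnegv _ _, hxe, ?_⟩
      by_contra h2
      rw [not_le, Nat.lt_one_iff, Finset.card_eq_zero, Finset.filter_eq_empty_iff] at h2
      apply hxβ
      rw [hxe, Finset.sum_eq_zero, add_zero]
      intro c _
      have h3 : - cut (B : Set (List Bool)) c.1 = 0 := not_not.1 (h2 (Finset.mem_univ c))
      rw [h3, zero_smul]
  · -- closed walks
    have key := hN (EdgeT h) (Additive Kˣ) k ((h + 1) / 2) (fun c x => u (lab c.1 x))
      (Finset.univ.image fun i => Additive.ofMul (η i))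
      (Finset.univ.image fun i => Additive.ofMul (η i)) hkpos hsep ?_
    · refine key.trans ?_
      have h2 : (Finset.univ.image fun i => Additive.ofMul (η i)).card ≤ m := by
        refine Finset.card_image_le.trans ?_
        rw [Finset.card_univ, Fintype.card_fin]
      rw [sq]
      exact Nat.mul_le_mul h2 h2
    · intro a
      obtain ⟨T, hT1, hT2⟩ := hterm a
      obtain ⟨B, hB, hrB, hsum, τ, hτ, hτ'⟩ := hall (List Bool) T (by rw [hT1]) []
        (by rw [hT1]; exact mem_nodes.2 (Nat.zero_le _))
      rw [hT1] at hB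
      -- B is everything
      have hcut : ∀ c : EdgeT h, cut (B : Set (List Bool)) c.1 = 0 := by
        intro c
        rw [Finset.sum_congr rfl fun v _ => hT2 v, hneg a B hB] at hsum
        have h2 := hsep (fun c => - cut (B : Set (List Bool)) c.1) (fun _ => 0) a a
          (fun c => hnegv _ _) (fun c => Or.inr (Or.inl rfl)) (by
            rw [hsum]
            simp) c
        have h3 := h2.1
        omega
      have hBall : B = nodes h := by
        refine Finset.Subset.antisymm hB ?_
        intro v hv
        refine (const_all h (fun v => v ∈ B) ?_ v hv).2 hrB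
        intro c hc
        have h2 := hcut ⟨c, hc⟩
        unfold cut at h2
        by_cases h3 : c ∈ B <;> by_cases h4 : c.tail ∈ B
        · exact ⟨fun _ => h4, fun _ => h3⟩
        · simp [h3, h4] at h2
        · simp [h3, h4] at h2
        · exact ⟨fun h' => absurd h' h3, fun h' => absurd h' h4⟩
      rw [hBall] at hτ hτ'
      obtain ⟨j, hj⟩ := hC h τ hτ
      obtain ⟨i, hi⟩ := hτ' j
      refine ⟨Additive.ofMul (η (T.col [])), Finset.mem_image_of_mem _ (Finset.mem_univ _),
        Additive.ofMul (η i), Finset.mem_image_of_mem _ (Finset.mem_univ _),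
        fun c => - cut {v | τ v < j} c.1, fun c => hnegv _ _, ?_, ?_⟩
      · rw [hi]
        congr 1
        rw [Finset.sum_congr rfl fun v _ => hT2 v,
          hneg a ((nodes h).filter (fun v => τ v < j)) (Finset.filter_subset _ _)]
        refine Finset.sum_congr rfl fun c _ => ?_
        have h2 : cut (((nodes h).filter (fun v => τ v < j) : Finset (List Bool)) :
            Set (List Bool)) c.1 = cut {v | τ v < j} c.1 := by
          have hc := mem_edges.1 c.2
          have h3 : c.1 ∈ nodes h := mem_nodes.2 hc.2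
          have h4 : c.1.tail ∈ nodes h := mem_nodes.2 (by rw [List.length_tail]; omega)
          unfold cut
          by_cases h5 : τ c.1 < j <;> by_cases h6 : τ c.1.tail < j <;> simp [h3, h4, h5, h6]
        rw [h2]
      · refine hj.trans (le_of_eq ?_)
        rw [← card_cut]
        congr 1
        ext c
        simp
    
/-- The lower bound for determinants. -/
theorem dlb (hC : CUTStmt) (hP : PREStmt.{u}) (hN : CNTStmt.{u}) (hT : TRCStmt.{u})
    (hI : INJStmt) (hE : DEXStmt.{u}) (hG : GRBStmt.{u}) (hM : DCMStmt.{u}) : DLBStmt.{u} := by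
  classical
  intro K _ L _ r h k N m lab t A g g' hl hN' hh hk ht hsep hdet hg hg' h0 h1
  set ι : K →+* AlgebraicClosure K := algebraMap K (AlgebraicClosure K) with hι
  have hunit : ∀ M : Matrix (Fin m) (Fin m) K, IsUnit M.det → IsUnit (M.map ι).det := by
    intro M hM'
    have h2 : (M.map ι).det = ι M.det := (RingHom.map_det ι M).symm
    rw [h2]
    exact hM'.map ι
  refine dlb0 hC hP hN hI hE hG hM (AlgebraicClosure K) L r h k m lab
    (fun i => Units.map (ι : K →* AlgebraicClosure K) (t i)) (fun o => (A o).map ι) (g.map ι)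
    (g'.map ι) hl hh hk (by simp [ht]) ?_ ?_ (hunit g hg) (hunit g' hg') ?_ ?_
  · exact hsep.map (MonoidHom.toAdditive (Units.map (ι : K →* AlgebraicClosure K)))
      (by
        intro x y hxy
        exact Units.map_injective (ι.injective) hxy)
  · intro a
    have h2 : aff (fun o => (A o).map ι) = (aff A).map (MvPolynomial.map ι) := by
      ext1 i j
      simp [aff]
    have h3 : ((aff A).map (MvPolynomial.map ι)).det = MvPolynomial.map ι (aff A).det :=
      (RingHom.map_det (MvPolynomial.map ι) (aff A)).symm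
    rw [h2, h3, coeff_map, hdet, hT K L r h k N lab a hl hN', map_one]
    exact one_ne_zero
  · rw [← Matrix.map_mul, ← Matrix.map_mul, ← h0]
  · intro e
    rw [← Matrix.map_mul, ← Matrix.map_mul, ← h1 e]
    ext i j
    simp only [Matrix.smul_apply, Matrix.map_apply, smul_eq_mul, map_mul]
    congr 1
    rcases e with i | ⟨i, j, k⟩
    · simp [tw]
    · simp [tw]

end Pool.EQD
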