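import Pool.Agent.H79.EQD.Defs2
import Pool.Agent.H79.EQD.Dlb

set_option autoImplicit false

namespace Pool.EQD

open MvPolynomial Pool.Agent.H80

universe u v w

section aff

variable {K : Type u} [CommSemiring K] {σ : Type} [Fintype σ] {m : ℕ}

theorem coeff_aff_zero (A : Option σ → Matrix (Fin m) (Fin m) K) (i j : Fin m) :
    coeff 0 (aff A i j) = A none i j := by
  classical
  simp [aff, coeff_sum]

theorem coeff_aff_single (A : Option σ → Matrix (Fin m) (Fin m) K) (i j : Fin m) (e : σ) :
    coeff (Finsupp.single e 1) (aff A i j) = A (some e) i j := by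
  classical
  simp only [aff, Matrix.of_apply, coeff_add, coeff_sum, coeff_C_mul, coeff_X]
  rw [coeff_C, if_neg (by
    intro h
    have := congrArg (fun f => f e) h
    simp at this), zero_add, Finset.sum_eq_single e]
  · simp
  · intro x _ hx
    rw [if_neg, mul_zero]
    intro h
    exact hx ((Finsupp.single_left_inj one_ne_zero).1 h)
  · intro h
    exact absurd (Finset.mem_univ e) h

theorem aff_injective {A B : Option σ → Matrix (Fin m) (Fin m) K} (h : aff A = aff B) : A = B := by
  funext o
  ext i j
  cases o with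
  | none => exact (coeff_aff_zero A i j).symm.trans ((congrArg (fun M : Matrix (Fin m) (Fin m)
      (MvPolynomial σ K) => coeff 0 (M i j)) h).trans (coeff_aff_zero B i j))
  | some e => exact (coeff_aff_single A i j e).symm.trans ((congrArg (fun M : Matrix (Fin m)
      (Fin m) (MvPolynomial σ K) => coeff (Finsupp.single e 1) (M i j)) h).trans
      (coeff_aff_single B i j e))

theorem eq_aff (M : Matrix (Fin m) (Fin m) (MvPolynomial σ K))
    (hM : ∀ i j, (M i j).totalDegree ≤ 1) :
    M = aff (fun o => match o with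
      | none => Matrix.of fun i j => coeff 0 (M i j)
      | some e => Matrix.of fun i j => coeff (Finsupp.single e 1) (M i j)) := by
  classical
  ext i j μ
  by_cases h0 : μ = 0
  · subst h0
    rw [coeff_aff_zero]
    rfl
  by_cases h1 : ∃ e, μ = Finsupp.single e 1
  · obtain ⟨e, rfl⟩ := h1
    rw [coeff_aff_single]
    rfl
  -- higher degree
  have hdeg : 1 < μ.degree := by
    by_contra hle
    rw [not_lt] at hle
    have h2 : μ.degree ≠ 0 := by
      intro h'
      exact h0 ((Finsupp.degree_eq_zero_iff μ).1 h')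
    have h3 : μ.degree = 1 := by omega
    have h4 : μ.support.Nonempty := by
      rw [Finset.nonempty_iff_ne_empty]
      intro h'
      exact h0 (Finsupp.support_eq_empty.1 h')
    obtain ⟨e, he⟩ := h4
    apply h1
    refine ⟨e, ?_⟩
    have h5 : μ.degree = ∑ x ∈ μ.support, μ x := rfl
    have h6 : 1 ≤ μ e := Nat.one_le_iff_ne_zero.2 (Finsupp.mem_support_iff.1 he)
    have h7 : μ e + ∑ x ∈ μ.support.erase e, μ x = 1 := by
      rw [Finset.add_sum_erase _ _ he, ← h5, h3]
    have h8 : ∑ x ∈ μ.support.erase e, μ x = 0 := by omega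
    have h9 : μ e = 1 := by omega
    ext x
    by_cases hx : x = e
    · subst hx
      rw [Finsupp.single_eq_same, h9]
    · rw [Finsupp.single_eq_of_ne hx]
      by_cases hxs : x ∈ μ.support
      · exact (Finset.sum_eq_zero_iff.1 h8) x (Finset.mem_erase.2 ⟨hx, hxs⟩)
      · exact Finsupp.notMem_support_iff.1 hxs
  rw [coeff_eq_zero_of_totalDegree_lt (lt_of_le_of_lt (hM i j) hdeg)]
  symm
  simp only [aff, Matrix.of_apply, coeff_add, coeff_sum, coeff_C_mul]
  rw [coeff_C, if_neg (Ne.symm h0), zero_add]
  refine Finset.sum_eq_zero fun e _ => ?_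
  rw [coeff_X, if_neg, mul_zero]
  intro h
  exact h1 ⟨e, h.symm⟩

theorem aff_rename {τ : Type} [Fintype τ] (E : σ ≃ τ) (A : Option τ → Matrix (Fin m) (Fin m) K) :
    aff A = (aff fun o => A (o.map E)).map (rename E) := by
  ext1 i j
  simp only [aff, Matrix.of_apply, Matrix.map_apply, map_add, map_sum, map_mul, rename_C,
    rename_X, Option.map_none, Option.map_some]
  congr 1
  exact (Fintype.sum_equiv E _ _ fun e => rfl).symm

theorem aff_scale (s : σ → K) (A : Option σ → Matrix (Fin m) (Fin m) K) :
    (aff A).map (scaleHom s) = aff (fun o => match o with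
      | none => A none
      | some e => s e • A (some e)) := by
  ext1 i j
  simp only [aff, Matrix.of_apply, Matrix.map_apply, map_add, map_sum, map_mul, scaleHom,
    aeval_X, Matrix.smul_apply, smul_eq_mul, algHom_C, algebraMap_eq]
  congr 1
  refine Finset.sum_congr rfl fun e _ => ?_
  ring

end aff

theorem scaleHom_scaleHom {K : Type u} [CommSemiring K] {σ : Type} (s s' : σ → K)
    (p : MvPolynomial σ K) :
    scaleHom s (scaleHom s' p) = scaleHom (fun x => s x * s' x) p := by
  have h : (scaleHom s).comp (scaleHom s') = scaleHom (fun x => s x * s' x) := by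
    apply MvPolynomial.algHom_ext
    intro x
    simp only [AlgHom.comp_apply, scaleHom, aeval_X, map_mul, algHom_C, algebraMap_eq]
    ring
  rw [← h]
  rfl

theorem scaleHom_map_C {K : Type u} [Field K] {σ : Type} {m : ℕ} (s : σ → K)
    (g : Matrix (Fin m) (Fin m) K) :
    (g.map (C : K → MvPolynomial σ K)).map (scaleHom s) = g.map C := by
  ext1 i j
  simp [scaleHom]

theorem map_mul' {K : Type u} [CommSemiring K] {σ : Type} {m : ℕ} (s : σ → K)
    (M N : Matrix (Fin m) (Fin m) (MvPolynomial σ K)) :
    (M * N).map (scaleHom s) = M.map (scaleHom s) * N.map (scaleHom s) :=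
  Matrix.map_mul (f := (scaleHom s : MvPolynomial σ K →ₐ[K] MvPolynomial σ K))

theorem tscale_mul {K : Type u} [Field K] {n : ℕ} (t t' : Fin (n + 1) → Kˣ)
    (x : Fin (nvar n)) : tscale t x * tscale t' x = tscale (fun i => t i * t' i) x := by
  unfold tscale
  rcases (tvarEquiv (n + 1)).symm x with i | ⟨i, j, k⟩
  · simp
  · simp only [Units.val_mul]
    rw [div_mul_div_comm]
    congr 1
    ring

/-- Passing to the square removes the transposition. -/
theorem FixedBy.plain {K : Type u} [Field K] {n m : ℕ} {t : Fin (n + 1) → Kˣ}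
    {S : Finset (Fin (n + 1))}
    {M : Matrix (Fin m) (Fin m) (MvPolynomial (Fin (nvar n)) K)} (h : FixedBy (tscale t) M)
    (ht : t 0 = 1) (hS : Dissoc 4 t S) :
    ∃ t' : Fin (n + 1) → Kˣ, t' 0 = 1 ∧ Dissoc 2 t' S ∧
      ∃ g g' : Matrix (Fin m) (Fin m) K, IsUnit g.det ∧ IsUnit g'.det ∧
        M.map (scaleHom (tscale t')) = g.map C * M * g'.map C := by
  obtain ⟨g, g', hg, hg', h1 | h1⟩ := h
  · exact ⟨t, ht, fun z h2 h3 h4 => hS z h2 (fun i => (h3 i).trans (by norm_num)) h4,
      g, g', hg, hg', h1⟩
  · refine ⟨fun i => t i * t i, by simp [ht], ?_, g * g'.transpose, g.transpose * g', ?_, ?_, ?_⟩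
    · intro z h2 h3 h4
      have h5 := hS (fun i => 2 * z i) (fun i hi => by simp [h2 i hi]) (fun i => by
        rw [abs_mul]
        have := h3 i
        rw [show |(2 : ℤ)| = 2 from rfl]
        omega) (by
        rw [← h4]
        refine Finset.prod_congr rfl fun i _ => ?_
        change t i ^ (2 * z i) = (t i * t i) ^ z i
        rw [← sq, ← zpow_natCast (t i) 2, ← zpow_mul]
        norm_num)
      funext i
      have h6 := congrFun h5 i
      simp only [Pi.zero_apply, mul_eq_zero, OfNat.ofNat_ne_zero, false_or] at h6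
      exact h6
    · rw [Matrix.det_mul, Matrix.det_transpose]
      exact hg.mul hg'
    · rw [Matrix.det_mul, Matrix.det_transpose]
      exact hg.mul hg'
    · have h2 : M.map (scaleHom (tscale (fun i => t i * t i))) =
          (M.map (scaleHom (tscale t))).map (scaleHom (tscale t)) := by
        ext1 i j
        simp only [Matrix.map_apply]
        rw [scaleHom_scaleHom]
        congr 2
        funext x
        exact (tscale_mul t t x).symm
      have h3 : (M.transpose).map (scaleHom (tscale t)) =
          (M.map (scaleHom (tscale t))).transpose := rfl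
      rw [h2, h1, map_mul', map_mul', scaleHom_map_C, scaleHom_map_C, h3, h1,
        Matrix.transpose_mul, Matrix.transpose_mul, Matrix.transpose_transpose]
      have h4 : ∀ N : Matrix (Fin m) (Fin m) K,
          (N.map (C : K → MvPolynomial (Fin (nvar n)) K)).transpose = N.transpose.map C :=
        fun N => rfl
      rw [h4, h4]
      have h5 : ∀ N N' : Matrix (Fin m) (Fin m) K,
          ((N * N').map (C : K → MvPolynomial (Fin (nvar n)) K)) = N.map C * N'.map C :=
        fun N N' => Matrix.map_mul
      rw [h5, h5]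
      simp only [Matrix.mul_assoc]

theorem tscale_eqD {K : Type u} [Field K] {n : ℕ} (t : Fin (n + 1) → Kˣ)
    (e : TVar (Fin (n + 1))) :
    tscale t (tnum n e) = (((tw (fun i => Additive.ofMul (t i)) e).toMul : Kˣ) : K) := by
  unfold tscale
  have h1 : (tvarEquiv (n + 1)).symm (tnum n e) = e := (tnum n).symm_apply_apply e
  rw [h1]
  rcases e with i | ⟨i, j, k⟩
  · simp [tw]
  · simp [tw, div_div, Units.val_div_eq_div_val]

/-- The bound for determinantal representations fixed by a symmetry, with parameters. -/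
theorem det_bound (hD : DLBStmt.{u}) (hL : LABStmt) (hI : DISStmt.{u})
    {K : Type u} [Field K] {n m : ℕ} (t : Fin (n + 1) → Kˣ) (S : Finset (Fin (n + 1)))
    (M : Matrix (Fin m) (Fin m) (MvPolynomial (Fin (nvar n)) K)) (h k : ℕ)
    (hM : DetRep M (treePoly K n)) (hF : FixedBy (tscale t) M) (ht : t 0 = 1)
    (hS : Dissoc 4 t S) (hh : 0 < h) (hk : ((nodes h).card) ^ 2 < k)
    (hE : (edges h).card * k ≤ S.card) (hn : 2 ^ h ≤ n + 1) : k ^ ((h + 1) / 2) ≤ m ^ 2 := by
  classical
  obtain ⟨t', ht', hS', g, g', hg, hg', hfix⟩ := hF.plain ht hS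
  have h0S : (0 : Fin (n + 1)) ∉ S := by
    intro h0
    have h1 := hS' (Pi.single 0 1) (fun i hi => by
      rw [Pi.single_apply, if_neg]
      rintro rfl
      exact hi h0) (fun i => by
      rw [Pi.single_apply]
      split_ifs <;> simp) (by
      refine Finset.prod_eq_one fun i _ => ?_
      rw [Pi.single_apply]
      split_ifs with hi
      · subst hi
        rw [ht', one_zpow]
      · rw [zpow_zero])
    have h2 := congrFun h1 0
    simp at h2
  obtain ⟨lab, hlab, hlabS⟩ := hL (Fin (n + 1)) 0 S h k h0S hE
  obtain ⟨A, hA⟩ : ∃ A : Option (Fin (nvar n)) → Matrix (Fin m) (Fin m) K, M = aff A :=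
    ⟨_, eq_aff M hM.1⟩
  have hdet := hM.2
  rw [hA] at hdet hfix
  -- the coefficients
  have hgA : g.map C * aff A * g'.map C = aff (fun o => g * A o * g') := (aff_mul A g g').symm
  rw [aff_scale, hgA] at hfix
  have hfix' := aff_injective hfix
  refine hD K (Fin (n + 1)) 0 h k (n + 1) m lab t' (fun o => A (o.map (tnum n))) g g' hlab hn hh
    hk ht' ?_ ?_ hg hg' ?_ ?_
  · exact hI Kˣ (Fin (n + 1)) t' S (EdgeT h) k (fun c x => lab c.1 x) hS'
      (fun c a => hlabS c.1 c.2 a) (fun c c' a a' hcc => by
        obtain ⟨h1, h2⟩ := hlab.1 c.1 c.2 c'.1 c'.2 a a' hcc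
        exact ⟨Subtype.ext h1, h2⟩)
  · have h1 : aff A = (aff fun o => A (o.map (tnum n))).map (rename (tnum n)) :=
      aff_rename (tnum n) A
    have h2 : (aff A).det = rename (tnum n) (aff fun o => A (o.map (tnum n))).det := by
      rw [h1]
      exact (AlgHom.map_det (rename (tnum n)) _).symm
    have h3 : rename (tnum n) (aff fun o => A (o.map (tnum n))).det =
        rename (tnum n) (tsum K (Fin (n + 1)) (n + 1) 0) := by
      rw [← h2, hdet]
      rfl
    exact rename_injective _ (tnum n).injective h3
  · exact congrFun hfix' none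
  · intro e
    have h1 := congrFun hfix' (some (tnum n e))
    simp only at h1
    rw [tscale_eqD] at h1
    exact h1

end Pool.EQD
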