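import Pool.Agent.H79.EQD.Defs4
import Pool.Agent.H79.EQD.Det
import Pool.Agent.H80.Complete
import Pool.Agent.H80.Merge

set_option autoImplicit false

namespace Pool.EQD

open MvPolynomial Pool.Agent.H80

universe u v w

theorem LStep.rename' {K : Type u} [CommSemiring K] {σ τ : Type} (e : σ → τ)
    {l : List (MvPolynomial σ K)} {p : MvPolynomial σ K} (h : LStep l p) :
    LStep (l.map (rename e)) (rename e p) := by
  cases h with
  | mulVar hq i =>
    rw [map_mul, rename_X]
    exact LStep.mulVar (List.mem_map_of_mem hq) (e i)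
  | mulConst hq c =>
    rw [map_mul, rename_C]
    exact LStep.mulConst (List.mem_map_of_mem hq) c
  | add ha hb =>
    rw [map_add]
    exact LStep.add (List.mem_map_of_mem ha) (List.mem_map_of_mem hb)

theorem LSLP.rename' {K : Type u} [CommSemiring K] {σ τ : Type} (e : σ → τ)
    {l : List (MvPolynomial σ K)} (h : LSLP l) : LSLP (l.map (rename e)) := by
  induction h with
  | one =>
    rw [List.map_cons, map_one, List.map_nil]
    exact LSLP.one
  | cons _ hp ih => exact LSLP.cons ih (LStep.rename' e hp)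

/-- Symmetries of polynomial order are free: `VP = VP_ws` if and only if the tree polynomials have
determinantal representations of polynomial size fixed by given groups of symmetries of
polynomial order. -/
theorem free_iff (hBID : BIDStmt.{u}) (hBLS : BLSStmt.{u}) (hPTH : PTHStmt.{u})
    (hSMT : SMTStmt.{u}) (hV : INVStmt.{u}) (K : Type u) [Field K]
    (G : (n : ℕ) → Subgroup (GL (Fin (n + 1)) K)) (hG : ∀ n, ∀ g ∈ G n, FixRow 0 g.val)
    (hcard : ∃ p : Polynomial ℕ, ∀ n, Nat.card (G n) ≤ p.eval n)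
    (hinv : ∀ n, (Nat.card (G n) : K) ≠ 0) :
    VP K = VPws K ↔ ∃ q : Polynomial ℕ, ∀ n, ∃ (m : ℕ)
      (M : Matrix (Fin m) (Fin m) (MvPolynomial (TVar (Fin (n + 1))) K)), m ≤ q.eval n ∧
      DetRep M (tsum K (Fin (n + 1)) (n + 1) 0) ∧ ∀ g ∈ G n, FixedBySym g.val M := by
  classical
  rw [VP_eq_VPws_iff]
  constructor
  · rintro ⟨s, hs⟩
    obtain ⟨p, hp⟩ := hcard
    refine ⟨(1 + s) * p + 1, fun n => ?_⟩
    obtain ⟨D, h1, h2, h3⟩ := hs n
    obtain ⟨l, hl, hlen, h4⟩ : ∃ l : List (MvPolynomial (Fin (nvar n)) K), LSLP l ∧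
        l.length ≤ 1 + D.size ∧ treePoly K n ∈ l := h1.exists_lslp h2
    obtain ⟨e, he⟩ : ∃ e : TVar (Fin (n + 1)) ≃ Fin (nvar n), e = tvarEquiv (n + 1) := ⟨_, rfl⟩
    obtain ⟨l', hl'⟩ : ∃ l', l' = l.map (rename e.symm) := ⟨_, rfl⟩
    have hl1 : LSLP l' := by rw [hl']; exact LSLP.rename' _ hl
    have hlen' : l'.length = l.length := by rw [hl', List.length_map]
    have hmem : Agent.H80.tsum K (Fin (n + 1)) (n + 1) 0 ∈ l' := by
      rw [hl', List.mem_map]
      refine ⟨treePoly K n, h4, ?_⟩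
      have h5 : treePoly K n = rename e (Agent.H80.tsum K (Fin (n + 1)) (n + 1) 0) := by
        rw [he]
        rfl
      rw [h5, rename_rename]
      have : (e.symm ∘ e : TVar (Fin (n + 1)) → _) = id := by
        funext x
        simp
      rw [this, rename_id_apply]
    obtain ⟨B, E, mu, hB1, hB2, hB3⟩ := hPTH K _ l' hl1
    obtain ⟨j, hj, hjf⟩ := List.getElem_of_mem hmem
    obtain ⟨M, hM1, hM2⟩ := hSMT K (Fin (n + 1)) (Fin l'.length) B
      (Pi.single ⟨j, hj⟩ 1) E mu l'.get (Agent.H80.tsum K (Fin (n + 1)) (n + 1) 0) (G n) hB1 hB2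
      hB3 (by
        rw [Finset.sum_eq_single ⟨j, hj⟩]
        · rw [Pi.single_eq_same, C_1, one_mul, List.get_eq_getElem]
          exact hjf
        · intro t _ ht
          rw [Pi.single_eq_of_ne ht, C_0, zero_mul]
        · intro h
          exact absurd (Finset.mem_univ _) h) (fun g hg => hV K (Fin (n + 1)) 0 g.val (n + 1)
            ((Matrix.isUnit_iff_isUnit_det _).1 g.isUnit) (hG n g hg)) (hinv n)
    refine ⟨_, M, ?_, hM1, hM2⟩
    simp only [Polynomial.eval_add, Polynomial.eval_mul, Polynomial.eval_one, Fintype.card_fin]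
    have h5 : l'.length ≤ 1 + s.eval n := by omega
    have h6 := hp n
    gcongr
  · rintro ⟨q, hq⟩
    obtain ⟨c, hc⟩ := hBLS
    refine ⟨Polynomial.C 2 * (q + ((Polynomial.X + 1) + (Polynomial.X + 1) ^ 3) + 2) ^ c,
      fun n => ?_⟩
    obtain ⟨m, M, hm, hM, -⟩ := hq n
    obtain ⟨A, hA⟩ : ∃ A : Option (TVar (Fin (n + 1))) → Matrix (Fin m) (Fin m) K, M = aff A :=
      ⟨_, eq_aff M hM.1⟩
    obtain ⟨A', hA'⟩ : ∃ A' : ℕ → ℕ → MvPolynomial (TVar (Fin (n + 1))) K, A' = fun i j =>
      if h : i < m ∧ j < m then M ⟨i, h.1⟩ ⟨j, h.2⟩ else 0 := ⟨_, rfl⟩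
    have hof : (Matrix.of fun i j : Fin m => A' i j) = M := by
      ext1 i j
      rw [hA', Matrix.of_apply]
      exact dif_pos ⟨i.2, j.2⟩
    obtain ⟨l, h1, h2, h3⟩ := hc K (TVar (Fin (n + 1))) m A' (fun i j => by
      rw [hA']
      by_cases h : i < m ∧ j < m
      · refine ⟨fun o => A o ⟨i, h.1⟩ ⟨j, h.2⟩, ?_⟩
        simp only [dif_pos h]
        rw [hA]
        rfl
      · refine ⟨fun _ => 0, ?_⟩
        simp only [dif_neg h]
        simp)
    rw [← hBID, hof, hM.2] at h2
    obtain ⟨e, he⟩ : ∃ e : TVar (Fin (n + 1)) ≃ Fin (nvar n), e = tvarEquiv (n + 1) := ⟨_, rfl⟩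
    obtain ⟨D, hD1, hD2, hD3⟩ := (LSLP.rename' e h1).exists_circuit (List.mem_map_of_mem h2)
    refine ⟨D, hD1.weaklySkew, ?_, ?_⟩
    · have h5 : (treeFamily K).f n = rename e (Agent.H80.tsum K (Fin (n + 1)) (n + 1) 0) := by
        rw [he]
        rfl
      rw [h5]
      exact hD2
    · rw [List.length_map] at hD3
      have h5 : Fintype.card (TVar (Fin (n + 1))) = (n + 1) + (n + 1) ^ 3 := by
        rw [Fintype.card_sum, Fintype.card_prod, Fintype.card_prod, Fintype.card_fin]
        ring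
      rw [h5] at h3
      have h6 : l.length ≤ (q.eval n + ((n + 1) + (n + 1) ^ 3) + 2) ^ c :=
        h3.trans (Nat.pow_le_pow_left (by omega) c)
      have h7 : D.size ≤ 2 * (q.eval n + ((n + 1) + (n + 1) ^ 3) + 2) ^ c := by omega
      refine h7.trans (le_of_eq ?_)
      simp only [Polynomial.eval_add, Polynomial.eval_mul, Polynomial.eval_one,
        Polynomial.eval_pow, Polynomial.eval_X, Polynomial.eval_C, Polynomial.eval_ofNat]

end Pool.EQD
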