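import Pool.Agent.H79.EQD.Defs

/-!
# Graded bases
-/

set_option autoImplicit false

namespace Pool.EQD

open Module

universe u

/-- **A basis of generalized eigenvectors**. -/
theorem gen_basis {K : Type u} [Field K] [IsAlgClosed K] {m : ℕ} (f : Module.End K (Fin m → K))
    (hf : ∀ x, f x = 0 → x = 0) :
    ∃ (b : Basis (Fin m) K (Fin m → K)) (μ : Fin m → Kˣ),
      (∀ j, b j ∈ f.maxGenEigenspace (μ j : K)) ∧
      ∀ (e : K) (v : Fin m → K), v ∈ f.maxGenEigenspace e → ∀ i, b.repr v i ≠ 0 →
        e = (μ i : K) := by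
  classical
  have hint : DirectSum.IsInternal (fun e : K => f.maxGenEigenspace e) :=
    DirectSum.isInternal_submodule_of_iSupIndep_of_iSup_eq_top
      f.independent_maxGenEigenspace f.iSup_maxGenEigenspace_eq_top
  obtain ⟨b₀, hb₀⟩ : ∃ b₀, b₀ = hint.collectedBasis
    (fun e => Module.finBasis K (f.maxGenEigenspace e)) := ⟨_, rfl⟩
  have hmem : ∀ a, b₀ a ∈ f.maxGenEigenspace a.1 := by
    intro a
    rw [hb₀]
    exact hint.collectedBasis_mem _ a
  have hne : ∀ a, b₀ a ≠ 0 := fun a => b₀.ne_zero a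
  have hpow : ∀ (k : ℕ) (x : Fin m → K), (f ^ k) x = 0 → x = 0 := by
    intro k
    induction k with
    | zero => intro x hx; simpa using hx
    | succ k ih =>
      intro x hx
      rw [pow_succ', Module.End.mul_apply] at hx
      exact ih x (hf _ hx)
  have he : ∀ a : (e : K) × Fin (finrank K (f.maxGenEigenspace e)), a.1 ≠ 0 := by
    intro a h0
    have h1 := hmem a
    rw [Module.End.mem_maxGenEigenspace] at h1
    obtain ⟨k, hk⟩ := h1
    rw [h0, zero_smul, sub_zero] at hk
    exact hne a (hpow k _ hk)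
  refine ⟨b₀.reindex (b₀.indexEquiv (Pi.basisFun K (Fin m))),
    fun i => Units.mk0 ((b₀.indexEquiv (Pi.basisFun K (Fin m))).symm i).1 (he _), fun j => ?_,
    fun e v hv i hi => ?_⟩
  · rw [Basis.reindex_apply]
    exact hmem _
  · rw [Basis.repr_reindex_apply] at hi
    by_contra hcon
    apply hi
    rw [hb₀]
    exact hint.collectedBasis_repr_of_mem_ne _ hcon hv

theorem t_grb : GRBStmt.{u} := by
  classical
  intro K _ _ m g h hg hh
  have hgi : IsUnit g⁻¹.det := by
    rw [Matrix.isUnit_nonsing_inv_det_iff]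
    exact hg
  obtain ⟨G, hG⟩ : ∃ G : Module.End K (Fin m → K), G = Matrix.toLin' g⁻¹ := ⟨_, rfl⟩
  obtain ⟨H, hH⟩ : ∃ H : Module.End K (Fin m → K), H = Matrix.toLin' h := ⟨_, rfl⟩
  obtain ⟨c, γ, hc1, hc2⟩ := gen_basis G (by
    intro x hx
    rw [hG, Matrix.toLin'_apply] at hx
    have : g.mulVec (g⁻¹.mulVec x) = x := by
      rw [Matrix.mulVec_mulVec, Matrix.mul_nonsing_inv _ hg, Matrix.one_mulVec]
    rw [← this, hx, Matrix.mulVec_zero])
  obtain ⟨b, η, hb1, hb2⟩ := gen_basis H (by
    intro x hx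
    rw [hH, Matrix.toLin'_apply] at hx
    have : h⁻¹.mulVec (h.mulVec x) = x := by
      rw [Matrix.mulVec_mulVec, Matrix.nonsing_inv_mul _ hh, Matrix.one_mulVec]
    rw [← this, hx, Matrix.mulVec_zero])
  refine ⟨c.toMatrix (Pi.basisFun K (Fin m)), (Pi.basisFun K (Fin m)).toMatrix b, γ, η, ?_, ?_,
    fun A q hA i j hij => ?_⟩
  · exact Matrix.isUnit_det_of_right_inverse (Basis.toMatrix_mul_toMatrix_flip c _)
  · exact Matrix.isUnit_det_of_left_inverse (Basis.toMatrix_mul_toMatrix_flip b _)
  · have h1 : (c.toMatrix (Pi.basisFun K (Fin m)) * A * (Pi.basisFun K (Fin m)).toMatrix b) i j =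
        c.repr (A.mulVec (b j)) i := by
      have h2 : A = LinearMap.toMatrix (Pi.basisFun K (Fin m)) (Pi.basisFun K (Fin m))
          (Matrix.toLin' A) := by
        rw [← Matrix.toLin_eq_toLin', LinearMap.toMatrix_toLin]
      conv_lhs => rw [h2]
      rw [basis_toMatrix_mul_linearMap_toMatrix_mul_basis_toMatrix, LinearMap.toMatrix_apply,
        Matrix.toLin'_apply]
    rw [h1] at hij
    have h3 : A.mulVec (b j) ∈ G.maxGenEigenspace ((q : K) * (η j : K)) := by
      have h4 := hb1 j
      rw [Module.End.mem_maxGenEigenspace] at h4 ⊢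
      obtain ⟨k, hk⟩ := h4
      have h5 : g⁻¹ * A = (q : K) • (A * h) := by
        conv_lhs => rw [← hA]
        rw [Matrix.mul_smul, ← Matrix.mul_assoc, ← Matrix.mul_assoc, Matrix.nonsing_inv_mul _ hg,
          Matrix.one_mul]
      have h6 : ∀ x, (G - ((q : K) * (η j : K)) • 1) (A.mulVec x) =
          (q : K) • A.mulVec ((H - (η j : K) • 1) x) := by
        intro x
        rw [hG, hH, LinearMap.sub_apply, LinearMap.sub_apply, Matrix.toLin'_apply, Matrix.toLin'_apply,
          Matrix.mulVec_mulVec, h5, LinearMap.smul_apply, LinearMap.smul_apply,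
          Module.End.one_apply, Module.End.one_apply, Matrix.mulVec_sub, Matrix.mulVec_mulVec,
          Matrix.mulVec_smul, smul_sub, Matrix.smul_mulVec, mul_smul]
      have h7 : ∀ (n : ℕ) x, ((G - ((q : K) * (η j : K)) • 1) ^ n) (A.mulVec x) =
          (q : K) ^ n • A.mulVec (((H - (η j : K) • 1) ^ n) x) := by
        intro n
        induction n with
        | zero => intro x; simp
        | succ n ih =>
          intro x
          rw [pow_succ, Module.End.mul_apply, h6, map_smul, ih, smul_smul, ← pow_succ',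
            pow_succ (H - (η j : K) • 1) n, Module.End.mul_apply]
      refine ⟨k, ?_⟩
      rw [h7, hk, Matrix.mulVec_zero, smul_zero]
    have h8 := hc2 _ _ h3 i hij
    apply Units.ext
    rw [Units.val_mul, ← h8, mul_comm]

end Pool.EQD
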