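import Pool.Agent.H79.EQD.Defs3

/-!
# Permutation matrices are diagonalisable, with separated eigenvalues of prime order (PRM)
-/

set_option autoImplicit false

namespace Pool.EQD.H14

open Pool.Agent.H80 Pool.EQD

universe u

section orb

variable {K : Type u} [Field K] {L : Type} [DecidableEq L]

/-- The eigenvector of the permutation `π` with eigenvalue `ζ` on the orbit of `x`. -/
noncomputable def orbVec (π : Equiv.Perm L) (x : L) (ζ : K) (p : ℕ) : L → K :=
  ∑ k ∈ Finset.range p, ζ ^ k • (Pi.single ((⇑π)^[k] x) (1 : K) : L → K)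

theorem single_comp (π : Equiv.Perm L) (a : L) :
    (Pi.single (π a) (1 : K) : L → K) ∘ π = Pi.single a 1 := by
  funext y
  simp only [Function.comp, Pi.single_apply, EmbeddingLike.apply_eq_iff_eq]

theorem orbVec_comp (π : Equiv.Perm L) (x : L) (ζ : K) (p : ℕ) (hζ : ζ ^ p = 1)
    (hx : (⇑π)^[p] x = x) : orbVec π x ζ p ∘ π = ζ • orbVec π x ζ p := by
  have hG : ∀ k : ℕ, (ζ ^ (k + 1) • (Pi.single ((⇑π)^[k + 1] x) (1 : K) : L → K)) ∘ π =
      ζ • (ζ ^ k • (Pi.single ((⇑π)^[k] x) (1 : K) : L → K)) := by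
    intro k
    rw [Function.iterate_succ_apply', smul_smul, ← pow_succ', ← single_comp π ((⇑π)^[k] x)]
    rfl
  have hsum : orbVec π x ζ p ∘ π =
      ∑ k ∈ Finset.range p, (ζ ^ k • (Pi.single ((⇑π)^[k] x) (1 : K) : L → K)) ∘ π := by
    funext y
    simp [orbVec, Finset.sum_apply, Function.comp]
  have h0p : (ζ ^ p • (Pi.single ((⇑π)^[p] x) (1 : K) : L → K)) ∘ π =
      (ζ ^ 0 • (Pi.single ((⇑π)^[0] x) (1 : K) : L → K)) ∘ π := by
    rw [hζ, hx, pow_zero]
    rfl
  have h1 := Finset.sum_range_succ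
    (fun k => (ζ ^ k • (Pi.single ((⇑π)^[k] x) (1 : K) : L → K)) ∘ π) p
  have h2 := Finset.sum_range_succ'
    (fun k => (ζ ^ k • (Pi.single ((⇑π)^[k] x) (1 : K) : L → K)) ∘ π) p
  have h3 : ∑ k ∈ Finset.range p, (ζ ^ k • (Pi.single ((⇑π)^[k] x) (1 : K) : L → K)) ∘ π =
      ∑ k ∈ Finset.range p,
        (ζ ^ (k + 1) • (Pi.single ((⇑π)^[k + 1] x) (1 : K) : L → K)) ∘ π := by
    have h4 := h1.symm.trans h2
    simp only [h0p] at h4
    exact add_right_cancel h4
  rw [hsum, h3, orbVec, Finset.smul_sum]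
  exact Finset.sum_congr rfl fun k _ => hG k

theorem orbVec_ne (π : Equiv.Perm L) (x : L) (ζ : K) (hp : 0 < Function.minimalPeriod π x) :
    orbVec π x ζ (Function.minimalPeriod π x) ≠ 0 := by
  intro h
  have h1 := congrFun h x
  simp only [orbVec, Finset.sum_apply, Pi.smul_apply, Pi.single_apply, smul_eq_mul, mul_ite,
    mul_one, mul_zero, Pi.zero_apply] at h1
  rw [Finset.sum_eq_single 0] at h1
  · simp at h1
  · intro k hk hk0
    rw [if_neg]
    intro hx
    exact absurd (Function.IsPeriodicPt.minimalPeriod_le (Nat.pos_of_ne_zero hk0) hx.symm)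
      (not_le.2 (Finset.mem_range.1 hk))
  · intro h0
    exact absurd (Finset.mem_range.2 hp) h0

end orb

/-- A permutation matrix of order prime to the characteristic is semisimple. -/
theorem eig_top {K : Type u} [Field K] [IsAlgClosed K] {L : Type} [Fintype L]
    [DecidableEq L] (π : Equiv.Perm L) (hN : (orderOf π : K) ≠ 0) :
    ⨆ μ : K, Module.End.eigenspace (Matrix.toLin' (π.permMatrix K)) μ = ⊤ := by
  apply Module.End.IsSemisimple.iSup_eigenspace_eq_top
  have hsq : Squarefree (Polynomial.X ^ orderOf π - Polynomial.C (1 : K)) :=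
    (Polynomial.separable_X_pow_sub_C (1 : K) hN one_ne_zero).squarefree
  refine Module.End.isSemisimple_of_squarefree_aeval_eq_zero hsq ?_
  have hpow : ∀ k : ℕ, ∀ v : L → K, ((Matrix.toLin' (π.permMatrix K)) ^ k) v =
      v ∘ ((π ^ k : Equiv.Perm L) : L → L) := by
    intro k
    induction k with
    | zero => intro v; rfl
    | succ k ih =>
      intro v
      rw [pow_succ, Module.End.mul_apply, ih, Matrix.toLin'_apply, Matrix.permMatrix_mulVec,
        Function.comp_assoc, pow_succ']
      rfl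
  have h1 : (Matrix.toLin' (π.permMatrix K)) ^ orderOf π = 1 := by
    apply LinearMap.ext
    intro v
    rw [hpow, pow_orderOf_eq_one]
    rfl
  simp [h1]

/-- The order of a product of roots of unity of different prime orders. -/
theorem relation {G : Type*} [CommGroup G] {r : ℕ} (p : Fin r → ℕ) (ζ : Fin r → G) (z : Fin r → ℤ)
    (hp : ∀ j, (p j).Prime) (hinj : Function.Injective p) (hζ : ∀ j, orderOf (ζ j) = p j)
    (h : ∏ j, ζ j ^ z j = 1) (j : Fin r) : (p j : ℤ) ∣ z j := by
  classical
  set M : ℕ := ∏ i ∈ Finset.univ.erase j, p i with hM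
  have h1 : (∏ i, ζ i ^ z i) ^ M = ζ j ^ (z j * M) := by
    rw [← Finset.mul_prod_erase Finset.univ (fun i => ζ i ^ z i) (Finset.mem_univ j), mul_pow,
      ← Finset.prod_pow, Finset.prod_eq_one, mul_one, zpow_mul, zpow_natCast]
    intro i hi
    have hd : p i ∣ M := Finset.dvd_prod_of_mem p hi
    obtain ⟨c, hc⟩ := hd
    have h2 : (ζ i ^ z i) ^ p i = 1 := by
      rw [← zpow_natCast, zpow_comm, zpow_natCast, ← hζ i, pow_orderOf_eq_one, one_zpow]
    rw [hc, pow_mul, h2, one_pow]
  rw [h, one_pow] at h1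
  have h2 : (p j : ℤ) ∣ z j * M := by
    rw [← hζ j]
    exact orderOf_dvd_iff_zpow_eq_one.2 h1.symm
  have hco : IsCoprime (p j : ℤ) (M : ℤ) := by
    rw [Nat.isCoprime_iff_coprime, hM]
    apply Nat.Coprime.prod_right
    intro i hi
    exact (Nat.coprime_primes (hp j) (hp i)).2
      (fun hh => (Finset.ne_of_mem_erase hi) (hinj hh).symm)
  exact hco.dvd_of_dvd_mul_right h2

end Pool.EQD.H14

namespace Pool.EQD

open Pool.EQD.H14

universe u

theorem t_prm : PRMStmt.{u} := by
  intro K _ _ L _ _ π r x hN hpr hinj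
  classical
  set f : Module.End K (L → K) := Matrix.toLin' (π.permMatrix K) with hf
  have hfa : ∀ v : L → K, f v = v ∘ π := by
    intro v
    rw [hf, Matrix.toLin'_apply, Matrix.permMatrix_mulVec]
  set p : Fin r → ℕ := fun j => Function.minimalPeriod π (x j) with hpdef
  have hperd : ∀ j, p j ∣ orderOf π := by
    intro j
    apply Function.IsPeriodicPt.minimalPeriod_dvd
    have h1 : ((π ^ orderOf π : Equiv.Perm L) : L → L) (x j) = x j := by
      rw [pow_orderOf_eq_one]; rfl
    rw [← Equiv.Perm.iterate_eq_pow] at h1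
    exact h1
  have hpne : ∀ j, (p j : K) ≠ 0 := by
    intro j h0
    obtain ⟨c, hc⟩ := hperd j
    apply hN
    rw [hc, Nat.cast_mul, h0, zero_mul]
  have hex : ∀ j, ∃ ζ : K, IsPrimitiveRoot ζ (p j) := by
    intro j
    have : NeZero (p j : K) := ⟨hpne j⟩
    exact HasEnoughRootsOfUnity.exists_primitiveRoot K (p j)
  choose ζ hζ using hex
  have hζne : ∀ j, ζ j ≠ 0 := fun j => (hζ j).ne_zero (hpr j).1.ne_zero
  set v : Fin r → (L → K) := fun j => orbVec π (x j) (ζ j) (p j) with hv
  have hvev : ∀ j, f.HasEigenvector (ζ j) (v j) := by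
    intro j
    refine ⟨?_, orbVec_ne π (x j) (ζ j) (hpr j).1.pos⟩
    rw [Module.End.mem_eigenspace_iff, hfa]
    exact orbVec_comp π (x j) (ζ j) (p j) (hζ j).pow_eq_one
      (Function.iterate_minimalPeriod)
  have hζinj : Function.Injective ζ := by
    intro i j hij
    apply hinj
    show p i = p j
    rw [(hζ i).eq_orderOf, (hζ j).eq_orderOf, hij]
  have hvli : LinearIndependent K v := Module.End.eigenvectors_linearIndependent' f ζ hζinj v hvev
  set T : Set (L → K) := {w | ∃ μ : K, f w = μ • w} with hT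
  have hvT : Set.range v ⊆ T := by
    rintro _ ⟨j, rfl⟩
    exact ⟨ζ j, Module.End.mem_eigenspace_iff.1 (hvev j).1⟩
  obtain ⟨B, hBT, hvB, hTB, hBli⟩ :=
    exists_linearIndepOn_id_extension (K := K) hvli.linearIndepOn_id hvT
  have hspan : ⊤ ≤ Submodule.span K (Set.range (Subtype.val : B → (L → K))) := by
    rw [Subtype.range_val, ← eig_top π hN]
    refine iSup_le fun μ w hw => ?_
    exact hTB ⟨μ, Module.End.mem_eigenspace_iff.1 hw⟩
  let bB : Module.Basis B K (L → K) := Module.Basis.mk hBli hspan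
  have e : B ≃ L := bB.indexEquiv (Pi.basisFun K L)
  let bL : Module.Basis L K (L → K) := bB.reindex e
  have hbL : ∀ i, bL i = ((e.symm i : B) : L → K) := by
    intro i
    simp [bL, bB]
  have hev : ∀ i, ∃ μ : K, f (bL i) = μ • bL i := by
    intro i
    rw [hbL]
    exact hBT (e.symm i).2
  choose μ hμ using hev
  have hμ0 : ∀ i, μ i ≠ 0 := by
    intro i h0
    have h1 := hμ i
    rw [h0, zero_smul, hfa] at h1
    apply bL.ne_zero i
    funext y
    have := congrFun h1 (π.symm y)
    simpa using this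
  let b : Matrix L L K := Matrix.of fun i j => bL j i
  let t : L → Kˣ := fun i => Units.mk0 (μ i) (hμ0 i)
  let idx : Fin r → L := fun j => e ⟨v j, hvB ⟨j, rfl⟩⟩
  have hidx : ∀ j, bL (idx j) = v j := by
    intro j
    rw [hbL]
    simp [idx]
  have hidxinj : Function.Injective idx := by
    intro i j hij
    have h1 : v i = v j := by rw [← hidx i, ← hidx j, hij]
    exact hvli.injective h1
  have hμidx : ∀ j, μ (idx j) = ζ j := by
    intro j
    have h1 := hμ (idx j)
    rw [hidx j, Module.End.mem_eigenspace_iff.1 (hvev j).1] at h1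
    exact (smul_left_injective K (hvev j).2 h1).symm
  refine ⟨b, t, Finset.univ.image idx, ⟨?_, ?_⟩, ?_, ?_⟩
  · have h1 := (Pi.basisFun K L).isUnit_det bL
    rw [Module.Basis.det_apply] at h1
    convert h1 using 2
    ext i j
    simp [b, Module.Basis.toMatrix_apply]
  · ext i j
    rw [Matrix.mul_diagonal]
    have h1 := congrFun (hμ j) i
    rw [hf, Matrix.toLin'_apply] at h1
    simpa [Matrix.mulVec, dotProduct, Matrix.mul_apply, b, t, mul_comm] using h1
  · intro z hz0 hz4 hz
    have hzsum : ∏ j, (t (idx j)) ^ z (idx j) = 1 := by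
      rw [← hz, ← Finset.prod_image (f := fun i => t i ^ z i) (s := Finset.univ) (g := idx)
        (fun _ _ _ _ h => hidxinj h)]
      apply Finset.prod_subset (Finset.subset_univ _)
      intro i _ hi
      rw [hz0 i hi, zpow_zero]
    funext i
    by_cases hi : i ∈ Finset.univ.image idx
    · obtain ⟨j, _, rfl⟩ := Finset.mem_image.1 hi
      have hd := relation p (fun j => t (idx j)) (fun j => z (idx j)) (fun j => (hpr j).1)
        hinj (fun j => ?_) hzsum j
      · have h4 := hz4 (idx j)
        have h5 := (hpr j).2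
        have h6 : (5 : ℤ) ≤ p j := by exact_mod_cast h5
        show z (idx j) = 0
        apply Int.eq_zero_of_abs_lt_dvd hd
        omega
      · rw [(hζ j).eq_orderOf, ← orderOf_units]
        simp [t, hμidx]
    · exact hz0 i hi
  · rw [Finset.card_image_of_injective _ hidxinj, Finset.card_univ, Fintype.card_fin]

end Pool.EQD
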