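import Pool.Agent.H79.EQD.Defs4
import Pool.Agent.H79.EQD.Prm

/-!
# Eigenvalues of permutation matrices
-/

set_option autoImplicit false

namespace Pool.EQD

open Pool.EQD.H14

universe u

theorem t_pr2 : PR2Stmt.{u} := by
  classical
  intro K _ _ L _ _ π hN
  obtain ⟨f, hf⟩ : ∃ f : Module.End K (L → K), f = Matrix.toLin' (π.permMatrix K) := ⟨_, rfl⟩
  have hfa : ∀ v : L → K, f v = v ∘ π := by
    intro v
    rw [hf, Matrix.toLin'_apply, Matrix.permMatrix_mulVec]
  obtain ⟨T, hT⟩ : ∃ T : Set (L → K), T = {w | ∃ μ : K, f w = μ • w} := ⟨_, rfl⟩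
  obtain ⟨B, hBT, -, hTB, hBli⟩ := exists_linearIndepOn_id_extension (K := K)
    (linearIndepOn_empty K (id : (L → K) → (L → K))) (Set.empty_subset T)
  have hspan : ⊤ ≤ Submodule.span K (Set.range (Subtype.val : B → (L → K))) := by
    rw [Subtype.range_val, ← eig_top π hN]
    refine iSup_le fun μ w hw => ?_
    refine hTB ?_
    rw [hT]
    refine ⟨μ, ?_⟩
    rw [hf]
    exact Module.End.mem_eigenspace_iff.1 hw
  let bB : Module.Basis B K (L → K) := Module.Basis.mk hBli hspan
  have e : B ≃ L := bB.indexEquiv (Pi.basisFun K L)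
  let bL : Module.Basis L K (L → K) := bB.reindex e
  have hbL : ∀ i, bL i = ((e.symm i : B) : L → K) := by
    intro i
    simp [bL, bB]
  have hev : ∀ i, ∃ μ : K, f (bL i) = μ • bL i := by
    intro i
    have h1 := hBT (e.symm i).2
    rw [hT] at h1
    rw [hbL]
    exact h1
  choose μ hμ using hev
  have hμ0 : ∀ i, μ i ≠ 0 := by
    intro i h0
    have h1 := hμ i
    rw [h0, zero_smul, hfa] at h1
    apply bL.ne_zero i
    funext y
    have := congrFun h1 (π.symm y)
    simpa using this
  refine ⟨Matrix.of fun i j => bL j i, fun i => Units.mk0 (μ i) (hμ0 i), ⟨?_, ?_⟩, ?_⟩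
  · have h1 := (Pi.basisFun K L).isUnit_det bL
    rw [Module.Basis.det_apply] at h1
    convert h1 using 2
    ext i j
    simp [Module.Basis.toMatrix_apply]
  · ext i j
    rw [Matrix.mul_diagonal]
    have h1 := congrFun (hμ j) i
    rw [hf, Matrix.toLin'_apply] at h1
    simpa [Matrix.mulVec, dotProduct, Matrix.mul_apply, mul_comm] using h1
  · intro x ζ hζ
    by_contra hcon
    push Not at hcon
    have hp : 0 < Function.minimalPeriod π x :=
      Function.minimalPeriod_pos_of_mem_periodicPts (π.injective.mem_periodicPts x)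
    have hw := orbVec_ne (K := K) π x (ζ : K) hp
    have hfw : f (orbVec π x (ζ : K) (Function.minimalPeriod π x)) =
        (ζ : K) • orbVec π x (ζ : K) (Function.minimalPeriod π x) := by
      rw [hfa]
      refine orbVec_comp π x (ζ : K) _ ?_ Function.iterate_minimalPeriod
      rw [← Units.val_pow_eq_pow_val, hζ, Units.val_one]
    obtain ⟨w, hw'⟩ : ∃ w, w = orbVec π x (ζ : K) (Function.minimalPeriod π x) := ⟨_, rfl⟩
    rw [← hw'] at hw hfw
    refine hw ?_
    have h1 : ∀ i, bL.repr w i = 0 := by
      intro i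
      have h2 : f w = ∑ j, (bL.repr w j * μ j) • bL j := by
        conv_lhs => rw [← bL.sum_repr w]
        rw [map_sum]
        exact Finset.sum_congr rfl fun j _ => by rw [map_smul, hμ, smul_smul]
      have h3 : bL.repr (f w) i = bL.repr w i * μ i := by
        rw [h2, bL.repr_sum_self]
      rw [hfw, map_smul, Finsupp.smul_apply, smul_eq_mul] at h3
      have h4 : bL.repr w i * (μ i - ζ) = 0 := by
        rw [mul_sub, ← h3]
        ring
      rcases mul_eq_zero.1 h4 with h5 | h5
      · exact h5
      · exact absurd (Units.ext (sub_eq_zero.1 h5)) (hcon i)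
    rw [← bL.sum_repr w]
    exact Finset.sum_eq_zero fun i _ => by rw [h1, zero_smul]

end Pool.EQD
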