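import Pool.Agent.H79.EQD.Defs

set_option autoImplicit false

namespace Pool.EQD

open MvPolynomial Pool.Agent.H80

universe v

theorem mem_nodes {h : ℕ} {v : List Bool} : v ∈ nodes h ↔ v.length ≤ h := by
  simp [nodes]

theorem mem_edges {h : ℕ} {v : List Bool} : v ∈ edges h ↔ v ≠ [] ∧ v.length ≤ h := by
  simp [edges, mem_nodes]

theorem sum_nodes {M : Type v} [AddCommMonoid M] (h : ℕ) (f : List Bool → M) :
    ∑ v ∈ nodes h, f v = f [] + ∑ v ∈ edges h, f v := by
  unfold edges
  rw [Finset.add_sum_erase _ _ (mem_nodes.2 (Nat.zero_le _))]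

theorem sum_children {M : Type v} [AddCommMonoid M] (h : ℕ) (f : List Bool → List Bool → M) :
    ∑ v ∈ (nodes h).filter (fun v => v.length < h), (f v (false :: v) + f v (true :: v)) =
      ∑ c ∈ edges h, f c.tail c := by
  classical
  have h1 : ∑ v ∈ (nodes h).filter (fun v => v.length < h),
      (f v (false :: v) + f v (true :: v)) =
      ∑ x ∈ ((nodes h).filter (fun v => v.length < h)) ×ˢ (Finset.univ : Finset Bool),
        f x.1 (x.2 :: x.1) := by
    rw [Finset.sum_product]
    refine Finset.sum_congr rfl fun v _ => ?_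
    rw [Fintype.sum_bool, add_comm]
  rw [h1]
  refine Finset.sum_nbij' (fun x => x.2 :: x.1) (fun c => (c.tail, c.head?.getD false)) ?_ ?_ ?_ ?_
    ?_
  · rintro ⟨v, b⟩ hx
    simp only [Finset.mem_product, Finset.mem_filter, mem_nodes, Finset.mem_univ, and_true] at hx
    rw [mem_edges]
    refine ⟨by simp, ?_⟩
    simp only [List.length_cons]
    omega
  · intro c hc
    rw [mem_edges] at hc
    cases c with
    | nil => exact absurd rfl hc.1
    | cons b v =>
      have h2 := hc.2
      simp only [List.length_cons] at h2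
      simp only [Finset.mem_product, Finset.mem_filter, mem_nodes, Finset.mem_univ, and_true,
        List.tail_cons]
      omega
  · rintro ⟨v, b⟩ _
    simp
  · intro c hc
    rw [mem_edges] at hc
    cases c with
    | nil => exact absurd rfl hc.1
    | cons b v => simp
  · rintro ⟨v, b⟩ _
    simp

theorem t_pre : PREStmt.{v} := by
  classical
  intro G _ L u r h k lab a B hu
  set ℓ := ell r lab a with hℓ
  have hℓ0 : ℓ [] = r := by
    rw [hℓ]
    unfold ell
    rw [dif_neg]
    intro h0
    exact (mem_edges.1 h0).1 rfl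
  -- the indicator
  set χ : List Bool → ℤ := B.indicator (fun _ => (1 : ℤ)) with hχ
  have hχ1 : ∀ v, v ∈ B → χ v = 1 := fun v hv => by rw [hχ]; exact Set.indicator_of_mem hv _
  have hχ0 : ∀ v, v ∉ B → χ v = 0 := fun v hv => by rw [hχ]; exact Set.indicator_of_notMem hv _
  have h1 : ∑ v ∈ (nodes h).filter (fun v => v ∈ B), tw u (tvar h ℓ v) =
      ∑ v ∈ nodes h, χ v • tw u (tvar h ℓ v) := by
    rw [Finset.sum_filter]
    refine Finset.sum_congr rfl fun v _ => ?_
    by_cases hv : v ∈ B
    · rw [if_pos hv, hχ1 v hv, one_smul]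
    · rw [if_neg hv, hχ0 v hv, zero_smul]
  have h2 : ∀ v, χ v • tw u (tvar h ℓ v) = χ v • u (ℓ v) -
      (if v.length < h then χ v • u (ℓ (false :: v)) + χ v • u (ℓ (true :: v)) else 0) := by
    intro v
    unfold tvar
    split_ifs with hv
    · simp only [tw, smul_sub]
      abel
    · simp [tw]
  rw [h1, Finset.sum_congr rfl fun v _ => h2 v, Finset.sum_sub_distrib, ← Finset.sum_filter,
    sum_children h (fun v c => χ v • u (ℓ c)), sum_nodes, hℓ0, hu, smul_zero, zero_add,
    ← Finset.sum_sub_distrib]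
  rw [← Finset.sum_coe_sort (edges h)]
  refine Finset.sum_congr rfl fun c _ => ?_
  have h3 : ℓ c.1 = lab c.1 (a c) := by
    rw [hℓ]
    unfold ell
    rw [dif_pos c.2]
  rw [h3, ← sub_smul]
  rfl

end Pool.EQD
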