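import Pool.Agent.H79.EQD.Defs4

set_option autoImplicit false

namespace Pool.EQD

open Filter Asymptotics

theorem pri_real : ∀ᶠ y : ℝ in atTop, 5 * (y ^ (1 / 3 : ℝ)) * Real.log y + Real.log (y + 1) ≤
    y * Real.log 2 := by
  have h1 : (fun y : ℝ => y ^ (1 / 3 : ℝ) * Real.log y) =o[atTop]
      fun y : ℝ => y ^ (1 / 3 : ℝ) * y ^ (2 / 3 : ℝ) :=
    (isBigO_refl _ _).mul_isLittleO (isLittleO_log_rpow_atTop (by norm_num))
  have h2 := h1.def (show (0 : ℝ) < 1 / 20 by norm_num)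
  filter_upwards [h2, eventually_ge_atTop (10 : ℝ)] with y hy hy10
  have hy0 : (0 : ℝ) < y := by linarith
  have h3 : y ^ (1 / 3 : ℝ) * y ^ (2 / 3 : ℝ) = y := by
    rw [← Real.rpow_add hy0]
    norm_num
  rw [h3] at hy
  have hlog : 0 ≤ Real.log y := Real.log_nonneg (by linarith)
  have hr0 : 0 ≤ y ^ (1 / 3 : ℝ) := by positivity
  rw [Real.norm_of_nonneg (by positivity), Real.norm_of_nonneg hy0.le] at hy
  have hr1 : 1 ≤ y ^ (1 / 3 : ℝ) := Real.one_le_rpow (by linarith) (by norm_num)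
  have h4 : Real.log (y + 1) ≤ Real.log 2 + Real.log y := by
    rw [← Real.log_mul (by norm_num) hy0.ne']
    exact Real.log_le_log (by linarith) (by linarith)
  have h5 : Real.log y ≤ y ^ (1 / 3 : ℝ) * Real.log y := by nlinarith
  have h6 := Real.log_two_gt_d9
  have h7 := Real.log_two_lt_d9
  nlinarith

theorem t_pri : PRIStmt := by
  have h1 := tendsto_natCast_atTop_atTop (R := ℝ) |>.eventually pri_real
  obtain ⟨y₀, hy₀⟩ := eventually_atTop.1 h1
  refine ⟨(y₀ + 2) * (y₀ + 2), ?_⟩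
  intro n k hn hk
  obtain ⟨y, hy⟩ : ∃ y, y = Nat.sqrt n := ⟨_, rfl⟩
  have hy1 : y₀ + 2 ≤ y := by rw [hy, Nat.le_sqrt]; exact hn
  have hyn : y * y ≤ n := by rw [hy]; exact Nat.sqrt_le n
  have hk3 : k ^ 3 ≤ y := by
    rw [hy, Nat.le_sqrt]
    calc k ^ 3 * k ^ 3 = k ^ 6 := by ring
      _ ≤ n := hk
  have hky : k ≤ y := (Nat.le_self_pow (by norm_num) k).trans hk3
  have hyr : (0 : ℝ) < y := by
    have : 0 < y := by omega
    exact_mod_cast this
  have hlogy : 0 < Real.log y := Real.log_pos (by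
    have : 1 < y := by omega
    exact_mod_cast this)
  -- many primes
  have h2 : 5 * k ≤ Nat.primeCounting y := by
    have h3 := hy₀ y (by omega)
    have h4 := Chebyshev.psi_ge y
    have h5 := Chebyshev.psi_le_primeCounting_mul_log y
    have h6 : (k : ℝ) ≤ (y : ℝ) ^ (1 / 3 : ℝ) := by
      have h7 : ((k : ℝ) ^ 3) ≤ y := by exact_mod_cast hk3
      have h8 : (k : ℝ) = ((k : ℝ) ^ 3) ^ (1 / 3 : ℝ) := by
        rw [← Real.rpow_natCast, ← Real.rpow_mul (by positivity)]
        norm_num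
      rw [h8]
      exact Real.rpow_le_rpow (by positivity) h7 (by norm_num)
    have h7 : 5 * (k : ℝ) * Real.log y ≤ (Nat.primeCounting y : ℝ) * Real.log y := by
      have h8 : 5 * (k : ℝ) * Real.log y ≤ 5 * ((y : ℝ) ^ (1 / 3 : ℝ)) * Real.log y := by
        gcongr
      linarith
    have h8 := le_of_mul_le_mul_right h7 hlogy
    exact_mod_cast h8
  obtain ⟨T, hT⟩ : ∃ T, T = (Finset.range (y + 1)).filter (fun q => q.Prime ∧ 4 * k < q) :=
    ⟨_, rfl⟩
  have h3 : k ≤ T.card := by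
    have h4 : Nat.primeCounting y = ((Finset.range (y + 1)).filter Nat.Prime).card := by
      rw [Nat.primeCounting, Nat.primeCounting', Nat.count_eq_card_filter_range]
    have h5 : (Finset.range (y + 1)).filter Nat.Prime ⊆ T ∪ Finset.Icc 1 (4 * k) := by
      intro q hq
      rw [Finset.mem_filter] at hq
      rw [Finset.mem_union, hT, Finset.mem_filter, Finset.mem_Icc]
      by_cases h6 : 4 * k < q
      · exact Or.inl ⟨hq.1, hq.2, h6⟩
      · exact Or.inr ⟨hq.2.one_lt.le, by omega⟩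
    have h6 := (Finset.card_le_card h5).trans (Finset.card_union_le _ _)
    rw [Nat.card_Icc] at h6
    omega
  refine ⟨fun c => (T.equivFin.symm (Fin.castLE h3 c)).1, ?_, ?_⟩
  · intro c c' h
    exact Fin.castLE_injective h3 (T.equivFin.symm.injective (Subtype.ext h))
  · intro c
    have hmem : ∀ q ∈ T, q < y + 1 ∧ q.Prime ∧ 4 * k < q := by
      intro q hq
      rw [hT, Finset.mem_filter, Finset.mem_range] at hq
      exact hq
    have h4 := hmem _ (T.equivFin.symm (Fin.castLE h3 c)).2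
    refine ⟨h4.2.1, h4.2.2, ?_⟩
    calc ((T.equivFin.symm (Fin.castLE h3 c)).1) * k ≤ y * y := Nat.mul_le_mul (by omega) hky
      _ ≤ n := hyn

end Pool.EQD
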