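import Pool.Agent.H79.EQD.Defs4

set_option autoImplicit false

namespace Pool.EQD

open MvPolynomial Pool.Agent.H80

universe u

theorem pth_row {K : Type u} [Field K] {σ : Type} (l : List (MvPolynomial σ K))
    (p : MvPolynomial σ K) (hp : LStep l p) :
    ∃ R : Fin l.length → MvPolynomial σ K, (∀ t, (R t).totalDegree ≤ 1) ∧
      p = ∑ t, R t * l.get t := by
  classical
  have hs : ∀ (j : Fin l.length) (a : MvPolynomial σ K),
      ∑ t, (Pi.single j a : Fin l.length → MvPolynomial σ K) t * l.get t = a * l.get j := by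
    intro j a
    rw [Finset.sum_eq_single j]
    · rw [Pi.single_eq_same]
    · intro t _ ht
      rw [Pi.single_eq_of_ne ht, zero_mul]
    · intro h
      exact absurd (Finset.mem_univ _) h
  have hd : ∀ (j : Fin l.length) (a : MvPolynomial σ K), a.totalDegree ≤ 1 → ∀ t,
      ((Pi.single j a : Fin l.length → MvPolynomial σ K) t).totalDegree ≤ 1 := by
    intro j a ha t
    by_cases h : t = j
    · subst h
      rwa [Pi.single_eq_same]
    · rw [Pi.single_eq_of_ne h, totalDegree_zero]
      exact Nat.zero_le _
  cases hp with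
  | mulVar hq i =>
    obtain ⟨j, hj, hjq⟩ := List.getElem_of_mem hq
    refine ⟨Pi.single ⟨j, hj⟩ (X i), hd _ _ (totalDegree_X _).le, ?_⟩
    rw [hs, List.get_eq_getElem, hjq, mul_comm]
  | mulConst hq c =>
    obtain ⟨j, hj, hjq⟩ := List.getElem_of_mem hq
    refine ⟨Pi.single ⟨j, hj⟩ (C c), hd _ _ (by rw [totalDegree_C]; exact Nat.zero_le _), ?_⟩
    rw [hs, List.get_eq_getElem, hjq, mul_comm]
  | add ha hb =>
    obtain ⟨j, hj, hja⟩ := List.getElem_of_mem ha
    obtain ⟨j', hj', hjb⟩ := List.getElem_of_mem hb
    refine ⟨fun t => (Pi.single ⟨j, hj⟩ 1 : Fin l.length → MvPolynomial σ K) t +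
      (Pi.single ⟨j', hj'⟩ 1 : Fin l.length → MvPolynomial σ K) t, fun t => ?_, ?_⟩
    · exact (totalDegree_add _ _).trans (max_le
        (hd _ _ (by rw [totalDegree_one]; exact Nat.zero_le _) _)
        (hd _ _ (by rw [totalDegree_one]; exact Nat.zero_le _) _))
    · simp only [add_mul, Finset.sum_add_distrib]
      rw [hs, hs, List.get_eq_getElem, List.get_eq_getElem, hja, hjb, one_mul, one_mul]

theorem t_pth : PTHStmt.{u} := by
  intro K _ σ l hl
  induction hl with
  | one =>
    refine ⟨fun _ _ => 0, fun _ => 1, fun _ => 0, fun _ _ => by simp, fun _ _ h => absurd rfl h,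
      fun s => ?_⟩
    obtain ⟨s, hs⟩ := s
    have hs0 : s = 0 := by
      rw [List.length_singleton] at hs
      omega
    subst hs0
    simp
  | cons hl hp ih =>
    rename_i l p
    obtain ⟨B, E, mu, h1, h2, h3⟩ := ih
    obtain ⟨R, h4, h5⟩ := pth_row l p hp
    refine ⟨Fin.cases (Fin.cases 0 R) (fun s => Fin.cases 0 (B s)), Fin.cases 0 E,
      Fin.cases (Finset.univ.sup mu + 1) mu, ?_, ?_, ?_⟩
    · intro s t
      refine Fin.cases ?_ (fun s => ?_) s <;> refine Fin.cases ?_ (fun t => ?_) t
      · simp
      · simpa using h4 t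
      · simp
      · simpa using h1 s t
    · intro s t
      refine Fin.cases ?_ (fun s => ?_) s <;> refine Fin.cases ?_ (fun t => ?_) t
      · intro h
        exact absurd rfl h
      · intro _
        simp only [Fin.cases_succ, Fin.cases_zero]
        exact Nat.lt_succ_of_le (Finset.le_sup (Finset.mem_univ t))
      · intro h
        exact absurd rfl h
      · intro h
        simp only [Fin.cases_succ] at h ⊢
        exact h2 s t h
    · intro s
      refine Fin.cases ?_ (fun s => ?_) s
      · have h6 := Fin.sum_univ_succ (fun t : Fin (l.length + 1) =>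
          (Fin.cases (Fin.cases 0 R) (fun s => Fin.cases 0 (B s)) :
            Fin (l.length + 1) → Fin (l.length + 1) → MvPolynomial σ K) 0 t *
            (p :: l).get t)
        refine Eq.trans ?_ (congrArg _ h6.symm)
        simp only [Fin.cases_zero, Fin.cases_succ, zero_mul, zero_add, C_0]
        exact h5
      · have h6 := Fin.sum_univ_succ (fun t : Fin (l.length + 1) =>
          (Fin.cases (Fin.cases 0 R) (fun s => Fin.cases 0 (B s)) :
            Fin (l.length + 1) → Fin (l.length + 1) → MvPolynomial σ K) s.succ t *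
            (p :: l).get t)
        refine Eq.trans ?_ (congrArg _ h6.symm)
        simp only [Fin.cases_zero, Fin.cases_succ, zero_mul, zero_add]
        exact h3 s

end Pool.EQD
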