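import Pool.Agent.H79.EQD.Det

set_option autoImplicit false

namespace Pool.EQD

open MvPolynomial Pool.Agent.H80 Filter

universe u v w

theorem card_edges_eq (h : ℕ) :
    (edges h).card = 2 * ((nodes h).filter (fun v => v.length < h)).card := by
  have h1 := sum_children h (fun _ _ => 1)
  simp only [Finset.sum_const, smul_eq_mul, mul_one] at h1
  omega

theorem card_nodes (h : ℕ) : (nodes h).card + 1 = 2 ^ (h + 1) := by
  induction h with
  | zero =>
    have h1 : nodes 0 = {[]} := by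
      ext v
      rw [mem_nodes, Finset.mem_singleton, Nat.le_zero, List.length_eq_zero_iff]
    rw [h1]
    rfl
  | succ h ih =>
    have h1 : (nodes (h + 1)).card = (edges (h + 1)).card + 1 := by
      unfold edges
      rw [Finset.card_erase_add_one (mem_nodes.2 (Nat.zero_le _))]
    have h2 : (nodes (h + 1)).filter (fun v => v.length < h + 1) = nodes h := by
      ext v
      rw [Finset.mem_filter, mem_nodes, mem_nodes]
      omega
    rw [h1, card_edges_eq, h2, pow_succ 2 (h + 1), ← ih]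
    ring

theorem card_edges_lt (h : ℕ) : (edges h).card + 1 = (nodes h).card := by
  unfold edges
  rw [Finset.card_erase_add_one (mem_nodes.2 (Nat.zero_le _))]

theorem Sep.comp_equiv {ι ι' : Type} {G : Type v} [Fintype ι] [Fintype ι'] [AddCommGroup G]
    {k : ℕ} {u : ι → Fin k → G} (hu : Sep u) (e : ι' ≃ ι) : Sep (fun c => u (e c)) := by
  intro s s' a a' hs hs' h c
  have h1 := hu (fun c => s (e.symm c)) (fun c => s' (e.symm c)) (fun c => a (e.symm c))
    (fun c => a' (e.symm c)) (fun c => hs _) (fun c => hs' _) (by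
      rw [← Fintype.sum_equiv e (fun c => s c • u (e c) (a c)) _ (fun c => by simp),
        ← Fintype.sum_equiv e (fun c => s' c • u (e c) (a' c)) _ (fun c => by simp)]
      exact h) (e c)
  simpa using h1

/-- Weights of bounded size which separate. -/
theorem exists_weights (hL : LABStmt) (hDIG : DIGStmt) (n h k : ℕ)
    (hE : (edges h).card * k ≤ n) :
    ∃ (lab : List Bool → Fin k → Fin (n + 1)) (u : Fin (n + 1) → ℤ), LabInj h 0 lab ∧ u 0 = 0 ∧
      (∀ i, |u i| ≤ (2 * (k : ℤ) + 1) ^ (edges h).card) ∧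
      Sep (fun (c : EdgeT h) (x : Fin k) => u (lab c.1 x)) := by
  classical
  obtain ⟨lab, hlab, -⟩ := hL (Fin (n + 1)) 0 (Finset.univ.erase 0) h k (by simp) (by
    rw [Finset.card_erase_of_mem (Finset.mem_univ _), Finset.card_univ, Fintype.card_fin]
    omega)
  set M := (edges h).card with hM
  let idx : EdgeT h ≃ Fin M := (edges h).equivFin
  let f : EdgeT h × Fin k → Fin (n + 1) := fun p => lab p.1.1 p.2
  have hf : Function.Injective f := by
    rintro ⟨c, x⟩ ⟨c', x'⟩ h1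
    obtain ⟨h2, h3⟩ := hlab.1 c.1 c.2 c'.1 c'.2 x x' h1
    exact Prod.ext (Subtype.ext h2) h3
  let wt : EdgeT h × Fin k → ℤ := fun p => ((p.2 : ℤ) + 1) * (2 * (k : ℤ) + 1) ^ (idx p.1 : ℕ)
  refine ⟨lab, Function.extend f wt (fun _ => 0), hlab, ?_, ?_, ?_⟩
  · rw [Function.extend_apply']
    rintro ⟨⟨c, x⟩, h1⟩
    exact hlab.2 c.1 c.2 x h1
  · intro i
    have hpos : (0 : ℤ) ≤ (2 * (k : ℤ) + 1) ^ M := by positivity
    by_cases hi : ∃ p, f p = i
    · obtain ⟨p, rfl⟩ := hi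
      rw [hf.extend_apply]
      have h1 : (0 : ℤ) ≤ wt p := by
        simp only [wt]
        positivity
      rw [abs_of_nonneg h1]
      have h2 : ((p.2 : ℕ) : ℤ) + 1 ≤ 2 * (k : ℤ) + 1 := by
        have := p.2.2
        omega
      have h3 : (idx p.1 : ℕ) + 1 ≤ M := (idx p.1).2
      calc wt p ≤ (2 * (k : ℤ) + 1) * (2 * (k : ℤ) + 1) ^ (idx p.1 : ℕ) :=
            mul_le_mul_of_nonneg_right h2 (by positivity)
        _ = (2 * (k : ℤ) + 1) ^ ((idx p.1 : ℕ) + 1) := by rw [pow_succ]; ring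
        _ ≤ (2 * (k : ℤ) + 1) ^ M := pow_le_pow_right₀ (by omega) h3
    · rw [Function.extend_apply' _ _ _ hi]
      simpa using hpos
  · have h1 := (hDIG M k).comp_equiv idx
    have h2 : (fun (c : EdgeT h) (x : Fin k) =>
        Function.extend f wt (fun _ => 0) (lab c.1 x)) =
        fun (c : EdgeT h) (x : Fin k) => ((x : ℤ) + 1) * (2 * (k : ℤ) + 1) ^ ((idx c : Fin M) : ℕ)
        := by
      funext c x
      exact hf.extend_apply wt (fun _ => 0) (c, x)
    rw [h2]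
    exact h1

/-- The numerical inequality for part (3). -/
theorem num3 (s q n μ S : ℕ) (hs : 16 ≤ s) (hq : 2 ≤ q) (hn : n < (s + 1) ^ 2)
    (hμ : μ < (2 ^ (q + 1)) ^ 2) (hμ1 : 1 ≤ μ) (hn1 : 1 ≤ n) (hS : s ^ (q / 2) ≤ 1 + S) :
    (n : ℝ) ^ ((1 / 80 : ℝ) * Real.log μ) ≤ S := by
  have hs0 : (0 : ℝ) < s := by
    have : 0 < s := by omega
    exact_mod_cast this
  have hs1 : (1 : ℝ) ≤ s := by
    have : 1 ≤ s := by omega
    exact_mod_cast this
  have hq0 : (2 : ℝ) ≤ q := by exact_mod_cast hq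
  -- n ≤ s ^ 4
  have hn4 : (n : ℝ) ≤ (s : ℝ) ^ (4 : ℝ) := by
    have h1 : n ≤ s ^ 4 := by
      have h2 : (s + 1) ^ 2 ≤ s ^ 4 := by
        have h3 : s + 1 ≤ s ^ 2 := by nlinarith
        calc (s + 1) ^ 2 ≤ (s ^ 2) ^ 2 := Nat.pow_le_pow_left h3 2
          _ = s ^ 4 := by rw [← pow_mul]
      omega
    have h4 : (s : ℝ) ^ (4 : ℝ) = ((s ^ 4 : ℕ) : ℝ) := by
      rw [show (4 : ℝ) = ((4 : ℕ) : ℝ) by norm_num, Real.rpow_natCast]
      push_cast
      rfl
    rw [h4]
    exact_mod_cast h1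
  -- log μ
  have hlog : Real.log μ ≤ 2 * (q + 1) * Real.log 2 := by
    have h1 : (μ : ℝ) ≤ ((2 : ℝ) ^ (q + 1)) ^ 2 := by exact_mod_cast hμ.le
    have h2 : (0 : ℝ) < μ := by
      have : 0 < μ := by omega
      exact_mod_cast this
    calc Real.log μ ≤ Real.log (((2 : ℝ) ^ (q + 1)) ^ 2) := Real.log_le_log h2 h1
      _ = 2 * (q + 1) * Real.log 2 := by
        rw [Real.log_pow, Real.log_pow]
        push_cast
        ring
  have hlog0 : 0 ≤ Real.log μ := Real.log_nonneg (by exact_mod_cast hμ1)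
  have hl2 : Real.log 2 ≤ 7 / 10 := by
    have := Real.log_two_lt_d9
    linarith
  have hl20 : 0 ≤ Real.log 2 := Real.log_nonneg (by norm_num)
  have hexp : 4 * ((1 / 80 : ℝ) * Real.log μ) ≤ q / 8 := by
    have h1 : 2 * ((q : ℝ) + 1) * Real.log 2 ≤ 2 * (q + 1) * (7 / 10) := by
      apply mul_le_mul_of_nonneg_left hl2
      positivity
    linarith
  have h1 : (n : ℝ) ^ ((1 / 80 : ℝ) * Real.log μ) ≤ (s : ℝ) ^ ((q : ℝ) / 8) := by
    calc (n : ℝ) ^ ((1 / 80 : ℝ) * Real.log μ)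
        ≤ ((s : ℝ) ^ (4 : ℝ)) ^ ((1 / 80 : ℝ) * Real.log μ) :=
          Real.rpow_le_rpow (by positivity) hn4 (by positivity)
      _ = (s : ℝ) ^ (4 * ((1 / 80 : ℝ) * Real.log μ)) := by rw [← Real.rpow_mul hs0.le]
      _ ≤ (s : ℝ) ^ ((q : ℝ) / 8) := Real.rpow_le_rpow_of_exponent_le hs1 hexp
  set x := (s : ℝ) ^ ((q : ℝ) / 8) with hx
  have hx2 : 2 ≤ x := by
    have h2 : (16 : ℝ) ^ ((1 : ℝ) / 4) ≤ x := by
      calc (16 : ℝ) ^ ((1 : ℝ) / 4) ≤ (s : ℝ) ^ ((1 : ℝ) / 4) :=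
            Real.rpow_le_rpow (by norm_num) (by exact_mod_cast hs) (by norm_num)
        _ ≤ x := Real.rpow_le_rpow_of_exponent_le hs1 (by linarith)
    have h3 : (16 : ℝ) ^ ((1 : ℝ) / 4) = 2 := by
      rw [show (16 : ℝ) = 2 ^ (4 : ℝ) by norm_num, ← Real.rpow_mul (by norm_num)]
      norm_num
    linarith
  have h2 : x * x ≤ 1 + S := by
    have h3 : x * x = (s : ℝ) ^ ((q : ℝ) / 4) := by
      rw [hx, ← Real.rpow_add hs0]
      congr 1
      ring
    have h4 : (q : ℝ) / 4 ≤ ((q / 2 : ℕ) : ℝ) := by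
      have h5 : q ≤ 4 * (q / 2) := by omega
      have h6 : (q : ℝ) ≤ 4 * ((q / 2 : ℕ) : ℝ) := by exact_mod_cast h5
      linarith
    calc x * x = (s : ℝ) ^ ((q : ℝ) / 4) := h3
      _ ≤ (s : ℝ) ^ (((q / 2 : ℕ) : ℝ)) := Real.rpow_le_rpow_of_exponent_le hs1 h4
      _ = (s : ℝ) ^ (q / 2) := Real.rpow_natCast _ _
      _ ≤ 1 + S := by exact_mod_cast hS
  have h3 : x ≤ S := by nlinarith
  exact h1.trans h3

/-- Part (3). -/
theorem part3 (hC : CUTStmt) (hP : PREStmt.{0}) (hN : CNTStmt.{0}) (hT : TRCStmt.{u})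
    (hI : INJStmt) (hW : WSHStmt.{u, 0}) (hS : SKWStmt.{u, 0}) (hL : LABStmt)
    (hDIG : DIGStmt) :
    ∃ c : ℝ, 0 < c ∧ ∀ g : ℕ → ℕ, Tendsto g atTop atTop → ∀ᶠ n : ℕ in atTop,
      ∃ u : Fin (n + 1) → ℤ, u 0 = 0 ∧ (∀ i, |u i| ≤ (n : ℤ) ^ g n) ∧
        ∀ (K : Type u) [CommSemiring K] [Nontrivial K] (D : Circuit K (Fin (nvar n))),
          D.WeaklySkew → HomComputes (treeWeight u) D (treePoly K n) →
          (n : ℝ) ^ (c * Real.log (min (g n) n : ℕ)) ≤ D.size := by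
  refine ⟨1 / 80, by norm_num, ?_⟩
  intro g hg
  filter_upwards [hg.eventually_ge_atTop 4, eventually_ge_atTop 1000] with n hgn hn
  set s := Nat.sqrt n with hs
  have hs16 : 16 ≤ s := by
    rw [hs, Nat.le_sqrt]
    omega
  have hsn : s * s ≤ n := Nat.sqrt_le n
  have hns : n < (s + 1) * (s + 1) := Nat.lt_succ_sqrt n
  set μ := min (g n) s with hμ
  have hμ4 : 4 ≤ μ := le_min hgn (by omega)
  set q := Nat.log 2 μ with hq
  have hq2 : 2 ≤ q := by
    rw [hq]
    exact (Nat.le_log_iff_pow_le (by norm_num) (by omega)).2 (by simpa using hμ4)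
  have hqμ : 2 ^ q ≤ μ := Nat.pow_log_le_self 2 (by omega)
  have hμq : μ < 2 ^ (q + 1) := Nat.lt_pow_succ_log_self (by norm_num) μ
  obtain ⟨h, hh⟩ : ∃ h, q = h + 1 := ⟨q - 1, by omega⟩
  have hnodes := card_nodes h
  have hedges := card_edges_lt h
  rw [← hh] at hnodes
  have hE : (edges h).card * s ≤ n := by
    have h1 : (edges h).card ≤ s := by
      have : μ ≤ s := min_le_right _ _
      omega
    exact (Nat.mul_le_mul_right s h1).trans hsn
  obtain ⟨lab, u, hlab, hu0, hu, hsep⟩ := exists_weights hL hDIG n h s hE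
  refine ⟨u, hu0, ?_, ?_⟩
  · intro i
    refine (hu i).trans ?_
    have h1 : 2 * (s : ℤ) + 1 ≤ n := by
      have h2 : 2 * s + 1 ≤ n := by nlinarith
      exact_mod_cast h2
    have h3 : (edges h).card ≤ g n := by
      have : μ ≤ g n := min_le_left _ _
      omega
    calc (2 * (s : ℤ) + 1) ^ (edges h).card ≤ (n : ℤ) ^ (edges h).card :=
          pow_le_pow_left₀ (by positivity) h1 _
      _ ≤ (n : ℤ) ^ g n := pow_le_pow_right₀ (by omega) h3
  · intro K _ _ D hD hf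
    have h1 := slb hC hP hN hT hI hW hS K n h s ℤ lab u hlab ?_ (by omega) hu0 hsep D hD hf
    · rw [← hh] at h1
      refine num3 s q n (min (g n) n) D.size hs16 hq2 (by rw [sq]; exact hns) ?_ ?_ (by omega) h1
      · rcases le_total (g n) s with h2 | h2
        · have h3 : μ = g n := min_eq_left h2
          have h4 : min (g n) n ≤ μ := by rw [h3]; exact min_le_left _ _
          have h5 : 2 ^ (q + 1) ≤ (2 ^ (q + 1)) ^ 2 := Nat.le_self_pow (by norm_num) _
          omega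
        · have h3 : μ = s := min_eq_right h2
          have h4 : min (g n) n ≤ n := min_le_right _ _
          have h5 : s + 1 ≤ 2 ^ (q + 1) := by omega
          have h6 : (s + 1) * (s + 1) ≤ (2 ^ (q + 1)) ^ 2 := by
            rw [sq]
            exact Nat.mul_le_mul h5 h5
          omega
      · exact le_min (by omega) (by omega)
    · have h2 : 2 ^ h ≤ 2 ^ q := Nat.pow_le_pow_right (by norm_num) (by omega)
      have h3 : μ ≤ s := min_le_right _ _
      nlinarith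

/-- The numerical inequality for part (4). -/
theorem num4 (q r k m : ℕ) (hq : 2 ≤ q) (hr1 : 1 ≤ r) (hr : r < 2 ^ (4 * q + 4))
    (hk : 2 ^ (3 * q) ≤ k) (hm : k ^ (q / 2) ≤ m ^ 2) :
    (r : ℝ) ^ ((1 / 100 : ℝ) * Real.log r) ≤ m := by
  have hq0 : (2 : ℝ) ≤ q := by exact_mod_cast hq
  have hr0 : (0 : ℝ) < r := by
    have : 0 < r := by omega
    exact_mod_cast this
  have hlog0 : 0 ≤ Real.log r := Real.log_nonneg (by exact_mod_cast hr1)
  have hl20 : 0 < Real.log 2 := Real.log_pos (by norm_num)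
  have hl2 : Real.log 2 ≤ 7 / 10 := by
    have := Real.log_two_lt_d9
    linarith
  have hlog : Real.log r ≤ (4 * q + 4) * Real.log 2 := by
    have h1 : (r : ℝ) ≤ (2 : ℝ) ^ (4 * q + 4) := by exact_mod_cast hr.le
    calc Real.log r ≤ Real.log ((2 : ℝ) ^ (4 * q + 4)) := Real.log_le_log hr0 h1
      _ = (4 * q + 4) * Real.log 2 := by
        rw [Real.log_pow]
        push_cast
        ring
  have hlog' : Real.log r ≤ 6 * q * Real.log 2 := by
    refine hlog.trans ?_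
    apply mul_le_mul_of_nonneg_right _ hl20.le
    linarith
  -- log m
  have hm0 : 0 < m := by
    by_contra h0
    have h1 : m = 0 := by omega
    have h2 : 0 < k ^ (q / 2) := Nat.pow_pos (lt_of_lt_of_le (Nat.pow_pos (by norm_num)) hk)
    have h3 : (0 : ℕ) ^ 2 = 0 := by norm_num
    rw [h1, h3] at hm
    omega
  have hm0' : (0 : ℝ) < m := by exact_mod_cast hm0
  have hlm : 3 / 8 * (q : ℝ) ^ 2 * Real.log 2 ≤ Real.log m := by
    have h1 : (2 ^ (3 * q)) ^ (q / 2) ≤ m ^ 2 := (Nat.pow_le_pow_left hk _).trans hm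
    have h2 : ((2 : ℝ) ^ (3 * q)) ^ (q / 2) ≤ (m : ℝ) ^ 2 := by exact_mod_cast h1
    have h3 := Real.log_le_log (by positivity) h2
    rw [Real.log_pow, Real.log_pow, Real.log_pow] at h3
    push_cast at h3
    have h4 : (q : ℝ) / 4 ≤ ((q / 2 : ℕ) : ℝ) := by
      have h5 : q ≤ 4 * (q / 2) := by omega
      have h6 : (q : ℝ) ≤ 4 * ((q / 2 : ℕ) : ℝ) := by exact_mod_cast h5
      linarith
    have h5 : (q : ℝ) / 4 * (3 * q * Real.log 2) ≤ ((q / 2 : ℕ) : ℝ) * (3 * q * Real.log 2) := by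
      apply mul_le_mul_of_nonneg_right h4
      positivity
    nlinarith
  rw [Real.rpow_def_of_pos hr0, ← Real.le_log_iff_exp_le hm0']
  have h1 : Real.log r * (1 / 100 * Real.log r) ≤ 1 / 100 * (6 * q * Real.log 2) ^ 2 := by
    have h2 : Real.log r * Real.log r ≤ (6 * q * Real.log 2) * (6 * q * Real.log 2) :=
      mul_le_mul hlog' hlog' hlog0 (by positivity)
    nlinarith
  have h2 : 1 / 100 * (6 * q * Real.log 2) ^ 2 ≤ 3 / 8 * (q : ℝ) ^ 2 * Real.log 2 := by
    have h3 : 1 / 100 * (6 * q * Real.log 2) ^ 2 =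
        (36 / 100 * (q : ℝ) ^ 2 * Real.log 2) * Real.log 2 := by ring
    rw [h3]
    have h4 : (36 / 100 * (q : ℝ) ^ 2 * Real.log 2) * Real.log 2 ≤
        (36 / 100 * (q : ℝ) ^ 2 * Real.log 2) * (7 / 10) :=
      mul_le_mul_of_nonneg_left hl2 (by positivity)
    have h5 : 0 ≤ (q : ℝ) ^ 2 * Real.log 2 := by positivity
    linarith
  linarith

/-- Part (4). -/
theorem part4 (hD : DLBStmt.{u}) (hL : LABStmt) (hI : DISStmt.{u}) :
    ∃ c : ℝ, 0 < c ∧ ∃ r₀ : ℕ, ∀ (K : Type u) [Field K] (n m : ℕ) (t : Fin (n + 1) → Kˣ)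
      (S : Finset (Fin (n + 1))) (M : Matrix (Fin m) (Fin m) (MvPolynomial (Fin (nvar n)) K)),
      r₀ ≤ S.card → t 0 = 1 → Dissoc 4 t S → DetRep M (treePoly K n) → FixedBy (tscale t) M →
      (S.card : ℝ) ^ (c * Real.log S.card) ≤ m := by
  refine ⟨1 / 100, by norm_num, 256, ?_⟩
  intro K _ n m t S M hS ht hdis hM hF
  set r := S.card with hr
  set q := Nat.log 2 r / 4 with hq
  have hlog8 : 8 ≤ Nat.log 2 r :=
    (Nat.le_log_iff_pow_le (by norm_num) (by omega)).2 (by simpa using hS)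
  have hq2 : 2 ≤ q := by omega
  have hpow : 2 ^ (4 * q) ≤ r := by
    calc 2 ^ (4 * q) ≤ 2 ^ (Nat.log 2 r) := Nat.pow_le_pow_right (by norm_num) (by omega)
      _ ≤ r := Nat.pow_log_le_self 2 (by omega)
  have hrlt : r < 2 ^ (4 * q + 4) := by
    calc r < 2 ^ (Nat.log 2 r + 1) := Nat.lt_pow_succ_log_self (by norm_num) r
      _ ≤ 2 ^ (4 * q + 4) := Nat.pow_le_pow_right (by norm_num) (by omega)
  obtain ⟨h, hh⟩ : ∃ h, q = h + 1 := ⟨q - 1, by omega⟩
  have hnodes := card_nodes h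
  have hedges := card_edges_lt h
  rw [← hh] at hnodes
  have hk3 : 2 ^ (3 * q) ≤ r / 2 ^ q := by
    rw [Nat.le_div_iff_mul_le (Nat.pow_pos (by norm_num)), ← pow_add]
    calc 2 ^ (3 * q + q) = 2 ^ (4 * q) := by congr 1; ring
      _ ≤ r := hpow
  have hrn : r ≤ n + 1 := by
    have h1 := Finset.card_le_univ S
    rwa [Fintype.card_fin] at h1
  have h2q : 2 ^ q ≤ 2 ^ (4 * q) := Nat.pow_le_pow_right (by norm_num) (by omega)
  have h2h : 2 ^ h ≤ 2 ^ q := Nat.pow_le_pow_right (by norm_num) (by omega)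
  have key := det_bound hD hL hI t S M h (r / 2 ^ q) hM hF ht hdis (by omega) ?_ ?_ (by omega)
  · rw [← hh] at key
    exact num4 q r (r / 2 ^ q) m hq2 (by omega) hrlt hk3 key
  · have h1 : (nodes h).card < 2 ^ q := by omega
    have h2 : (nodes h).card ^ 2 < (2 ^ q) ^ 2 := Nat.pow_lt_pow_left h1 (by norm_num)
    have h3 : (2 ^ q) ^ 2 ≤ 2 ^ (3 * q) := by
      rw [← pow_mul]
      exact Nat.pow_le_pow_right (by norm_num) (by omega)
    omega
  · have h1 : (edges h).card ≤ 2 ^ q := by omega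
    exact (Nat.mul_le_mul_right _ h1).trans (Nat.mul_div_le r (2 ^ q))

end Pool.EQD
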