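import Pool.Agent.H79.EQD.Defs3
import Pool.Agent.H79.EQD.Asy
import Pool.Agent.H80.Transfer

set_option autoImplicit false

namespace Pool.EQD

open MvPolynomial Pool.Agent.H80

universe u v w

/-- The weights of a scaling of the labels. -/
def wts {K : Type u} [Field K] {L : Type} (t : L → Kˣ) (e : TVar L) : K :=
  (((tw (fun i => Additive.ofMul (t i)) e).toMul : Kˣ) : K)

/-- The lower bound in the variables `TVar`. -/
theorem tvar_bound (hD : DLBStmt.{u}) (hL : LABStmt) (hI : DISStmt.{u})
    {K : Type u} [Field K] {L : Type} [Fintype L] [DecidableEq L] (r : L) {N m : ℕ}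
    (t : L → Kˣ) (S : Finset L)
    (M : Matrix (Fin m) (Fin m) (MvPolynomial (TVar L) K)) (h k : ℕ)
    (hM : DetRep M (tsum K L N r)) (P Q : Matrix (Fin m) (Fin m) K) (hP : IsUnit P.det)
    (hQ : IsUnit Q.det) (hfix : M.map (scaleHom (wts t)) = P.map C * M * Q.map C)
    (ht : t r = 1) (hS : Dissoc 2 t S) (hh : 0 < h) (hk : ((nodes h).card) ^ 2 < k)
    (hE : (edges h).card * k ≤ S.card) (hN : 2 ^ h ≤ N) : k ^ ((h + 1) / 2) ≤ m ^ 2 := by
  classical
  have h0S : r ∉ S := by
    intro h0
    have h1 := hS (Pi.single r 1) (fun i hi => by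
      rw [Pi.single_apply, if_neg]
      rintro rfl
      exact hi h0) (fun i => by
      rw [Pi.single_apply]
      split_ifs <;> simp) (by
      refine Finset.prod_eq_one fun i _ => ?_
      rw [Pi.single_apply]
      split_ifs with hi
      · subst hi
        rw [ht, one_zpow]
      · rw [zpow_zero])
    have h2 := congrFun h1 r
    simp at h2
  obtain ⟨lab, hlab, hlabS⟩ := hL L r S h k h0S hE
  obtain ⟨A, hA⟩ : ∃ A : Option (TVar L) → Matrix (Fin m) (Fin m) K, M = aff A :=
    ⟨_, eq_aff M hM.1⟩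
  have hdet := hM.2
  rw [hA] at hdet hfix
  have hgA : P.map C * aff A * Q.map C = aff (fun o => P * A o * Q) := (aff_mul A P Q).symm
  rw [aff_scale, hgA] at hfix
  have hfix' := aff_injective hfix
  refine hD K L r h k N m lab t A P Q hlab hN hh hk ht ?_ hdet hP hQ ?_ ?_
  · exact hI Kˣ L t S (EdgeT h) k (fun c x => lab c.1 x) hS
      (fun c a => hlabS c.1 c.2 a) (fun c c' a a' hcc => by
        obtain ⟨h1, h2⟩ := hlab.1 c.1 c.2 c'.1 c'.2 a a' hcc
        exact ⟨Subtype.ext h1, h2⟩)
  · exact congrFun hfix' none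
  · intro e
    exact congrFun hfix' (some e)

theorem totalDegree_le_one_of {K : Type u} [CommSemiring K] {σ : Type} [Fintype σ]
    {τ : Type} (f : MvPolynomial σ K →ₐ[K] MvPolynomial τ K)
    (hf : ∀ e, (f (X e)).totalDegree ≤ 1) (p : MvPolynomial σ K) (hp : p.totalDegree ≤ 1) :
    (f p).totalDegree ≤ 1 := by
  classical
  have h1 := eq_aff (m := 1) (Matrix.of fun _ _ => p) (fun _ _ => hp)
  have h2 : p = C (coeff 0 p) + ∑ e : σ, C (coeff (Finsupp.single e 1) p) * X e :=
    congrArg (fun M : Matrix (Fin 1) (Fin 1) (MvPolynomial σ K) => M 0 0) h1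
  rw [h2, map_add, map_sum]
  refine (totalDegree_add _ _).trans (max_le ?_ ?_)
  · rw [algHom_C, algebraMap_eq, totalDegree_C]
    exact Nat.zero_le _
  · refine totalDegree_finsetSum_le fun e _ => ?_
    rw [map_mul, algHom_C, algebraMap_eq]
    refine (totalDegree_mul _ _).trans ?_
    rw [totalDegree_C, zero_add]
    exact hf e

theorem totalDegree_symHom {K : Type u} [Field K] {L : Type} [Fintype L] [DecidableEq L]
    (g : Matrix L L K) (e : TVar L) : (symHom g (X e)).totalDegree ≤ 1 := by
  unfold symHom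
  rw [aeval_X]
  rcases e with i | ⟨i, j, k⟩
  · refine totalDegree_finsetSum_le fun a _ => ?_
    refine (totalDegree_mul _ _).trans ?_
    rw [totalDegree_C, zero_add]
    exact (totalDegree_X _).le
  · refine totalDegree_finsetSum_le fun a _ => totalDegree_finsetSum_le fun b _ =>
      totalDegree_finsetSum_le fun c _ => ?_
    refine (totalDegree_mul _ _).trans ?_
    rw [totalDegree_C, zero_add]
    exact (totalDegree_X _).le

theorem symHom_map_C {K : Type u} [Field K] {L : Type} [Fintype L] [DecidableEq L] {m : ℕ}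
    (g : Matrix L L K) (P : Matrix (Fin m) (Fin m) K) :
    (P.map (C : K → MvPolynomial (TVar L) K)).map (symHom g) = P.map C := by
  ext1 i j
  simp [symHom]

theorem symHom_mul {K : Type u} [Field K] {L : Type} [Fintype L] [DecidableEq L] {m : ℕ}
    (g : Matrix L L K) (M N : Matrix (Fin m) (Fin m) (MvPolynomial (TVar L) K)) :
    (M * N).map (symHom g) = M.map (symHom g) * N.map (symHom g) :=
  Matrix.map_mul (f := (symHom g : MvPolynomial (TVar L) K →ₐ[K] MvPolynomial (TVar L) K))

theorem C_map_mul {K : Type u} [Field K] {σ : Type} {m : ℕ} (N N' : Matrix (Fin m) (Fin m) K) :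
    ((N * N').map (C : K → MvPolynomial σ K)) = N.map C * N'.map C := Matrix.map_mul

/-- The bound over an algebraically closed field. -/
theorem sym_bound0 (hD : DLBStmt.{u}) (hL : LABStmt) (hI : DISStmt.{u}) (hV : INVStmt.{u})
    (hC : SYCStmt.{u}) (hA : ADBStmt.{u})
    {K : Type u} [Field K] {L : Type} [Fintype L] [DecidableEq L] (r : L) {N m : ℕ}
    (g b : Matrix L L K) (t : L → Kˣ) (S : Finset L)
    (M : Matrix (Fin m) (Fin m) (MvPolynomial (TVar L) K)) (h k : ℕ)
    (hM : DetRep M (tsum K L N r)) (hF : FixedBySym g M) (hr : FixRow r g)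
    (hb : DiagBy g b t) (hS : Dissoc 4 t S) (hh : 0 < h) (hk : ((nodes h).card) ^ 2 < k)
    (hE : (edges h).card * k ≤ S.card) (hN : 2 ^ h ≤ N) : k ^ ((h + 1) / 2) ≤ m ^ 2 := by
  classical
  obtain ⟨b, t, S', hrb, hb, ht, hS', hcard⟩ := hA K L r g b t S hr hb hS
  rw [← hcard] at hE
  -- invertibility of `g`
  have hdiag : IsUnit (Matrix.diagonal (fun i => (t i : K))).det := by
    rw [Matrix.det_diagonal]
    exact isUnit_iff_ne_zero.2 (Finset.prod_ne_zero_iff.2 fun i _ => (t i).ne_zero)
  have hg : IsUnit g.det := by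
    have h1 : g.det * b.det = b.det * (Matrix.diagonal (fun i => (t i : K))).det := by
      rw [← Matrix.det_mul, ← Matrix.det_mul, hb.2]
    have h2 : IsUnit (g.det * b.det) := by
      rw [h1]
      exact hb.1.mul hdiag
    exact isUnit_of_mul_isUnit_left h2
  -- a symmetry without transposition
  obtain ⟨g', t', P, Q, hg', hb', ht', hdis, hP, hQ, hfix⟩ :
      ∃ (g' : Matrix L L K) (t' : L → Kˣ) (P Q : Matrix (Fin m) (Fin m) K), IsUnit g'.det ∧
        DiagBy g' b t' ∧ t' r = 1 ∧ Dissoc 2 t' S' ∧ IsUnit P.det ∧ IsUnit Q.det ∧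
        M.map (symHom g') = P.map C * M * Q.map C := by
    obtain ⟨P, Q, hP, hQ, h1 | h1⟩ := hF
    · exact ⟨g, t, P, Q, hg, hb, ht,
        fun z h2 h3 h4 => hS' z h2 (fun i => (h3 i).trans (by norm_num)) h4, hP, hQ, h1⟩
    · refine ⟨g * g, fun i => t i * t i, P * Q.transpose, P.transpose * Q, ?_, ⟨hb.1, ?_⟩,
        by simp [ht], ?_, ?_, ?_, ?_⟩
      · rw [Matrix.det_mul]
        exact hg.mul hg
      · rw [Matrix.mul_assoc, hb.2, ← Matrix.mul_assoc, hb.2, Matrix.mul_assoc,
          Matrix.diagonal_mul_diagonal]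
        rfl
      · intro z h2 h3 h4
        have h5 := hS' (fun i => 2 * z i) (fun i hi => by simp [h2 i hi]) (fun i => by
          rw [abs_mul]
          have := h3 i
          rw [show |(2 : ℤ)| = 2 from rfl]
          omega) (by
          rw [← h4]
          refine Finset.prod_congr rfl fun i _ => ?_
          change t i ^ (2 * z i) = (t i * t i) ^ z i
          rw [← sq, ← zpow_natCast (t i) 2, ← zpow_mul]
          norm_num)
        funext i
        have h6 := congrFun h5 i
        simp only [Pi.zero_apply, mul_eq_zero, OfNat.ofNat_ne_zero, false_or] at h6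
        exact h6
      · rw [Matrix.det_mul, Matrix.det_transpose]
        exact hP.mul hQ
      · rw [Matrix.det_mul, Matrix.det_transpose]
        exact hP.mul hQ
      · have h2 : M.map (symHom (g * g)) = (M.map (symHom g)).map (symHom g) := by
          ext1 i j
          simp only [Matrix.map_apply]
          exact ((hC K L).1 g g hg hg _).symm
        have h3 : (M.transpose).map (symHom g) = (M.map (symHom g)).transpose := rfl
        rw [h2, h1, symHom_mul, symHom_mul, symHom_map_C, symHom_map_C, h3, h1,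
          Matrix.transpose_mul, Matrix.transpose_mul, Matrix.transpose_transpose]
        have h4 : ∀ N : Matrix (Fin m) (Fin m) K,
            (N.map (C : K → MvPolynomial (TVar L) K)).transpose = N.transpose.map C :=
          fun N => rfl
        rw [h4, h4, C_map_mul, C_map_mul]
        simp only [Matrix.mul_assoc]
  -- the new matrix
  have hdiag' : IsUnit (Matrix.diagonal (fun i => (t' i : K))).det := by
    rw [Matrix.det_diagonal]
    exact isUnit_iff_ne_zero.2 (Finset.prod_ne_zero_iff.2 fun i _ => (t' i).ne_zero)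
  refine tvar_bound hD hL hI r t' S' (M.map (symHom b)) h k ⟨?_, ?_⟩ P Q hP hQ ?_ ht' hdis hh hk
    hE hN
  · intro i j
    exact totalDegree_le_one_of _ (totalDegree_symHom b) _ (hM.1 i j)
  · have h1 : (M.map (symHom b)).det = symHom b M.det := (AlgHom.map_det (symHom b) M).symm
    rw [h1, hM.2]
    exact hV K L r b N hb.1 hrb
  · have h1 : (M.map (symHom b)).map (scaleHom (wts t')) =
        (M.map (symHom b)).map (symHom (Matrix.diagonal fun i => (t' i : K))) := by
      rw [(hC K L).2 t']
      rfl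
    have h2 : (M.map (symHom b)).map (symHom (Matrix.diagonal fun i => (t' i : K))) =
        (M.map (symHom g')).map (symHom b) := by
      ext1 i j
      simp only [Matrix.map_apply]
      rw [(hC K L).1 b _ hb.1 hdiag', (hC K L).1 g' b hg' hb.1, hb'.2]
    rw [h1, h2, hfix, symHom_mul, symHom_mul, symHom_map_C, symHom_map_C]

theorem map_tsum' {K K' : Type u} [Field K] [Field K'] (φ : K →+* K') (L : Type) [Fintype L]
    (N : ℕ) (r : L) : MvPolynomial.map φ (tsum K L N r) = tsum K' L N r := by
  unfold Agent.H80.tsum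
  rw [map_sum]
  exact Finset.sum_congr rfl fun m _ => map_tp φ L m r

theorem map_symHom {K K' : Type u} [Field K] [Field K'] (φ : K →+* K') {L : Type} [Fintype L]
    [DecidableEq L] (g : Matrix L L K) (hg : IsUnit g.det) (p : MvPolynomial (TVar L) K) :
    MvPolynomial.map φ (symHom g p) = symHom (g.map φ) (MvPolynomial.map φ p) := by
  have hinv : (g.map φ)⁻¹ = (g⁻¹).map φ := by
    apply Matrix.inv_eq_right_inv
    rw [← Matrix.map_mul, Matrix.mul_nonsing_inv _ hg]
    exact Matrix.map_one φ (map_zero φ) (map_one φ)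
  have h : ((MvPolynomial.map φ).comp (symHom g : MvPolynomial (TVar L) K →ₐ[K] _).toRingHom) =
      ((symHom (g.map φ) : MvPolynomial (TVar L) K' →ₐ[K'] _).toRingHom).comp
        (MvPolynomial.map φ) := by
    apply MvPolynomial.ringHom_ext
    · intro c
      simp [symHom]
    · intro e
      simp only [RingHom.comp_apply, AlgHom.toRingHom_eq_coe, RingHom.coe_coe, map_X]
      unfold symHom
      rw [aeval_X, aeval_X]
      rcases e with i | ⟨i, j, k⟩
      · simp only [map_sum, map_mul, map_C, map_X, Matrix.map_apply]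
      · simp only [map_sum, map_mul, map_C, map_X, Matrix.map_apply, hinv]
  exact congrFun (congrArg DFunLike.coe h) p

/-- The bound for all diagonalizable symmetries. -/
theorem sym_bound (hD : DLBStmt.{u}) (hL : LABStmt) (hI : DISStmt.{u}) (hV : INVStmt.{u})
    (hC : SYCStmt.{u}) (hA : ADBStmt.{u})
    {K : Type u} [Field K] {L : Type} [Fintype L] [DecidableEq L] (r : L) {N m : ℕ}
    (g : Matrix L L K) (b : Matrix L L (AlgebraicClosure K)) (t : L → (AlgebraicClosure K)ˣ)
    (S : Finset L)
    (M : Matrix (Fin m) (Fin m) (MvPolynomial (TVar L) K)) (h k : ℕ)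
    (hM : DetRep M (tsum K L N r)) (hF : FixedBySym g M) (hr : FixRow r g)
    (hb : DiagBy (g.map (algebraMap K (AlgebraicClosure K))) b t) (hS : Dissoc 4 t S)
    (hh : 0 < h) (hk : ((nodes h).card) ^ 2 < k)
    (hE : (edges h).card * k ≤ S.card) (hN : 2 ^ h ≤ N) : k ^ ((h + 1) / 2) ≤ m ^ 2 := by
  classical
  set φ := algebraMap K (AlgebraicClosure K) with hφ
  have hdetmap : ∀ {n : Type} [Fintype n] [DecidableEq n] (P : Matrix n n K),
      (P.map φ).det = φ P.det := fun P => (RingHom.map_det φ P).symm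
  have hg : IsUnit g.det := by
    have hdiag : IsUnit (Matrix.diagonal (fun i => (t i : AlgebraicClosure K))).det := by
      rw [Matrix.det_diagonal]
      exact isUnit_iff_ne_zero.2 (Finset.prod_ne_zero_iff.2 fun i _ => (t i).ne_zero)
    have h1 : (g.map φ).det * b.det =
        b.det * (Matrix.diagonal (fun i => (t i : AlgebraicClosure K))).det := by
      rw [← Matrix.det_mul, ← Matrix.det_mul, hb.2]
    have h2 : IsUnit ((g.map φ).det * b.det) := by
      rw [h1]
      exact hb.1.mul hdiag
    have h3 := isUnit_of_mul_isUnit_left h2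
    rw [hdetmap] at h3
    have h4 := h3.ne_zero
    exact isUnit_iff_ne_zero.2 fun h5 => h4 (by rw [h5, map_zero])
  refine sym_bound0 hD hL hI hV hC hA (K := AlgebraicClosure K) r (N := N) (m := m) (g.map φ) b t S
    (M.map (MvPolynomial.map φ)) h k ⟨?_, ?_⟩ ?_ ?_ hb hS hh hk hE hN
  · intro i j
    refine le_trans ?_ (hM.1 i j)
    rw [Matrix.map_apply]
    exact Finset.sup_mono (support_map_subset φ _)
  · have h1 : (M.map (MvPolynomial.map φ)).det = MvPolynomial.map φ M.det :=
      (RingHom.map_det (MvPolynomial.map φ) M).symm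
    rw [h1, hM.2, map_tsum']
  · obtain ⟨P, Q, hP, hQ, h1⟩ := hF
    have hCm : ∀ P : Matrix (Fin m) (Fin m) K,
        (P.map (C : K → MvPolynomial (TVar L) K)).map (MvPolynomial.map φ) =
          (P.map φ).map C := by
      intro P
      ext1 i j
      simp
    have hmm : ∀ M N : Matrix (Fin m) (Fin m) (MvPolynomial (TVar L) K),
        (M * N).map (MvPolynomial.map φ) =
          M.map (MvPolynomial.map φ) * N.map (MvPolynomial.map φ) := fun M N => Matrix.map_mul
    have h2 : (M.map (MvPolynomial.map φ)).map (symHom (g.map φ)) =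
        (M.map (symHom g)).map (MvPolynomial.map φ) := by
      ext1 i j
      simp only [Matrix.map_apply]
      exact (map_symHom φ g hg _).symm
    refine ⟨P.map φ, Q.map φ, ?_, ?_, ?_⟩
    · rw [hdetmap]
      exact hP.map φ
    · rw [hdetmap]
      exact hQ.map φ
    · rw [h2]
      rcases h1 with h1 | h1
      · left
        rw [h1, hmm, hmm, hCm, hCm]
      · right
        rw [h1, hmm, hmm, hCm, hCm]
        rfl
  · intro a
    simp only [Matrix.map_apply]
    rw [hr a]
    split_ifs <;> simp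

/-- Part (4): all diagonalizable symmetries. -/
theorem part4s (hD : DLBStmt.{u}) (hL : LABStmt) (hI : DISStmt.{u}) (hV : INVStmt.{u})
    (hC : SYCStmt.{u}) (hA : ADBStmt.{u}) :
    ∃ c : ℝ, 0 < c ∧ ∃ r₀ : ℕ, ∀ (K : Type u) [Field K] (n m : ℕ)
      (g : Matrix (Fin (n + 1)) (Fin (n + 1)) K)
      (b : Matrix (Fin (n + 1)) (Fin (n + 1)) (AlgebraicClosure K))
      (t : Fin (n + 1) → (AlgebraicClosure K)ˣ) (S : Finset (Fin (n + 1)))
      (M : Matrix (Fin m) (Fin m) (MvPolynomial (TVar (Fin (n + 1))) K)),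
      r₀ ≤ S.card → FixRow 0 g → DiagBy (g.map (algebraMap K (AlgebraicClosure K))) b t →
      Dissoc 4 t S → DetRep M (tsum K (Fin (n + 1)) (n + 1) 0) → FixedBySym g M →
      (S.card : ℝ) ^ (c * Real.log S.card) ≤ m := by
  refine ⟨1 / 100, by norm_num, 256, ?_⟩
  intro K _ n m g b t S M hS hg hb hdis hM hF
  set r := S.card with hr
  set q := Nat.log 2 r / 4 with hq
  have hlog8 : 8 ≤ Nat.log 2 r :=
    (Nat.le_log_iff_pow_le (by norm_num) (by omega)).2 (by simpa using hS)
  have hq2 : 2 ≤ q := by omega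
  have hpow : 2 ^ (4 * q) ≤ r := by
    calc 2 ^ (4 * q) ≤ 2 ^ (Nat.log 2 r) := Nat.pow_le_pow_right (by norm_num) (by omega)
      _ ≤ r := Nat.pow_log_le_self 2 (by omega)
  have hrlt : r < 2 ^ (4 * q + 4) := by
    calc r < 2 ^ (Nat.log 2 r + 1) := Nat.lt_pow_succ_log_self (by norm_num) r
      _ ≤ 2 ^ (4 * q + 4) := Nat.pow_le_pow_right (by norm_num) (by omega)
  obtain ⟨h, hh⟩ : ∃ h, q = h + 1 := ⟨q - 1, by omega⟩
  have hnodes := card_nodes h
  have hedges := card_edges_lt h
  rw [← hh] at hnodes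
  have hk3 : 2 ^ (3 * q) ≤ r / 2 ^ q := by
    rw [Nat.le_div_iff_mul_le (Nat.pow_pos (by norm_num)), ← pow_add]
    calc 2 ^ (3 * q + q) = 2 ^ (4 * q) := by congr 1; ring
      _ ≤ r := hpow
  have hrn : r ≤ n + 1 := by
    have h1 := Finset.card_le_univ S
    rwa [Fintype.card_fin] at h1
  have h2q : 2 ^ q ≤ 2 ^ (4 * q) := Nat.pow_le_pow_right (by norm_num) (by omega)
  have h2h : 2 ^ h ≤ 2 ^ q := Nat.pow_le_pow_right (by norm_num) (by omega)
  have key := sym_bound hD hL hI hV hC hA (0 : Fin (n + 1)) g b t S M h (r / 2 ^ q) hM hF hg hb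
    hdis (by omega) ?_ ?_ (by omega)
  · rw [← hh] at key
    exact num4 q r (r / 2 ^ q) m hq2 (by omega) hrlt hk3 key
  · have h1 : (nodes h).card < 2 ^ q := by omega
    have h2 : (nodes h).card ^ 2 < (2 ^ q) ^ 2 := Nat.pow_lt_pow_left h1 (by norm_num)
    have h3 : (2 ^ q) ^ 2 ≤ 2 ^ (3 * q) := by
      rw [← pow_mul]
      exact Nat.pow_le_pow_right (by norm_num) (by omega)
    omega
  · have h1 : (edges h).card ≤ 2 ^ q := by omega
    exact (Nat.mul_le_mul_right _ h1).trans (Nat.mul_div_le r (2 ^ q))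

end Pool.EQD
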