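import Pool.Agent.H79.EQD.Defs4
import Pool.Agent.H79.EQD.Sym

/-!
# Symmetrization over a finite group
-/

set_option autoImplicit false

namespace Pool.EQD

open MvPolynomial Matrix Pool.Agent.H80

universe u

/-- A matrix which is moved to a simultaneous permutation of its rows and columns. -/
theorem fixedBySym_of_perm {K : Type u} [Field K] {L : Type} [Fintype L] [DecidableEq L] {m : ℕ}
    (g : Matrix L L K) (M : Matrix (Fin m) (Fin m) (MvPolynomial (TVar L) K))
    (π : Equiv.Perm (Fin m)) (h : M.map (symHom g) = M.submatrix π π) : FixedBySym g M := by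
  have hC : ∀ σ : Equiv.Perm (Fin m), ((σ.toPEquiv.toMatrix : Matrix (Fin m) (Fin m) K)).map
      (C : K → MvPolynomial (TVar L) K) =
      (σ.toPEquiv.toMatrix : Matrix (Fin m) (Fin m) (MvPolynomial (TVar L) K)) := by
    intro σ
    ext1 i j
    rw [Matrix.map_apply, PEquiv.toMatrix_apply, PEquiv.toMatrix_apply]
    split_ifs
    · exact C_1
    · exact C_0
  have hU : ∀ σ : Equiv.Perm (Fin m), IsUnit (σ.toPEquiv.toMatrix : Matrix (Fin m) (Fin m) K).det := by
    intro σ
    show IsUnit (Equiv.Perm.permMatrix K σ).det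
    rw [det_permutation]
    rcases Int.units_eq_one_or (Equiv.Perm.sign σ) with h | h <;> rw [h] <;> simp
  refine ⟨π.toPEquiv.toMatrix, π.symm.toPEquiv.toMatrix, hU _, hU _, Or.inl ?_⟩
  rw [hC π, hC π.symm, h, PEquiv.toMatrix_toPEquiv_mul, PEquiv.mul_toMatrix_toPEquiv]
  rfl

theorem t_smt (hE : EMGStmt.{u}) (hC : SYCStmt.{u}) : SMTStmt.{u} := by
  classical
  intro K _ L _ _ S _ _ B F E mu y f G hB hmu hy hf hG hN
  have hfin : Nat.card G ≠ 0 := fun h => hN (by rw [h, Nat.cast_zero])
  have : Finite G := Nat.finite_of_card_ne_zero hfin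
  obtain ⟨n, hn⟩ : ∃ n, n = Nat.card G := ⟨_, rfl⟩
  rw [← hn] at hN ⊢
  obtain ⟨e₀⟩ : Nonempty (Fin n ≃ G) := by
    rw [hn]
    exact ⟨(Finite.equivFin G).symm⟩
  have hdet : ∀ g : GL L K, IsUnit (g.val : Matrix L L K).det := fun g =>
    (Matrix.isUnit_iff_isUnit_det _).1 g.isUnit
  have hcc : ∀ (g : Matrix L L K) (x : K), symHom g (C x) = C x := fun g x => by
    unfold symHom
    exact algHom_C _ _
  -- the system
  obtain ⟨B', eB⟩ : ∃ B' : S × Fin n → S × Fin n → MvPolynomial (TVar L) K,
      ∀ a b, B' a b = if a.2 = b.2 then symHom ((e₀ a.2).1.val) (B a.1 b.1) else 0 :=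
    ⟨_, fun _ _ => rfl⟩
  obtain ⟨M₀, hM₀⟩ : ∃ M₀ : Matrix (Option (S × Fin n)) (Option (S × Fin n))
      (MvPolynomial (TVar L) K),
      M₀ = ematG B' (fun a : S × Fin n => F a.1 / (n : K)) (fun a : S × Fin n => E a.1) :=
    ⟨_, rfl⟩
  have hd : M₀.det = f := by
    rw [hM₀, hE K (TVar L) (S × Fin n) B' _ _ (fun a => mu a.1)
      (fun a => symHom ((e₀ a.2).1.val) (y a.1))]
    · rw [Fintype.sum_prod_type_right]
      have h1 : ∀ g : Fin n, ∑ s, C (F (s, g).1 / (n : K)) *
          symHom ((e₀ (s, g).2).1.val) (y (s, g).1) = C ((n : K)⁻¹) * f := by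
        intro g
        have h2 : symHom (e₀ g).1.val f = f := hG _ (e₀ g).2
        rw [← hf, map_sum] at h2
        rw [← hf, ← h2, Finset.mul_sum]
        refine Finset.sum_congr rfl fun s _ => ?_
        rw [map_mul, hcc, ← mul_assoc, ← C_mul]
        congr 2
        rw [div_eq_mul_inv, mul_comm]
      rw [Finset.sum_congr rfl fun g _ => h1 g, Finset.sum_const, Finset.card_univ,
        Fintype.card_fin, nsmul_eq_mul, ← mul_assoc]
      have h3 : ((n : ℕ) : MvPolynomial (TVar L) K) = C (n : K) := by simp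
      rw [h3, ← C_mul, mul_inv_cancel₀ hN, C_1, one_mul]
    · rintro ⟨s, g⟩ ⟨t, h⟩ hne
      rw [eB] at hne
      by_cases hgh : g = h
      · rw [if_pos hgh] at hne
        refine hmu s t fun h0 => hne ?_
        show symHom (e₀ g).1.val (B s t) = 0
        rw [h0, map_zero]
      · exact absurd (if_neg hgh) hne
    · rintro ⟨s, g⟩
      show symHom (e₀ g).1.val (y s) = C (E s) + ∑ b : S × Fin n, B' (s, g) b *
        symHom ((e₀ b.2).1.val) (y b.1)
      rw [hy s, map_add, hcc, map_sum, Fintype.sum_prod_type]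
      congr 1
      refine Finset.sum_congr rfl fun t _ => ?_
      rw [Finset.sum_eq_single g]
      · rw [eB, if_pos rfl, map_mul]
      · intro h _ hne
        rw [eB, if_neg (Ne.symm hne), zero_mul]
      · intro h
        exact absurd (Finset.mem_univ _) h
  have hdeg : ∀ i j, (M₀ i j).totalDegree ≤ 1 := by
    intro i j
    rw [hM₀]
    rcases i with _ | a <;> rcases j with _ | b
    · show (0 : MvPolynomial (TVar L) K).totalDegree ≤ 1
      simp
    · show (- C (F b.1 / (n : K)) : MvPolynomial (TVar L) K).totalDegree ≤ 1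
      rw [totalDegree_neg, totalDegree_C]
      exact Nat.zero_le _
    · show (C (E a.1) : MvPolynomial (TVar L) K).totalDegree ≤ 1
      rw [totalDegree_C]
      exact Nat.zero_le _
    · show ((if a = b then 1 else 0) - B' a b : MvPolynomial (TVar L) K).totalDegree ≤ 1
      refine (totalDegree_sub _ _).trans (max_le ?_ ?_)
      · split_ifs <;> simp
      · rw [eB]
        split_ifs
        · exact totalDegree_le_one_of _ (totalDegree_symHom _) _ (hB _ _)
        · simp
  -- the permutations
  obtain ⟨σ, hσ⟩ : ∃ σ : G → Equiv.Perm (Option (S × Fin n)), σ = fun h =>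
      Equiv.optionCongr (Equiv.prodCongr (Equiv.refl S)
        (e₀.trans ((Equiv.mulRight h).trans e₀.symm))) := ⟨_, rfl⟩
  have hmap : ∀ h : G, M₀.map (symHom h.1.val) = M₀.submatrix (σ h) (σ h) := by
    intro h
    have hsn : σ h none = none := by rw [hσ]; rfl
    have hss : ∀ a : S × Fin n, σ h (some a) = some (a.1, e₀.symm (e₀ a.2 * h)) := fun a => by
      rw [hσ]; rfl
    have hinj : ∀ g g' : Fin n, e₀.symm (e₀ g * h) = e₀.symm (e₀ g' * h) → g = g' :=
      fun g g' h2 => e₀.injective (mul_right_cancel (e₀.symm.injective h2))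
    ext1 i j
    rw [Matrix.map_apply, Matrix.submatrix_apply]
    rcases i with _ | ⟨s, g⟩ <;> rcases j with _ | ⟨t, g'⟩
    · rw [hsn, hM₀]
      show symHom h.1.val 0 = 0
      rw [map_zero]
    · rw [hsn, hss, hM₀]
      show symHom h.1.val (- C (F t / (n : K))) = - C (F t / (n : K))
      rw [map_neg, hcc]
    · rw [hsn, hss, hM₀]
      show symHom h.1.val (C (E s)) = C (E s)
      rw [hcc]
    · rw [hss, hss, hM₀]
      show symHom h.1.val ((if ((s, g) : S × Fin n) = (t, g') then 1 else 0) -
        B' (s, g) (t, g')) =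
        (if ((s, e₀.symm (e₀ g * h)) : S × Fin n) = (t, e₀.symm (e₀ g' * h)) then 1 else 0) -
          B' (s, e₀.symm (e₀ g * h)) (t, e₀.symm (e₀ g' * h))
      rw [map_sub, eB, eB]
      congr 1
      · by_cases h1 : ((s, g) : S × Fin n) = (t, g')
        · rw [if_pos h1, map_one, if_pos]
          rw [Prod.mk.injEq] at h1 ⊢
          exact ⟨h1.1, by rw [h1.2]⟩
        · rw [if_neg h1, map_zero, if_neg]
          intro h2
          rw [Prod.mk.injEq] at h2
          exact h1 (Prod.ext h2.1 (hinj _ _ h2.2))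
      · by_cases h1 : g = g'
        · subst h1
          rw [if_pos rfl, if_pos rfl]
          have h3 := (hC K L).1 (e₀ g).1.val h.1.val (hdet _) (hdet _) (B s t)
          rw [h3]
          show symHom ((e₀ g).1.val * h.1.val) (B s t) =
            symHom (e₀ (e₀.symm (e₀ g * h))).1.val (B s t)
          rw [Equiv.apply_symm_apply]
          rfl
        · rw [if_neg (show ¬ ((s, g) : S × Fin n).2 = ((t, g') : S × Fin n).2 from h1), map_zero,
            if_neg]
          intro h2
          exact h1 (hinj _ _ h2)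
  -- numbering
  have hc2 : Fintype.card (Option (S × Fin n)) = Fintype.card S * n + 1 := by
    rw [Fintype.card_option, Fintype.card_prod, Fintype.card_fin]
  obtain ⟨e⟩ : Nonempty (Option (S × Fin n) ≃ Fin (Fintype.card S * n + 1)) :=
    ⟨Fintype.equivFinOfCardEq hc2⟩
  refine ⟨Matrix.reindex e e M₀, ⟨fun i j => hdeg _ _, ?_⟩, fun g hg => ?_⟩
  · rw [Matrix.det_reindex_self, hd]
  · refine fixedBySym_of_perm _ _ (e.symm.trans ((σ ⟨g, hg⟩).trans e)) ?_
    ext1 i j
    have h1 := congrFun (congrFun (hmap ⟨g, hg⟩) (e.symm i)) (e.symm j)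
    rw [Matrix.map_apply, Matrix.submatrix_apply] at h1
    rw [Matrix.map_apply, Matrix.submatrix_apply, Matrix.reindex_apply, Matrix.submatrix_apply,
      Matrix.submatrix_apply]
    simp only [Equiv.trans_apply, Equiv.symm_apply_apply]
    exact h1

end Pool.EQD
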