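import Pool.Agent.H79.EQD.Defs4

/-!
# Separation by roots of unity of different prime orders
-/

set_option autoImplicit false

namespace Pool.EQD

universe v

/-- The order of a product of roots of unity of different prime orders. -/
theorem relationI {G : Type v} [CommGroup G] {ι : Type} [Fintype ι] (p : ι → ℕ) (ζ : ι → G)
    (z : ι → ℤ) (hp : ∀ j, (p j).Prime) (hinj : Function.Injective p)
    (hζ : ∀ j, orderOf (ζ j) = p j) (h : ∏ j, ζ j ^ z j = 1) (j : ι) : (p j : ℤ) ∣ z j := by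
  classical
  obtain ⟨M, hM⟩ : ∃ M : ℕ, M = ∏ i ∈ Finset.univ.erase j, p i := ⟨_, rfl⟩
  have h1 : (∏ i, ζ i ^ z i) ^ M = ζ j ^ (z j * M) := by
    rw [← Finset.mul_prod_erase Finset.univ (fun i => ζ i ^ z i) (Finset.mem_univ j), mul_pow,
      ← Finset.prod_pow, Finset.prod_eq_one, mul_one, zpow_mul, zpow_natCast]
    intro i hi
    have hd : p i ∣ M := by
      rw [hM]
      exact Finset.dvd_prod_of_mem p hi
    obtain ⟨c, hc⟩ := hd
    have h2 : (ζ i ^ z i) ^ p i = 1 := by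
      rw [← zpow_natCast, zpow_comm, zpow_natCast, ← hζ i, pow_orderOf_eq_one, one_zpow]
    rw [hc, pow_mul, h2, one_pow]
  rw [h, one_pow] at h1
  have h2 : (p j : ℤ) ∣ z j * M := by
    rw [← hζ j]
    exact orderOf_dvd_iff_zpow_eq_one.2 h1.symm
  have hco : IsCoprime (p j : ℤ) (M : ℤ) := by
    rw [Nat.isCoprime_iff_coprime, hM]
    apply Nat.Coprime.prod_right
    intro i hi
    exact (Nat.coprime_primes (hp j) (hp i)).2
      (fun hh => (Finset.ne_of_mem_erase hi) (hinj hh).symm)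
  exact hco.dvd_of_dvd_mul_right h2

theorem t_spr : SPRStmt.{v} := by
  intro Γ _ ι _ p ζ k hp hinj hζ s s' a a' hs hs' heq c
  have e1 : ∀ (s : ι → ℤ) (a : ι → Fin k), Additive.toMul (∑ c, s c • ((2 : ℤ) •
      Additive.ofMul (ζ c ^ ((a c : ℕ) + 1)))) = ∏ c, ζ c ^ (s c * (2 * ((a c : ℕ) + 1))) := by
    intro s a
    rw [toMul_sum]
    refine Finset.prod_congr rfl fun c _ => ?_
    rw [toMul_zsmul, toMul_zsmul, toMul_ofMul, ← zpow_natCast, ← zpow_mul, ← zpow_mul]
    congr 1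
    push_cast
    ring
  have h1 : ∏ c, ζ c ^ (s c * (2 * ((a c : ℕ) + 1)) - s' c * (2 * ((a' c : ℕ) + 1)) : ℤ) = 1 := by
    have h2 := congrArg Additive.toMul heq
    rw [e1, e1] at h2
    simp only [zpow_sub]
    rw [Finset.prod_mul_distrib, h2, ← Finset.prod_mul_distrib]
    exact Finset.prod_eq_one fun c _ => mul_inv_cancel _
  have h2 := relationI p ζ _ (fun c => (hp c).1) hinj hζ h1 c
  have h3 : (4 * k : ℤ) < p c := by exact_mod_cast (hp c).2
  have h4 : ((a c : ℕ) : ℤ) + 1 ≤ k := by exact_mod_cast (a c).2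
  have h5 : ((a' c : ℕ) : ℤ) + 1 ≤ k := by exact_mod_cast (a' c).2
  have h6 : (0 : ℤ) ≤ ((a c : ℕ) : ℤ) := Int.natCast_nonneg _
  have h7 : (0 : ℤ) ≤ ((a' c : ℕ) : ℤ) := Int.natCast_nonneg _
  have h8 : s c * (2 * ((a c : ℕ) + 1)) - s' c * (2 * ((a' c : ℕ) + 1)) = (0 : ℤ) := by
    apply Int.eq_zero_of_abs_lt_dvd h2
    rcases hs c with h | h | h <;> rcases hs' c with h' | h' | h' <;> rw [h, h', abs_lt] <;>
      constructor <;> linarith
  have h9 : (a c : ℕ) = a' c → a c = a' c := fun h => Fin.ext h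
  rcases hs c with h | h | h <;> rcases hs' c with h' | h' | h' <;> rw [h, h'] at h8 ⊢
  · exact ⟨rfl, fun _ => h9 (by omega)⟩
  · exact absurd h8 (by omega)
  · exact absurd h8 (by omega)
  · exact absurd h8 (by omega)
  · exact ⟨rfl, fun h => absurd rfl h⟩
  · exact absurd h8 (by omega)
  · exact absurd h8 (by omega)
  · exact absurd h8 (by omega)
  · exact ⟨rfl, fun _ => h9 (by omega)⟩

end Pool.EQD
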