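import Pool.Agent.H79.EQD.Defs3

set_option autoImplicit false

namespace Pool.EQD

open MvPolynomial Pool.Agent.H80

universe u v w

section

variable {K : Type u} [Field K] {L : Type} [Fintype L] [DecidableEq L]

theorem symHom_inl (g : Matrix L L K) (i : L) :
    symHom g (X (Sum.inl i)) = ∑ a : L, C (g i a) * X (Sum.inl a) := by
  unfold symHom
  rw [aeval_X]

theorem symHom_inr (g : Matrix L L K) (i j k : L) :
    symHom g (X (Sum.inr (i, j, k))) = ∑ a : L, ∑ b : L, ∑ c : L,
        C (g i a * g⁻¹ b j * g⁻¹ c k) * X (Sum.inr (a, b, c)) := by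
  unfold symHom
  rw [aeval_X]

theorem symHom_C (g : Matrix L L K) (c : K) : symHom g (C c) = C c := by
  rw [algHom_C, algebraMap_eq]

omit [DecidableEq L] in
/-- a triple sum rearranged -/
theorem triple (P : L → K) (Q R : L → K) (g h h' : Matrix L L K) (a' b' c' : L) :
    ∑ a : L, ∑ b : L, ∑ c : L, (P a * Q b * R c) * (h a a' * g b' b * h' c' c) =
      (∑ a, P a * h a a') * (∑ b, g b' b * Q b) * (∑ c, h' c' c * R c) := by
  rw [Finset.sum_mul_sum, Finset.sum_mul]
  refine Finset.sum_congr rfl fun a _ => ?_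
  rw [Finset.sum_mul]
  refine Finset.sum_congr rfl fun b _ => ?_
  rw [Finset.mul_sum]
  refine Finset.sum_congr rfl fun c _ => ?_
  ring

theorem symHom_comp (g h : Matrix L L K) :
    (symHom h).comp (symHom g) = symHom (g * h) := by
  apply MvPolynomial.algHom_ext
  intro x
  rw [AlgHom.comp_apply]
  rcases x with i | ⟨i, j, k⟩
  · rw [symHom_inl, symHom_inl, map_sum]
    simp only [map_mul, symHom_C, symHom_inl]
    simp only [Matrix.mul_apply, Finset.mul_sum, map_sum, Finset.sum_mul, C_mul]
    rw [Finset.sum_comm]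
    refine Finset.sum_congr rfl fun a _ => Finset.sum_congr rfl fun b _ => ?_
    ring
  · rw [symHom_inr, symHom_inr]
    have h1 : ∀ a' b' c' : L, ((g * h) i a' * (g * h)⁻¹ b' j * (g * h)⁻¹ c' k) =
        ∑ a : L, ∑ b : L, ∑ c : L, (g i a * g⁻¹ b j * g⁻¹ c k) *
          (h a a' * h⁻¹ b' b * h⁻¹ c' c) := by
      intro a' b' c'
      rw [triple (fun a => g i a) (fun b => g⁻¹ b j) (fun c => g⁻¹ c k) h⁻¹ h h⁻¹,
        Matrix.mul_inv_rev, Matrix.mul_apply, Matrix.mul_apply, Matrix.mul_apply]
    simp only [h1, map_sum, map_mul, symHom_C, symHom_inr]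
    -- both sides are sums over six indices
    have h2 : ∀ F : L → L → L → L → L → L → MvPolynomial (TVar L) K,
        ∑ a, ∑ b, ∑ c, ∑ a', ∑ b', ∑ c', F a b c a' b' c' =
          ∑ a', ∑ b', ∑ c', ∑ a, ∑ b, ∑ c, F a b c a' b' c' := by
      intro F
      have h3 : ∑ x : L × L × L, ∑ y : L × L × L, F x.1 x.2.1 x.2.2 y.1 y.2.1 y.2.2 =
          ∑ y : L × L × L, ∑ x : L × L × L, F x.1 x.2.1 x.2.2 y.1 y.2.1 y.2.2 :=
        Finset.sum_comm
      simpa only [Fintype.sum_prod_type] using h3
    simp only [Finset.mul_sum, Finset.sum_mul]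
    rw [h2]
    refine Finset.sum_congr rfl fun a' _ => Finset.sum_congr rfl fun b' _ =>
      Finset.sum_congr rfl fun c' _ => Finset.sum_congr rfl fun a _ =>
      Finset.sum_congr rfl fun b _ => Finset.sum_congr rfl fun c _ => ?_
    ring

end

theorem t_syc : SYCStmt.{u} := by
  intro K _ L _ _
  refine ⟨fun g h _ _ p => ?_, fun t => ?_⟩
  · exact congrFun (congrArg DFunLike.coe (symHom_comp g h)) p
  · apply MvPolynomial.algHom_ext
    intro x
    have hinv : (Matrix.diagonal fun i => (t i : K))⁻¹ =
        Matrix.diagonal fun i => ((t i)⁻¹ : Kˣ).val := by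
      apply Matrix.inv_eq_right_inv
      rw [Matrix.diagonal_mul_diagonal]
      simp
    rcases x with i | ⟨i, j, k⟩
    · rw [symHom_inl]
      unfold scaleHom
      rw [aeval_X, Finset.sum_eq_single i]
      · simp [tw]
      · intro a _ ha
        rw [Matrix.diagonal_apply_ne _ (Ne.symm ha), C_0, zero_mul]
      · intro hi
        exact absurd (Finset.mem_univ i) hi
    · rw [symHom_inr, hinv]
      unfold scaleHom
      rw [aeval_X, Finset.sum_eq_single i, Finset.sum_eq_single j, Finset.sum_eq_single k]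
      · simp only [Matrix.diagonal_apply_eq]
        congr 2
      · intro c _ hc
        rw [Matrix.diagonal_apply_ne _ hc, mul_zero, C_0, zero_mul]
      · intro hi
        exact absurd (Finset.mem_univ _) hi
      · intro b _ hb
        refine Finset.sum_eq_zero fun c _ => ?_
        rw [Matrix.diagonal_apply_ne _ hb, mul_zero, zero_mul, C_0, zero_mul]
      · intro hi
        exact absurd (Finset.mem_univ _) hi
      · intro a _ ha
        refine Finset.sum_eq_zero fun b _ => Finset.sum_eq_zero fun c _ => ?_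
        rw [Matrix.diagonal_apply_ne _ (Ne.symm ha), zero_mul, zero_mul, C_0, zero_mul]
      · intro hi
        exact absurd (Finset.mem_univ _) hi

end Pool.EQD
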