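import Pool.Agent.H79.EQD.Pre

/-!
# The monomials of the complete trees in the tree polynomials (MP_f18ce0_lc): rows TRC, INJ
-/

set_option autoImplicit false

namespace Pool.EQD

open MvPolynomial Pool.Agent.H80

universe u v

section

variable {L : Type} {r : L} {h k : ℕ} {lab : List Bool → Fin k → L} {a : EdgeT h → Fin k}

/-- The labels of different nodes are different. -/
theorem ell_injOn (hl : LabInj h r lab) :
    Set.InjOn (ell r lab a) (nodes h : Set (List Bool)) := by
  intro v hv v' hv' he
  have hv1 : v.length ≤ h := mem_nodes.1 hv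
  have hv2 : v'.length ≤ h := mem_nodes.1 hv'
  unfold ell at he
  by_cases h1 : v ∈ edges h
  · rw [dif_pos h1] at he
    by_cases h2 : v' ∈ edges h
    · rw [dif_pos h2] at he
      exact (hl.1 v h1 v' h2 _ _ he).1
    · rw [dif_neg h2] at he
      exact absurd he (hl.2 v h1 _)
  · rw [dif_neg h1] at he
    by_cases h2 : v' ∈ edges h
    · rw [dif_pos h2] at he
      exact absurd he.symm (hl.2 v' h2 _)
    · have e1 : v = [] := by
        by_contra h3
        exact h1 (mem_edges.2 ⟨h3, hv1⟩)
      have e2 : v' = [] := by
        by_contra h3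
        exact h2 (mem_edges.2 ⟨h3, hv2⟩)
      rw [e1, e2]

end

theorem t_inj : INJStmt := by
  intro L r h k lab a hl v hv v' hv' he
  have hv1 : v.length ≤ h := mem_nodes.1 hv
  have hv2 : v'.length ≤ h := mem_nodes.1 hv'
  unfold tvar at he
  by_cases h1 : v.length < h
  · rw [if_pos h1] at he
    by_cases h2 : v'.length < h
    · rw [if_pos h2] at he
      have h3 := Sum.inr.inj he
      have h4 : ell r lab a v = ell r lab a v' := congrArg Prod.fst h3
      exact ell_injOn hl hv hv' h4
    · rw [if_neg h2] at he
      exact absurd he (by simp)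
  · rw [if_neg h1] at he
    by_cases h2 : v'.length < h
    · rw [if_pos h2] at he
      exact absurd he (by simp)
    · rw [if_neg h2] at he
      exact ell_injOn hl hv hv' (Sum.inl.inj he)

/-! ### Sums over the nodes -/

theorem sum_nodes_succ {M : Type v} [AddCommMonoid M] (d : ℕ) (f : List Bool → M) :
    ∑ w ∈ nodes (d + 1), f w = f [] + (∑ w ∈ nodes d, f (w ++ [false]) +
      ∑ w ∈ nodes d, f (w ++ [true])) := by
  classical
  rw [sum_nodes]
  congr 1
  have h1 : ∑ w ∈ nodes d, f (w ++ [false]) + ∑ w ∈ nodes d, f (w ++ [true]) =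
      ∑ x ∈ nodes d ×ˢ (Finset.univ : Finset Bool), f (x.1 ++ [x.2]) := by
    rw [Finset.sum_product, ← Finset.sum_add_distrib]
    refine Finset.sum_congr rfl fun w _ => ?_
    rw [Fintype.sum_bool, add_comm]
  rw [h1]
  symm
  refine Finset.sum_bij (fun x _ => x.1 ++ [x.2]) ?_ ?_ ?_ ?_
  · rintro ⟨w, b⟩ hx
    simp only [Finset.mem_product, mem_nodes, Finset.mem_univ, and_true] at hx
    rw [mem_edges]
    refine ⟨by simp, ?_⟩
    simp only [List.length_append, List.length_cons, List.length_nil]
    omega
  · rintro ⟨w, b⟩ _ ⟨w', b'⟩ _ he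
    obtain ⟨h3, h4⟩ := List.append_inj' he rfl
    exact Prod.ext h3 (List.cons.inj h4).1
  · intro c hc
    rw [mem_edges] at hc
    refine ⟨(c.dropLast, c.getLast hc.1), ?_, ?_⟩
    · simp only [Finset.mem_product, mem_nodes, Finset.mem_univ, and_true, List.length_dropLast]
      have := hc.2
      omega
    · exact List.dropLast_append_getLast hc.1
  · intro x _
    rfl

theorem sum_nodes_zero {M : Type v} [AddCommMonoid M] (f : List Bool → M) :
    ∑ w ∈ nodes 0, f w = f [] := by
  rw [sum_nodes]
  have h1 : edges 0 = ∅ := by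
    refine Finset.eq_empty_of_forall_notMem fun c hc => ?_
    rw [mem_edges] at hc
    have := hc.2
    exact hc.1 (List.length_eq_zero_iff.1 (by omega))
  rw [h1, Finset.sum_empty, add_zero]

/-- The monomial of the subtree of depth `d` at `v`. -/
noncomputable def sub {σ : Type} (e : List Bool → σ) (d : ℕ) (v : List Bool) : σ →₀ ℕ :=
  ∑ w ∈ nodes d, Finsupp.single (e (w ++ v)) 1

theorem sub_zero {σ : Type} (e : List Bool → σ) (v : List Bool) :
    sub e 0 v = Finsupp.single (e v) 1 := by
  unfold sub
  rw [sum_nodes_zero]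
  rfl

theorem sub_succ {σ : Type} (e : List Bool → σ) (d : ℕ) (v : List Bool) :
    sub e (d + 1) v = Finsupp.single (e v) 1 + (sub e d (false :: v) + sub e d (true :: v)) := by
  unfold sub
  rw [sum_nodes_succ]
  simp only [List.nil_append, List.append_assoc, List.singleton_append]

/-! ### Killing variables -/

section kill

variable {K : Type u} [CommSemiring K] {σ : Type} (E : Set σ)

open Classical in
/-- The substitution which kills the variables outside of `E`. -/
noncomputable def kill : MvPolynomial σ K →ₐ[K] MvPolynomial σ K :=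
  aeval (fun e => if e ∈ E then (X e : MvPolynomial σ K) else 0)

theorem kill_monomial_of_subset (m : σ →₀ ℕ) (c : K) (hm : (m.support : Set σ) ⊆ E) :
    kill E (monomial m c) = monomial m c := by
  unfold kill
  rw [aeval_monomial, monomial_eq]
  congr 1
  refine Finsupp.prod_congr fun e he => ?_
  rw [if_pos (hm he)]

theorem kill_monomial_of_not_subset (m : σ →₀ ℕ) (c : K) (hm : ¬ (m.support : Set σ) ⊆ E) :
    kill E (monomial m c) = 0 := by
  classical
  unfold kill
  rw [aeval_monomial]
  rw [Set.not_subset] at hm
  obtain ⟨e, he, he'⟩ := hm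
  have h1 : (m.prod fun i k => (if i ∈ E then (X i : MvPolynomial σ K) else 0) ^ k) = 0 := by
    unfold Finsupp.prod
    refine Finset.prod_eq_zero he ?_
    beta_reduce
    rw [if_neg he']
    exact zero_pow (Finsupp.mem_support_iff.1 he)
  rw [h1, mul_zero]

theorem coeff_kill (p : MvPolynomial σ K) (μ : σ →₀ ℕ) (hμ : (μ.support : Set σ) ⊆ E) :
    coeff μ (kill E p) = coeff μ p := by
  classical
  induction p using MvPolynomial.induction_on' with
  | monomial m c =>
    by_cases hm : (m.support : Set σ) ⊆ E
    · rw [kill_monomial_of_subset E m c hm]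
    · rw [kill_monomial_of_not_subset E m c hm, coeff_zero, coeff_monomial, if_neg]
      rintro rfl
      exact hm hμ
  | add p q hp hq => rw [map_add, coeff_add, coeff_add, hp, hq]

end kill

/-! ### The complete tree in the killed system -/

section

variable {K : Type u} [CommSemiring K] {L : Type} [Fintype L] {r : L} {h k : ℕ}
  {lab : List Bool → Fin k → L} {a : EdgeT h → Fin k}

/-- The variables which are kept. -/
def kept {L : Type} (h : ℕ) (ℓ : List Bool → L) : Set (TVar L) := {e | ∃ v ∈ nodes h, tvar h ℓ v = e}

theorem inl_kept {ℓ : List Bool → L} (hℓ : Set.InjOn ℓ (nodes h : Set (List Bool)))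
    {v : List Bool} (hv : v ∈ nodes h) :
    (Sum.inl (ℓ v) : TVar L) ∈ kept h ℓ ↔ v.length = h := by
  have hv1 := mem_nodes.1 hv
  constructor
  · rintro ⟨w, hw, he⟩
    have hw1 := mem_nodes.1 hw
    unfold tvar at he
    by_cases h1 : w.length < h
    · rw [if_pos h1] at he
      exact absurd he (by simp)
    · rw [if_neg h1] at he
      have h2 : w = v := hℓ hw hv (Sum.inl.inj he)
      rw [← h2]
      omega
  · intro h1
    refine ⟨v, hv, ?_⟩
    unfold tvar
    rw [if_neg (by omega)]

theorem inr_kept {ℓ : List Bool → L} (hℓ : Set.InjOn ℓ (nodes h : Set (List Bool)))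
    {v : List Bool} (hv : v ∈ nodes h) (j k' : L) :
    (Sum.inr (ℓ v, j, k') : TVar L) ∈ kept h ℓ ↔
      v.length < h ∧ j = ℓ (false :: v) ∧ k' = ℓ (true :: v) := by
  constructor
  · rintro ⟨w, hw, he⟩
    unfold tvar at he
    by_cases h1 : w.length < h
    · rw [if_pos h1] at he
      have h3 := Sum.inr.inj he
      have h4 : ℓ w = ℓ v := congrArg Prod.fst h3
      have h5 : ℓ (false :: w) = j := congrArg (fun t => t.2.1) h3
      have h6 : ℓ (true :: w) = k' := congrArg (fun t => t.2.2) h3
      have h2 : w = v := hℓ hw hv h4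
      subst h2
      exact ⟨h1, h5.symm, h6.symm⟩
    · rw [if_neg h1] at he
      exact absurd he (by simp)
  · rintro ⟨h1, rfl, rfl⟩
    refine ⟨v, hv, ?_⟩
    unfold tvar
    rw [if_pos h1]

open Classical in
/-- The leaf values. -/
noncomputable def lfE (K : Type u) [CommSemiring K] {L : Type} (E : Set (TVar L)) (i : L) :
    MvPolynomial (TVar L) K :=
  if (Sum.inl i : TVar L) ∈ E then X (Sum.inl i) else 0

open Classical in
/-- The coefficient values. -/
noncomputable def cfE (K : Type u) [CommSemiring K] {L : Type} (E : Set (TVar L)) (i j k : L) :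
    MvPolynomial (TVar L) K :=
  if (Sum.inr (i, j, k) : TVar L) ∈ E then X (Sum.inr (i, j, k)) else 0

theorem kill_tp (E : Set (TVar L)) (m : ℕ) (i : L) :
    kill E (tp K L m i) = tval (lfE K E) (cfE K E) m i := by
  classical
  rw [← aeval_tp (K := K)]
  unfold kill
  congr 2
  funext e
  rcases e with i | ⟨i, j, k⟩
  · rfl
  · rfl

theorem tval_tree {ℓ : List Bool → L} (hℓ : Set.InjOn ℓ (nodes h : Set (List Bool))) :
    ∀ (d m : ℕ) (v : List Bool), v.length + d = h →
      tval (lfE K (kept h ℓ)) (cfE K (kept h ℓ)) m (ℓ v) =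
        if m = 2 ^ d then monomial (sub (tvar h ℓ) d v) 1 else 0 := by
  classical
  intro d
  induction d with
  | zero =>
    intro m v hv
    have hvn : v ∈ nodes h := mem_nodes.2 (by omega)
    match m with
    | 0 =>
      rw [tval, if_neg (by simp)]
    | 1 =>
      rw [tval, if_pos (by simp), sub_zero]
      beta_reduce
      unfold lfE
      rw [if_pos ((inl_kept hℓ hvn).2 (by omega))]
      have h1 : tvar h ℓ v = Sum.inl (ℓ v) := by
        unfold tvar
        rw [if_neg (by omega)]
      rw [h1]
      rfl
    | (m + 2) =>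
      rw [tval, if_neg (by simp)]
      beta_reduce
      refine Finset.sum_eq_zero fun j _ => Finset.sum_eq_zero fun k' _ => ?_
      rw [cfE, if_neg, zero_mul]
      intro h1
      have := ((inr_kept hℓ hvn j k').1 h1).1
      omega
  | succ d ih =>
    intro m v hv
    have hvn : v ∈ nodes h := mem_nodes.2 (by omega)
    have hp : 0 < 2 ^ d := by positivity
    match m with
    | 0 =>
      rw [tval, if_neg (by rw [pow_succ]; omega)]
    | 1 =>
      rw [tval, if_neg (by rw [pow_succ]; omega)]
      beta_reduce
      unfold lfE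
      rw [if_neg]
      intro h1
      have := (inl_kept hℓ hvn).1 h1
      omega
    | (m + 2) =>
      rw [tval]
      beta_reduce
      rw [Finset.sum_eq_single (ℓ (false :: v))]
      rotate_left
      · intro j _ hj
        refine Finset.sum_eq_zero fun k' _ => ?_
        rw [cfE, if_neg, zero_mul]
        intro h1
        exact hj ((inr_kept hℓ hvn j k').1 h1).2.1
      · intro h1
        exact absurd (Finset.mem_univ _) h1
      rw [Finset.sum_eq_single (ℓ (true :: v))]
      rotate_left
      · intro k' _ hk
        rw [cfE, if_neg, zero_mul]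
        intro h1
        exact hk ((inr_kept hℓ hvn _ k').1 h1).2.2
      · intro h1
        exact absurd (Finset.mem_univ _) h1
      rw [cfE, if_pos ((inr_kept hℓ hvn _ _).2 ⟨by omega, rfl, rfl⟩)]
      have hf : ∀ m', tval (lfE K (kept h ℓ)) (cfE K (kept h ℓ)) m' (ℓ (false :: v)) =
          if m' = 2 ^ d then monomial (sub (tvar h ℓ) d (false :: v)) 1 else 0 := fun m' =>
        ih m' (false :: v) (by simp only [List.length_cons]; omega)
      have ht : ∀ m', tval (lfE K (kept h ℓ)) (cfE K (kept h ℓ)) m' (ℓ (true :: v)) =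
          if m' = 2 ^ d then monomial (sub (tvar h ℓ) d (true :: v)) 1 else 0 := fun m' =>
        ih m' (true :: v) (by simp only [List.length_cons]; omega)
      simp only [hf, ht]
      have h1 : tvar h ℓ v = Sum.inr (ℓ v, ℓ (false :: v), ℓ (true :: v)) := by
        unfold tvar
        rw [if_pos (by omega)]
      by_cases hm : m + 2 = 2 ^ (d + 1)
      · rw [if_pos hm]
        rw [pow_succ] at hm
        rw [Finset.sum_eq_single (⟨2 ^ d - 1, by omega⟩ : Fin (m + 1))]
        · rw [if_pos (by simp only []; omega), if_pos (by simp only []; omega), sub_succ, h1,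
            monomial_mul]
          rw [X, monomial_mul]
          simp
        · intro b _ hb
          rw [if_neg, zero_mul]
          intro h2
          apply hb
          apply Fin.ext
          simp only []
          omega
        · intro h2
          exact absurd (Finset.mem_univ _) h2
      · rw [if_neg hm, Finset.sum_eq_zero, mul_zero]
        intro b _
        rw [pow_succ] at hm
        by_cases h2 : b.1 + 1 = 2 ^ d
        · rw [if_neg (show ¬ (m + 1 - b.1 = 2 ^ d) by have := b.2; omega), mul_zero]
        · rw [if_neg h2, zero_mul]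

end

theorem t_trc : TRCStmt.{u} := by
  classical
  intro K _ L _ r h k N lab a hl hN
  set ℓ := ell r lab a with hℓ
  have hinj : Set.InjOn ℓ (nodes h : Set (List Bool)) := ell_injOn hl
  have h0 : ℓ [] = r := by
    rw [hℓ]
    unfold ell
    rw [dif_neg]
    intro h1
    exact (mem_edges.1 h1).1 rfl
  have hmon : tmon h ℓ = sub (tvar h ℓ) h [] := by
    unfold tmon sub
    simp only [List.append_nil]
  have hsup : ((tmon h ℓ).support : Set (TVar L)) ⊆ kept h ℓ := by
    intro e he
    have h1 : e ∈ (tmon h ℓ).support := he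
    unfold tmon at h1
    have h2 := Finsupp.support_finsetSum h1
    rw [Finset.mem_biUnion] at h2
    obtain ⟨v, hv, h3⟩ := h2
    have h4 := Finsupp.support_single_subset h3
    rw [Finset.mem_singleton] at h4
    exact ⟨v, hv, h4.symm⟩
  rw [← coeff_kill (kept h ℓ) _ _ hsup]
  unfold Pool.Agent.H80.tsum
  rw [map_sum, coeff_sum]
  rw [Finset.sum_eq_single (2 ^ h)]
  · rw [kill_tp, ← h0, tval_tree hinj h (2 ^ h) [] (by simp), if_pos rfl, hmon, coeff_monomial,
      if_pos rfl]
  · intro m _ hm
    rw [kill_tp, ← h0, tval_tree hinj h m [] (by simp), if_neg hm, coeff_zero]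
  · intro h1
    exact absurd (Finset.mem_range.2 (by omega)) h1

end Pool.EQD
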