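import Pool.Agent.H79.EQD.Defs

/-!
# Further statements: symmetric determinantal representations, upper bounds
-/

set_option autoImplicit false

namespace Pool.EQD

open MvPolynomial Pool.Agent.H80

universe u v w

/-- The diagonal symmetry of the tree polynomial given by a scaling `t` of the labels: `x_i` is
multiplied by `t i`, and `x_{i,j,k}` by `t i / (t j * t k)`. -/
def tscale {K : Type u} [Field K] {n : ℕ} (t : Fin (n + 1) → Kˣ) (x : Fin (nvar n)) : K :=
  match (tvarEquiv (n + 1)).symm x with
  | Sum.inl i => t i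
  | Sum.inr (i, j, k) => (t i : K) / (t j * t k)

/-- The substitution `x ↦ s x * x` of each variable by a scalar multiple of itself. -/
noncomputable def scaleHom {K : Type u} [CommSemiring K] {σ : Type} (s : σ → K) :
    MvPolynomial σ K →ₐ[K] MvPolynomial σ K :=
  aeval fun x => C (s x) * X x

/-- The matrix `M` is fixed, up to the standard equivalences `M ↦ g M h` and `M ↦ g Mᵀ h` with
constant invertible matrices `g`, `h`, by the scaling `s` of the variables. -/
def FixedBy {K : Type u} [Field K] {σ : Type} {m : ℕ} (s : σ → K)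
    (M : Matrix (Fin m) (Fin m) (MvPolynomial σ K)) : Prop :=
  ∃ g h : Matrix (Fin m) (Fin m) K, IsUnit g.det ∧ IsUnit h.det ∧
    (M.map (scaleHom s) = g.map C * M * h.map C ∨
      M.map (scaleHom s) = g.map C * M.transpose * h.map C)

/-- A determinantal representation of `f` of size `m`. -/
def DetRep {K : Type u} [CommRing K] {σ : Type} {m : ℕ}
    (M : Matrix (Fin m) (Fin m) (MvPolynomial σ K)) (f : MvPolynomial σ K) : Prop :=
  (∀ i j, (M i j).totalDegree ≤ 1) ∧ M.det = f

/-- LAB: labels. -/
def LABStmt : Prop := ∀ (L : Type) (r : L) (S : Finset L) (h k : ℕ), r ∉ S →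
  (edges h).card * k ≤ S.card →
  ∃ lab : List Bool → Fin k → L, LabInj h r lab ∧ ∀ c ∈ edges h, ∀ a, lab c a ∈ S

/-- HUB: homogeneous weakly skew circuits of quasipolynomial size, for all gradings. -/
def HUBStmt : Prop := ∃ c : ℕ, ∀ (K : Type u) [CommSemiring K] (n : ℕ) (G : Type v)
  [AddCommGroup G] (u : Fin (n + 1) → G), ∃ D : Circuit K (Fin (nvar n)), D.WeaklySkew ∧
    HomComputes (treeWeight u) D (treePoly K n) ∧ D.size ≤ (n + 2) ^ (c * Nat.log 2 (n + 2))

/-- EUB: determinantal representations of quasipolynomial size which are fixed by the whole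
torus. -/
def EUBStmt : Prop := ∃ c : ℕ, ∀ (K : Type u) [Field K] (n : ℕ),
  ∃ (m : ℕ) (M : Matrix (Fin m) (Fin m) (MvPolynomial (Fin (nvar n)) K)),
    DetRep M (treePoly K n) ∧ m ≤ (n + 2) ^ (c * Nat.log 2 (n + 2)) ∧
    ∀ t : Fin (n + 1) → Kˣ, t 0 = 1 → FixedBy (tscale t) M

end Pool.EQD
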