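import Pool.Agent.H79.EQD.Defs

/-!
# Homogeneous skew programs give homogeneous weakly skew circuits (board `vgr`, row LSH)
-/

set_option autoImplicit false

namespace Pool.EQD

open MvPolynomial Pool.Agent.H80

universe u v w

section

variable {K : Type u} [CommSemiring K] {σ : Type}

/-- `LSLP.exists_pre` with an invariant `P` of the values of the nodes. -/
theorem exists_preP (P : MvPolynomial σ K → Prop) (hX : ∀ i, P (X i)) (hC : ∀ c, P (C c))
    {l : List (MvPolynomial σ K)} (h : LSLP l) : (∀ p ∈ l, P p) →
    ∃ (D : Pre K σ) (val : D.V → MvPolynomial σ K) (O : D.V → Prop), D.IsVal val ∧ D.Inv O ∧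
      @Fintype.card D.V D.fin + 1 ≤ 2 * l.length ∧ (∀ p ∈ l, ∃ v, O v ∧ val v = p) ∧
      ∀ v, P (val v) := by
  induction h with
  | one =>
    intro hl
    refine ⟨(Pre.empty K σ).addNode (Gate.const 1), Pre.addVal _ _ (fun v => v.elim),
      Pre.extSet (fun _ => True) True, ?_, ?_, ?_, ?_, ?_⟩
    · exact Pre.addNode_isVal _ _ _ (fun v => v.elim)
    · refine Pre.inv_addNode_of_not_mul (Pre.empty K σ) (fun _ => True)
        (fun g => Empty.elim g) (Gate.const 1) (by simp) ?_ True
      intro k t hk
      simp [Gate.tail] at hk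
    · rw [Pre.addNode_card]
      rfl
    · intro p hp
      simp only [List.mem_singleton] at hp
      subst hp
      exact ⟨none, trivial, C_1⟩
    · intro v
      cases v with
      | none => exact hC 1
      | some v => exact v.elim
  | cons h hp ih =>
    rename_i l p
    intro hl
    obtain ⟨D, val, O, hval, hinv, hcard, hmem, hPv⟩ :=
      ih (fun q hq => hl q (List.mem_cons_of_mem _ hq))
    have hPp : P p := hl p List.mem_cons_self
    have keymul : ∀ (g₀ : Gate K σ D.V) (hg₀ : ∀ k, g₀.tail k = none) (q : MvPolynomial σ K),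
        q ∈ l → P (g₀.value val) → P (q * g₀.value val) →
        ∃ (D' : Pre K σ) (val' : D'.V → MvPolynomial σ K) (O' : D'.V → Prop),
        D'.IsVal val' ∧ D'.Inv O' ∧ @Fintype.card D'.V D'.fin + 1 ≤
          2 * (q * g₀.value val :: l).length ∧
        (∀ p ∈ (q * g₀.value val :: l), ∃ v, O' v ∧ val' v = p) ∧ ∀ v, P (val' v) := by
      intro g₀ hg₀ q hq hPg hPq
      obtain ⟨a, haO, rfl⟩ := hmem q hq
      refine ⟨_, Pre.addVal (D.addNode g₀) (Gate.mul (some a) none) (Pre.addVal D g₀ val), _,
        Pre.addNode_isVal _ _ _ (Pre.addNode_isVal _ _ _ hval),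
        D.inv_addMul O hinv g₀ hg₀ a haO, ?_, ?_, ?_⟩
      · rw [Pre.addNode_card, Pre.addNode_card, List.length_cons]
        omega
      · intro p hp
        rcases List.mem_cons.1 hp with rfl | hp
        · exact ⟨none, trivial, rfl⟩
        · obtain ⟨v, hvO, hv⟩ := hmem p hp
          exact ⟨some (some v), hvO, hv⟩
      · intro v
        cases v with
        | none => exact hPq
        | some v =>
          cases v with
          | none => exact hPg
          | some v => exact hPv v
    cases hp with
    | mulVar hq i => exact keymul (Gate.var i) (fun _ => rfl) _ hq (hX i) hPp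
    | mulConst hq c => exact keymul (Gate.const c) (fun _ => rfl) _ hq (hC c) hPp
    | add ha hb =>
      obtain ⟨a, haO, rfl⟩ := hmem _ ha
      obtain ⟨b, hbO, rfl⟩ := hmem _ hb
      refine ⟨D.addNode (Gate.add a b), Pre.addVal D _ val, Pre.extSet O True,
        Pre.addNode_isVal _ _ _ hval, ?_, ?_, ?_, ?_⟩
      · refine D.inv_addNode_of_not_mul O hinv _ (by simp) ?_ True
        intro k t hk
        simp only [Gate.tail, Option.some.injEq] at hk
        split_ifs at hk
        · exact hk ▸ haO
        · exact hk ▸ hbO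
      · rw [Pre.addNode_card, List.length_cons]
        omega
      · intro p hp
        rcases List.mem_cons.1 hp with rfl | hp
        · exact ⟨none, trivial, rfl⟩
        · obtain ⟨v, hvO, hv⟩ := hmem p hp
          exact ⟨some v, hvO, hv⟩
      · intro v
        cases v with
        | none => exact hPp
        | some v => exact hPv v

end

/-- LSH: homogeneous skew programs give homogeneous weakly skew circuits. -/
theorem t_lsh : LSHStmt.{u, v} := by
  intro K _ σ G _ w l f hl hhom hf
  obtain ⟨D, val, O, hval, hinv, hcard, hmem, hPv⟩ := exists_preP (fun p => Hom w p)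
    (fun i => ⟨w i, isWeightedHomogeneous_X K w i⟩)
    (fun c => ⟨0, isWeightedHomogeneous_C w c⟩) hl hhom
  obtain ⟨v, _, rfl⟩ := hmem f hf
  refine ⟨D.prune v, (Circuit.Skew.weaklySkew (D.prune_skew v hinv.skew)), ?_, ?_⟩
  · refine ⟨fun x => val x.1, ?_, rfl, fun x => hPv x.1⟩
    intro x
    exact (hval x.1).trans (Pre.restrictGate_value _ _ _ _).symm
  · have := D.prune_size_le v
    omega

end Pool.EQD
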