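import Pool.Agent.H79.EQD.Defs3

/-!
# Adapted bases
-/

set_option autoImplicit false

namespace Pool.EQD

open Matrix

universe u

theorem t_adb : ADBStmt.{u} := by
  classical
  intro K _ L _ _ r g b t S hg hb hS
  obtain ⟨hbu, hgb⟩ := hb
  -- the row `r`
  have h1 : ∀ i, b r i = b r i * (t i : K) := by
    intro i
    have h2 := congrFun (congrFun hgb r) i
    rw [Matrix.mul_apply, Matrix.mul_diagonal] at h2
    rw [← h2, Finset.sum_eq_single r]
    · rw [hg r, if_pos rfl, one_mul]
    · intro a _ ha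
      rw [hg a, if_neg ha, zero_mul]
    · intro h
      exact absurd (Finset.mem_univ _) h
  obtain ⟨i₀, hi₀⟩ : ∃ i₀, b r i₀ ≠ 0 := by
    by_contra hcon
    push Not at hcon
    exact hbu.ne_zero (Matrix.det_eq_zero_of_row_eq_zero r hcon)
  have ht : ∀ i, b r i ≠ 0 → (t i : K) = 1 := by
    intro i hi
    have h2 := h1 i
    have h3 : b r i * ((t i : K) - 1) = 0 := by rw [mul_sub, mul_one, ← h2, sub_self]
    rcases mul_eq_zero.1 h3 with h4 | h4
    · exact absurd h4 hi
    · exact sub_eq_zero.1 h4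
  have ht0 := ht i₀ hi₀
  obtain ⟨b₁, hb₁⟩ : ∃ b₁ : Matrix L L K, b₁ = Matrix.of fun a i =>
    if i = i₀ then b a i₀ / b r i₀ else b a i - b r i / b r i₀ * b a i₀ := ⟨_, rfl⟩
  have e1 : ∀ a, b₁ a i₀ = b a i₀ / b r i₀ := fun a => by rw [hb₁]; simp
  have e2 : ∀ a i, i ≠ i₀ → b₁ a i = b a i - b r i / b r i₀ * b a i₀ := fun a i hi => by
    rw [hb₁]
    simp [hi]
  -- invertibility
  have hU : b = b₁ * (1 : Matrix L L K).updateRow i₀ (b r) := by
    ext a i
    rw [Matrix.mul_apply, ← Finset.add_sum_erase _ _ (Finset.mem_univ i₀),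
      Matrix.updateRow_self, e1]
    by_cases hi : i = i₀
    · subst hi
      rw [Finset.sum_eq_zero, add_zero, div_mul_cancel₀ _ hi₀]
      intro c hc
      rw [Matrix.updateRow_ne (Finset.mem_erase.1 hc).1, Matrix.one_apply_ne
        (Finset.mem_erase.1 hc).1, mul_zero]
    · rw [Finset.sum_eq_single i]
      · rw [Matrix.updateRow_ne hi, Matrix.one_apply_eq, mul_one, e2 a i hi]
        field_simp
        ring
      · intro c hc hci
        rw [Matrix.updateRow_ne (Finset.mem_erase.1 hc).1, Matrix.one_apply_ne hci, mul_zero]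
      · intro h
        exact absurd (Finset.mem_erase.2 ⟨hi, Finset.mem_univ _⟩) h
  have hb₁u : IsUnit b₁.det := by
    rw [hU, Matrix.det_mul] at hbu
    exact isUnit_of_mul_isUnit_left hbu
  -- the columns are eigenvectors
  have hcol : ∀ a i, (g * b) a i = b a i * (t i : K) := fun a i => by
    rw [hgb, Matrix.mul_diagonal]
  have hcol₁ : ∀ a i, (g * b₁) a i = b₁ a i * (t i : K) := by
    intro a i
    have h3 := hcol a i₀
    rw [Matrix.mul_apply, ht0, mul_one] at h3
    by_cases hi : i = i₀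
    · subst hi
      rw [Matrix.mul_apply, ht0, mul_one, e1]
      rw [show ∑ j, g a j * b₁ j i = (∑ j, g a j * b j i) / b r i by
        rw [Finset.sum_div]
        exact Finset.sum_congr rfl fun j _ => by rw [e1, mul_div_assoc]]
      rw [h3]
    · have h4 := hcol a i
      rw [Matrix.mul_apply] at h4
      rw [Matrix.mul_apply, e2 a i hi]
      rw [show ∑ j, g a j * b₁ j i = (∑ j, g a j * b j i) - b r i / b r i₀ *
          (∑ j, g a j * b j i₀) by
        rw [Finset.mul_sum, ← Finset.sum_sub_distrib]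
        exact Finset.sum_congr rfl fun j _ => by rw [e2 j i hi]; ring]
      rw [h3, h4]
      by_cases hr : b r i = 0
      · rw [hr]
        ring
      · rw [ht i hr]
        ring
  obtain ⟨σ, hσ⟩ : ∃ σ : Equiv.Perm L, σ = Equiv.swap r i₀ := ⟨_, rfl⟩
  have hσσ : ∀ i, σ (σ i) = i := fun i => by rw [hσ]; exact Equiv.swap_apply_self _ _ _
  have hσr : σ r = i₀ := by rw [hσ]; exact Equiv.swap_apply_left _ _
  refine ⟨b₁.submatrix id σ, fun i => t (σ i), S.image σ, fun a => ?_, ⟨?_, ?_⟩, ?_, ?_, ?_⟩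
  · rw [Matrix.submatrix_apply, id]
    by_cases ha : a = r
    · rw [if_pos ha, ha, hσr, e1, div_self hi₀]
    · rw [if_neg ha, e2 r (σ a) (fun h => ha (by
        rw [← hσσ a, h, ← hσr, hσσ]))]
      field_simp
      ring
  · rw [Matrix.det_permute']
    refine IsUnit.mul ?_ hb₁u
    rcases Int.units_eq_one_or (Equiv.Perm.sign σ) with h | h <;> rw [h] <;> simp
  · ext a i
    rw [Matrix.mul_diagonal, Matrix.submatrix_apply, id, ← hcol₁ a (σ i), Matrix.mul_apply,
      Matrix.mul_apply]
    rfl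
  · show t (σ r) = 1
    rw [hσr]
    exact Units.ext ht0
  · intro z hz1 hz2 hz3
    have h5 : (fun i => z (σ i)) = 0 := by
      refine hS _ (fun i hi => hz1 _ fun h => hi ?_) (fun i => hz2 _) ?_
      · obtain ⟨c, hc, h6⟩ := Finset.mem_image.1 h
        rwa [← σ.injective h6]
      · rw [← hz3, ← Equiv.prod_comp σ]
        exact Finset.prod_congr rfl fun i _ => by rw [hσσ]
    funext i
    have h6 := congrFun h5 (σ i)
    simp only [hσσ] at h6
    exact h6
  · exact Finset.card_image_of_injective _ σ.injective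

end Pool.EQD
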