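import Pool.Agent.H79.EQD.Defs4

set_option autoImplicit false

namespace Pool.EQD

open PowerSeries

universe u

section bid

variable {R : Type u} [CommRing R] (A : ℕ → ℕ → R)

/-- `1 - t A_i`. -/
noncomputable def bkB (i : ℕ) : Matrix (Fin i) (Fin i) (PowerSeries R) :=
  Matrix.of fun a b => (if a = b then 1 else 0) - X * C (A a b)

/-- generating function of `bkF` -/
noncomputable def fF (i : ℕ) : PowerSeries R := PowerSeries.mk (bkF A i)

/-- generating function of `bkG` -/
noncomputable def gG (i : ℕ) (v : ℕ) : PowerSeries R :=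
  PowerSeries.mk fun d => bkG A i (bkF A i) d v

theorem gG_eq (i v : ℕ) : gG A i v = X * (fF A i * C (A i v) +
    ∑ v' ∈ Finset.range i, gG A i v' * C (A v' v)) := by
  ext d
  rcases d with _ | d
  · rw [coeff_zero_eq_constantCoeff, map_mul, constantCoeff_X, zero_mul,
      ← coeff_zero_eq_constantCoeff, gG, coeff_mk]
    rfl
  · rw [coeff_succ_X_mul, gG, coeff_mk, map_add, map_sum, coeff_mul_C, fF, coeff_mk, bkG]
    congr 1
    refine Finset.sum_congr rfl fun v' _ => ?_
    rw [coeff_mul_C, gG, coeff_mk]

theorem fF_succ (i : ℕ) : fF A (i + 1) = fF A i - X * (fF A i * C (A i i) +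
    ∑ v ∈ Finset.range i, gG A i v * C (A v i)) := by
  ext d
  rcases d with _ | d
  · rw [coeff_zero_eq_constantCoeff, map_sub, map_mul, constantCoeff_X, zero_mul, sub_zero,
      ← coeff_zero_eq_constantCoeff, fF, coeff_mk, fF, coeff_mk, bkF]
  · rw [map_sub, coeff_succ_X_mul, fF, coeff_mk, map_add, map_sum, coeff_mul_C, fF, coeff_mk,
      coeff_mk, bkF]
    rw [sub_sub]
    congr 2
    refine Finset.sum_congr rfl fun v' _ => ?_
    rw [coeff_mul_C, gG, coeff_mk]

theorem constantCoeff_fF (i : ℕ) : constantCoeff (fF A i) = 1 := by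
  induction i with
  | zero =>
    rw [← coeff_zero_eq_constantCoeff_apply, fF, coeff_mk]
    rfl
  | succ i ih =>
    rw [fF_succ, map_sub, map_mul, constantCoeff_X, zero_mul, sub_zero, ih]

theorem det_bkB (i : ℕ) : (bkB A i).det = fF A i := by
  induction i with
  | zero =>
    rw [Matrix.det_isEmpty]
    ext d
    rw [fF, coeff_mk, coeff_one]
    rfl
  | succ i ih =>
    have hu : IsUnit (bkB A i).det := by
      rw [ih, PowerSeries.isUnit_iff_constantCoeff, constantCoeff_fF]
      exact isUnit_one
    let r : Matrix (Fin 1) (Fin i) (PowerSeries R) := Matrix.of fun _ b => C (A i b)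
    let c : Matrix (Fin i) (Fin 1) (PowerSeries R) := Matrix.of fun a _ => C (A a i)
    let g : Matrix (Fin 1) (Fin i) (PowerSeries R) := Matrix.of fun _ b => gG A i b
    let d : Matrix (Fin 1) (Fin 1) (PowerSeries R) := Matrix.of fun _ _ => 1 - X * C (A i i)
    have h1 : (bkB A (i + 1)).submatrix finSumFinEquiv finSumFinEquiv =
        Matrix.fromBlocks (bkB A i) (-((X : PowerSeries R) • c)) (-((X : PowerSeries R) • r)) d := by
      ext1 a b
      rcases a with a | a <;> rcases b with b | b
      · simp [bkB, Matrix.fromBlocks, Fin.ext_iff]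
      · have ha : (a : ℕ) ≠ i := by have := a.2; omega
        simp [bkB, Matrix.fromBlocks, Fin.ext_iff, ha, c]
      · have ha : i ≠ (b : ℕ) := by have := b.2; omega
        simp [bkB, Matrix.fromBlocks, Fin.ext_iff, ha, r]
      · simp [bkB, Matrix.fromBlocks, Fin.ext_iff, d]
    have hg : g * bkB A i = (X : PowerSeries R) • fF A i • r := by
      ext1 a b
      rw [Matrix.mul_apply]
      simp only [bkB, Matrix.of_apply, g, r, Matrix.smul_apply, smul_eq_mul, mul_sub, mul_ite,
        mul_one, mul_zero, Finset.sum_sub_distrib, Finset.sum_ite_eq', Finset.mem_univ, if_true]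
      rw [gG_eq A i b, Finset.sum_range, mul_add, Finset.mul_sum]
      have h2 : ∀ x : Fin i, gG A i x * (X * C (A x b)) = X * (gG A i x * C (A x b)) :=
        fun x => by ring
      rw [Finset.sum_congr rfl fun x _ => h2 x]
      ring
    have hinv : Invertible (bkB A i) := Matrix.invertibleOfIsUnitDet _ hu
    have hg2 : g = ((X : PowerSeries R) • fF A i • r) * ⅟(bkB A i) := by
      rw [← hg, Matrix.mul_assoc, mul_invOf_self, Matrix.mul_one]
    rw [← Matrix.det_submatrix_equiv_self finSumFinEquiv, h1, Matrix.det_fromBlocks₁₁, ih,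
      Matrix.det_unique, fF_succ]
    have h3 : (d - -((X : PowerSeries R) • r) * ⅟(bkB A i) * -((X : PowerSeries R) • c)) =
        d - (X : PowerSeries R) • (X : PowerSeries R) • (r * ⅟(bkB A i) * c) := by
      simp only [Matrix.neg_mul, Matrix.mul_neg, Matrix.smul_mul, Matrix.mul_smul, smul_neg,
        neg_neg]
    have h4 : (X : PowerSeries R) • fF A i • (r * ⅟(bkB A i) * c) = g * c := by
      rw [hg2]
      simp only [Matrix.smul_mul]
    have h5 : X * (fF A i * (r * ⅟(bkB A i) * c) default default) =
        ∑ v : Fin i, gG A i v * C (A v i) := by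
      have h7 := congrFun (congrFun h4 default) default
      rw [Matrix.smul_apply, Matrix.smul_apply, smul_eq_mul, smul_eq_mul] at h7
      rw [h7, Matrix.mul_apply]
      rfl
    have h8 : d default default = 1 - X * C (A i i) := rfl
    rw [h3, Matrix.sub_apply, Matrix.smul_apply, Matrix.smul_apply, smul_eq_mul, smul_eq_mul,
      h8, Finset.sum_range, ← h5]
    ring

end bid

theorem t_bid : BIDStmt.{u} := by
  intro R _ m A
  rcases subsingleton_or_nontrivial R with hR | hR
  · exact Subsingleton.elim _ _
  have h1 := congrArg (coeff m) (det_bkB A m)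
  rw [fF, coeff_mk] at h1
  rw [← h1]
  set M : Matrix (Fin m) (Fin m) R := Matrix.of fun i j => A i j with hM
  have h2 : (bkB A m).det = ((M.charpolyRev : Polynomial R) : PowerSeries R) := by
    have h3 := RingHom.map_det (Polynomial.coeToPowerSeries.ringHom (R := R))
      (1 - (Polynomial.X : Polynomial R) • M.map Polynomial.C)
    rw [Matrix.charpolyRev]
    refine Eq.trans ?_ h3.symm
    congr 1
    ext1 a b
    simp only [bkB, Matrix.of_apply, hM, RingHom.mapMatrix_apply, Matrix.map_apply,
      Matrix.sub_apply, Matrix.smul_apply, Matrix.one_apply, smul_eq_mul,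
      Polynomial.coeToPowerSeries.ringHom_apply]
    split_ifs <;> (simp; exact mul_comm _ _)
  rw [h2, Polynomial.coeff_coe, ← Matrix.reverse_charpoly, Polynomial.coeff_reverse,
    Matrix.charpoly_natDegree_eq_dim, Fintype.card_fin, Polynomial.revAt_le le_rfl, Nat.sub_self,
    Matrix.det_eq_sign_charpoly_coeff, Fintype.card_fin]

end Pool.EQD
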