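import Pool.Agent.H80.Complete
import Pool.Agent.H80.Merge

/-!
# Circuits for the tree polynomials which respect a grading (MP_f18ce0_lc): interface

`treePoly K n` (in `Pool.Agent.H80.Tree`) is the VP-complete polynomial `T_n`.
-/

set_option autoImplicit false

namespace Pool.EQD

open MvPolynomial Pool.Agent.H80

universe u v w

/-! ### Homogeneous circuits -/

/-- `p` is homogeneous for the grading `w` (of some weight). -/
def Hom {K : Type u} {σ : Type w} {G : Type v} [CommSemiring K] [AddCommMonoid G] (w : σ → G)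
    (p : MvPolynomial σ K) : Prop := ∃ m : G, IsWeightedHomogeneous w p m

/-- `D` computes `f`, and the polynomial computed at each node of `D` is homogeneous for `w`. -/
def HomComputes {K : Type u} {σ : Type} {G : Type v} [CommSemiring K] [AddCommMonoid G]
    (w : σ → G) (D : Circuit K σ) (f : MvPolynomial σ K) : Prop :=
  ∃ val : D.V → MvPolynomial σ K, (∀ v, val v = (D.gate v).value val) ∧ val D.out = f ∧
    ∀ v, Hom w (val v)

/-- The weight of the variables of the tree polynomials defined by weights `u` of the labels: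
`x_i` has weight `u i` and `x_{i,j,k}` has weight `u i - u j - u k`. -/
def tw {L : Type} {G : Type v} [AddCommGroup G] (u : L → G) : TVar L → G
  | Sum.inl i => u i
  | Sum.inr (i, j, k) => u i - u j - u k

/-- The same for the numbered variables of `treePoly K n`. -/
def treeWeight {G : Type v} [AddCommGroup G] {n : ℕ} (u : Fin (n + 1) → G) : Fin (nvar n) → G :=
  fun x => tw u ((tvarEquiv (n + 1)).symm x)

/-! ### The complete binary tree -/

/-- The nodes of the complete binary tree of height `h`: lists of Booleans of length at most `h`.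
The root is `[]`, the children of `v` are `false :: v` and `true :: v`. -/
noncomputable def nodes (h : ℕ) : Finset (List Bool) := (List.finite_length_le Bool h).toFinset

/-- The nodes other than the root (a node stands for the edge to its parent). -/
noncomputable def edges (h : ℕ) : Finset (List Bool) := (nodes h).erase []

/-- The index type of the edges. -/
abbrev EdgeT (h : ℕ) : Type := {c : List Bool // c ∈ edges h}

/-- `1` if `c` is in `B` and its parent is not, `-1` if its parent is in `B` and `c` is not, `0`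
otherwise. -/
noncomputable def cut (B : Set (List Bool)) (c : List Bool) : ℤ :=
  B.indicator (fun _ => (1 : ℤ)) c - B.indicator (fun _ => (1 : ℤ)) c.tail

/-- The label of the node `v`. -/
noncomputable def ell {L : Type} {h k : ℕ} (r : L) (lab : List Bool → Fin k → L)
    (a : EdgeT h → Fin k) (v : List Bool) : L :=
  if hv : v ∈ edges h then lab v (a ⟨v, hv⟩) else r

/-- The variable at the node `v` of the complete tree of height `h` with node labels `ℓ`. -/
def tvar {L : Type} (h : ℕ) (ℓ : List Bool → L) (v : List Bool) : TVar L :=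
  if v.length < h then Sum.inr (ℓ v, ℓ (false :: v), ℓ (true :: v)) else Sum.inl (ℓ v)

/-- The monomial of the complete tree. -/
noncomputable def tmon {L : Type} (h : ℕ) (ℓ : List Bool → L) : TVar L →₀ ℕ :=
  ∑ v ∈ nodes h, Finsupp.single (tvar h ℓ v) 1

/-- The label sets of different edges are disjoint and do not contain the root label. -/
def LabInj {L : Type} (h : ℕ) {k : ℕ} (r : L) (lab : List Bool → Fin k → L) : Prop :=
  (∀ c ∈ edges h, ∀ c' ∈ edges h, ∀ a a' : Fin k, lab c a = lab c' a' → c = c' ∧ a = a') ∧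
    ∀ c ∈ edges h, ∀ a : Fin k, lab c a ≠ r

/-- Signed sums with coefficients `-1, 0, 1` determine their summands. -/
def Sep {ι : Type} {G : Type v} [Fintype ι] [AddCommGroup G] {k : ℕ} (u : ι → Fin k → G) : Prop :=
  ∀ (s s' : ι → ℤ) (a a' : ι → Fin k), (∀ c, s c = -1 ∨ s c = 0 ∨ s c = 1) →
    (∀ c, s' c = -1 ∨ s' c = 0 ∨ s' c = 1) →
    ∑ c, s c • u c (a c) = ∑ c, s' c • u c (a' c) → ∀ c, s c = s' c ∧ (s c ≠ 0 → a c = a' c)

/-! ### Statements, combinatorics of the tree -/

/-- CUT. -/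
def CUTStmt : Prop := ∀ (h : ℕ) (τ : List Bool → ℕ), Set.InjOn τ (nodes h : Set (List Bool)) →
  ∃ j : ℕ, (h + 1) / 2 ≤ ((edges h).filter (fun c => cut {v | τ v < j} c ≠ 0)).card

open Classical in
/-- PRE. -/
def PREStmt : Prop := ∀ (G : Type v) [AddCommGroup G] (L : Type) (u : L → G) (r : L) (h k : ℕ)
  (lab : List Bool → Fin k → L) (a : EdgeT h → Fin k) (B : Set (List Bool)), u r = 0 →
  ∑ v ∈ (nodes h).filter (fun v => v ∈ B), tw u (tvar h (ell r lab a) v) =
    ∑ c : EdgeT h, cut B c.1 • u (lab c.1 (a c))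

open Classical in
/-- CNT. -/
def CNTStmt : Prop := ∀ (ι : Type) [Fintype ι] (G : Type v) [AddCommGroup G] (k b : ℕ)
  (u : ι → Fin k → G) (X₀ X : Finset G), 0 < k → Sep u →
  (∀ a : ι → Fin k, ∃ β ∈ X₀, ∃ x ∈ X, ∃ s : ι → ℤ, (∀ c, s c = -1 ∨ s c = 0 ∨ s c = 1) ∧
    x = β + ∑ c, s c • u c (a c) ∧ b ≤ (Finset.univ.filter (fun c => s c ≠ 0)).card) →
  k ^ b ≤ X₀.card * X.card

/-- TRC: the monomials of the complete trees. -/
def TRCStmt : Prop := ∀ (K : Type u) [CommSemiring K] (L : Type) [Fintype L] (r : L) (h k N : ℕ)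
  (lab : List Bool → Fin k → L) (a : EdgeT h → Fin k), LabInj h r lab → 2 ^ h ≤ N →
  coeff (tmon h (ell r lab a)) (tsum K L N r) = 1

/-- INJ: the variables at different nodes are different. -/
def INJStmt : Prop := ∀ (L : Type) (r : L) (h k : ℕ)
  (lab : List Bool → Fin k → L) (a : EdgeT h → Fin k), LabInj h r lab →
  Set.InjOn (tvar h (ell r lab a)) (nodes h : Set (List Bool))

/-! ### Statements, circuits -/

/-- WSH: homogeneous weakly skew circuits give homogeneous skew programs. -/
def WSHStmt : Prop := ∀ (K : Type u) [CommSemiring K] (σ : Type) (G : Type v) [AddCommMonoid G]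
  (w : σ → G) (D : Circuit K σ) (f : MvPolynomial σ K), D.WeaklySkew → HomComputes w D f →
  ∃ l : List (MvPolynomial σ K), LSLP l ∧ l.length ≤ 1 + D.size ∧ f ∈ l ∧ ∀ p ∈ l, Hom w p

/-- LSH: homogeneous skew programs give homogeneous weakly skew circuits. -/
def LSHStmt : Prop := ∀ (K : Type u) [CommSemiring K] (σ : Type) (G : Type v) [AddCommMonoid G]
  (w : σ → G) (l : List (MvPolynomial σ K)) (f : MvPolynomial σ K), LSLP l →
  (∀ p ∈ l, Hom w p) → f ∈ l →
  ∃ D : Circuit K σ, D.WeaklySkew ∧ HomComputes w D f ∧ D.size + 1 ≤ 2 * l.length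

/-- HOM: homogeneous components of skew programs, integer weights of size at most `W`. -/
def HOMStmt : Prop := ∀ (K : Type u) [CommSemiring K] (σ : Type) (w : σ → ℤ) (W : ℕ)
  (l : List (MvPolynomial σ K)), (∀ i, |w i| ≤ W) → LSLP l →
  ∃ l' : List (MvPolynomial σ K), LSLP l' ∧ (∀ p ∈ l', Hom w p) ∧
    l'.length ≤ 2 + l.length * (2 * (l.length * W) + 1) ∧
    ∀ p ∈ l, ∀ m : ℤ, weightedHomogeneousComponent w m p ∈ l'

/-- VPH: the tree polynomials have homogeneous circuits of polynomial size, for all gradings. -/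
def VPHStmt : Prop := ∃ p : Polynomial ℕ, ∀ (K : Type u) [CommSemiring K] (G : Type v)
  [AddCommGroup G] (n : ℕ) (u : Fin (n + 1) → G), ∃ D : Circuit K (Fin (nvar n)),
    HomComputes (treeWeight u) D (treePoly K n) ∧ D.size ≤ p.eval n

open Classical in
/-- SKW: the weights of a homogeneous skew program. -/
def SKWStmt : Prop := ∀ (K : Type u) [CommSemiring K] (σ : Type) (G : Type v)
  [AddCommMonoid G] (w : σ → G) (l : List (MvPolynomial σ K)), LSLP l → (∀ p ∈ l, Hom w p) →
  ∃ X : Finset G, X.card ≤ l.length ∧ ∀ f ∈ l, ∀ (ι : Type) (N : Finset ι) (e : ι → σ),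
    Set.InjOn e (N : Set ι) → coeff (∑ v ∈ N, Finsupp.single (e v) 1) f ≠ 0 →
    ∃ τ : ι → ℕ, Set.InjOn τ (N : Set ι) ∧
      ∀ j : ℕ, ∑ v ∈ N.filter (fun v => τ v < j), w (e v) ∈ X

/-! ### Statements, determinants -/

/-- The affine linear matrix `A_0 + ∑_e x_e A_e`. -/
noncomputable def aff {K : Type u} [CommSemiring K] {σ : Type} [Fintype σ] {m : ℕ}
    (A : Option σ → Matrix (Fin m) (Fin m) K) :
    Matrix (Fin m) (Fin m) (MvPolynomial σ K) :=
  Matrix.of fun i j => C (A none i j) + ∑ e : σ, C (A (some e) i j) * X e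

/-- DEX: Leibniz. -/
def DEXStmt : Prop := ∀ (K : Type u) [Field K] (σ : Type) [Fintype σ] (m : ℕ)
  (A : Option σ → Matrix (Fin m) (Fin m) K) (μ : σ →₀ ℕ), coeff μ (aff A).det ≠ 0 →
  ∃ (π : Equiv.Perm (Fin m)) (φ : Fin m → Option σ),
    (∑ i, (φ i).elim 0 (fun e => Finsupp.single e 1)) = μ ∧ ∀ i, A (φ i) (π i) i ≠ 0

/-- GRB: graded bases. -/
def GRBStmt : Prop := ∀ (K : Type u) [Field K] [IsAlgClosed K] (m : ℕ)
  (g h : Matrix (Fin m) (Fin m) K), IsUnit g.det → IsUnit h.det →
  ∃ (P Q : Matrix (Fin m) (Fin m) K) (γ η : Fin m → Kˣ), IsUnit P.det ∧ IsUnit Q.det ∧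
    ∀ (A : Matrix (Fin m) (Fin m) K) (c : Kˣ), (c : K) • (g * A * h) = A →
      ∀ i j, (P * A * Q) i j ≠ 0 → γ i = η j * c

/-- A term of the Leibniz formula of a graded matrix: column `i` goes from the grade `η i` to the
grade `γ (π i)`; the columns `col v`, `v ∈ N`, carry the increment `ω v`, the other ones `0`. -/
structure Term {G : Type v} [AddCommGroup G] {m : ℕ} (γ η : Fin m → G) (ι : Type) where
  /-- the permutation -/
  π : Equiv.Perm (Fin m)
  /-- the index set of the nonconstant columns -/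
  N : Finset ι
  /-- the nonconstant columns -/
  col : ι → Fin m
  /-- the increments -/
  ω : ι → G
  inj : Set.InjOn col (N : Set ι)
  hN : ∀ v ∈ N, γ (π (col v)) = η (col v) + ω v
  h0 : ∀ i, (∀ v ∈ N, col v ≠ i) → γ (π i) = η i

open Classical in
/-- DCM: closed walks. Either (A) the grades are unbalanced, and each term with at most `d`
nonconstant columns contains a path between two of a small number of grades, or (B) each term is
a union of closed walks. -/
def DCMStmt : Prop := ∀ (G : Type v) [AddCommGroup G] (m : ℕ) (γ η : Fin m → G) (d : ℕ),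
  (∃ X₀ X : Finset G, X₀.card ≤ d ∧ X.card ≤ d ∧ ∀ (ι : Type) (T : Term γ η ι), T.N.card ≤ d →
    ∃ B ⊆ T.N, ∃ β ∈ X₀, ∃ x ∈ X, x ≠ β ∧ x = β + ∑ v ∈ B, T.ω v) ∨
  (∀ (ι : Type) (T : Term γ η ι), T.N.card ≤ d → ∀ v₀ ∈ T.N, ∃ B ⊆ T.N, v₀ ∈ B ∧
    ∑ v ∈ B, T.ω v = 0 ∧ ∃ τ : ι → ℕ, Set.InjOn τ (B : Set ι) ∧
      ∀ j : ℕ, ∃ i : Fin m, η i = η (T.col v₀) + ∑ v ∈ B.filter (fun v => τ v < j), T.ω v)

/-- DLB: lower bound for determinants, general form. -/
def DLBStmt : Prop := ∀ (K : Type u) [Field K] (L : Type) [Fintype L] (r : L) (h k N m : ℕ)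
  (lab : List Bool → Fin k → L) (t : L → Kˣ) (A : Option (TVar L) → Matrix (Fin m) (Fin m) K)
  (g g' : Matrix (Fin m) (Fin m) K), LabInj h r lab → 2 ^ h ≤ N → 0 < h →
  ((nodes h).card) ^ 2 < k → t r = 1 →
  Sep (fun (c : EdgeT h) (x : Fin k) => Additive.ofMul (t (lab c.1 x))) →
  (aff A).det = tsum K L N r → IsUnit g.det → IsUnit g'.det →
  (A none = g * A none * g') →
  (∀ e : TVar L, (((tw (fun i => Additive.ofMul (t i)) e).toMul : Kˣ) : K) • A (some e) =
    g * A (some e) * g') →
  k ^ ((h + 1) / 2) ≤ m ^ 2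

/-! ### Statements, the two hypotheses on the weights -/

/-- DIG: balanced digits. -/
def DIGStmt : Prop := ∀ (M k : ℕ), Sep (fun (c : Fin M) (a : Fin k) =>
  ((a : ℤ) + 1) * (2 * (k : ℤ) + 1) ^ (c : ℕ))

/-- The members of `S` satisfy no relation with small exponents: `t` is `B`-dissociated on `S`. -/
def Dissoc {Γ : Type v} [CommGroup Γ] {L : Type} [Fintype L] (B : ℤ) (t : L → Γ) (S : Finset L) :
    Prop :=
  ∀ z : L → ℤ, (∀ i, i ∉ S → z i = 0) → (∀ i, |z i| ≤ B) → ∏ i, t i ^ z i = 1 → z = 0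

/-- DIS: dissociated sets are separating. -/
def DISStmt : Prop := ∀ (Γ : Type v) [CommGroup Γ] (L : Type) [Fintype L] (t : L → Γ)
  (S : Finset L) (ι : Type) [Fintype ι] (k : ℕ) (lab : ι → Fin k → L), Dissoc 2 t S →
  (∀ c a, lab c a ∈ S) → (∀ c c' a a', lab c a = lab c' a' → c = c' ∧ a = a') →
  Sep (fun (c : ι) (a : Fin k) => Additive.ofMul (t (lab c a)))

end Pool.EQD
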