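import Pool.Agent.H79.EQD.Defs2

/-!
# All linear symmetries of the tree polynomial
-/

set_option autoImplicit false

namespace Pool.EQD

open MvPolynomial Pool.Agent.H80

universe u v w

/-- The action of an invertible matrix `g` on the variables of the generic quadratic system: the
vector `x = (x_i)` becomes `g x`, the bilinear map `X = (x_{i,j,k})` becomes `g X (g⁻¹ ⊗ g⁻¹)`. -/
noncomputable def symHom {K : Type u} [Field K] {L : Type} [Fintype L] [DecidableEq L]
    (g : Matrix L L K) : MvPolynomial (TVar L) K →ₐ[K] MvPolynomial (TVar L) K :=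
  aeval fun x => match x with
    | Sum.inl i => ∑ a : L, C (g i a) * X (Sum.inl a)
    | Sum.inr (i, j, k) => ∑ a : L, ∑ b : L, ∑ c : L,
        C (g i a * g⁻¹ b j * g⁻¹ c k) * X (Sum.inr (a, b, c))

/-- The matrix `M` of polynomials is fixed by `g`, up to the standard equivalences
`M ↦ P M Q` and `M ↦ P Mᵀ Q` with constant invertible matrices `P`, `Q`. -/
def FixedBySym {K : Type u} [Field K] {L : Type} [Fintype L] [DecidableEq L] {m : ℕ}
    (g : Matrix L L K) (M : Matrix (Fin m) (Fin m) (MvPolynomial (TVar L) K)) : Prop :=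
  ∃ P Q : Matrix (Fin m) (Fin m) K, IsUnit P.det ∧ IsUnit Q.det ∧
    (M.map (symHom g) = P.map C * M * Q.map C ∨
      M.map (symHom g) = P.map C * M.transpose * Q.map C)

/-- `g` is diagonal in the basis given by the columns of `b`, with eigenvalues `t`. -/
def DiagBy {K : Type u} [Field K] {L : Type} [Fintype L] [DecidableEq L]
    (g b : Matrix L L K) (t : L → Kˣ) : Prop :=
  IsUnit b.det ∧ g * b = b * Matrix.diagonal (fun i => (t i : K))

/-- The row `r` of `g` is the row `r` of the identity matrix. -/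
def FixRow {K : Type u} [Field K] {L : Type} [DecidableEq L] (r : L) (g : Matrix L L K) : Prop :=
  ∀ a, g r a = if a = r then 1 else 0

/-- INV: the coordinate `r` of the solution is invariant. -/
def INVStmt : Prop := ∀ (K : Type u) [Field K] (L : Type) [Fintype L] [DecidableEq L] (r : L)
  (g : Matrix L L K) (N : ℕ), IsUnit g.det → FixRow r g → symHom g (tsum K L N r) = tsum K L N r

/-- SYC: composition, diagonal matrices. -/
def SYCStmt : Prop := ∀ (K : Type u) [Field K] (L : Type) [Fintype L] [DecidableEq L],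
  (∀ g h : Matrix L L K, IsUnit g.det → IsUnit h.det → ∀ p : MvPolynomial (TVar L) K,
    symHom h (symHom g p) = symHom (g * h) p) ∧
  (∀ t : L → Kˣ, symHom (Matrix.diagonal fun i => (t i : K)) =
    scaleHom (fun e => (((tw (fun i => Additive.ofMul (t i)) e).toMul : Kˣ) : K)))

/-- ADB: adapted bases. -/
def ADBStmt : Prop := ∀ (K : Type u) [Field K] (L : Type) [Fintype L] [DecidableEq L] (r : L)
  (g b : Matrix L L K) (t : L → Kˣ) (S : Finset L), FixRow r g → DiagBy g b t → Dissoc 4 t S →
  ∃ (b' : Matrix L L K) (t' : L → Kˣ) (S' : Finset L), FixRow r b' ∧ DiagBy g b' t' ∧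
    t' r = 1 ∧ Dissoc 4 t' S' ∧ S'.card = S.card

/-- PRM: permutation matrices. -/
def PRMStmt : Prop := ∀ (K : Type u) [Field K] [IsAlgClosed K] (L : Type) [Fintype L]
  [DecidableEq L] (π : Equiv.Perm L) (r : ℕ) (x : Fin r → L), (orderOf π : K) ≠ 0 →
  (∀ j, (Function.minimalPeriod π (x j)).Prime ∧ 5 ≤ Function.minimalPeriod π (x j)) →
  Function.Injective (fun j => Function.minimalPeriod π (x j)) →
  ∃ (b : Matrix L L K) (t : L → Kˣ) (S : Finset L),
    DiagBy (π.permMatrix K) b t ∧ Dissoc 4 t S ∧ S.card = r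

/-- EU2: determinantal representations of quasipolynomial size which are fixed by the whole
group of symmetries. -/
def EU2Stmt : Prop := ∃ c : ℕ, ∀ (K : Type u) [Field K] (n : ℕ),
  ∃ (m : ℕ) (M : Matrix (Fin m) (Fin m) (MvPolynomial (TVar (Fin (n + 1))) K)),
    DetRep M (tsum K (Fin (n + 1)) (n + 1) 0) ∧ m ≤ (n + 2) ^ (c * Nat.log 2 (n + 2)) ∧
    ∀ g : Matrix (Fin (n + 1)) (Fin (n + 1)) K, IsUnit g.det → FixRow 0 g → FixedBySym g M

end Pool.EQD
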