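import Pool.Agent.H79.EQD.Defs3
import Pool.Agent.H80.Lin

/-!
# The threshold for the order of the symmetries
-/

set_option autoImplicit false

namespace Pool.EQD

open MvPolynomial Pool.Agent.H80

universe u v w

/-! ### Symmetrization: from skew programs to symmetric determinants -/

/-- The bordered matrix `[[1 - B, E], [-F, 0]]`. -/
noncomputable def ematG {K : Type u} [Field K] {σ : Type} {S : Type} [DecidableEq S]
    (B : S → S → MvPolynomial σ K) (F E : S → K) :
    Matrix (Option S) (Option S) (MvPolynomial σ K) := fun i j =>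
  match i, j with
  | some s, some t => (if s = t then 1 else 0) - B s t
  | some s, none => C (E s)
  | none, some t => - C (F t)
  | none, none => 0

/-- EMG: the determinant of the bordered matrix of a transition system. -/
def EMGStmt : Prop := ∀ (K : Type u) [Field K] (σ S : Type) [Fintype S] [DecidableEq S]
  (B : S → S → MvPolynomial σ K) (F E : S → K) (mu : S → ℕ) (y : S → MvPolynomial σ K),
  (∀ s t, B s t ≠ 0 → mu t < mu s) → (∀ s, y s = C (E s) + ∑ t, B s t * y t) →
  (ematG B F E).det = ∑ t, C (F t) * y t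

/-- PTH: skew programs as transition systems. -/
def PTHStmt : Prop := ∀ (K : Type u) [Field K] (σ : Type) (l : List (MvPolynomial σ K)), LSLP l →
  ∃ (B : Fin l.length → Fin l.length → MvPolynomial σ K) (E : Fin l.length → K)
    (mu : Fin l.length → ℕ), (∀ s t, (B s t).totalDegree ≤ 1) ∧
    (∀ s t, B s t ≠ 0 → mu t < mu s) ∧ ∀ s, l.get s = C (E s) + ∑ t, B s t * l.get t

/-- SMT: symmetrization over a finite group. -/
def SMTStmt : Prop := ∀ (K : Type u) [Field K] (L : Type) [Fintype L] [DecidableEq L]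
  (S : Type) [Fintype S] [DecidableEq S] (B : S → S → MvPolynomial (TVar L) K) (F E : S → K)
  (mu : S → ℕ) (y : S → MvPolynomial (TVar L) K) (f : MvPolynomial (TVar L) K)
  (G : Subgroup (GL L K)), (∀ s t, (B s t).totalDegree ≤ 1) →
  (∀ s t, B s t ≠ 0 → mu t < mu s) → (∀ s, y s = C (E s) + ∑ t, B s t * y t) →
  ∑ t, C (F t) * y t = f → (∀ g ∈ G, symHom g.val f = f) → (Nat.card G : K) ≠ 0 →
  ∃ M : Matrix (Fin (Fintype.card S * Nat.card G + 1)) (Fin (Fintype.card S * Nat.card G + 1))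
      (MvPolynomial (TVar L) K), DetRep M f ∧ ∀ g ∈ G, FixedBySym g.val M

/-! ### Skew programs for determinants (Samuelson, Berkowitz) -/

section bk

variable {R : Type u} [CommRing R]

/-- The coefficient of `t ^ d` of the entry `v` of `t * F * r * (1 - t * A_i)⁻¹`, where `A_i` is the
leading block with `i` rows and `r` is the row `i` of `A`. -/
def bkG (A : ℕ → ℕ → R) (i : ℕ) (F : ℕ → R) : ℕ → ℕ → R
  | 0, _ => 0
  | (d + 1), v => F d * A i v + ∑ v' ∈ Finset.range i, bkG A i F d v' * A v' v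

/-- The coefficient of `t ^ d` of `det (1 - t * A_i)`. -/
def bkF (A : ℕ → ℕ → R) : ℕ → ℕ → R
  | 0, d => if d = 0 then 1 else 0
  | (i + 1), 0 => bkF A i 0
  | (i + 1), (d + 1) => bkF A i (d + 1) - bkF A i d * A i i -
      ∑ v ∈ Finset.range i, bkG A i (bkF A i) d v * A v i

end bk

/-- BID: the Samuelson-Berkowitz identity. -/
def BIDStmt : Prop := ∀ (R : Type u) [CommRing R] (m : ℕ) (A : ℕ → ℕ → R),
  (Matrix.of fun i j : Fin m => A i j).det = (-1) ^ m * bkF A m m

/-- BLS: a skew program for the recursion. -/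
def BLSStmt : Prop := ∃ c : ℕ, ∀ (K : Type u) [CommRing K] (σ : Type) [Fintype σ] (m : ℕ)
  (A : ℕ → ℕ → MvPolynomial σ K),
  (∀ i j, ∃ a : Option σ → K, A i j = C (a none) + ∑ e : σ, C (a (some e)) * X e) →
  ∃ l : List (MvPolynomial σ K), LSLP l ∧ (-1) ^ m * bkF A m m ∈ l ∧
    l.length ≤ (m + Fintype.card σ + 2) ^ c

/-! ### Permutations of slightly superpolynomial order -/

/-- AD2: adapted bases. -/
def AD2Stmt : Prop := ∀ (K : Type u) [Field K] (L : Type) [Fintype L] [DecidableEq L] (r : L)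
  (g b : Matrix L L K) (t : L → Kˣ), FixRow r g → DiagBy g b t →
  ∃ (b' : Matrix L L K) (σ : Equiv.Perm L), FixRow r b' ∧ DiagBy g b' (fun i => t (σ i)) ∧
    t (σ r) = 1

/-- PR2: eigenvalues of permutation matrices. -/
def PR2Stmt : Prop := ∀ (K : Type u) [Field K] [IsAlgClosed K] (L : Type) [Fintype L]
  [DecidableEq L] (π : Equiv.Perm L), (orderOf π : K) ≠ 0 →
  ∃ (b : Matrix L L K) (t : L → Kˣ), DiagBy (π.permMatrix K) b t ∧
    ∀ (x : L) (ζ : Kˣ), ζ ^ Function.minimalPeriod π x = 1 → ∃ i, t i = ζ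

/-- SPR: separation by roots of unity of different prime orders. -/
def SPRStmt : Prop := ∀ (Γ : Type v) [CommGroup Γ] (ι : Type) [Fintype ι] (p : ι → ℕ)
  (ζ : ι → Γ) (k : ℕ), (∀ c, (p c).Prime ∧ 4 * k < p c) → Function.Injective p →
  (∀ c, orderOf (ζ c) = p c) →
  Sep (fun (c : ι) (a : Fin k) => (2 : ℤ) • Additive.ofMul (ζ c ^ ((a : ℕ) + 1)))

/-- PRI: many primes. -/
def PRIStmt : Prop := ∃ n₀ : ℕ, ∀ n k : ℕ, n₀ ≤ n → k ^ 6 ≤ n →
  ∃ p : Fin k → ℕ, Function.Injective p ∧ ∀ c, (p c).Prime ∧ 4 * k < p c ∧ p c * k ≤ n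

/-- CYC: permutations with given cycles. -/
def CYCStmt : Prop := ∀ (n M : ℕ) (p : Fin M → ℕ), (∀ c, 0 < p c) → ∑ c, p c ≤ n →
  ∃ π : Equiv.Perm (Fin (n + 1)), π 0 = 0 ∧ orderOf π ∣ ∏ c, p c ∧
    ∀ c, ∃ x, Function.minimalPeriod π x = p c

end Pool.EQD
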