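import Pool.Agent.H79.EQD.Defs

/-!
# Balanced digits (board `vgr`, row DIG)
-/

set_option autoImplicit false

namespace Pool.EQD

/-- Balanced digits are unique. -/
theorem dig_aux (k : ℕ) : ∀ (M : ℕ) (x y : Fin M → ℤ), (∀ c, |x c| ≤ k) → (∀ c, |y c| ≤ k) →
    ∑ c, x c * (2 * (k : ℤ) + 1) ^ (c : ℕ) = ∑ c, y c * (2 * (k : ℤ) + 1) ^ (c : ℕ) →
    ∀ c, x c = y c := by
  intro M
  induction M with
  | zero => intro x y _ _ _ c; exact c.elim0
  | succ M ih =>
    intro x y hx hy h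
    have hB : (2 * (k : ℤ) + 1) ≠ 0 := by positivity
    rw [Fin.sum_univ_succ, Fin.sum_univ_succ] at h
    have e : ∀ z : Fin (M + 1) → ℤ, ∑ i : Fin M, z i.succ * (2 * (k : ℤ) + 1) ^ ((i.succ : Fin (M + 1)) : ℕ)
        = (2 * (k : ℤ) + 1) * ∑ i : Fin M, z i.succ * (2 * (k : ℤ) + 1) ^ (i : ℕ) := by
      intro z
      rw [Finset.mul_sum]
      refine Finset.sum_congr rfl fun i _ => ?_
      rw [Fin.val_succ, pow_succ]
      ring
    rw [e x, e y] at h
    simp only [Fin.val_zero, pow_zero, mul_one] at h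
    have hd : (2 * (k : ℤ) + 1) ∣ x 0 - y 0 := by
      refine ⟨∑ i : Fin M, y i.succ * (2 * (k : ℤ) + 1) ^ (i : ℕ)
        - ∑ i : Fin M, x i.succ * (2 * (k : ℤ) + 1) ^ (i : ℕ), ?_⟩
      linear_combination h
    have h0 : x 0 = y 0 := by
      have h1 := abs_le.1 (hx 0)
      have h2 := abs_le.1 (hy 0)
      have h3 : |x 0 - y 0| < 2 * (k : ℤ) + 1 := by
        rw [abs_lt]; constructor <;> linarith [h1.1, h1.2, h2.1, h2.2]
      have := Int.eq_zero_of_abs_lt_dvd hd h3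
      linarith
    have h4 : ∑ i : Fin M, x i.succ * (2 * (k : ℤ) + 1) ^ (i : ℕ)
        = ∑ i : Fin M, y i.succ * (2 * (k : ℤ) + 1) ^ (i : ℕ) := by
      have : (2 * (k : ℤ) + 1) * ∑ i : Fin M, x i.succ * (2 * (k : ℤ) + 1) ^ (i : ℕ)
          = (2 * (k : ℤ) + 1) * ∑ i : Fin M, y i.succ * (2 * (k : ℤ) + 1) ^ (i : ℕ) := by
        rw [h0] at h
        linarith
      exact mul_left_cancel₀ hB this
    have h5 := ih (fun i => x i.succ) (fun i => y i.succ) (fun i => hx _) (fun i => hy _) h4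
    intro c
    refine Fin.cases h0 (fun i => h5 i) c

/-- DIG: balanced digits. -/
theorem t_dig : DIGStmt := by
  intro M k s s' a a' hs hs' h
  have hb : ∀ (s : Fin M → ℤ) (a : Fin M → Fin k), (∀ c, s c = -1 ∨ s c = 0 ∨ s c = 1) →
      ∀ c, |s c * (((a c : ℕ) : ℤ) + 1)| ≤ k := by
    intro s a hs c
    have h1 : (((a c : ℕ) : ℤ) + 1) ≤ k := by
      have := (a c).2
      exact_mod_cast this
    have h2 : (0 : ℤ) ≤ ((a c : ℕ) : ℤ) + 1 := by positivity
    rw [abs_le]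
    rcases hs c with h | h | h <;> rw [h] <;> constructor <;> linarith
  have key := dig_aux k M (fun c => s c * (((a c : ℕ) : ℤ) + 1))
    (fun c => s' c * (((a' c : ℕ) : ℤ) + 1)) (hb s a hs) (hb s' a' hs') (by
      simpa only [smul_eq_mul, mul_assoc] using h)
  intro c
  have h1 := key c
  have p1 : (1 : ℤ) ≤ ((a c : ℕ) : ℤ) + 1 := by
    have : (0 : ℤ) ≤ ((a c : ℕ) : ℤ) := Int.natCast_nonneg _
    linarith
  have p2 : (1 : ℤ) ≤ ((a' c : ℕ) : ℤ) + 1 := by
    have : (0 : ℤ) ≤ ((a' c : ℕ) : ℤ) := Int.natCast_nonneg _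
    linarith
  have hval : ((a c : ℕ) : ℤ) = ((a' c : ℕ) : ℤ) → a c = a' c := by
    intro h
    exact Fin.ext (by exact_mod_cast h)
  rcases hs c with h | h | h <;> rcases hs' c with h' | h' | h' <;> rw [h, h'] at h1 ⊢ <;>
    first
    | (exfalso; linarith)
    | (refine ⟨rfl, fun _ => hval (by linarith)⟩)
    | (refine ⟨rfl, fun h0 => absurd rfl h0⟩)

end Pool.EQD
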