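import Pool.Agent.H79.EQD.Defs

/-!
# Dissociated sets are separating (board `vgr`, row DIS)
-/

set_option autoImplicit false

namespace Pool.EQD

universe v

/-- DIS: dissociated sets are separating. -/
theorem t_dis : DISStmt.{v} := by
  classical
  intro Γ _ L _ t S ι _ k lab hD hS hinj s s' a a' hs hs' h
  -- the exponent of the label `i`
  set z : L → ℤ := fun i => ∑ c, ((if lab c (a c) = i then s c else 0)
    - (if lab c (a' c) = i then s' c else 0)) with hz
  have hzS : ∀ i, i ∉ S → z i = 0 := by
    intro i hi
    refine Finset.sum_eq_zero fun c _ => ?_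
    have n1 : lab c (a c) ≠ i := fun h' => hi (by rw [← h']; exact hS c (a c))
    have n2 : lab c (a' c) ≠ i := fun h' => hi (by rw [← h']; exact hS c (a' c))
    rw [if_neg n1, if_neg n2, sub_zero]
  have hone : ∀ (i : L) (c : ι) (x : Fin k), lab c x = i → z i =
      (if lab c (a c) = i then s c else 0) - (if lab c (a' c) = i then s' c else 0) := by
    intro i c x hx
    refine Finset.sum_eq_single c ?_ (fun hc => absurd (Finset.mem_univ c) hc)
    intro c' _ hc'
    rw [if_neg, if_neg, sub_zero]
    · intro h'
      exact hc' (hinj _ _ _ _ (h'.trans hx.symm)).1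
    · intro h'
      exact hc' (hinj _ _ _ _ (h'.trans hx.symm)).1
  have habs : ∀ i, |z i| ≤ 2 := by
    intro i
    by_cases hi : ∃ (c : ι) (x : Fin k), lab c x = i
    · obtain ⟨c, x, hx⟩ := hi
      rw [hone i c x hx, abs_le]
      rcases hs c with h1 | h1 | h1 <;> rcases hs' c with h2 | h2 | h2 <;> rw [h1, h2] <;>
        split_ifs <;> constructor <;> norm_num
    · have : z i = 0 := by
        refine Finset.sum_eq_zero fun c _ => ?_
        rw [if_neg (fun h => hi ⟨c, _, h⟩), if_neg (fun h => hi ⟨c, _, h⟩), sub_zero]
      rw [this]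
      norm_num
  have hprod : ∏ i, t i ^ z i = 1 := by
    have e1 : ∀ (s : ι → ℤ) (a : ι → Fin k),
        ∏ i, t i ^ (∑ c, (if lab c (a c) = i then s c else 0)) = ∏ c, t (lab c (a c)) ^ s c := by
      intro s a
      have : ∀ i, t i ^ (∑ c, (if lab c (a c) = i then s c else 0))
          = ∏ c, t i ^ (if lab c (a c) = i then s c else 0) := by
        intro i
        have hzs : ∀ (s : Finset ι) (f : ι → ℤ), t i ^ (∑ c ∈ s, f c) = ∏ c ∈ s, t i ^ f c := by
          intro s f
          induction s using Finset.induction_on with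
          | empty => simp
          | insert x s hx ih => rw [Finset.sum_insert hx, Finset.prod_insert hx, zpow_add, ih]
        exact hzs _ _
      rw [Finset.prod_congr rfl (fun i _ => this i), Finset.prod_comm]
      refine Finset.prod_congr rfl fun c _ => ?_
      rw [Finset.prod_eq_single (lab c (a c))]
      · rw [if_pos rfl]
      · intro i _ hi
        rw [if_neg (fun h => hi h.symm), zpow_zero]
      · intro h'
        exact absurd (Finset.mem_univ _) h'
    have e2 : ∏ i, t i ^ z i = (∏ i, t i ^ (∑ c, (if lab c (a c) = i then s c else 0))) *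
        (∏ i, t i ^ (∑ c, (if lab c (a' c) = i then s' c else 0)))⁻¹ := by
      rw [← Finset.prod_inv_distrib, ← Finset.prod_mul_distrib]
      refine Finset.prod_congr rfl fun i _ => ?_
      rw [← zpow_neg, ← zpow_add]
      congr 1
      rw [hz]
      simp only
      rw [Finset.sum_sub_distrib]
      ring
    rw [e2, e1 s a, e1 s' a', mul_inv_eq_one]
    have h' := congrArg Additive.toMul h
    simpa only [toMul_sum, toMul_zsmul, toMul_ofMul] using h'
  have hz0 := hD z hzS habs hprod
  intro c
  have h1 := hone (lab c (a c)) c (a c) rfl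
  have h2 := hone (lab c (a' c)) c (a' c) rfl
  rw [hz0] at h1 h2
  simp only [Pi.zero_apply, if_true] at h1 h2
  by_cases hc : a c = a' c
  · rw [hc] at h1
    simp only [if_true] at h1
    exact ⟨by linarith, fun _ => hc⟩
  · have h3 : ¬ lab c (a' c) = lab c (a c) := fun h' => hc (hinj _ _ _ _ h').2.symm
    have h4 : ¬ lab c (a c) = lab c (a' c) := fun h' => hc (hinj _ _ _ _ h').2
    rw [if_neg h3] at h1
    rw [if_neg h4] at h2
    exact ⟨by linarith, fun h0 => absurd (by linarith) h0⟩

end Pool.EQD
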