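import Pool.Agent.H79.EQD.Defs

/-!
# Homogeneous components of skew programs (MP_f18ce0_lc)
-/

set_option autoImplicit false

namespace Pool.EQD

open MvPolynomial Pool.Agent.H80

universe u

section

variable {K : Type u} [CommSemiring K] {σ : Type}

theorem LStep_mono {l l' : List (MvPolynomial σ K)} {p : MvPolynomial σ K} (h : LStep l p)
    (hl : l ⊆ l') : LStep l' p := by
  cases h with
  | mulVar hq i => exact LStep.mulVar (hl hq) i
  | mulConst hq c => exact LStep.mulConst (hl hq) c
  | add ha hb => exact LStep.add (hl ha) (hl hb)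

theorem addlines {ι : Type} (q : ι → MvPolynomial σ K) (l : List (MvPolynomial σ K)) (s : Finset ι) :
    (∀ m ∈ s, LStep l (q m)) →
    ∃ l', LDer l s.card l' ∧ (∀ m ∈ s, q m ∈ l') ∧ ∀ p ∈ l', p ∈ l ∨ ∃ m ∈ s, p = q m := by
  classical
  induction s using Finset.induction_on with
  | empty =>
    intro _
    exact ⟨l, by simpa using LDer.refl l, by simp, fun p hp => Or.inl hp⟩
  | insert a s ha ih =>
    intro h
    obtain ⟨l', h1, h2, h3⟩ := ih (fun m hm => h m (Finset.mem_insert_of_mem hm))
    refine ⟨q a :: l', ?_, ?_, ?_⟩
    · rw [Finset.card_insert_of_notMem ha]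
      exact h1.step (LStep_mono (h a (Finset.mem_insert_self _ _)) h1.2.1)
    · intro m hm
      rcases Finset.mem_insert.1 hm with rfl | hm
      · exact List.mem_cons_self
      · exact List.mem_cons_of_mem _ (h2 m hm)
    · intro p hp
      rcases List.mem_cons.1 hp with rfl | hp
      · exact Or.inr ⟨a, Finset.mem_insert_self _ _, rfl⟩
      · rcases h3 p hp with h4 | ⟨m, hm, h4⟩
        · exact Or.inl h4
        · exact Or.inr ⟨m, Finset.mem_insert_of_mem hm, h4⟩

theorem comp_mul_X (w : σ → ℤ) (q : MvPolynomial σ K) (i : σ) (m : ℤ) :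
    weightedHomogeneousComponent w m (q * X i) =
      weightedHomogeneousComponent w (m - w i) q * X i := by
  classical
  ext d
  rw [coeff_weightedHomogeneousComponent, coeff_mul_X', coeff_mul_X',
    coeff_weightedHomogeneousComponent]
  by_cases hi : i ∈ d.support
  · rw [if_pos hi, if_pos hi]
    have h1 : Finsupp.single i 1 ≤ d := by
      rw [Finsupp.single_le_iff]
      exact Nat.one_le_iff_ne_zero.2 (Finsupp.mem_support_iff.1 hi)
    have h2 : Finsupp.weight w (d - Finsupp.single i 1) + w i = Finsupp.weight w d := by
      conv_rhs => rw [← tsub_add_cancel_of_le h1]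
      rw [map_add, Finsupp.weight_single, one_smul]
    have h3 : Finsupp.weight w d = m ↔ Finsupp.weight w (d - Finsupp.single i 1) = m - w i := by
      rw [← h2]
      constructor
      · intro h; omega
      · intro h; omega
    simp only [h3]
  · rw [if_neg hi, if_neg hi, ite_self]

theorem comp_mul_C (w : σ → ℤ) (q : MvPolynomial σ K) (c : K) (m : ℤ) :
    weightedHomogeneousComponent w m (q * C c) =
      weightedHomogeneousComponent w m q * C c := by
  rw [mul_comm, ← smul_eq_C_mul, map_smul, smul_eq_C_mul, mul_comm]

theorem hom_main (w : σ → ℤ) (W : ℕ) (hw : ∀ i, |w i| ≤ W) (l : List (MvPolynomial σ K))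
    (hl : LSLP l) :
    ∃ l' : List (MvPolynomial σ K), LSLP l' ∧ (∀ p ∈ l', Hom w p) ∧
      l'.length ≤ 2 + l.length * (2 * (l.length * W) + 1) ∧ (0 : MvPolynomial σ K) ∈ l' ∧
      (∀ p ∈ l, ∀ m : ℤ, weightedHomogeneousComponent w m p ∈ l') ∧
      (∀ p ∈ l, ∀ m : ℤ, (l.length * W : ℕ) < |m| → weightedHomogeneousComponent w m p = 0) := by
  classical
  have hH : ∀ (m : ℤ) (p : MvPolynomial σ K), Hom w (weightedHomogeneousComponent w m p) :=
    fun m p => ⟨m, weightedHomogeneousComponent_isWeightedHomogeneous m p⟩
  induction hl with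
  | one =>
    have h0 : ∀ m : ℤ, weightedHomogeneousComponent w m (1 : MvPolynomial σ K) =
        if m = 0 then 1 else 0 := by
      intro m
      ext d
      rw [coeff_weightedHomogeneousComponent]
      by_cases hd : d = 0
      · subst hd
        rw [map_zero]
        by_cases hm : m = 0
        · rw [hm]; simp
        · rw [if_neg hm, if_neg (fun h => hm h.symm)]; simp
      · have h1 : coeff d (1 : MvPolynomial σ K) = 0 := by
          rw [MvPolynomial.coeff_one, if_neg (fun h => hd h.symm)]
        rw [h1, ite_self]
        split_ifs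
        · exact h1.symm
        · simp
    refine ⟨[1 * C 0, 1], ?_, ?_, by simp, by simp, ?_, ?_⟩
    · exact LSLP.cons LSLP.one (LStep.mulConst (by simp) 0)
    · intro p hp
      simp only [map_zero, mul_zero, List.mem_cons, List.not_mem_nil, or_false] at hp
      rcases hp with rfl | rfl
      · exact ⟨0, isWeightedHomogeneous_zero _ _ _⟩
      · exact ⟨0, isWeightedHomogeneous_one _ _⟩
    · intro p hp m
      simp only [List.mem_singleton] at hp
      subst hp
      rw [h0]
      split_ifs
      · simp
      · simp
    · intro p hp m hm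
      simp only [List.mem_singleton] at hp
      subst hp
      rw [h0, if_neg]
      rintro rfl
      rw [abs_zero] at hm
      omega
  | cons h hp ih =>
    rename_i l p
    obtain ⟨l', h1, h2, h3, h4, h5, h6⟩ := ih
    have hL : ((p :: l).length * W : ℕ) = l.length * W + W := by
      rw [List.length_cons]; ring
    -- the components are steps
    have key : ∀ m : ℤ, LStep l' (weightedHomogeneousComponent w m p) ∧
        ((l.length * W + W : ℕ) < |m| → weightedHomogeneousComponent w m p = 0) := by
      intro m
      cases hp with
      | mulVar hq i =>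
        rw [comp_mul_X]
        refine ⟨LStep.mulVar (h5 _ hq _) i, ?_⟩
        intro hm
        rw [h6 _ hq, zero_mul]
        have := hw i
        have h7 : |m| ≤ |m - w i| + |w i| := by
          have := abs_add_le (m - w i) (w i)
          rwa [sub_add_cancel] at this
        push_cast at hm ⊢
        linarith
      | mulConst hq c =>
        rw [comp_mul_C]
        refine ⟨LStep.mulConst (h5 _ hq _) c, ?_⟩
        intro hm
        rw [h6 _ hq, zero_mul]
        push_cast at hm ⊢
        have : (0 : ℤ) ≤ W := by positivity
        linarith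
      | add ha hb =>
        rw [map_add]
        refine ⟨LStep.add (h5 _ ha _) (h5 _ hb _), ?_⟩
        intro hm
        have : (0 : ℤ) ≤ W := by positivity
        rw [h6 _ ha, h6 _ hb, add_zero]
        · push_cast at hm ⊢
          linarith
        · push_cast at hm ⊢
          linarith
    obtain ⟨l'', g1, g2, g3⟩ := addlines (fun m => weightedHomogeneousComponent w m p) l'
      (Finset.Icc (-((l.length * W + W : ℕ) : ℤ)) ((l.length * W + W : ℕ) : ℤ))
      (fun m _ => (key m).1)
    refine ⟨l'', g1.1 h1, ?_, ?_, g1.2.1 h4, ?_, ?_⟩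
    · intro q hq
      rcases g3 q hq with h7 | ⟨m, _, rfl⟩
      · exact h2 q h7
      · exact hH m p
    · have h7 := g1.2.2
      rw [Int.card_Icc] at h7
      have h8 : (((l.length * W + W : ℕ) : ℤ) + 1 - -((l.length * W + W : ℕ) : ℤ)).toNat =
          2 * (l.length * W + W) + 1 := by omega
      rw [h8] at h7
      refine le_trans h7 ?_
      rw [List.length_cons]
      refine le_trans (Nat.add_le_add_right h3 _) ?_
      have h9 : (l.length + 1) * (2 * ((l.length + 1) * W) + 1) =
        l.length * (2 * (l.length * W) + 1) + (2 * (l.length * W + W) + 1) +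
          2 * (l.length * W) := by ring
      omega
    · intro q hq m
      rcases List.mem_cons.1 hq with rfl | hq
      · by_cases hm : m ∈ Finset.Icc (-((l.length * W + W : ℕ) : ℤ)) ((l.length * W + W : ℕ) : ℤ)
        · exact g2 m hm
        · have h7 : weightedHomogeneousComponent w m q = 0 := by
            apply (key m).2
            rw [Finset.mem_Icc, ← abs_le, not_le] at hm
            exact hm
          rw [h7]
          exact g1.2.1 h4
      · exact g1.2.1 (h5 q hq m)
    · intro q hq m hm
      rw [hL] at hm
      rcases List.mem_cons.1 hq with rfl | hq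
      · exact (key m).2 hm
      · apply h6 q hq
        have : (0 : ℤ) ≤ W := by positivity
        push_cast at hm ⊢
        linarith

end

theorem t_hom : HOMStmt.{u} := by
  intro K _ σ w W l hw hl
  obtain ⟨l', h1, h2, h3, _, h5, _⟩ := hom_main w W hw l hl
  exact ⟨l', h1, h2, h3, h5⟩

end Pool.EQD
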