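import Pool.Agent.H79.EQD.Defs2

/-!
# Labels (helper8)
-/

set_option autoImplicit false

namespace Pool.EQD

theorem t_lab : LABStmt := by
  classical
  intro L r S h k hr hS
  have h1 : Fintype.card (EdgeT h × Fin k) ≤ Fintype.card S := by
    rw [Fintype.card_prod, Fintype.card_fin, Fintype.card_coe, Fintype.card_coe]
    exact hS
  obtain ⟨f⟩ := Function.Embedding.nonempty_of_card_le h1
  refine ⟨fun c a => if hc : c ∈ edges h then (f (⟨c, hc⟩, a)).1 else r, ⟨?_, ?_⟩, ?_⟩
  · intro c hc c' hc' a a' he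
    beta_reduce at he
    rw [dif_pos hc, dif_pos hc'] at he
    have h2 := f.injective (Subtype.ext he)
    rw [Prod.mk.injEq, Subtype.mk.injEq] at h2
    exact h2
  · intro c hc a he
    beta_reduce at he
    rw [dif_pos hc] at he
    exact hr (he ▸ (f (⟨c, hc⟩, a)).2)
  · intro c hc a
    beta_reduce
    rw [dif_pos hc]
    exact (f (⟨c, hc⟩, a)).2

end Pool.EQD
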