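import Pool.Agent.H79.EQD.Defs4
import Pool.Agent.H79.EQD.Sym

set_option autoImplicit false

namespace Pool.EQD

open MvPolynomial Pool.Agent.H80

universe u v w

section sep

variable {ι : Type} {G : Type v} [Fintype ι] [AddCommGroup G] {k : ℕ}

theorem Sep.of_two {u : ι → Fin k → G} (hu : Sep (fun c x => (2 : ℤ) • u c x)) : Sep u := by
  intro s s' a a' hs hs' h
  refine hu s s' a a' hs hs' ?_
  have h1 : ∀ (s : ι → ℤ) (a : ι → Fin k), ∑ c, s c • (2 : ℤ) • u c (a c) =
      (2 : ℤ) • ∑ c, s c • u c (a c) := by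
    intro s a
    rw [Finset.smul_sum]
    exact Finset.sum_congr rfl fun c _ => smul_comm _ _ _
  rw [h1, h1, h]

theorem Sep.ne_zero [DecidableEq ι] {u : ι → Fin k → G} (hu : Sep u) (c : ι) (x : Fin k) :
    u c x ≠ 0 := by
  intro h
  have h1 := hu (Pi.single c 1) 0 (fun _ => x) (fun _ => x) (fun d => by
    by_cases hd : d = c
    · subst hd; simp
    · simp [hd]) (fun d => by simp) (by
    rw [Finset.sum_eq_single c]
    · simp [h]
    · intro d _ hd
      simp [hd]
    · intro hc
      exact absurd (Finset.mem_univ _) hc) c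
  simp at h1

theorem Sep.inj [DecidableEq ι] {u : ι → Fin k → G} (hu : Sep u) (c c' : ι) (x x' : Fin k)
    (h : u c x = u c' x') : c = c' ∧ x = x' := by
  have h1 := hu (Pi.single c 1) (Pi.single c' 1) (fun _ => x) (fun _ => x') (fun d => by
    by_cases hd : d = c
    · subst hd; simp
    · simp [hd]) (fun d => by
    by_cases hd : d = c'
    · subst hd; simp
    · simp [hd]) (by
    rw [Finset.sum_eq_single c, Finset.sum_eq_single c']
    · simpa using h
    · intro d _ hd
      simp [hd]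
    · intro hc
      exact absurd (Finset.mem_univ _) hc
    · intro d _ hd
      simp [hd]
    · intro hc
      exact absurd (Finset.mem_univ _) hc) c
  obtain ⟨h2, h3⟩ := h1
  rw [Pi.single_eq_same] at h2 h3
  have h4 : c = c' := by
    by_contra hne
    rw [Pi.single_apply, if_neg hne] at h2
    exact one_ne_zero h2
  exact ⟨h4, h3 one_ne_zero⟩

end sep

/-- The lower bound in the variables `TVar`, for separating weights. -/
theorem tvar_bound2 (hD : DLBStmt.{u})
    {K : Type u} [Field K] {L : Type} [Fintype L] [DecidableEq L] (r : L) {N m : ℕ}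
    (t : L → Kˣ) (M : Matrix (Fin m) (Fin m) (MvPolynomial (TVar L) K)) (h k : ℕ)
    (lab : List Bool → Fin k → L) (hlab : LabInj h r lab)
    (hM : DetRep M (tsum K L N r)) (P Q : Matrix (Fin m) (Fin m) K) (hP : IsUnit P.det)
    (hQ : IsUnit Q.det) (hfix : M.map (scaleHom (wts t)) = P.map C * M * Q.map C)
    (ht : t r = 1) (hsep : Sep (fun (c : EdgeT h) (x : Fin k) => Additive.ofMul (t (lab c.1 x))))
    (hh : 0 < h) (hk : ((nodes h).card) ^ 2 < k) (hN : 2 ^ h ≤ N) :
    k ^ ((h + 1) / 2) ≤ m ^ 2 := by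
  classical
  obtain ⟨A, hA⟩ : ∃ A : Option (TVar L) → Matrix (Fin m) (Fin m) K, M = aff A :=
    ⟨_, eq_aff M hM.1⟩
  have hdet := hM.2
  rw [hA] at hdet hfix
  have hgA : P.map C * aff A * Q.map C = aff (fun o => P * A o * Q) := (aff_mul A P Q).symm
  rw [aff_scale, hgA] at hfix
  have hfix' := aff_injective hfix
  refine hD K L r h k N m lab t A P Q hlab hN hh hk ht hsep hdet hP hQ ?_ ?_
  · exact congrFun hfix' none
  · intro e
    exact congrFun hfix' (some e)

/-- The bound for diagonalizable symmetries over the given field, with separating eigenvalues. -/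
theorem sym_bound2_0 (hD : DLBStmt.{u}) (hV : INVStmt.{u}) (hC : SYCStmt.{u}) (hA : AD2Stmt.{u})
    {K : Type u} [Field K] {L : Type} [Fintype L] [DecidableEq L] (r : L) {N m : ℕ}
    (g b : Matrix L L K) (t : L → Kˣ)
    (M : Matrix (Fin m) (Fin m) (MvPolynomial (TVar L) K)) (h k : ℕ)
    (lab : List Bool → Fin k → L)
    (hM : DetRep M (tsum K L N r)) (hF : FixedBySym g M) (hr : FixRow r g)
    (hb : DiagBy g b t)
    (hsep : Sep (fun (c : EdgeT h) (x : Fin k) => (2 : ℤ) • Additive.ofMul (t (lab c.1 x))))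
    (hh : 0 < h) (hk : ((nodes h).card) ^ 2 < k) (hN : 2 ^ h ≤ N) :
    k ^ ((h + 1) / 2) ≤ m ^ 2 := by
  classical
  obtain ⟨b, σ, hrb, hb, ht⟩ := hA K L r g b t hr hb
  -- the new labels
  obtain ⟨lab', hlab'⟩ : ∃ lab' : List Bool → Fin k → L, lab' = fun c x => σ.symm (lab c x) :=
    ⟨_, rfl⟩
  have hlt : ∀ c x, t (σ (lab' c x)) = t (lab c x) := fun c x => by rw [hlab']; simp
  have hinj : LabInj h r lab' := by
    constructor
    · intro c hc c' hc' a a' h1
      have h2 : (2 : ℤ) • Additive.ofMul (t (lab c a)) =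
          (2 : ℤ) • Additive.ofMul (t (lab c' a')) := by
        rw [← hlt, ← hlt, h1]
      obtain ⟨h3, h4⟩ := hsep.inj ⟨c, hc⟩ ⟨c', hc'⟩ a a' h2
      exact ⟨congrArg Subtype.val h3, h4⟩
    · intro c hc a h1
      refine hsep.ne_zero ⟨c, hc⟩ a ?_
      change (2 : ℤ) • Additive.ofMul (t (lab c a)) = 0
      rw [← hlt, h1, ht, ofMul_one, smul_zero]
  obtain ⟨t₁, ht₁⟩ : ∃ t₁ : L → Kˣ, t₁ = fun i => t (σ i) := ⟨_, rfl⟩
  rw [← ht₁] at hb
  have ht1r : t₁ r = 1 := by rw [ht₁]; exact ht
  have hsep1 : Sep (fun (c : EdgeT h) (x : Fin k) =>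
      (2 : ℤ) • Additive.ofMul (t₁ (lab' c.1 x))) := by
    have : (fun (c : EdgeT h) (x : Fin k) => (2 : ℤ) • Additive.ofMul (t₁ (lab' c.1 x))) =
        fun (c : EdgeT h) (x : Fin k) => (2 : ℤ) • Additive.ofMul (t (lab c.1 x)) := by
      funext c x
      rw [ht₁]
      simp only [hlt]
    rw [this]
    exact hsep
  -- invertibility of `g`
  have hdiag : IsUnit (Matrix.diagonal (fun i => (t₁ i : K))).det := by
    rw [Matrix.det_diagonal]
    exact isUnit_iff_ne_zero.2 (Finset.prod_ne_zero_iff.2 fun i _ => (t₁ i).ne_zero)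
  have hg : IsUnit g.det := by
    have h1 : g.det * b.det = b.det * (Matrix.diagonal (fun i => (t₁ i : K))).det := by
      rw [← Matrix.det_mul, ← Matrix.det_mul, hb.2]
    have h2 : IsUnit (g.det * b.det) := by
      rw [h1]
      exact hb.1.mul hdiag
    exact isUnit_of_mul_isUnit_left h2
  -- a symmetry without transposition
  obtain ⟨g', t', P, Q, hg', hb', ht', hdis, hP, hQ, hfix⟩ :
      ∃ (g' : Matrix L L K) (t' : L → Kˣ) (P Q : Matrix (Fin m) (Fin m) K), IsUnit g'.det ∧
        DiagBy g' b t' ∧ t' r = 1 ∧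
        Sep (fun (c : EdgeT h) (x : Fin k) => Additive.ofMul (t' (lab' c.1 x))) ∧
        IsUnit P.det ∧ IsUnit Q.det ∧
        M.map (symHom g') = P.map C * M * Q.map C := by
    obtain ⟨P, Q, hP, hQ, h1 | h1⟩ := hF
    · exact ⟨g, t₁, P, Q, hg, hb, ht1r, hsep1.of_two, hP, hQ, h1⟩
    · refine ⟨g * g, fun i => t₁ i * t₁ i, P * Q.transpose, P.transpose * Q, ?_, ⟨hb.1, ?_⟩,
        by simp [ht1r], ?_, ?_, ?_, ?_⟩
      · rw [Matrix.det_mul]
        exact hg.mul hg
      · rw [Matrix.mul_assoc, hb.2, ← Matrix.mul_assoc, hb.2, Matrix.mul_assoc,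
          Matrix.diagonal_mul_diagonal]
        rfl
      · have h5 : (fun (c : EdgeT h) (x : Fin k) =>
            Additive.ofMul (t₁ (lab' c.1 x) * t₁ (lab' c.1 x))) =
            fun (c : EdgeT h) (x : Fin k) => (2 : ℤ) • Additive.ofMul (t₁ (lab' c.1 x)) := by
          funext c x
          rw [ofMul_mul, two_zsmul]
        rw [h5]
        exact hsep1
      · rw [Matrix.det_mul, Matrix.det_transpose]
        exact hP.mul hQ
      · rw [Matrix.det_mul, Matrix.det_transpose]
        exact hP.mul hQ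
      · have h2 : M.map (symHom (g * g)) = (M.map (symHom g)).map (symHom g) := by
          ext1 i j
          simp only [Matrix.map_apply]
          exact ((hC K L).1 g g hg hg _).symm
        have h3 : (M.transpose).map (symHom g) = (M.map (symHom g)).transpose := rfl
        rw [h2, h1, symHom_mul, symHom_mul, symHom_map_C, symHom_map_C, h3, h1,
          Matrix.transpose_mul, Matrix.transpose_mul, Matrix.transpose_transpose]
        have h4 : ∀ N : Matrix (Fin m) (Fin m) K,
            (N.map (C : K → MvPolynomial (TVar L) K)).transpose = N.transpose.map C :=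
          fun N => rfl
        rw [h4, h4, C_map_mul, C_map_mul]
        simp only [Matrix.mul_assoc]
  -- the new matrix
  have hdiag' : IsUnit (Matrix.diagonal (fun i => (t' i : K))).det := by
    rw [Matrix.det_diagonal]
    exact isUnit_iff_ne_zero.2 (Finset.prod_ne_zero_iff.2 fun i _ => (t' i).ne_zero)
  refine tvar_bound2 hD r t' (M.map (symHom b)) h k lab' hinj ⟨?_, ?_⟩ P Q hP hQ ?_ ht' hdis
    hh hk hN
  · intro i j
    exact totalDegree_le_one_of _ (totalDegree_symHom b) _ (hM.1 i j)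
  · have h1 : (M.map (symHom b)).det = symHom b M.det := (AlgHom.map_det (symHom b) M).symm
    rw [h1, hM.2]
    exact hV K L r b N hb.1 hrb
  · have h1 : (M.map (symHom b)).map (scaleHom (wts t')) =
        (M.map (symHom b)).map (symHom (Matrix.diagonal fun i => (t' i : K))) := by
      rw [(hC K L).2 t']
      rfl
    have h2 : (M.map (symHom b)).map (symHom (Matrix.diagonal fun i => (t' i : K))) =
        (M.map (symHom g')).map (symHom b) := by
      ext1 i j
      simp only [Matrix.map_apply]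
      rw [(hC K L).1 b _ hb.1 hdiag', (hC K L).1 g' b hg' hb.1, hb'.2]
    rw [h1, h2, hfix, symHom_mul, symHom_mul, symHom_map_C, symHom_map_C]

/-- Extension of scalars. -/
theorem fixed_map {K K' : Type u} [Field K] [Field K'] (φ : K →+* K') {L : Type} [Fintype L]
    [DecidableEq L] (g : Matrix L L K) (hg : IsUnit g.det) {m N : ℕ} (r : L)
    (M : Matrix (Fin m) (Fin m) (MvPolynomial (TVar L) K)) (hM : DetRep M (tsum K L N r))
    (hF : FixedBySym g M) :
    DetRep (M.map (MvPolynomial.map φ)) (tsum K' L N r) ∧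
      FixedBySym (g.map φ) (M.map (MvPolynomial.map φ)) := by
  have hdetmap : ∀ {n : Type} [Fintype n] [DecidableEq n] (P : Matrix n n K),
      (P.map φ).det = φ P.det := fun P => (RingHom.map_det φ P).symm
  refine ⟨⟨?_, ?_⟩, ?_⟩
  · intro i j
    refine le_trans ?_ (hM.1 i j)
    rw [Matrix.map_apply]
    exact Finset.sup_mono (support_map_subset φ _)
  · have h1 : (M.map (MvPolynomial.map φ)).det = MvPolynomial.map φ M.det :=
      (RingHom.map_det (MvPolynomial.map φ) M).symm
    rw [h1, hM.2, map_tsum']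
  · obtain ⟨P, Q, hP, hQ, h1⟩ := hF
    have hCm : ∀ P : Matrix (Fin m) (Fin m) K,
        (P.map (C : K → MvPolynomial (TVar L) K)).map (MvPolynomial.map φ) =
          (P.map φ).map C := by
      intro P
      ext1 i j
      simp
    have hmm : ∀ M N : Matrix (Fin m) (Fin m) (MvPolynomial (TVar L) K),
        (M * N).map (MvPolynomial.map φ) =
          M.map (MvPolynomial.map φ) * N.map (MvPolynomial.map φ) := fun M N => Matrix.map_mul
    have h2 : (M.map (MvPolynomial.map φ)).map (symHom (g.map φ)) =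
        (M.map (symHom g)).map (MvPolynomial.map φ) := by
      ext1 i j
      simp only [Matrix.map_apply]
      exact (map_symHom φ g hg _).symm
    refine ⟨P.map φ, Q.map φ, ?_, ?_, ?_⟩
    · rw [hdetmap]
      exact hP.map φ
    · rw [hdetmap]
      exact hQ.map φ
    · rw [h2]
      rcases h1 with h1 | h1
      · left
        rw [h1, hmm, hmm, hCm, hCm]
      · right
        rw [h1, hmm, hmm, hCm, hCm]
        rfl

/-- The bound for one permutation of the labels. -/
theorem perm_bound (hD : DLBStmt.{u}) (hV : INVStmt.{u}) (hC : SYCStmt.{u}) (hA : AD2Stmt.{u})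
    (hPR : PR2Stmt.{u}) (hSP : SPRStmt.{u})
    {K : Type u} [Field K] {L : Type} [Fintype L] [DecidableEq L] (r : L) {N m : ℕ}
    (π : Equiv.Perm L) (M : Matrix (Fin m) (Fin m) (MvPolynomial (TVar L) K)) (h k : ℕ)
    (p : EdgeT h → ℕ) (x : EdgeT h → L) (hp : ∀ c, (p c).Prime ∧ 4 * k < p c)
    (hpi : Function.Injective p) (hx : ∀ c, Function.minimalPeriod π (x c) = p c)
    (hM : DetRep M (tsum K L N r)) (hF : FixedBySym (π.permMatrix K) M) (hr : π r = r)
    (hord : (orderOf π : K) ≠ 0)
    (hh : 0 < h) (hk : ((nodes h).card) ^ 2 < k) (hN : 2 ^ h ≤ N) :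
    k ^ ((h + 1) / 2) ≤ m ^ 2 := by
  classical
  set φ := algebraMap K (AlgebraicClosure K) with hφ
  have hinj : Function.Injective φ := φ.injective
  have hord' : (orderOf π : AlgebraicClosure K) ≠ 0 := by
    intro h0
    apply hord
    apply hinj
    rw [map_natCast, h0, map_zero]
  have hperd : ∀ c, p c ∣ orderOf π := by
    intro c
    rw [← hx c]
    apply Function.IsPeriodicPt.minimalPeriod_dvd
    have h1 : ((π ^ orderOf π : Equiv.Perm L) : L → L) (x c) = x c := by
      rw [pow_orderOf_eq_one]; rfl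
    rw [← Equiv.Perm.iterate_eq_pow] at h1
    exact h1
  have hpne : ∀ c, (p c : AlgebraicClosure K) ≠ 0 := by
    intro j h0
    obtain ⟨c, hc⟩ := hperd j
    apply hord'
    rw [hc, Nat.cast_mul, h0, zero_mul]
  have hex : ∀ c, ∃ ζ : (AlgebraicClosure K)ˣ, orderOf ζ = p c := by
    intro c
    have : NeZero (p c : AlgebraicClosure K) := ⟨hpne c⟩
    obtain ⟨ζ, hζ⟩ := HasEnoughRootsOfUnity.exists_primitiveRoot (AlgebraicClosure K) (p c)
    refine ⟨Units.mk0 ζ (hζ.ne_zero (hp c).1.ne_zero), ?_⟩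
    rw [← orderOf_units, Units.val_mk0, ← hζ.eq_orderOf]
  choose ζ hζ using hex
  obtain ⟨b, t, hb, ht⟩ := hPR (AlgebraicClosure K) L π hord'
  have hlab : ∀ (c : EdgeT h) (a : Fin k), ∃ i, t i = ζ c ^ ((a : ℕ) + 1) := by
    intro c a
    apply ht (x c)
    rw [hx c, ← pow_mul, mul_comm, pow_mul, ← hζ c, pow_orderOf_eq_one, one_pow]
  choose lab0 hlab0 using hlab
  obtain ⟨lab, hlabE⟩ : ∃ lab : List Bool → Fin k → L, ∀ (c : EdgeT h) (a : Fin k),
      lab c.1 a = lab0 c a := by
    refine ⟨fun c a => if hc : c ∈ edges h then lab0 ⟨c, hc⟩ a else r, fun c a => ?_⟩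
    exact dif_pos c.2
  have hdet : IsUnit (π.permMatrix K).det := by
    rw [Matrix.det_permutation]
    rcases Int.units_eq_one_or (Equiv.Perm.sign π) with h1 | h1 <;> rw [h1] <;> simp
  obtain ⟨hM', hF'⟩ := fixed_map φ (π.permMatrix K) hdet r M hM hF
  have hmp : (π.permMatrix K).map φ = π.permMatrix (AlgebraicClosure K) := by
    ext i j
    simp [Equiv.Perm.permMatrix, PEquiv.toMatrix_apply]
  rw [hmp] at hF'
  refine sym_bound2_0 hD hV hC hA r (π.permMatrix (AlgebraicClosure K)) b t _ h k lab hM' hF' ?_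
    hb ?_ hh hk hN
  · intro a
    simp only [Equiv.Perm.permMatrix, PEquiv.toMatrix_apply, Equiv.toPEquiv_apply, hr,
      Option.mem_def, Option.some.injEq]
    exact if_congr eq_comm rfl rfl
  · have h1 : (fun (c : EdgeT h) (a : Fin k) => (2 : ℤ) • Additive.ofMul (t (lab c.1 a))) =
        fun (c : EdgeT h) (a : Fin k) => (2 : ℤ) • Additive.ofMul (ζ c ^ ((a : ℕ) + 1)) := by
      funext c a
      rw [hlabE, hlab0]
    rw [h1]
    exact hSP _ (EdgeT h) p ζ k hp hpi hζ

end Pool.EQD
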