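import Pool.Agent.H79.EQD.Cut
import Pool.Agent.H79.EQD.Pre
import Pool.Agent.H79.EQD.Cnt
import Pool.Agent.H79.EQD.Trc
import Pool.Agent.H79.EQD.Dex
import Pool.Agent.H79.EQD.Grb
import Pool.Agent.H79.EQD.Dcm
import Pool.Agent.H79.EQD.Syc
import Pool.Agent.H79.EQD.Ad2
import Pool.Agent.H79.EQD.Pr2
import Pool.Agent.H79.EQD.Spr
import Pool.Agent.H79.EQD.Pri
import Pool.Agent.H79.EQD.Cyc
import Pool.Agent.H79.EQD.Bid
import Pool.Agent.H79.EQD.Bls
import Pool.Agent.H79.EQD.Pth
import Pool.Agent.H79.EQD.Emg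
import Pool.Agent.H79.EQD.Smt
import Pool.Agent.H79.EQD.Eu2
import Pool.Agent.H58.EQD.Inv
import Pool.Agent.H79.EQD.Brd
import Pool.Agent.H79.EQD.Fre

/-!
# The order of a symmetry at which `VP` and `VP_ws` provably separate

Circuits, `VP` and `VP_ws` are defined in `Pool.Agent.H80.Circuit`, following the problem file.
-/

set_option autoImplicit false

namespace Pool.Agent.Results.MP_f18ce0_lc.SymmetryThreshold

open MvPolynomial Filter Pool.Agent.H80

universe u

/-- The variables of the generic quadratic system with `n + 1` unknowns: `Sum.inl i` is `x_i` and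
`Sum.inr (i, j, k)` is `x_{i,j,k}`, where `i, j, k ∈ {0, ..., n}`. -/
abbrev Var (n : ℕ) : Type := TVar (Fin (n + 1))

/-- The tree polynomial `T_n`: the part with at most `n + 1` leaves of the component `y_0` of the
power series solution of the generic quadratic system `y_i = x_i + ∑_{j,k} x_{i,j,k} y_j y_k`,
`0 ≤ i ≤ n`. (`tp K L m i` is the part of `y_i` with exactly `m` leaves.) -/
noncomputable def T (K : Type u) [CommSemiring K] (n : ℕ) : MvPolynomial (Var n) K :=
  ∑ m ∈ Finset.range (n + 2), tp K (Fin (n + 1)) m 0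

/-- The linear substitution given by an invertible matrix `g`: the vector `x` is replaced by `g x`
and the bilinear map `X = (x_{i,j,k})` by `g X (g⁻¹ ⊗ g⁻¹)`. -/
noncomputable def act {K : Type u} [Field K] {n : ℕ} (g : Matrix (Fin (n + 1)) (Fin (n + 1)) K) :
    MvPolynomial (Var n) K →ₐ[K] MvPolynomial (Var n) K :=
  aeval fun x => match x with
    | Sum.inl i => ∑ a, C (g i a) * X (Sum.inl a)
    | Sum.inr (i, j, k) => ∑ a, ∑ b, ∑ c, C (g i a * g⁻¹ b j * g⁻¹ c k) * X (Sum.inr (a, b, c))

/-- `g` is an invertible matrix whose first row is the first row of the identity matrix. These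
matrices are symmetries of `T_n`, see `act_T`. -/
def IsSymmetry {K : Type u} [Field K] {n : ℕ} (g : Matrix (Fin (n + 1)) (Fin (n + 1)) K) : Prop :=
  IsUnit g.det ∧ ∀ a, g 0 a = if a = 0 then 1 else 0

/-- `M` is a determinantal representation of `T_n`: its entries are polynomials of degree at most
one, and its determinant is `T_n`. -/
def IsRepresentation {K : Type u} [Field K] {n m : ℕ}
    (M : Matrix (Fin m) (Fin m) (MvPolynomial (Var n) K)) : Prop :=
  (∀ i j, (M i j).totalDegree ≤ 1) ∧ M.det = T K n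

/-- `M` is fixed by `g`, up to the two standard equivalences `M ↦ P M Q` and `M ↦ P Mᵀ Q` with
constant invertible matrices `P` and `Q`. -/
def FixedBy {K : Type u} [Field K] {n m : ℕ} (g : Matrix (Fin (n + 1)) (Fin (n + 1)) K)
    (M : Matrix (Fin m) (Fin m) (MvPolynomial (Var n) K)) : Prop :=
  ∃ P Q : Matrix (Fin m) (Fin m) K, IsUnit P.det ∧ IsUnit Q.det ∧
    (M.map (act g) = P.map C * M * Q.map C ∨ M.map (act g) = P.map C * M.transpose * Q.map C)

/-- `M` is a border representation of `T_n`: its entries are polynomials of degree at most one with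
coefficients in the field `K(ε)` of rational functions, and its determinant is a polynomial `F` with
coefficients in `K[ε]` which becomes `T_n` for `ε = 0`. Representations over `K` are border
representations, see `border_of_representation`. -/
def IsBorderRepresentation {K : Type u} [Field K] {n m : ℕ}
    (M : Matrix (Fin m) (Fin m) (MvPolynomial (Var n) (RatFunc K))) : Prop :=
  (∀ i j, (M i j).totalDegree ≤ 1) ∧ ∃ F : MvPolynomial (Var n) (Polynomial K),
    M.det = MvPolynomial.map (algebraMap (Polynomial K) (RatFunc K)) F ∧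
      MvPolynomial.map (Polynomial.evalRingHom 0) F = T K n

theorem act_eq {K : Type u} [Field K] {n : ℕ} (g : Matrix (Fin (n + 1)) (Fin (n + 1)) K) :
    act g = Pool.EQD.symHom g := by
  apply MvPolynomial.algHom_ext
  intro x
  unfold act Pool.EQD.symHom
  rw [aeval_X, aeval_X]
  rcases x with i | ⟨i, j, k⟩
  · rfl
  · rfl

theorem T_eq (K : Type u) [CommSemiring K] (n : ℕ) :
    T K n = Pool.Agent.H80.tsum K (Fin (n + 1)) (n + 1) 0 := by
  unfold T Pool.Agent.H80.tsum
  rfl

theorem rep_iff {K : Type u} [Field K] {n m : ℕ}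
    (M : Matrix (Fin m) (Fin m) (MvPolynomial (Var n) K)) : IsRepresentation M ↔
      Pool.EQD.DetRep M (Pool.Agent.H80.tsum K (Fin (n + 1)) (n + 1) 0) := by
  unfold IsRepresentation Pool.EQD.DetRep
  rw [T_eq]

theorem fixed_iff {K : Type u} [Field K] {n m : ℕ} (g : Matrix (Fin (n + 1)) (Fin (n + 1)) K)
    (M : Matrix (Fin m) (Fin m) (MvPolynomial (Var n) K)) : FixedBy g M ↔
      Pool.EQD.FixedBySym g M := by
  unfold FixedBy Pool.EQD.FixedBySym
  rw [act_eq]

theorem border_iff {K : Type u} [Field K] {n m : ℕ}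
    (M : Matrix (Fin m) (Fin m) (MvPolynomial (Var n) (RatFunc K))) : IsBorderRepresentation M ↔
      Pool.EQD.BDetRep M (Pool.Agent.H80.tsum K (Fin (n + 1)) (n + 1) 0) := by
  unfold IsBorderRepresentation Pool.EQD.BDetRep
  rw [T_eq]

/-- A representation fixed by `g` is a border representation fixed by `g`. -/
theorem border_of_representation {K : Type u} [Field K] {n m : ℕ}
    (g : Matrix (Fin (n + 1)) (Fin (n + 1)) K) (hg : IsUnit g.det)
    (M : Matrix (Fin m) (Fin m) (MvPolynomial (Var n) K)) (hM : IsRepresentation M)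
    (hF : FixedBy g M) :
    IsBorderRepresentation (M.map (MvPolynomial.map (algebraMap K (RatFunc K)))) ∧
      FixedBy (g.map (algebraMap K (RatFunc K)))
        (M.map (MvPolynomial.map (algebraMap K (RatFunc K)))) := by
  refine ⟨⟨?_, MvPolynomial.map Polynomial.C (T K n), ?_, ?_⟩, ?_⟩
  · intro i j
    refine le_trans ?_ (hM.1 i j)
    rw [Matrix.map_apply]
    exact Finset.sup_mono (support_map_subset _ _)
  · have h1 : (M.map (MvPolynomial.map (algebraMap K (RatFunc K)))).det =
        MvPolynomial.map (algebraMap K (RatFunc K)) M.det :=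
      (RingHom.map_det (MvPolynomial.map (algebraMap K (RatFunc K))) M).symm
    have h2 : (algebraMap (Polynomial K) (RatFunc K)).comp Polynomial.C =
        algebraMap K (RatFunc K) := by
      ext x
      simp
    rw [h1, hM.2, MvPolynomial.map_map, h2]
  · rw [MvPolynomial.map_map]
    have h1 : (Polynomial.evalRingHom (0 : K)).comp Polynomial.C = RingHom.id K := by
      ext x
      simp
    rw [h1, MvPolynomial.map_id]
  · exact (fixed_iff _ _).2 (Pool.EQD.fixedBySym_map _ g hg M ((fixed_iff g M).1 hF))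

/-- The symmetries of `T_n`. -/
theorem act_T {K : Type u} [Field K] {n : ℕ} (g : Matrix (Fin (n + 1)) (Fin (n + 1)) K)
    (hg : IsSymmetry g) : act g (T K n) = T K n := by
  rw [act_eq, T_eq]
  exact Pool.EQD.t_inv K (Fin (n + 1)) 0 g (n + 1) hg.1 hg.2

/-- The lower bound for determinants. -/
theorem dlb' : Pool.EQD.DLB2Stmt.{u} :=
  Pool.EQD.dlb2 Pool.EQD.t_cut Pool.EQD.t_pre Pool.EQD.t_cnt Pool.EQD.t_inj
    Pool.EQD.t_dex Pool.EQD.t_grb Pool.EQD.t_dcm

/-- A threshold for the order of the symmetries of determinantal representations of the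
VP-complete polynomials `T_n`.

(1) Symmetries of polynomial order are free: for all groups `G n` of symmetries of `T_n` of
polynomially bounded order, invertible in `K`, `VP = VP_ws` over `K` if and only if `T_n` has
determinantal representations of polynomially bounded size fixed by `G n`.

(2) Above polynomial order, even a single symmetry forces superpolynomial size, also for border
representations: for every function `g` tending to infinity and all large `n`, some permutation `π`
of `{0, ..., n}` with `π 0 = 0` of order at most `n ^ g(n)`, invertible in `K`, is such that all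
border representations of `T_n` fixed by `π` have size at least `n ^ (c log (min (g n) n))`.

(3) This is optimal for `g(n) ≥ n ^ ε`, since size `n ^ O(log n)` suffices for all symmetries
together. -/
theorem result :
    (∀ (K : Type u) [Field K] (G : (n : ℕ) → Subgroup (GL (Fin (n + 1)) K)),
      (∀ n, ∀ g ∈ G n, IsSymmetry g.val) →
      (∃ p : Polynomial ℕ, ∀ n, Nat.card (G n) ≤ p.eval n) →
      (∀ n, (Nat.card (G n) : K) ≠ 0) →
      (VP K = VPws K ↔ ∃ q : Polynomial ℕ, ∀ n, ∃ (m : ℕ)
        (M : Matrix (Fin m) (Fin m) (MvPolynomial (Var n) K)),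
        m ≤ q.eval n ∧ IsRepresentation M ∧ ∀ g ∈ G n, FixedBy g.val M)) ∧
    (∃ c : ℝ, 0 < c ∧ ∀ (K : Type u) [Field K] (g : ℕ → ℕ), Tendsto g atTop atTop →
      ∀ᶠ n : ℕ in atTop, ∃ π : Equiv.Perm (Fin (n + 1)), π 0 = 0 ∧ orderOf π ≤ n ^ g n ∧
        (orderOf π : K) ≠ 0 ∧
        ∀ (m : ℕ) (M : Matrix (Fin m) (Fin m) (MvPolynomial (Var n) (RatFunc K))),
          IsBorderRepresentation M → FixedBy (π.permMatrix (RatFunc K)) M →
          (n : ℝ) ^ (c * Real.log (min (g n) n : ℕ)) ≤ m) ∧
    (∃ c : ℕ, ∀ (K : Type u) [Field K] (n : ℕ), ∃ (m : ℕ)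
      (M : Matrix (Fin m) (Fin m) (MvPolynomial (Var n) K)),
      m ≤ (n + 2) ^ (c * Nat.log 2 (n + 2)) ∧ IsRepresentation M ∧
      ∀ g : Matrix (Fin (n + 1)) (Fin (n + 1)) K, IsSymmetry g → FixedBy g M) := by
  refine ⟨?_, ?_, ?_⟩
  · intro K _ G hG hc hi
    simp only [rep_iff, fixed_iff]
    exact Pool.EQD.free_iff Pool.EQD.t_bid Pool.EQD.t_bls Pool.EQD.t_pth
      (Pool.EQD.t_smt Pool.EQD.t_emg Pool.EQD.t_syc) Pool.EQD.t_inv K G (fun n g hg => (hG n g hg).2)
      hc hi
  · obtain ⟨c, hc, h⟩ := Pool.EQD.thr3 dlb'.{u} Pool.EQD.t_inv Pool.EQD.t_trc Pool.EQD.t_syc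
      Pool.EQD.t_ad2 Pool.EQD.t_pr2 Pool.EQD.t_spr Pool.EQD.t_pri Pool.EQD.t_cyc
    refine ⟨c, hc, ?_⟩
    intro K _ g hg
    filter_upwards [h K g hg] with n hn
    obtain ⟨π, h1, h2, h3, h4⟩ := hn
    exact ⟨π, h1, h3, h2, fun m M hM hF => h4 m M ((border_iff M).1 hM) ((fixed_iff _ M).1 hF)⟩
  · obtain ⟨c, h⟩ := Pool.EQD.t_eu2.{u}
    refine ⟨c, ?_⟩
    intro K _ n
    obtain ⟨m, M, h1, h2, h3⟩ := h K n
    exact ⟨m, M, h2, (rep_iff M).2 h1, fun g hg => (fixed_iff g M).2 (h3 g hg.1 hg.2)⟩

end Pool.Agent.Results.MP_f18ce0_lc.SymmetryThreshold
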