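import Pool.Agent.H79.EQD.Hom
import Pool.Agent.H79.EQD.Lsh
import Pool.Agent.H34.EQD.VPH
import Pool.Agent.H80.Complete

set_option autoImplicit false

namespace Pool.EQD

open MvPolynomial Pool.Agent.H80

universe u v w

/-- A weakly skew circuit for a polynomial which is homogeneous for an integer grading can be made
homogeneous, with size polynomial in the old size and in the weights of the variables. -/
theorem part2 {K : Type u} [CommSemiring K] {σ : Type} (w : σ → ℤ) (W : ℕ)
    (hw : ∀ i, |w i| ≤ W) (D : Circuit K σ) (f : MvPolynomial σ K) (hD : D.WeaklySkew)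
    (hf : D.Computes f) (hom : Hom w f) :
    ∃ D' : Circuit K σ, D'.WeaklySkew ∧ HomComputes w D' f ∧
      D'.size ≤ 6 * (D.size + 1) ^ 2 * (W + 1) := by
  obtain ⟨l, hl, hlen, hfl⟩ := hD.exists_lslp hf
  obtain ⟨l', hl', hh, hlen', hcomp⟩ := t_hom K σ w W l hw hl
  obtain ⟨m, hm⟩ := hom
  have hfl' : f ∈ l' := by
    have h1 := hcomp f hfl m
    rwa [hm.weightedHomogeneousComponent_same] at h1
  obtain ⟨D', h1, h2, h3⟩ := t_lsh K σ ℤ w l' f hl' hh hfl'
  refine ⟨D', h1, h2, ?_⟩
  have h4 : l.length * (2 * (l.length * W) + 1) ≤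
      (D.size + 1) * (2 * ((D.size + 1) * W) + 1) := by
    have h5 : l.length ≤ D.size + 1 := by omega
    gcongr
  have h6 : D'.size + 1 ≤ 2 * (2 + (D.size + 1) * (2 * ((D.size + 1) * W) + 1)) := by omega
  have h7 : 2 * (2 + (D.size + 1) * (2 * ((D.size + 1) * W) + 1)) ≤
      6 * (D.size + 1) ^ 2 * (W + 1) + 1 := by
    nlinarith [Nat.zero_le D.size, Nat.zero_le W, Nat.zero_le (D.size * W),
      Nat.zero_le (D.size * D.size * W)]
  omega

theorem HomComputes.computes {K : Type u} {σ : Type} {G : Type v} [CommSemiring K]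
    [AddCommMonoid G] {w : σ → G} {D : Circuit K σ} {f : MvPolynomial σ K}
    (h : HomComputes w D f) : D.Computes f := by
  obtain ⟨val, h1, h2, -⟩ := h
  exact ⟨val, h1, h2⟩

theorem HomComputes.hom {K : Type u} {σ : Type} {G : Type v} [CommSemiring K]
    [AddCommMonoid G] {w : σ → G} {D : Circuit K σ} {f : MvPolynomial σ K}
    (h : HomComputes w D f) : Hom w f := by
  obtain ⟨val, h1, rfl, h3⟩ := h
  exact h3 _

/-- For weights of polynomial size the homogeneous separation is equivalent to `VP ≠ VP_ws`. -/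
theorem part2' (K : Type u) [CommSemiring K] [Nontrivial K] (u : (n : ℕ) → Fin (n + 1) → ℤ)
    (hu : ∃ p : Polynomial ℕ, ∀ (n : ℕ) (i : Fin (n + 1)), |u n i| ≤ (p.eval n : ℕ)) :
    VP K = VPws K ↔ ∃ q : Polynomial ℕ, ∀ n : ℕ, ∃ D : Circuit K (Fin (nvar n)),
      D.WeaklySkew ∧ HomComputes (treeWeight (u n)) D (treePoly K n) ∧ D.size ≤ q.eval n := by
  rw [VP_eq_VPws_iff]
  constructor
  · rintro ⟨q, hq⟩
    obtain ⟨p, hp⟩ := hu
    refine ⟨Polynomial.C 6 * (q + 1) ^ 2 * (Polynomial.C 3 * p + 1), fun n => ?_⟩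
    obtain ⟨D, h1, h2, h3⟩ := hq n
    obtain ⟨p', hp'⟩ := Pool.Agent.H34.EQD.t_vph.{u, 0}
    obtain ⟨E, hE, -⟩ := hp' K ℤ n (u n)
    have h7 : ∀ e : TVar (Fin (n + 1)), |tw (u n) e| ≤ 3 * (p.eval n : ℕ) := by
      rintro (i | ⟨i, j, k⟩)
      · have h8 := hp n i
        have h9 : (0 : ℤ) ≤ (p.eval n : ℕ) := by positivity
        simp only [tw]
        linarith
      · have h8 := hp n i
        have h9 := hp n j
        have h10 := hp n k
        simp only [tw]
        have h11 := abs_sub (u n i - u n j) (u n k)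
        have h12 := abs_sub (u n i) (u n j)
        linarith
    obtain ⟨D', h4, h5, h6⟩ := part2 (treeWeight (u n)) (3 * p.eval n) (fun x => by
      unfold treeWeight
      push_cast
      exact h7 _) D (treePoly K n) h1 h2 hE.hom
    refine ⟨D', h4, h5, h6.trans ?_⟩
    simp only [Polynomial.eval_mul, Polynomial.eval_C, Polynomial.eval_pow,
      Polynomial.eval_add, Polynomial.eval_one]
    gcongr
    exact h3
  · rintro ⟨q, hq⟩
    refine ⟨q, fun n => ?_⟩
    obtain ⟨D, h1, h2, h3⟩ := hq n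
    exact ⟨D, h1, h2.computes, h3⟩

end Pool.EQD
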