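import Pool.Agent.H79.EQD.Defs

/-!
# Homogeneous weakly skew circuits give homogeneous skew programs (board `vgr`, row WSH)
-/

set_option autoImplicit false

namespace Pool.EQD

open MvPolynomial Pool.Agent.H80

universe u v w

section

variable {K : Type u} {σ : Type} [CommSemiring K]

/-- Derivation of skew programs from weakly skew pre-circuits, with an invariant `P`. -/
theorem deriveP (D : Pre K σ) [Fintype D.V] (val : D.V → MvPolynomial σ K)
    (hval : D.IsVal val) (P : MvPolynomial σ K → Prop) (hP : ∀ c v, P c → P (c * val v))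
    (hmul : ∀ g a b : D.V, D.gate g = Gate.mul a b → ∃ j t, D.ClosedEdge g j t) :
    ∀ (n : ℕ) (S : Finset D.V), S.card = n → D.DownClosed S →
      ∀ (l : List (MvPolynomial σ K)) (c : MvPolynomial σ K), c ∈ l →
      ∃ l', LDer l S.card l' ∧ ((∀ p ∈ l, P p) → ∀ p ∈ l', P p) ∧
        ∀ v, D.OpenIn S v → c * val v ∈ l' := by
  classical
  obtain ⟨rank, hr⟩ := D.acyclic
  intro n
  induction n using Nat.strong_induction_on with
  | _ n ihn =>
  intro S hSn hS l c hc
  rcases S.eq_empty_or_nonempty with rfl | hne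
  · refine ⟨l, by simpa using LDer.refl l, fun h => h, ?_⟩
    intro v hv
    exact absurd hv.1 (Finset.notMem_empty v)
  obtain ⟨g, hg, hmax⟩ := Finset.exists_max_image S rank hne
  have hS' : D.DownClosed (S.erase g) := by
    intro v hv j t ht
    have hvS := Finset.mem_of_mem_erase hv
    refine Finset.mem_erase.2 ⟨?_, hS v hvS j t ht⟩
    rintro rfl
    have h1 := hr _ _ _ ht
    have h2 := hmax v hvS
    omega
  have hcard' : (S.erase g).card + 1 = S.card := Finset.card_erase_add_one hg
  -- derive everything below `g`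
  obtain ⟨l1, h1, h1P, h1'⟩ := ihn (S.erase g).card (by omega) (S.erase g) rfl hS' l c hc
  have hsub : ∀ v, D.OpenIn S v → v = g ∨ D.OpenIn (S.erase g) v := by
    intro v hv
    by_cases hvg : v = g
    · exact Or.inl hvg
    · exact Or.inr (hv.mono (Finset.erase_subset _ _) (Finset.mem_erase.2 ⟨hvg, hv.1⟩))
  have finish1 : ∀ p, LStep l1 p → p = c * val g → ∃ l', LDer l S.card l' ∧
      ((∀ p ∈ l, P p) → ∀ p ∈ l', P p) ∧ ∀ v, D.OpenIn S v → c * val v ∈ l' := by
    intro p hp hpe
    refine ⟨p :: l1, (h1.step hp).mono ?_, ?_, ?_⟩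
    · rw [← hcard']
    · intro hl q hq
      rcases List.mem_cons.1 hq with rfl | hq
      · rw [hpe]; exact hP c g (hl c hc)
      · exact h1P hl q hq
    · intro v hv
      rcases hsub v hv with rfl | hv'
      · rw [hpe]; exact List.mem_cons_self
      · exact List.mem_cons_of_mem _ (h1' v hv')
  have hcl1 : c ∈ l1 := h1.2.1 hc
  cases hgate : D.gate g with
  | var i =>
    refine finish1 (c * X i) (LStep.mulVar hcl1 i) ?_
    rw [hval g, hgate]
    rfl
  | const a =>
    refine finish1 (c * C a) (LStep.mulConst hcl1 a) ?_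
    rw [hval g, hgate]
    rfl
  | add a b =>
    have ha := D.openIn_tail S hS rank hr g hg hmax 0 a (by rw [hgate]; rfl)
    have hb := D.openIn_tail S hS rank hr g hg hmax 1 b (by rw [hgate]; rfl)
    refine finish1 (c * val a + c * val b) (LStep.add (h1' a ha) (h1' b hb)) ?_
    rw [hval g, hgate, ← mul_add]
    rfl
  | mul a b =>
    have hvg : val g = val a * val b := by rw [hval g, hgate]; rfl
    -- the two operands
    have htails : ∀ (j : Fin 2) (t : D.V), (D.gate g).tail j = some t →
        ∃ (k : Fin 2) (r : D.V), k ≠ j ∧ (D.gate g).tail k = some r ∧ val g = val r * val t := by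
      intro j t ht
      rw [hgate] at ht
      simp only [Gate.tail, Option.some.injEq] at ht
      by_cases hj : j = 0
      · rw [if_pos hj] at ht
        subst ht
        refine ⟨1, b, by rw [hj]; decide, by rw [hgate]; rfl, ?_⟩
        rw [hvg, mul_comm]
      · rw [if_neg hj] at ht
        subst ht
        refine ⟨0, a, fun h' => hj h'.symm, by rw [hgate]; rfl, hvg⟩
    obtain ⟨j, t, ht⟩ := hmul g a b hgate
    obtain ⟨k', r, hk', hr', hvr⟩ := htails j t ht.1
    have hgt : ¬ D.Path g t := by
      intro hp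
      have h2 := Pre.Path.rank_le hr hp
      have h3 := hr _ _ _ ht.1
      omega
    have hrt : ¬ D.Path r t := fun hp => hk' (ht.2 g k' r hr' hp hgt).2
    set S2 : Finset D.V := (S.erase g).filter (fun v => ¬ D.Path v t) with hS2
    have hS2sub : S2 ⊆ S.erase g := Finset.filter_subset _ _
    have hS2d : D.DownClosed S2 := by
      intro v hv i u hu
      obtain ⟨hv1, hv2⟩ := Finset.mem_filter.1 hv
      refine Finset.mem_filter.2 ⟨hS' v hv1 i u hu, ?_⟩
      intro hp
      exact Finset.ne_of_mem_erase hv1 (ht.2 v i u hu hp hv2).1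
    have hancsub : D.anc t ⊆ S.erase g := by
      intro v hv
      rw [D.mem_anc] at hv
      have htS : t ∈ S := hS g hg j t ht.1
      refine Finset.mem_erase.2 ⟨?_, hS.path hv htS⟩
      rintro rfl
      exact hgt hv
    have hcardsum : S2.card + (D.anc t).card ≤ (S.erase g).card := by
      have hdisj : Disjoint S2 (D.anc t) := by
        rw [Finset.disjoint_left]
        intro v hv hv'
        exact (Finset.mem_filter.1 hv).2 ((D.mem_anc v t).1 hv')
      rw [← Finset.card_union_of_disjoint hdisj]
      exact Finset.card_le_card (Finset.union_subset hS2sub hancsub)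
    have hrS2 : D.OpenIn S2 r := by
      have h2 := D.openIn_tail S hS rank hr g hg hmax k' r hr'
      exact h2.mono hS2sub (Finset.mem_filter.2 ⟨h2.1, hrt⟩)
    obtain ⟨l2, h2, h2P, h2'⟩ := ihn S2.card (by omega) S2 rfl hS2d l c hc
    obtain ⟨l3, h3, h3P, h3'⟩ := ihn (D.anc t).card (by omega) (D.anc t) rfl
      (D.anc_downClosed t) l2 (c * val r) (h2' r hrS2)
    refine ⟨l3, (h2.trans h3).mono (by omega), fun hl => h3P (h2P hl), ?_⟩
    intro v hv
    by_cases hvg' : v = g
    · subst hvg'
      rw [hvr, ← mul_assoc]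
      exact h3' t (D.anc_openIn t)
    · have hvt : ¬ D.Path v t := hv.2 g hg j t ht
      refine h3.2.1 (h2' v (hv.mono (hS2sub.trans (Finset.erase_subset _ _)) ?_))
      exact Finset.mem_filter.2 ⟨Finset.mem_erase.2 ⟨hvg', hv.1⟩, hvt⟩

end

/-- WSH: homogeneous weakly skew circuits give homogeneous skew programs. -/
theorem t_wsh : WSHStmt.{u, v} := by
  intro K _ σ G _ w D f hD hf
  obtain ⟨val, hval, rfl, hhom⟩ := hf
  let _ : Fintype D.toPre.V := D.fin
  have hcard : ((D.toPre).anc D.out).card ≤ D.size := by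
    have h1 := Finset.card_le_univ ((D.toPre).anc D.out)
    exact h1
  obtain ⟨l', h1, h2, h3⟩ := deriveP D.toPre val hval (fun p => Hom w p)
    (fun c v hc => by
      obtain ⟨m, hm⟩ := hc
      obtain ⟨m', hm'⟩ := hhom v
      exact ⟨m + m', hm.mul hm'⟩)
    (fun g a b hg => hD g a b hg) _ (D.toPre.anc D.out) rfl (D.toPre.anc_downClosed D.out) [1] 1
    (by simp)
  refine ⟨l', h1.1 LSLP.one, h1.2.2.trans ?_, ?_, ?_⟩
  · simp only [List.length_singleton]
    omega
  · have := h3 D.out (D.toPre.anc_openIn D.out)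
    rwa [one_mul] at this
  · refine h2 ?_
    intro p hp
    rw [List.mem_singleton] at hp
    subst hp
    exact ⟨0, isWeightedHomogeneous_one K w⟩

end Pool.EQD
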